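import Pool.Agent.Lib.FP95.Base

/-! Block BAIRE: a uniform variance bound on a piece of the set of extreme directions. -/

namespace Pool.Agent.Lib.FP95

open Set Pool.Agent.Lib.MP_eba68f_pr

namespace BAIRE

/-- the category argument on a closed set of reals -/
theorem cat {K : Set ℝ} (hK : IsClosed K) (h0 : (0 : ℝ) ∈ K) {e : ℝ} (he : 0 < e) (A : ℕ → Set ℝ)
    (h : ∀ s ∈ K, |s| < e → ∃ j, s ∈ A j) : ∃ s ∈ K, ∃ e' j, 0 < e' ∧ |s| + e' < e ∧
      ∀ y ∈ K, y ∈ Icc (s - e') (s + e') → y ∈ closure (A j) := by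
  have := hK.completeSpace_coe
  have h1 := dense_iUnion_interior_of_closed
    (f := fun j => ((↑) : K → ℝ) ⁻¹' ({y | e ≤ |y|} ∪ closure (A j)))
    (fun j => ((isClosed_le continuous_const continuous_abs).union isClosed_closure).preimage
      continuous_subtype_val)
    (eq_univ_of_forall fun y => (le_or_gt e |y.1|).elim (fun k => mem_iUnion.2 ⟨0, Or.inl k⟩)
      fun k => (h y y.2 k).elim fun j hj => mem_iUnion.2 ⟨j, Or.inr (subset_closure hj)⟩)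
  obtain ⟨s, hs, h2⟩ := h1.inter_open_nonempty {y : K | |y.1| < e}
    (isOpen_lt (continuous_abs.comp continuous_subtype_val) continuous_const)
    ⟨⟨0, h0⟩, by simpa using he⟩
  obtain ⟨j, hj⟩ := mem_iUnion.1 h2
  obtain ⟨r, hr, h3⟩ := Metric.mem_nhds_iff.1 (mem_interior_iff_mem_nhds.1 hj)
  have h4 : 0 < e - |s.1| := sub_pos.2 hs
  obtain ⟨d, hd, h5, h6⟩ : ∃ d, 0 < d ∧ d < r ∧ d < e - |s.1| :=
    ⟨min r (e - |s.1|) / 2, half_pos (lt_min hr h4), by linarith [min_le_left r (e - |s.1|)],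
      by linarith [min_le_right r (e - |s.1|)]⟩
  refine ⟨s, s.2, d, j, hd, by linarith, fun y hy h7 => ?_⟩
  have h8 : |y - s.1| ≤ d := abs_le.2 ⟨by linarith [h7.1], by linarith [h7.2]⟩
  refine (h3 (a := ⟨y, hy⟩) (h8.trans_lt h5)).resolve_left fun k : e ≤ |y| => ?_
  linarith [abs_sub_abs_le_abs_sub y s.1]

end BAIRE

open BAIRE

theorem bBAIRE (hCVX : St_CVX) (hDAT : St_DAT) : St_BAIRE := by
  intro p x e hn hx he h0 h
  obtain ⟨cv, hr, -⟩ := hDAT p x hn hx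
  have r0 := p.r_pos
  obtain ⟨s, hs, e', j, h1, h2, h3⟩ := cat (hCVX _ cv).2.1 h0 he
    (fun j => {s | ∀ N l : ℝ, 1 ≤ N → 0 ≤ l → l ≤ N →
      p.Vr (fl (l • uu x s)) ≤ j * N ^ (2 * (1 / 5 - 1 / 5 * (1 / ((j : ℝ) + 1))))}) fun s hs k => by
    obtain ⟨κ, C, -, k1, k2, k3⟩ := h s hs k
    obtain ⟨a, ha⟩ := exists_nat_one_div_lt (show 0 < 1 - 5 * κ by linarith)
    obtain ⟨b, hb⟩ := exists_nat_ge C
    refine ⟨a + b, fun N l h1 h2 h3 => (k3 N l h1 h2 h3).trans ?_⟩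
    have k4 := Nat.one_div_le_one_div (α := ℝ) (Nat.le_add_right a b)
    refine mul_le_mul (hb.trans (Nat.cast_le.2 (Nat.le_add_left b a)))
      (Real.rpow_le_rpow_of_exponent_le h1 (by linarith)) (by positivity) (Nat.cast_nonneg _)
  have k1 : 0 < 1 / ((j : ℝ) + 1) := Nat.one_div_pos_of_nat
  have k2 : 1 / ((j : ℝ) + 1) ≤ 1 := (div_le_one (by positivity)).2 (by simp)
  generalize 1 / ((j : ℝ) + 1) = u at h3 k1 k2
  obtain ⟨κ, hκ⟩ : ∃ κ, κ = 1 / 5 - 1 / 5 * u := ⟨_, rfl⟩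
  rw [← hκ] at h3
  have k3 : 0 ≤ κ := by linarith
  obtain ⟨c, c1, c2⟩ : ∃ c, 1 ≤ c ∧ p.r⁻¹ ≤ c := ⟨max _ _, le_max_left _ _, le_max_right _ _⟩
  refine ⟨s, e', κ, hs, h1, h2, k3, by linarith,
    2 * (j * c ^ (2 * κ)) + 2 * (p.b * (l1 (perp x) + 2)) ^ 2, by positivity, ?_⟩
  rintro d ⟨y, hy, lam, ky, -, rfl⟩ N l n1' l0 lN
  have a1 : 0 < p.f x y := r0.trans_le (hr y)
  have a2 : 1 ≤ c * N := one_le_mul_of_one_le_of_one_le c1 n1'
  have a3 : 0 ≤ l * (p.f x y)⁻¹ := by positivity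
  have a4 : l * (p.f x y)⁻¹ ≤ c * N := by
    rw [mul_comm]
    exact mul_le_mul ((inv_anti₀ r0 (hr y)).trans c2) lN l0 (by linarith)
  obtain ⟨z, hz, a5⟩ := Metric.mem_closure_iff.1 (h3 y ky hy) (c * N)⁻¹ (by positivity)
  have a6 := hz _ _ a2 a3 a4
  change p.Vr (fl (l • (p.f x y)⁻¹ • uu x y)) ≤ _
  rw [smul_smul]
  generalize l * (p.f x y)⁻¹ = t at a3 a4 a6 ⊢
  have a7 := n1_fl_sub (t • uu x y) (t • uu x z)
  have a8 : t • uu x y - t • uu x z = (t * (y - z)) • perp x := by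
    unfold uu
    module
  have a9 : |t * (y - z)| ≤ 1 := by
    rw [abs_mul, abs_of_nonneg a3, ← mul_inv_cancel₀ (zero_lt_one.trans_le a2).ne']
    exact mul_le_mul a4 a5.le (abs_nonneg _) (by linarith)
  rw [a8, l1_smul] at a7
  have b1 := mul_le_mul_of_nonneg_right a9 (l1_nonneg (perp x))
  have b2 : (p.b * n1 (fl (t • uu x y) - fl (t • uu x z))) ^ 2 ≤ (p.b * (l1 (perp x) + 2)) ^ 2 :=
    pow_le_pow_left₀ (mul_nonneg p.b_pos.le (n1_nonneg _))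
      (mul_le_mul_of_nonneg_left (by linarith) p.b_pos.le) 2
  have b3 := le_mul_of_one_le_right (sq_nonneg (p.b * (l1 (perp x) + 2)))
    (Real.one_le_rpow n1' (show 0 ≤ 2 * κ by linarith))
  rw [Real.mul_rpow (by linarith) (by linarith)] at a6
  linarith [p.Vr_le (fl (t • uu x y)) (fl (t • uu x z))]

end Pool.Agent.Lib.FP95
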