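import Pool.Agent.Lib.FP95.Base

/-! Block CAP: capped weights are smaller, and cheap inside the box. -/

namespace Pool.Agent.Lib.FP95

open Pool.Agent.Lib.MP_eba68f_pr SimpleGraph
open scoped NNReal

namespace CAP

lemma one (p : Par) {lev : ℝ≥0} {L : ℕ} {k : V} (τ : Cfg) (hr : p.r ≤ lev) {u v : V}
    (hu : u ∈ Q L k) (hv : v ∈ Q L k) (h : G.Adj u v) :
    p.T (cap lev (EQ L k) τ) u v ≤ lev := by
  refine (p.T_le_LW _ (Walk.cons h Walk.nil)).trans ?_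
  have he : s(u, v) ∈ EQ L k := fun z hz => by
    rcases Sym2.mem_iff.1 hz with rfl | rfl <;> assumption
  simp only [Walk.edges_cons, Walk.edges_nil, Par.LW_cons, Par.LW_nil, add_zero, cap, if_pos he,
    Par.w]
  exact max_le hr ((min_le_right _ _).trans (NNReal.coe_le_coe.2 (min_le_right _ _)))

lemma mem {L : ℕ} {k u : V} : u ∈ Q L k ↔
    ((k 0 - 1) * (L : ℤ) ≤ u 0 ∧ u 0 < (k 0 + 2) * (L : ℤ)) ∧
      ((k 1 - 1) * (L : ℤ) ≤ u 1 ∧ u 1 < (k 1 + 2) * (L : ℤ)) := Fin.forall_fin_two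

lemma next {L : ℕ} {k u v : V} (hu : u ∈ Q L k) (hv : v ∈ Q L k) {n : ℕ}
    (h : (v 0 - u 0).natAbs + (v 1 - u 1).natAbs = n + 1) :
    ∃ w ∈ Q L k, G.Adj u w ∧ (v 0 - w 0).natAbs + (v 1 - w 1).natAbs = n := by
  obtain ⟨⟨a1, a2⟩, a3, a4⟩ := mem.1 hu
  obtain ⟨⟨b1, b2⟩, b3, b4⟩ := mem.1 hv
  have key : ∀ x y : ℤ, ((k 0 - 1) * (L : ℤ) ≤ x ∧ x < (k 0 + 2) * (L : ℤ)) →
      ((k 1 - 1) * (L : ℤ) ≤ y ∧ y < (k 1 + 2) * (L : ℤ)) → pt x y ∈ Q L k :=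
    fun x y hx hy => mem.2 ⟨hx, hy⟩
  rcases lt_trichotomy (u 0) (v 0) with h0 | h0 | h0
  · exact ⟨pt (u 0 + 1) (u 1), key _ _ ⟨by linarith, by linarith⟩ ⟨a3, a4⟩,
      adj_iff.2 (by simp), by simp only [pt_zero, pt_one]; omega⟩
  · rcases lt_trichotomy (u 1) (v 1) with h1 | h1 | h1
    · exact ⟨pt (u 0) (u 1 + 1), key _ _ ⟨a1, a2⟩ ⟨by linarith, by linarith⟩,
        adj_iff.2 (by simp), by simp only [pt_zero, pt_one]; omega⟩
    · omega
    · exact ⟨pt (u 0) (u 1 - 1), key _ _ ⟨a1, a2⟩ ⟨by linarith, by linarith⟩,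
        adj_iff.2 (by simp), by simp only [pt_zero, pt_one]; omega⟩
  · exact ⟨pt (u 0 - 1) (u 1), key _ _ ⟨by linarith, by linarith⟩ ⟨a3, a4⟩,
      adj_iff.2 (by simp), by simp only [pt_zero, pt_one]; omega⟩

lemma aux (p : Par) {lev : ℝ≥0} {L : ℕ} {k : V} (τ : Cfg) (hr : p.r ≤ lev) {v : V}
    (hv : v ∈ Q L k) (n : ℕ) : ∀ u ∈ Q L k, (v 0 - u 0).natAbs + (v 1 - u 1).natAbs = n →
      p.T (cap lev (EQ L k) τ) u v ≤ lev * n := by
  induction n with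
  | zero =>
    intro u _ h
    obtain rfl : u = v := vext (by omega) (by omega)
    simp [p.T_self]
  | succ n ih =>
    intro u hu h
    obtain ⟨w, hw, ha, hn⟩ := next hu hv h
    have h1 := p.T_tri (cap lev (EQ L k) τ) u w v
    have h2 := one p τ hr hu hw ha
    have h3 := ih w hw hn
    push_cast
    linarith

end CAP

theorem bCAP : St_CAP := by
  intro p lev L k τ hr
  refine ⟨fun u v => p.T_mono u v fun e => ?_, fun u hu v hv => ?_⟩
  · unfold cap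
    split_ifs
    · exact min_le_left _ _
    · exact le_rfl
  · refine (CAP.aux p τ hr hv _ u hu rfl).trans (le_of_eq ?_)
    simp [n1, Nat.cast_natAbs]

end Pool.Agent.Lib.FP95
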