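import Pool.Agent.Lib.FP95.Base

/-! Block CDET: the first exit of a geodesic from a strip. -/

namespace Pool.Agent.Lib.FP95

open Pool.Agent.Lib.MP_eba68f_pr

namespace CDET

variable {p : Par} {R : ℝ} {d : Dat}

lemma D0 (n : p.Norm) (g : p.Good R d) : p.D d 0 = 0 := by
  have := n.D_a g (le_refl (0 : ℝ))
  rwa [zero_smul] at this

lemma D_near (n : p.Norm) (g : p.Good R d) (v w : R2) {c t : ℝ} (hc : 0 ≤ c)
    (h : l1 (v - w - c • d.a) ≤ t) : p.D d v ≤ p.D d w + 2 * p.b * t := by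
  have h1 := n.D_move g v w hc
  have h2 := mul_le_mul_of_nonneg_left h (by linarith [p.b_pos] : 0 ≤ 2 * p.b)
  linarith

lemma size (g : p.Good R d) {u y L : ℝ} (hu : |u| ≤ 2 * L) (hy : |y| ≤ L) :
    n1 (fl (u • d.a + y • d.n)) ≤ 3 * L * R + 2 := by
  have h1 := n1_fl_le (u • d.a + y • d.n)
  have h2 := l1_add_le (u • d.a) (y • d.n)
  rw [l1_smul, l1_smul] at h2
  have hL : 0 ≤ L := (abs_nonneg y).trans hy
  have h3 : |u| * l1 d.a ≤ 2 * L * R := mul_le_mul hu g.a_le (l1_nonneg _) (by linarith)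
  have h4 : |y| * l1 d.n ≤ L * R := mul_le_mul hy g.n_le (l1_nonneg _) hL
  linarith

lemma errX (m : ℝ) : l1 ((2 * m) • d.a - up (fl (m • d.a) + fl (m • d.a))) ≤ 4 := by
  have h1 := l1_fl (m • d.a)
  have h2 := l1_add_le (up (fl (m • d.a)) - m • d.a) (up (fl (m • d.a)) - m • d.a)
  rw [l1_sub_comm, up_add, show up (fl (m • d.a)) + up (fl (m • d.a)) - (2 * m) • d.a =
    up (fl (m • d.a)) - m • d.a + (up (fl (m • d.a)) - m • d.a) by module]
  linarith

lemma first (g : p.Good R d) {H : ℝ} (hH : 0 ≤ H) {τ : Cfg} {X : V} (h : τ ∈ p.Exit d X H) :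
    ∃ N Z k, p.Geo τ 0 X N Z ∧ k ≤ N ∧ H < |d.η (up (Z k))| ∧ |d.η (up (Z k))| ≤ H + R := by
  classical
  obtain ⟨N, Z, hZ, hk⟩ := h
  obtain ⟨h1, h2⟩ := Nat.find_spec hk
  refine ⟨N, Z, Nat.find hk, hZ, h1, h2, ?_⟩
  have h0 : Nat.find hk ≠ 0 := by
    intro h0
    rw [h0, hZ.zero, up_zero, map_zero, abs_zero] at h2
    linarith
  obtain ⟨j, hj⟩ := Nat.exists_eq_succ_of_ne_zero h0
  have h3 := Nat.find_min hk (show j < Nat.find hk by omega)
  rw [hj] at h1 ⊢
  have h4 : |d.η (up (Z j))| ≤ H := by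
    by_contra h4
    exact h3 ⟨by omega, not_le.1 h4⟩
  have h5 := g.η_le (up (Z (j + 1) - Z j))
  rw [← n1_eq, n1_adj (hZ.step j (by omega)), up_sub, map_sub] at h5
  have h6 := abs_sub_abs_le_abs_sub (d.η (up (Z (j + 1)))) (d.η (up (Z j)))
  show |d.η (up (Z (j + 1)))| ≤ H + R
  linarith

/-- The signed height. -/
def sy (H : ℝ) (sg : Bool) : ℝ := if sg then H else -H

lemma abs_sy {H : ℝ} (hH : 0 ≤ H) (sg : Bool) : |sy H sg| = H := by
  cases sg <;> simp [sy, abs_of_nonneg hH]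

lemma phi_sy (L H : ℝ) (sg : Bool) : p.phi d L H =
    p.D d (L • d.a + sy H sg • d.n) + p.D d (L • d.a - sy H sg • d.n) := by
  cases sg
  · simp only [sy, Par.phi, Bool.false_eq_true, if_false, neg_smul, sub_neg_eq_add]
    rw [add_comm, sub_eq_add_neg]
  · simp only [sy, Par.phi, if_true]

lemma side {H R e : ℝ} (h1 : H < |e|) (h2 : |e| ≤ H + R) : ∃ sg, |sy H sg - e| ≤ R := by
  rcases le_total 0 e with h | h
  · rw [abs_of_nonneg h] at h1 h2
    exact ⟨true, abs_le.2 ⟨by simp only [sy, if_true]; linarith,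
      by simp only [sy, if_true]; linarith⟩⟩
  · rw [abs_of_nonpos h] at h1 h2
    exact ⟨false, abs_le.2 ⟨by simp only [sy, Bool.false_eq_true, if_false]; linarith,
      by simp only [sy, Bool.false_eq_true, if_false]; linarith⟩⟩

lemma off (g : p.Good R d) (x : R2) {t : ℝ} (ht : |t| ≤ R) :
    l1 (up (fl x) - x + t • d.n) ≤ 2 + R * R := by
  have h1 := l1_add_le (up (fl x) - x) (t • d.n)
  rw [l1_smul] at h1
  have h2 : |t| * l1 d.n ≤ R * R :=
    mul_le_mul ht g.n_le (l1_nonneg _) (by linarith [g.one_le])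
  linarith [l1_fl x]

end CDET

open CDET in
theorem bCDET : St_CDET := by
  intro p R n
  refine ⟨max 1 ((2 * R + 4) + (3 * p.R1 R * R + 2) + p.b / p.r * (2 * R + 4) + 16 * p.b +
    2 * p.b * (2 + R * R)), le_max_left _ _, fun d g M m H hM hm hmM hH hHL X hX => ?_⟩
  have hc := le_max_right 1 ((2 * R + 4) + (3 * p.R1 R * R + 2) + p.b / p.r * (2 * R + 4) +
    16 * p.b + 2 * p.b * (2 + R * R))
  generalize max 1 ((2 * R + 4) + (3 * p.R1 R * R + 2) + p.b / p.r * (2 * R + 4) +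
    16 * p.b + 2 * p.b * (2 + R * R)) = c at hc ⊢
  have hR := g.one_le
  have hb := p.b_pos
  have hR1 := g.R1_ge
  have a1 : 0 ≤ 2 * R + 4 := by linarith
  have a2 : 0 ≤ 3 * p.R1 R * R + 2 := by positivity
  have a3 : 0 ≤ p.b / p.r * (2 * R + 4) := mul_nonneg (zero_le_one.trans p.one_le_ratio) a1
  have a4 : 0 ≤ 2 * p.b * (2 + R * R) := by positivity
  have hM0 : 0 ≤ M := by linarith
  have hcM := mul_le_mul_of_nonneg_right (show (2 * R + 4) + (3 * p.R1 R * R + 2) +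
    p.b / p.r * (2 * R + 4) ≤ c by linarith) hM0
  have b1 := mul_nonneg a1 hM0
  have b2 := mul_nonneg a2 hM0
  have b3 := mul_nonneg a3 hM0
  obtain ⟨L, hL⟩ : ∃ L, L = p.R1 R * M := ⟨_, rfl⟩
  have hLm : m ≤ L := by rw [hL]; nlinarith
  have hL0 : 0 ≤ L := hm.trans hLm
  have hz : ∀ (u : ℝ) (sg : Bool), |u| ≤ 2 * L →
      n1 (fl (u • d.a + sy H sg • d.n)) ≤ (3 * p.R1 R * R + 2) * M := fun u sg hu => by
    have := size g hu (show |sy H sg| ≤ L by rw [abs_sy hH, hL]; exact hHL)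
    rw [hL] at this
    linarith
  have hp : |2 * L| ≤ 2 * L := (abs_of_nonneg (by linarith)).le
  have hn : |-(2 * L)| ≤ 2 * L := by rw [abs_neg]; exact hp
  have hXn : n1 X ≤ (2 * R + 4) * M := by rw [hX]; exact g.n1_X hM hm hmM
  have hXe : l1 ((2 * m) • d.a - up X) ≤ 4 := by rw [hX]; exact errX m
  refine ⟨fun sg => fl ((2 * L) • d.a + sy H sg • d.n),
    fun sg => fl ((-(2 * L)) • d.a + sy H sg • d.n), by linarith, ?_, fun sg => ⟨?_, ?_, ?_⟩,
    fun τ hτ => ?_⟩
  · have := D_near n g (up X) 0 (show 0 ≤ 2 * m by linarith) (t := 4)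
      (by rw [sub_zero, l1_sub_comm]; exact hXe)
    rw [D0 n g] at this
    linarith
  · linarith [hz _ sg hp]
  · linarith [hz _ sg hn, n1_sub_le X (fl ((-(2 * L)) • d.a + sy H sg • d.n))]
  · rw [← hL, phi_sy _ _ sg]
    have h1 := D_near n g ((4 * L) • d.a + sy H sg • d.n)
      (up (fl ((2 * L) • d.a + sy H sg • d.n))) (show 0 ≤ 2 * L by linarith) (t := 2) (by
        have := l1_fl ((2 * L) • d.a + sy H sg • d.n)
        rw [l1_sub_comm] at this
        rwa [show (4 * L) • d.a + sy H sg • d.n - up (fl ((2 * L) • d.a + sy H sg • d.n)) -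
          (2 * L) • d.a = (2 * L) • d.a + sy H sg • d.n -
            up (fl ((2 * L) • d.a + sy H sg • d.n)) by module])
    have h2 := D_near n g ((4 * L) • d.a - sy H sg • d.n)
      (up (X - fl ((-(2 * L)) • d.a + sy H sg • d.n))) (show 0 ≤ 2 * L - 2 * m by linarith)
      (t := 6) (by
        have e1 := l1_fl ((-(2 * L)) • d.a + sy H sg • d.n)
        have e2 := l1_add_le (up (fl ((-(2 * L)) • d.a + sy H sg • d.n)) -
          ((-(2 * L)) • d.a + sy H sg • d.n)) ((2 * m) • d.a - up X)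
        rw [up_sub, show (4 * L) • d.a - sy H sg • d.n -
          (up X - up (fl ((-(2 * L)) • d.a + sy H sg • d.n))) - (2 * L - 2 * m) • d.a =
            up (fl ((-(2 * L)) • d.a + sy H sg • d.n)) - ((-(2 * L)) • d.a + sy H sg • d.n) +
              ((2 * m) • d.a - up X) by module]
        linarith)
    linarith
  · obtain ⟨N, Z, k, hZ, hk, h1, h2⟩ := first g hH hτ
    obtain ⟨sg, hs⟩ := side h1 h2
    obtain ⟨s1, s2, -⟩ := g.strip hM hm hmM (hX ▸ hZ) hk
    rw [← hL, abs_le] at s2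
    have hd := g.dec (up (Z k))
    obtain ⟨s, hs'⟩ : ∃ s, s = d.σ (up (Z k)) := ⟨_, rfl⟩
    obtain ⟨e, he⟩ : ∃ e, e = d.η (up (Z k)) := ⟨_, rfl⟩
    rw [← hs'] at s2 hd
    rw [← he] at hs hd
    refine ⟨sg, Z k, by linarith, ?_, ?_, ?_, ?_, ?_⟩
    · linarith [hz _ sg hp, n1_sub_le (fl ((2 * L) • d.a + sy H sg • d.n)) (Z k)]
    · linarith [hz _ sg hn, n1_sub_le (Z k) (fl ((-(2 * L)) • d.a + sy H sg • d.n))]
    · have := D_near n g (up (fl ((2 * L) • d.a + sy H sg • d.n) - Z k)) 0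
        (show 0 ≤ 2 * L - s by linarith [s2.2]) (t := 2 + R * R) (by
          have := off g ((2 * L) • d.a + sy H sg • d.n) hs
          rwa [up_sub, hd, show up (fl ((2 * L) • d.a + sy H sg • d.n)) - (s • d.a + e • d.n) -
            0 - (2 * L - s) • d.a = up (fl ((2 * L) • d.a + sy H sg • d.n)) -
              ((2 * L) • d.a + sy H sg • d.n) + (sy H sg - e) • d.n by module])
      rw [D0 n g] at this
      linarith
    · have := D_near n g (up (Z k - fl ((-(2 * L)) • d.a + sy H sg • d.n))) 0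
        (show 0 ≤ s + 2 * L by linarith [s2.1]) (t := 2 + R * R) (by
          have := off g ((-(2 * L)) • d.a + sy H sg • d.n) hs
          rw [← l1_neg] at this
          rwa [up_sub, hd, show s • d.a + e • d.n -
            up (fl ((-(2 * L)) • d.a + sy H sg • d.n)) - 0 - (s + 2 * L) • d.a =
              -(up (fl ((-(2 * L)) • d.a + sy H sg • d.n)) -
                ((-(2 * L)) • d.a + sy H sg • d.n) + (sy H sg - e) • d.n) by module])
      rw [D0 n g] at this
      linarith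
    · linarith [p.T_tri τ 0 (Z k) (fl ((2 * L) • d.a + sy H sg • d.n)),
        p.T_tri τ (fl ((-(2 * L)) • d.a + sy H sg • d.n)) (Z k) X, hZ.split hk]

end Pool.Agent.Lib.FP95
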