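import Pool.Agent.Lib.FP95.Base

namespace Pool.Agent.Lib.FP95

theorem bCHAIN (hIL : St_IL) (hUB : St_UB) : St_CHAIN := by
  intro p R κ θ₀ S hN hG hκ hκθ hθ hV hT
  have hθ0 : 0 < θ₀ := hκ.trans_lt hκθ
  set ζ : ℝ := (θ₀ - κ) / 4 with hζ
  have hζ0 : 0 < ζ := by rw [hζ]; linarith
  have hζ1 : ζ ≤ 1 / 2 := by rw [hζ]; linarith
  set δ : ℝ := θ₀ * ζ / 2 with hδ
  have hδ0 : 0 < δ := by positivity
  have key : ∀ j : ℕ, p.Tail (S j) (max θ₀ (1 - j * δ)) := by
    intro j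
    induction j with
    | zero => simpa [max_eq_right hθ] using (hUB p R (S 0) hN (hG 0)).1
    | succ j ih =>
      set θ : ℝ := max θ₀ (1 - j * δ) with hθd
      have h1 : θ₀ ≤ θ := le_max_left _ _
      have h2 : θ ≤ 1 := max_le hθ (by have : (0 : ℝ) ≤ j * δ := by positivity
                                       linarith)
      obtain ⟨hU, hL⟩ := hT j θ h1 h2 ih
      have h3 : θ * (1 - ζ) < θ - δ := by nlinarith [mul_pos hθ0 hζ0]
      have h4 : κ + 2 * ζ < θ₀ := by rw [hζ]; linarith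
      have h5 : θ - δ ≤ max θ₀ (1 - ((j + 1 : ℕ) : ℝ) * δ) := by
        rcases max_choice θ₀ (1 - j * δ) with h | h
        · rw [hθd, h]; linarith [le_max_left θ₀ (1 - ((j + 1 : ℕ) : ℝ) * δ)]
        · rw [hθd, h]
          refine le_trans (le_of_eq ?_) (le_max_right _ _)
          push_cast; ring
      have hM := hIL p R θ κ ζ (max (θ * (1 - ζ)) (κ + 2 * ζ)) (S (j + 1)) hN (hG _)
        (by linarith) h2 hκ hζ0 hζ1 (le_max_left _ _) (le_max_right _ _)
        (max_lt (by linarith) (by linarith)) hU hL (hV _)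
      exact (hUB p R (S (j + 1)) hN (hG _)).2 _ _ (le_max_of_le_right (by linarith))
        (max_lt (h3.trans_le h5) (h4.trans_le (le_max_left _ _))) hM
  obtain ⟨J, hJ⟩ := exists_nat_gt (1 / δ)
  have h := key J
  rw [div_lt_iff₀ hδ0] at hJ
  rw [max_eq_left (by linarith)] at h
  exact ⟨J + 1, hT J θ₀ le_rfl hθ h⟩

end Pool.Agent.Lib.FP95
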