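import Pool.Agent.Lib.FP95.Base

/-! Chernoff bound for independent bounded variables. -/

namespace Pool.Agent.Lib.FP95

open MeasureTheory ProbabilityTheory Filter Topology Pool.Agent.Lib.MP_eba68f_pr
open scoped NNReal ENNReal

namespace CHER

lemma exp_le {y : ℝ} (h0 : 0 ≤ y) (h1 : y ≤ 1) : Real.exp y ≤ 1 + 2 * y := by
  have h := Real.abs_exp_sub_one_le (x := y) (by rwa [abs_of_nonneg h0])
  rw [abs_of_nonneg h0] at h
  linarith [le_abs_self (Real.exp y - 1)]

lemma nice_prod {ι : Type} (s : Finset ι) {f : ι → Cfg → ℝ} (hf : ∀ i ∈ s, Nice (f i)) :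
    Nice fun τ => ∏ i ∈ s, f i τ := by
  classical
  induction s using Finset.induction_on with
  | empty => simpa using Nice.const 1
  | insert a s ha ih =>
    simp only [Finset.prod_insert ha]
    exact (hf a (Finset.mem_insert_self a s)).mul
      (ih fun i hi => hf i (Finset.mem_insert_of_mem hi))

end CHER

theorem bCHER (hIND : St_IND) : St_CHER := by
  intro p ι s Y A M m₁ t hA hm hd hdis hM hY hI
  have h01 : ∀ i ∈ s, ∀ τ, 0 ≤ Y i τ / M ∧ Y i τ / M ≤ 1 := fun i hi τ =>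
    ⟨div_nonneg (hY i hi τ).1 hM.le, (div_le_one hM).2 (hY i hi τ).2⟩
  have hn : ∀ i ∈ s, Nice fun τ => Real.exp (Y i τ / M) := fun i hi =>
    ⟨((hm i hi).div_const M).exp, Real.exp 1, fun τ => by
      rw [abs_of_pos (Real.exp_pos _)]; exact Real.exp_le_exp.2 (h01 i hi τ).2⟩
  have hnY : ∀ i ∈ s, Nice (Y i) := fun i hi =>
    ⟨hm i hi, M, fun τ => by rw [abs_of_nonneg (hY i hi τ).1]; exact (hY i hi τ).2⟩
  have hdep : ∀ i ∈ s, DependsOn (fun τ => Real.exp (Y i τ / M)) (A i) := fun i hi τ τ' h => by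
    show Real.exp (Y i τ / M) = Real.exp (Y i τ' / M)
    rw [hd i hi h]
  have hone : ∀ i ∈ s, ∫ τ, Real.exp (Y i τ / M) ∂p.P ≤ Real.exp (2 * m₁ / M) := fun i hi => by
    have hi2 : Integrable (fun τ => 2 / M * Y i τ) p.P := ((hnY i hi).int p.P).const_mul _
    have h1 : ∫ τ, Real.exp (Y i τ / M) ∂p.P ≤ ∫ τ, (1 + 2 / M * Y i τ) ∂p.P :=
      integral_mono ((hn i hi).int p.P) ((integrable_const 1).add hi2) fun τ => by
        have := CHER.exp_le (h01 i hi τ).1 (h01 i hi τ).2
        have e : 2 / M * Y i τ = 2 * (Y i τ / M) := by ring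
        show Real.exp (Y i τ / M) ≤ 1 + 2 / M * Y i τ
        rw [e]; exact this
    rw [integral_add (integrable_const 1) hi2, integral_const_mul, integral_const] at h1
    have h2 : 2 / M * ∫ τ, Y i τ ∂p.P ≤ 2 / M * m₁ :=
      mul_le_mul_of_nonneg_left (hI i hi) (by positivity)
    have h3 := Real.add_one_le_exp (2 * m₁ / M)
    have e : 2 / M * m₁ = 2 * m₁ / M := by ring
    simp only [probReal_univ, smul_eq_mul, mul_one] at h1
    linarith
  have hprod : ∫ τ, ∏ i ∈ s, Real.exp (Y i τ / M) ∂p.P ≤ Real.exp (s.card * (2 * m₁ / M)) := by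
    rw [hIND p ι s _ A hA hn hdep hdis, Real.exp_nat_mul, ← Finset.prod_const]
    exact Finset.prod_le_prod (fun i _ => integral_nonneg fun τ => (Real.exp_pos _).le) hone
  have hmk := p.markov (CHER.nice_prod s hn)
    (fun τ => Finset.prod_nonneg fun i _ => (Real.exp_pos _).le)
    (Real.exp_pos (s.card * (2 * m₁ / M) + t))
  refine (p.pr_mono fun τ hτ => ?_).trans (hmk.trans ?_)
  · have hτ' : 2 * (s.card * m₁) + M * t < ∑ i ∈ s, Y i τ := hτ
    show Real.exp (s.card * (2 * m₁ / M) + t) ≤ ∏ i ∈ s, Real.exp (Y i τ / M)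
    rw [← Real.exp_sum, ← Finset.sum_div, Real.exp_le_exp, le_div_iff₀ hM]
    have e : (s.card * (2 * m₁ / M) + t) * M = 2 * (s.card * m₁) + M * t := by
      field_simp
    linarith
  · rw [div_le_iff₀ (Real.exp_pos _), ← Real.exp_add]
    refine hprod.trans (le_of_eq ?_)
    congr 1
    ring

end Pool.Agent.Lib.FP95
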