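import Pool.Agent.Lib.FP95.Blue

/-! A lattice walk with displacement `2 x` has a chord equal to `x`. -/

namespace Pool.Agent.Lib.FP95

open Pool.Agent.Lib.MP_eba68f_pr

namespace CHORD

/-- crossing indicator of the ray `{y = 1/2, x ≥ 1/2}` -/
def cc (p q : V) : ℤ := if p 0 = q 0 ∧ 1 ≤ p 0 ∧ p 1 + q 1 = 1 ∧ (p 1 = 0 ∨ p 1 = 1) then 1 else 0

/-- side of a nonzero point -/
def sd (p : V) : ℤ := if 1 ≤ p 1 ∨ (p 1 = 0 ∧ p 0 < 0) then 1 else 0

theorem nz {p : V} (h : p ≠ 0) : ¬ (p 0 = 0 ∧ p 1 = 0) := fun k => h <| by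
  funext i
  fin_cases i
  · exact k.1
  · exact k.2

/-- integer form of `cc` -/
def ci (a b c d : ℤ) : ℤ := if a = c ∧ 1 ≤ a ∧ b + d = 1 ∧ (b = 0 ∨ b = 1) then 1 else 0

theorem ci_h {a b c d : ℤ} (h : b = d) : ci a b c d = 0 := if_neg (by omega)

theorem celli (u v e0 e1 f0 f1 : ℤ)
    (he : (e0 = 1 ∧ e1 = 0) ∨ (e0 = -1 ∧ e1 = 0) ∨ (e0 = 0 ∧ e1 = 1) ∨ (e0 = 0 ∧ e1 = -1))
    (hf : (f0 = 1 ∧ f1 = 0) ∨ (f0 = -1 ∧ f1 = 0) ∨ (f0 = 0 ∧ f1 = 1) ∨ (f0 = 0 ∧ f1 = -1))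
    (k1 : ¬ (u = 0 ∧ v = 0)) (k2 : ¬ (u + e0 = 0 ∧ v + e1 = 0))
    (k3 : ¬ (u + e0 - f0 = 0 ∧ v + e1 - f1 = 0)) (k4 : ¬ (u - f0 = 0 ∧ v - f1 = 0)) :
    (ci u v (u + e0) (v + e1) + ci (u + e0) (v + e1) (u + e0 - f0) (v + e1 - f1) +
      ci (u - f0) (v - f1) (u + e0 - f0) (v + e1 - f1) + ci u v (u - f0) (v - f1)) % 2 = 0 := by
  rcases he with ⟨rfl, rfl⟩ | ⟨rfl, rfl⟩ | ⟨rfl, rfl⟩ | ⟨rfl, rfl⟩ <;>
  rcases hf with ⟨rfl, rfl⟩ | ⟨rfl, rfl⟩ | ⟨rfl, rfl⟩ | ⟨rfl, rfl⟩ <;>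
  simp only [add_zero, sub_zero, ci_h rfl, zero_add, Int.zero_emod] <;>
  unfold ci <;> split_ifs <;> omega

theorem stp {a a' : V} (ha : G.Adj a a') :
    (a' 0 - a 0 = 1 ∧ a' 1 - a 1 = 0) ∨ (a' 0 - a 0 = -1 ∧ a' 1 - a 1 = 0) ∨
      (a' 0 - a 0 = 0 ∧ a' 1 - a 1 = 1) ∨ (a' 0 - a 0 = 0 ∧ a' 1 - a 1 = -1) := by
  rw [adj_iff] at ha
  omega

theorem cell {a a' b b' x : V} (ha : G.Adj a a') (hb : G.Adj b b') (h1 : b - a - x ≠ 0)
    (h2 : b' - a - x ≠ 0) (h3 : b' - a' - x ≠ 0) (h4 : b - a' - x ≠ 0) :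
    (cc (b - a - x) (b' - a - x) + cc (b' - a - x) (b' - a' - x) + cc (b - a' - x) (b' - a' - x) +
      cc (b - a - x) (b - a' - x)) % 2 = 0 := by
  have e1 : ∀ i, b i - a i - x i + (b' i - b i) = b' i - a i - x i := fun i => by ring
  have e2 : ∀ i, b' i - a i - x i - (a' i - a i) = b' i - a' i - x i := fun i => by ring
  have e3 : ∀ i, b i - a i - x i - (a' i - a i) = b i - a' i - x i := fun i => by ring
  have h := celli (b 0 - a 0 - x 0) (b 1 - a 1 - x 1) (b' 0 - b 0) (b' 1 - b 1) (a' 0 - a 0)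
    (a' 1 - a 1) (stp hb) (stp ha)
  rw [e1, e1, e2, e2, e3, e3] at h
  exact h (nz h1) (nz h2) (nz h3) (nz h4)

theorem diag (a a' x : V) :
    cc (a - a - x) (a' - a - x) = cc (a' - a - x) (a' - a' - x) := by
  simp only [cc, Pi.sub_apply]
  split_ifs <;> omega

theorem side {p q : V} (a a' : V) (ha : G.Adj a a') (hq : q - p = a' - a) (h1 : p ≠ 0)
    (h2 : q ≠ 0) : (cc p q + cc (-p) (-q) + sd p + sd q) % 2 = 0 := by
  have k1 := nz h1
  have k2 := nz h2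
  have e0 := congrFun hq 0
  have e1 := congrFun hq 1
  rw [adj_iff] at ha
  simp only [cc, sd, Pi.sub_apply, Pi.neg_apply] at *
  split_ifs <;> omega

theorem ends {x : V} (h : x ≠ 0) : sd (-x) + sd x = 1 := by
  have k := nz h
  simp only [sd, Pi.neg_apply]
  split_ifs <;> omega

end CHORD

open CHORD Finset in
theorem bCHORD : St_CHORD := by
  intro N Z x hZ hN
  by_contra hc
  have hne : ∀ i j, i ≤ j → j ≤ N → Z j - Z i - x ≠ 0 := fun i j hij hj h =>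
    hc ⟨i, j, hij, hj, sub_eq_zero.1 h⟩
  have h1 : ∀ j, j ≤ N → (∑ t ∈ range j, cc (Z t - Z 0 - x) (Z (t + 1) - Z 0 - x) +
      ∑ i ∈ range j, cc (Z j - Z i - x) (Z j - Z (i + 1) - x)) % 2 = 0 := by
    intro j
    induction j with
    | zero => intro _; simp
    | succ j ih =>
      intro hj
      have h2 : ∀ k, k ≤ j →
          (∑ i ∈ range k, cc (Z (j + 1) - Z i - x) (Z (j + 1) - Z (i + 1) - x) +
            ∑ i ∈ range k, cc (Z j - Z i - x) (Z j - Z (i + 1) - x) +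
            cc (Z j - Z 0 - x) (Z (j + 1) - Z 0 - x) +
            cc (Z j - Z k - x) (Z (j + 1) - Z k - x)) % 2 = 0 := by
        intro k
        induction k with
        | zero => intro _; simp only [range_zero, sum_empty]; omega
        | succ k ihk =>
          intro hk
          have e1 := ihk (by omega)
          have e2 := cell (x := x) (hZ k (by omega)) (hZ j (by omega))
            (hne k j (by omega) (by omega)) (hne k (j + 1) (by omega) hj)
            (hne (k + 1) (j + 1) (by omega) hj) (hne (k + 1) j hk (by omega))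
          rw [sum_range_succ, sum_range_succ]
          omega
      have e1 := ih (by omega)
      have e2 := h2 j le_rfl
      have e3 := diag (Z j) (Z (j + 1)) x
      rw [sum_range_succ, sum_range_succ]
      omega
  have h3 : ∀ i, Z N - Z i - x = -(Z i - Z 0 - x) := fun i => by
    have : Z N = Z 0 + (x + x) := by rw [← hN]; abel
    rw [this]; abel
  have h4 : ∀ k, k ≤ N → (∑ t ∈ range k, cc (Z t - Z 0 - x) (Z (t + 1) - Z 0 - x) +
      ∑ i ∈ range k, cc (Z N - Z i - x) (Z N - Z (i + 1) - x) +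
      sd (Z 0 - Z 0 - x) + sd (Z k - Z 0 - x)) % 2 = 0 := by
    intro k
    induction k with
    | zero => intro _; simp only [range_zero, sum_empty]; omega
    | succ k ih =>
      intro hk
      have e1 := ih (by omega)
      have e2 := side (p := Z k - Z 0 - x) (q := Z (k + 1) - Z 0 - x) (Z k) (Z (k + 1))
        (hZ k (by omega)) (by abel) (hne 0 k (by omega) (by omega)) (hne 0 (k + 1) (by omega) hk)
      rw [sum_range_succ, sum_range_succ, h3 k, h3 (k + 1)]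
      omega
  have e1 := h1 N le_rfl
  have e2 := h4 N le_rfl
  have e3 : Z 0 - Z 0 - x = -x := by abel
  have e4 : Z N - Z 0 - x = x := by rw [hN]; abel
  have e5 : x ≠ 0 := e4 ▸ hne 0 N (Nat.zero_le _) le_rfl
  have e6 := ends e5
  rw [e3, e4] at e2
  omega

end Pool.Agent.Lib.FP95
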