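import Pool.Agent.Lib.FP95.Base

/-! Row CNT: lattice points in a parallelogram. -/

namespace Pool.Agent.Lib.FP95

open Pool.Agent.Lib.MP_eba68f_pr

namespace CNT

lemma floor_close {R s t : ℝ} (hR : 1 ≤ R) (h : ⌊2 * R * s⌋ = ⌊2 * R * t⌋) :
    |s - t| * R < 1 / 2 := by
  have h1 := Int.abs_sub_lt_one_of_floor_eq_floor h
  rw [← mul_sub, abs_mul, abs_of_pos (by positivity : (0 : ℝ) < 2 * R)] at h1
  linarith

lemma card_Icc_le {R L : ℝ} (hR : 1 ≤ R) (hL : 1 ≤ L) :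
    ((Finset.Icc ⌊-(2 * R * L)⌋ ⌊2 * R * L⌋).card : ℝ) ≤ 6 * R * L := by
  have hRL : 1 ≤ R * L := one_le_mul_of_one_le_of_one_le hR hL
  have hle : ⌊-(2 * R * L)⌋ ≤ ⌊2 * R * L⌋ + 1 := by
    have : ⌊-(2 * R * L)⌋ ≤ ⌊2 * R * L⌋ := Int.floor_le_floor (by linarith)
    omega
  have hc := Int.card_Icc_of_le _ _ hle
  have hc' : ((Finset.Icc ⌊-(2 * R * L)⌋ ⌊2 * R * L⌋).card : ℝ)
      = (⌊2 * R * L⌋ : ℝ) + 1 - (⌊-(2 * R * L)⌋ : ℝ) := by exact_mod_cast hc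
  have h1 := Int.floor_le (2 * R * L)
  have h2 := Int.lt_floor_add_one (-(2 * R * L))
  rw [hc']
  linarith

lemma mem_Icc {R L s : ℝ} (hR : 1 ≤ R) (h : |s| ≤ L) :
    ⌊2 * R * s⌋ ∈ Finset.Icc ⌊-(2 * R * L)⌋ ⌊2 * R * L⌋ := by
  have h' := abs_le.1 h
  have hR' : (0 : ℝ) ≤ 2 * R := by linarith
  refine Finset.mem_Icc.2 ⟨Int.floor_le_floor ?_, Int.floor_le_floor ?_⟩
  · have := mul_le_mul_of_nonneg_left h'.1 hR'
    linarith
  · exact mul_le_mul_of_nonneg_left h'.2 hR'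

lemma inj {p : Par} {R : ℝ} {d : Dat} (g : p.Good R d) :
    Function.Injective fun z : V => (⌊2 * R * d.σ (up z)⌋, ⌊2 * R * d.η (up z)⌋) := by
  intro z z' h
  have h1 := floor_close g.one_le (congrArg Prod.fst h)
  have h2 := floor_close g.one_le (congrArg Prod.snd h)
  have hd := g.dec (up z - up z')
  rw [map_sub, map_sub] at hd
  have hl : l1 (up z - up z') < 1 := by
    rw [hd]
    refine (l1_add_le _ _).trans_lt ?_
    rw [l1_smul, l1_smul]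
    have a1 := mul_le_mul_of_nonneg_left g.a_le (abs_nonneg (d.σ (up z) - d.σ (up z')))
    have a2 := mul_le_mul_of_nonneg_left g.n_le (abs_nonneg (d.η (up z) - d.η (up z')))
    linarith
  have e0 : |((z 0 - z' 0 : ℤ) : ℝ)| + |((z 1 - z' 1 : ℤ) : ℝ)| < 1 := by
    simpa [l1, up] using hl
  have e1 : |z 0 - z' 0| + |z 1 - z' 1| < 1 := by exact_mod_cast e0
  have n0 := abs_nonneg (z 0 - z' 0)
  have n1 := abs_nonneg (z 1 - z' 1)
  have z0 : z 0 - z' 0 = 0 := abs_eq_zero.1 (by omega)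
  have z1 : z 1 - z' 1 = 0 := abs_eq_zero.1 (by omega)
  funext i
  fin_cases i
  · exact sub_eq_zero.1 z0
  · exact sub_eq_zero.1 z1

end CNT

theorem bCNT : St_CNT := by
  intro p R d L H g hL hH
  have hi := CNT.inj g
  refine ⟨(Finset.Icc ⌊-(2 * R * L)⌋ ⌊2 * R * L⌋ ×ˢ
    Finset.Icc ⌊-(2 * R * H)⌋ ⌊2 * R * H⌋).preimage _ hi.injOn, ?_, ?_⟩
  · have hc := Finset.card_le_card_of_injOn
      (s := (Finset.Icc ⌊-(2 * R * L)⌋ ⌊2 * R * L⌋ ×ˢ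
        Finset.Icc ⌊-(2 * R * H)⌋ ⌊2 * R * H⌋).preimage _ hi.injOn)
      (t := Finset.Icc ⌊-(2 * R * L)⌋ ⌊2 * R * L⌋ ×ˢ Finset.Icc ⌊-(2 * R * H)⌋ ⌊2 * R * H⌋) _
      (fun z hz => Finset.mem_coe.2 (Finset.mem_preimage.1 (Finset.mem_coe.1 hz))) hi.injOn
    rw [Finset.card_product] at hc
    have hc' := (Nat.cast_le (α := ℝ)).2 hc
    rw [Nat.cast_mul] at hc'
    have a1 := CNT.card_Icc_le g.one_le hL
    have a2 := CNT.card_Icc_le g.one_le hH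
    have hR := g.one_le
    have a3 := mul_le_mul a1 a2 (Nat.cast_nonneg _) (by positivity)
    have a4 : 0 ≤ R ^ 2 * (L * H) := by positivity
    refine hc'.trans (a3.trans ?_)
    nlinarith
  · intro z h1 h2
    exact Finset.mem_preimage.2
      (Finset.mem_product.2 ⟨CNT.mem_Icc g.one_le h1, CNT.mem_Icc g.one_le h2⟩)

end Pool.Agent.Lib.FP95
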