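import Pool.Agent.Lib.FP95.Base

/-! Choice of the width of the strip. -/

namespace Pool.Agent.Lib.FP95

theorem bCONF (hSIDE : St_SIDE) : St_CONF := by
  intro p R θ S n hS hθ hU hL ε hε
  obtain ⟨K, M₀, hK, hM₀, h⟩ := hSIDE p R θ S n hS hθ hU hL ε hε
  refine ⟨K, M₀, hK, hM₀, fun d hd M m hM hm hmM => ?_⟩
  have g := hS d hd
  have hM1 : 1 ≤ M := hM₀.trans hM
  have hL0 : 0 < p.R1 R * M := mul_pos (by linarith [g.R1_ge]) (by linarith)
  by_cases hc : p.phi d (p.R1 R * M) (p.R1 R * M) ≤ K * M ^ θ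
  · refine ⟨_, hL0, le_rfl, hc, ?_⟩
    rw [g.exit_empty hM1 hm hmM (by linarith), p.pr_empty]
    exact hε.le
  have hpos : 0 < K * M ^ θ := mul_pos hK (Real.rpow_pos_of_pos (by linarith) _)
  have hD : Continuous (p.D d) := n.cont.sub d.ρ.continuous_of_finiteDimensional
  have hcont : Continuous fun w : ℝ => p.phi d (p.R1 R * M) w :=
    (hD.comp (by fun_prop)).add (hD.comp (by fun_prop))
  have h0 : p.phi d (p.R1 R * M) 0 = 0 := by
    simp only [Par.phi, zero_smul, add_zero, sub_zero, n.D_a g hL0.le]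
  obtain ⟨W, ⟨hW0, hW1⟩, hW⟩ := intermediate_value_Icc hL0.le hcont.continuousOn
    (show K * M ^ θ ∈ Set.Icc _ _ from ⟨h0.trans_le hpos.le, (not_le.1 hc).le⟩)
  beta_reduce at hW
  refine ⟨W, hW0.lt_of_ne ?_, hW1, hW.le, h d hd M m _ hM hm hmM (by linarith) ?_⟩
  · rintro rfl
    linarith
  · rw [n.phi_smul d (by norm_num), hW]

end Pool.Agent.Lib.FP95
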