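import Pool.Agent.Lib.FP95.Base

/-! Row CORE: the doubling inequality from the Harris inequality. -/

namespace Pool.Agent.Lib.FP95

open MeasureTheory ProbabilityTheory Pool.Agent.Lib.MP_eba68f_pr

namespace CORE

variable (p : Par)

lemma meas (u v : V) (c : ℝ) : MeasurableSet {τ | p.T τ u v ≤ c} :=
  measurableSet_le (p.T_meas u v) measurable_const

/-- minus the indicator of a short passage -/
noncomputable def mi (u v : V) (c : ℝ) (τ : Cfg) : ℝ :=
  -({τ | p.T τ u v ≤ c}.indicator (fun _ => (1 : ℝ)) τ)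

lemma mi_eq (u v : V) (c : ℝ) (τ : Cfg) : mi p u v c τ = if p.T τ u v ≤ c then -1 else 0 := by
  by_cases h : p.T τ u v ≤ c <;> simp [mi, h]

lemma mi_nice (u v : V) (c : ℝ) : Nice (mi p u v c) := by
  have := (Nice.const 0).sub (Nice.ind (meas p u v c))
  simp only [zero_sub] at this
  exact this

lemma mi_mono (u v : V) (c : ℝ) : Monotone (mi p u v c) := fun τ τ' h => by
  have h1 : p.T τ u v ≤ p.T τ' u v := p.T_mono u v h
  rw [mi_eq, mi_eq]
  split_ifs with a b b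
  · exact le_rfl
  · norm_num
  · exact absurd (h1.trans b) a
  · exact le_rfl

lemma mi_dep (u v : V) (c : ℝ) {A : Set (Sym2 V)} (h : near u (p.b / p.r * n1 (v - u)) ⊆ A) :
    DependsOn (mi p u v c) A := fun τ τ' e => by
  have h1 : p.T τ u v = p.T τ' u v := p.T_dep u v fun i hi => e i (h hi)
  rw [mi_eq, mi_eq, h1]

lemma mi_int (u v : V) (c : ℝ) : ∫ τ, mi p u v c τ ∂p.P = -p.pr {τ | p.T τ u v ≤ c} := by
  unfold mi
  rw [integral_neg, p.int_ind (meas p u v c)]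

lemma harris (hH : St_HAR) (u v u' v' : V) (c c' : ℝ) :
    p.pr {τ | p.T τ u v ≤ c} * p.pr {τ | p.T τ u' v' ≤ c'} ≤
      p.pr ({τ | p.T τ u v ≤ c} ∩ {τ | p.T τ u' v' ≤ c'}) := by
  have := hH p _ _ _ ((near_finite _ _).union (near_finite _ _)) (mi_nice p u v c)
    (mi_nice p u' v' c') (mi_mono p u v c) (mi_mono p u' v' c')
    (mi_dep p u v c Set.subset_union_left) (mi_dep p u' v' c' Set.subset_union_right)
  rw [mi_int, mi_int, neg_mul_neg] at this
  rw [← p.int_ind ((meas p u v c).inter (meas p u' v' c'))]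
  refine this.trans_eq (integral_congr_ae (ae_of_all _ fun τ => ?_))
  by_cases a : p.T τ u v ≤ c <;> by_cases b : p.T τ u' v' ≤ c' <;> simp [mi_eq, a, b]

lemma level (u v : V) {e : ℝ} (h0 : 0 < e) (h1 : e ≤ 1) :
    ∃ q : ℝ, e ≤ p.pr {τ | p.T τ u v ≤ q} ∧ p.pr {τ | p.T τ u v ≤ q - 1} ≤ e := by
  classical
  have ex : ∃ n : ℕ, e ≤ p.pr {τ | p.T τ u v ≤ n} := by
    obtain ⟨n, hn⟩ := exists_nat_ge (p.b * n1 (v - u))
    refine ⟨n, ?_⟩
    rw [Set.eq_univ_of_forall (s := {τ | p.T τ u v ≤ n}) fun τ => (p.T_le τ u v).trans hn,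
      p.pr_univ]
    exact h1
  refine ⟨Nat.find ex, Nat.find_spec ex, ?_⟩
  rcases hk : Nat.find ex with _ | k
  · refine (p.pr_eq_zero fun τ h => ?_).trans_le h0.le
    have := p.T_nonneg τ u v
    simp only [Set.mem_ofPred_eq, Nat.cast_zero] at h
    linarith
  · have := Nat.find_min ex (show k < Nat.find ex by omega)
    rw [Nat.cast_add_one, add_sub_cancel_right]
    exact (not_le.1 this).le

end CORE

theorem bCORE (hH : St_HAR) : St_CORE := by
  intro p O x y s sg hsg hO h hv0 hv2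
  have hk : (1 : ℝ) ≤ O.card := by exact_mod_cast hO.card_pos
  obtain ⟨e, he⟩ : ∃ e : ℝ, e = 1 / (8 * O.card) := ⟨_, rfl⟩
  have e0 : 0 < e := by rw [he]; positivity
  have e1 : e * (8 * O.card) = 1 := by rw [he]; field_simp
  have e2 : e ≤ 1 := by nlinarith
  obtain ⟨t, ht⟩ : ∃ t : ℝ, t = 8 * O.card * sg := ⟨_, rfl⟩
  have t0 : 0 < t := by rw [ht]; positivity
  have t1 : sg = e * t := by rw [ht, ← mul_assoc, e1, one_mul]
  have t2 : sg ^ 2 / t ^ 2 = e ^ 2 := by rw [t1]; field_simp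
  obtain ⟨w, -, hw⟩ : ∃ w ∈ O, 4 * e ≤ p.pr {τ | p.T τ 0 (w + y) + p.T τ (w - y) (w + x + y) +
      p.T τ (w + x - y) (x + x) ≤ p.T τ 0 (x + x) + s} := by
    refine Finset.exists_le_of_sum_le hO ?_
    rw [Finset.sum_const, nsmul_eq_mul]
    refine le_trans (by linarith) (h.trans ((p.pr_mono fun τ hτ => ?_).trans (p.pr_biUnion_le O _)))
    obtain ⟨w, h1, h2⟩ := hτ
    exact Set.mem_biUnion h1 h2
  have c0 := (p.cheb0 (x + x) t0).trans (div_le_div_of_nonneg_right hv0 (sq_nonneg t))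
  have c2 := p.cheb (w - y) (w + x + y) t0
  rw [show w + x + y - (w - y) = x + y + y by abel] at c2
  replace c2 := c2.trans (div_le_div_of_nonneg_right hv2 (sq_nonneg t))
  obtain ⟨q, q1, q2⟩ := CORE.level p 0 (w + y) e0 e2
  obtain ⟨c, hc⟩ : ∃ c : ℝ, c = p.h (x + x) - p.h (x + y + y) + s + 2 * t - q + 1 := ⟨_, rfl⟩
  have a1 : e ≤ p.pr {τ | p.T τ (w + x - y) (x + x) ≤ c} := by
    have h1 := hw.trans ((p.pr_mono (B := ({τ | t ≤ |p.T τ 0 (x + x) - p.h (x + x)|} ∪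
      {τ | t ≤ |p.T τ (w - y) (w + x + y) - p.h (x + y + y)|}) ∪
      ({τ | p.T τ 0 (w + y) ≤ q - 1} ∪ {τ | p.T τ (w + x - y) (x + x) ≤ c})) fun τ hτ => by
        by_contra hn
        simp only [Set.mem_union, Set.mem_ofPred_eq, not_or, not_le, abs_lt] at hn hτ
        linarith [hn.1.1.2, hn.1.2.1, hn.2.1, hn.2.2]).trans
      ((p.pr_union_le _ _).trans (add_le_add (p.pr_union_le _ _) (p.pr_union_le _ _))))
    nlinarith
  rw [p.pr_T_le, show x + x - (w + x - y) = x + y + y - (w + y) by abel, ← p.pr_T_le] at a1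
  have a2 := (mul_le_mul q1 a1 e0.le (p.pr_nonneg _)).trans
    (CORE.harris p hH 0 (w + y) (w + y) (x + y + y) q c)
  by_contra hn
  have a3 := a2.trans ((p.pr_mono fun τ hτ => by
    have h1 : p.T τ 0 (w + y) ≤ q := hτ.1
    have h2 : p.T τ (w + y) (x + y + y) ≤ c := hτ.2
    have h3 := p.T_tri τ 0 (w + y) (x + y + y)
    show 2 * t ≤ |p.T τ 0 (x + y + y) - p.h (x + y + y)|
    refine le_abs.2 (Or.inr ?_)
    linarith [not_le.1 hn]).trans (p.cheb0 (x + y + y) (t := 2 * t) (by positivity)))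
  have a4 := a3.trans (div_le_div_of_nonneg_right hv2 (sq_nonneg (2 * t)))
  rw [show sg ^ 2 / (2 * t) ^ 2 = sg ^ 2 / t ^ 2 / 4 by ring, t2] at a4
  nlinarith

end Pool.Agent.Lib.FP95
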