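import Pool.Agent.Lib.FP95.Base

/-! Variance lower bound from the covariances with the box indicators. -/

namespace Pool.Agent.Lib.FP95

open MeasureTheory ProbabilityTheory Filter Topology Pool.Agent.Lib.MP_eba68f_pr
open scoped NNReal ENNReal

namespace COV

/-- Cauchy-Schwarz for the covariance -/
lemma cs (p : Par) {f g : Cfg → ℝ} (hf : Nice f) (hg : Nice g) :
    covariance f g p.P ^ 2 ≤ variance f p.P * variance g p.P := by
  have key : ∀ t : ℝ,
      0 ≤ variance g p.P * (t * t) + 2 * covariance f g p.P * t + variance f p.P := by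
    intro t
    have h1 := variance_fun_add (μ := p.P) (X := f) (Y := fun τ => t * g τ) (hf.memLp _ 2)
      (((Nice.const t).mul hg).memLp _ 2)
    rw [covariance_const_mul_right, variance_const_mul] at h1
    have h2 := variance_nonneg (fun τ => f τ + t * g τ) p.P
    rw [h1] at h2
    nlinarith
  have h := discrim_le_zero key
  unfold discrim at h
  nlinarith

lemma nice_lit (lev : ℝ≥0) (L : ℕ) (k : V) : Nice (lit lev L k) := by
  refine Nice.ind ?_
  have : {τ : Cfg | ∀ e ∈ EQ L k, τ e ≤ lev} = ⋂ e ∈ EQ L k, {τ : Cfg | τ e ≤ lev} := by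
    ext τ; simp
  rw [this]
  exact MeasurableSet.biInter (Set.to_countable _) fun e _ =>
    measurableSet_le (measurable_pi_apply e) measurable_const

lemma nice_gain (p : Par) (lev : ℝ≥0) (L : ℕ) (X k : V) : Nice (p.gain lev L X k) :=
  (p.T_nice 0 X).sub ((p.T_nice 0 X).comp (meas_cap lev _))

lemma gain_nonneg (p : Par) (lev : ℝ≥0) (L : ℕ) (X k : V) (τ : Cfg) :
    0 ≤ p.gain lev L X k τ := by
  refine sub_nonneg.2 (p.T_mono 0 X fun e => ?_)
  unfold cap
  split_ifs
  · exact min_le_left _ _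
  · exact le_rfl

end COV

theorem bCOV (hCOV1 : St_COV1) (hCOV2 : St_COV2) : St_COV := by
  intro p lev L hF hL
  obtain ⟨c, hc, h1⟩ := hCOV1 p lev L hF hL
  refine ⟨c ^ 2 / 25, by positivity, fun X B => ?_⟩
  have nS : Nice fun τ => ∑ k ∈ B, lit lev L k τ := Nice.sum B fun k _ => COV.nice_lit lev L k
  have h2 := COV.cs p (p.T_nice 0 X) nS
  have h3 := hCOV2 p lev L B hL
  have h4 : c * ∫ τ, ∑ k ∈ B, p.gain lev L X k τ ∂p.P ≤
      -covariance (fun τ => p.T τ 0 X) (fun τ => ∑ k ∈ B, lit lev L k τ) p.P := by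
    rw [covariance_fun_sum_right' (fun k _ => (COV.nice_lit lev L k).memLp _ 2)
      ((p.T_nice 0 X).memLp _ 2),
      integral_finsetSum _ fun k _ => (COV.nice_gain p lev L X k).int _, Finset.mul_sum,
      ← Finset.sum_neg_distrib]
    refine Finset.sum_le_sum fun k _ => (h1 X k).trans (le_of_eq ?_)
    rw [covariance_eq_sub ((p.T_nice 0 X).memLp _ 2) ((COV.nice_lit lev L k).memLp _ 2), neg_sub]
    rfl
  have h5 : 0 ≤ c * ∫ τ, ∑ k ∈ B, p.gain lev L X k τ ∂p.P :=
    mul_nonneg hc.le (integral_nonneg fun τ =>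
      Finset.sum_nonneg fun k _ => COV.gain_nonneg p lev L X k τ)
  have h6 := pow_le_pow_left₀ h5 h4 2
  have h7 := mul_le_mul_of_nonneg_left h3 (p.Vr_nonneg X)
  have h8 : variance (fun τ => p.T τ 0 X) p.P = p.Vr X := rfl
  rw [h8] at h2
  rw [neg_sq, mul_pow] at h6
  linarith

end Pool.Agent.Lib.FP95
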