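import Pool.Agent.Lib.FP95.Base

/-! The covariance of the passage time with the indicator of one box. -/

namespace Pool.Agent.Lib.FP95

open MeasureTheory ProbabilityTheory Pool.Agent.Lib.MP_eba68f_pr
open scoped NNReal ENNReal

namespace COV1

lemma sub (L : ℕ) (k : V) : EQ L k ⊆ ((ball (4 * L)).image (· + (L : ℤ) • k)).sym2 := by
  intro e he
  rw [Finset.mem_coe, Finset.mem_sym2_iff]
  refine fun z hz => Finset.mem_image.2 ⟨z - (L : ℤ) • k, mem_ball ?_, by simp⟩
  have h : ∀ i, |((z i - L * k i : ℤ) : ℝ)| ≤ 2 * L := fun i => by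
    obtain ⟨a, b⟩ := he z hz i
    have : |z i - L * k i| ≤ 2 * (L : ℤ) := abs_le.2 ⟨by nlinarith, by nlinarith⟩
    exact_mod_cast this
  simp only [n1, Pi.sub_apply, Pi.smul_apply, smul_eq_mul]
  linarith [h 0, h 1]

lemma meas (lev : ℝ≥0) (L : ℕ) (k : V) : MeasurableSet {τ : Cfg | ∀ e ∈ EQ L k, τ e ≤ lev} := by
  rw [Set.ofPred_forall]
  refine MeasurableSet.iInter fun e => ?_
  rw [Set.ofPred_forall]
  exact MeasurableSet.iInter fun _ => measurableSet_le (measurable_pi_apply e) measurable_const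

lemma low (p : Par) (lev : ℝ≥0) (L : ℕ) (k : V) :
    p.F.real (Set.Iic lev) ^ ((ball (4 * L)).card + 1).choose 2 ≤ ∫ τ, lit lev L k τ ∂p.P := by
  rw [lit, p.int_ind (meas lev L k)]
  refine le_trans ?_ (p.pr_mono (A := Set.pi ((ball (4 * L)).image (· + (L : ℤ) • k)).sym2
    fun _ => Set.Iic lev) fun τ h e he => h e (sub L k he))
  rw [Par.pr, Par.P, Measure.real, Measure.real,
    Measure.infinitePi_pi _ fun _ _ => measurableSet_Iic, Finset.prod_const, ENNReal.toReal_pow,
    Finset.card_sym2]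
  exact pow_le_pow_of_le_one ENNReal.toReal_nonneg measureReal_le_one
    (Nat.choose_le_choose _ (Nat.succ_le_succ Finset.card_image_le))

end COV1

theorem bCOV1 (hHAR : St_HAR) : St_COV1 := by
  intro p lev L h0 _
  have c0 : 0 < p.F.real (Set.Iic lev) := ENNReal.toReal_pos h0.ne' (measure_ne_top _ _)
  refine ⟨_, pow_pos c0 (((ball (4 * L)).card + 1).choose 2), fun X k => ?_⟩
  have n1 : Nice fun τ => p.T (cap lev (EQ L k) τ) 0 X := (p.T_nice 0 X).comp (meas_cap _ _)
  have n2 : Nice (lit lev L k) := Nice.ind (COV1.meas lev L k)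
  have hc : ∀ τ, cap lev (EQ L k) τ ≤ τ := fun τ e => by
    unfold cap
    split_ifs
    exacts [min_le_left _ _, le_rfl]
  have H := hHAR p _ (fun τ => -1 * lit lev L k τ) (near 0 (p.b / p.r * _) ∪ EQ L k)
    ((near_finite _ _).union ((Finset.finite_toSet _).subset (COV1.sub L k))) n1
    ((Nice.const _).mul n2)
    (fun τ τ' h => p.T_mono 0 X fun e => by
      unfold cap
      split_ifs
      exacts [min_le_min_right _ (h e), h e])
    (fun τ τ' h => by
      refine mul_le_mul_of_nonpos_left ?_ (by norm_num)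
      unfold lit
      by_cases k' : ∀ e ∈ EQ L k, τ' e ≤ lev
      · rw [Set.indicator_of_mem (s := {τ : Cfg | ∀ e ∈ EQ L k, τ e ≤ lev}) k',
          Set.indicator_of_mem (s := {τ : Cfg | ∀ e ∈ EQ L k, τ e ≤ lev})
            fun e he => (h e).trans (k' e he)]
      · rw [Set.indicator_of_notMem (s := {τ : Cfg | ∀ e ∈ EQ L k, τ e ≤ lev}) k']
        exact Set.indicator_nonneg (fun _ _ => zero_le_one) _)
    (fun τ τ' h => p.T_dep 0 X fun e he => by
      unfold cap
      rw [h e (Or.inl he)])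
    (fun τ τ' h => by
      have : (∀ e ∈ EQ L k, τ e ≤ lev) ↔ ∀ e ∈ EQ L k, τ' e ≤ lev :=
        forall₂_congr fun e he => by rw [h e (Or.inr he)]
      refine congrArg (-1 * ·) ?_
      unfold lit
      by_cases k' : ∀ e ∈ EQ L k, τ e ≤ lev
      · rw [Set.indicator_of_mem (s := {τ : Cfg | ∀ e ∈ EQ L k, τ e ≤ lev}) k',
          Set.indicator_of_mem (s := {τ : Cfg | ∀ e ∈ EQ L k, τ e ≤ lev}) (this.1 k')]
      · rw [Set.indicator_of_notMem (s := {τ : Cfg | ∀ e ∈ EQ L k, τ e ≤ lev}) k',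
          Set.indicator_of_notMem (s := {τ : Cfg | ∀ e ∈ EQ L k, τ e ≤ lev}) (mt this.2 k')])
  have e1 : ∀ τ, p.T (cap lev (EQ L k) τ) 0 X * (-1 * lit lev L k τ) =
      -1 * (p.T τ 0 X * lit lev L k τ) := fun τ => by
    by_cases h : ∀ e ∈ EQ L k, τ e ≤ lev
    · have : cap lev (EQ L k) τ = τ := funext fun e => by
        unfold cap
        split_ifs with he
        exacts [min_eq_left (h e he), rfl]
      rw [this, mul_left_comm]
    · rw [lit, Set.indicator_of_notMem (s := {τ : Cfg | ∀ e ∈ EQ L k, τ e ≤ lev}) h]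
      ring
  simp only [e1, integral_const_mul] at H
  have g0 : 0 ≤ ∫ τ, p.gain lev L X k τ ∂p.P :=
    integral_nonneg fun τ => sub_nonneg.2 (p.T_mono 0 X (hc τ))
  refine (mul_le_mul_of_nonneg_right (COV1.low p lev L k) g0).trans ?_
  unfold Par.gain
  rw [integral_sub ((p.T_nice 0 X).int _) (n1.int _)]
  linarith

end Pool.Agent.Lib.FP95
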