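import Pool.Agent.Lib.FP95.Base

/-! Row COV2: the variance of the number of lit boxes. -/

namespace Pool.Agent.Lib.FP95

open MeasureTheory ProbabilityTheory Filter Topology Pool.Agent.Lib.MP_eba68f_pr
open scoped NNReal ENNReal

namespace COV2

lemma eq_finite (L : ℕ) (k : V) : (EQ L k).Finite := by
  refine ((Fintype.piFinset fun i => Finset.Ico ((k i - 1) * (L : ℤ))
    ((k i + 2) * (L : ℤ))).sym2.finite_toSet).subset fun e he => ?_
  rw [Finset.mem_coe, Finset.mem_sym2_iff]
  exact fun z hz => Fintype.mem_piFinset.2 fun i => Finset.mem_Ico.2 (he z hz i)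

lemma lit_nice (lev : ℝ≥0) (L : ℕ) (k : V) : Nice (lit lev L k) := by
  refine Nice.ind ?_
  have : {τ : Cfg | ∀ e ∈ EQ L k, τ e ≤ lev} = ⋂ e ∈ EQ L k, {τ : Cfg | τ e ≤ lev} := by
    ext τ; simp
  rw [this]
  exact (eq_finite L k).measurableSet_biInter fun e _ =>
    measurableSet_le (measurable_pi_apply e) measurable_const

lemma lit_dep (lev : ℝ≥0) (L : ℕ) (k : V) : DependsOn (lit lev L k) (EQ L k) := by
  intro τ τ' h
  have : (∀ e ∈ EQ L k, τ e ≤ lev) ↔ ∀ e ∈ EQ L k, τ' e ≤ lev :=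
    forall₂_congr fun e he => by rw [h e he]
  unfold lit
  by_cases h1 : ∀ e ∈ EQ L k, τ e ≤ lev
  · rw [Set.indicator_of_mem (s := {τ : Cfg | ∀ e ∈ EQ L k, τ e ≤ lev}) h1,
      Set.indicator_of_mem (s := {τ : Cfg | ∀ e ∈ EQ L k, τ e ≤ lev}) (this.1 h1)]
  · rw [Set.indicator_of_notMem (s := {τ : Cfg | ∀ e ∈ EQ L k, τ e ≤ lev}) h1,
      Set.indicator_of_notMem (s := {τ : Cfg | ∀ e ∈ EQ L k, τ e ≤ lev}) fun h2 => h1 (this.2 h2)]

lemma lit_mem (lev : ℝ≥0) (L : ℕ) (k : V) (τ : Cfg) : 0 ≤ lit lev L k τ ∧ lit lev L k τ ≤ 1 := by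
  unfold lit
  by_cases h : τ ∈ {τ : Cfg | ∀ e ∈ EQ L k, τ e ≤ lev}
  · rw [Set.indicator_of_mem h]; exact ⟨zero_le_one, le_rfl⟩
  · rw [Set.indicator_of_notMem h]; exact ⟨le_rfl, zero_le_one⟩

lemma eq_disjoint {L : ℕ} (hL : 1 ≤ L) {k k' : V}
    (h : k' ∉ Fintype.piFinset fun i => Finset.Icc (k i - 2) (k i + 2)) :
    Disjoint (EQ L k) (EQ L k') := by
  refine Set.disjoint_left.2 fun e he he' => h (Fintype.mem_piFinset.2 fun i => ?_)
  induction e using Sym2.ind with
  | h x y =>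
    have h1 := he x (Sym2.mem_mk_left x y) i
    have h2 := he' x (Sym2.mem_mk_left x y) i
    have h0 : (0 : ℤ) < L := by exact_mod_cast hL
    have h3 := lt_of_mul_lt_mul_right (h1.1.trans_lt h2.2) h0.le
    have h4 := lt_of_mul_lt_mul_right (h2.1.trans_lt h1.2) h0.le
    exact Finset.mem_Icc.2 ⟨by omega, by omega⟩

end COV2

open COV2 in
theorem bCOV2 (hIND : St_IND) : St_COV2 := by
  classical
  intro p lev L B hL
  rw [variance_fun_sum' fun k _ => (lit_nice lev L k).memLp p.P 2, mul_comm, ← nsmul_eq_mul,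
    ← Finset.sum_const]
  refine Finset.sum_le_sum fun k _ => ?_
  have key : ∀ k', cov[lit lev L k, lit lev L k'; p.P] ≤
      if k' ∈ Fintype.piFinset fun i => Finset.Icc (k i - 2) (k i + 2) then 1 else 0 := fun k' => by
    rw [covariance_eq_sub ((lit_nice lev L k).memLp p.P 2) ((lit_nice lev L k').memLp p.P 2)]
    split_ifs with h
    · have h1 : ∫ τ, (lit lev L k * lit lev L k') τ ∂p.P ≤ ∫ _, (1 : ℝ) ∂p.P :=
        integral_mono (((lit_nice lev L k).mul (lit_nice lev L k')).int p.P) (integrable_const _)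
          fun τ => mul_le_one₀ (lit_mem lev L k τ).2 (lit_mem lev L k' τ).1 (lit_mem lev L k' τ).2
      have h2 : 0 ≤ (∫ τ, lit lev L k τ ∂p.P) * ∫ τ, lit lev L k' τ ∂p.P :=
        mul_nonneg (integral_nonneg fun τ => (lit_mem lev L k τ).1)
          (integral_nonneg fun τ => (lit_mem lev L k' τ).1)
      simp only [integral_const, probReal_univ, smul_eq_mul, mul_one] at h1
      linarith
    · have hne : k ≠ k' := by
        rintro rfl
        exact h (Fintype.mem_piFinset.2 fun i => Finset.mem_Icc.2 ⟨by omega, by omega⟩)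
      have h1 := hIND p V {k, k'} (lit lev L) (EQ L) (fun i _ => eq_finite L i)
        (fun i _ => lit_nice lev L i) (fun i _ => lit_dep lev L i) (by
          rw [Finset.coe_pair]
          exact (Set.pairwiseDisjoint_singleton k' _).insert_of_notMem hne fun j hj => by
            rw [Set.mem_singleton_iff.1 hj]
            exact eq_disjoint hL h)
      simp only [Finset.prod_pair hne] at h1
      exact (sub_eq_zero.2 h1).le
  refine (Finset.sum_le_sum fun k' _ => key k').trans ?_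
  rw [Finset.sum_ite_mem, Finset.sum_const, nsmul_eq_mul, mul_one]
  have h1 := Finset.card_le_card (Finset.inter_subset_right (s₁ := B)
    (s₂ := Fintype.piFinset fun i => Finset.Icc (k i - 2) (k i + 2)))
  have h2 : ∀ i, (Finset.Icc (k i - 2) (k i + 2)).card = 5 := fun i => by
    rw [Int.card_Icc]; omega
  rw [Fintype.card_piFinset, Fin.prod_univ_two, h2, h2] at h1
  exact_mod_cast h1

end Pool.Agent.Lib.FP95
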