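import Pool.Agent.Lib.FP95.B_DAT

/-! Block CRN: linear growth of the defect at a corner. -/

namespace Pool.Agent.Lib.FP95

open DAT in
theorem bCRN : St_CRN := by
  intro p x s l₁ l₂ hN hx _ h1 h2 hl d hd
  have hf : 0 < p.f x s := p.r_pos.trans_le (r_le_f hN hx s)
  have hg : 0 < l₂ - l₁ := sub_pos.2 hl
  have key : ∀ v, (l₂ - l₁) / 2 * |d.η v| ≤ p.D d v := by
    intro v
    have a1 := rho_le hN hx h1 v
    have a2 := rho_le hN hx h2 v
    simp only [hd, Par.D, Par.dat, LinearMap.add_apply, LinearMap.sub_apply, LinearMap.smul_apply,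
      smul_eq_mul]
    rcases abs_cases (dot (perp x) v - s * dot x v) with h | h <;> rw [h.1] <;> linarith
  have eta : ∀ L y : ℝ, d.η (L • d.a + y • d.n) = y := by
    intro L y
    simp only [hd, Par.dat, LinearMap.sub_apply, LinearMap.smul_apply, smul_eq_mul, map_add,
      map_smul, dot_uu hx, dotp_uu hx, dot_perp, dotp_perp hx]
    ring
  refine ⟨fun t => by linarith [h1 t, h2 t], key, fun y hy => ?_, fun K _ => ⟨K / (l₂ - l₁),
    fun L y _ hy h => ?_⟩⟩
  · have := key ((1 : ℝ) • d.a + y • d.n)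
    rw [eta, one_smul] at this
    exact (mul_pos (half_pos hg) (abs_pos.2 hy)).trans_le this
  · have a1 := key (L • d.a + y • d.n)
    have a2 := key (L • d.a + (-y) • d.n)
    rw [eta, abs_of_nonneg hy] at a1
    rw [eta, abs_neg, abs_of_nonneg hy, neg_smul, ← sub_eq_add_neg] at a2
    rw [div_mul_eq_mul_div, le_div_iff₀ hg]
    unfold Par.phi at h
    linarith

end Pool.Agent.Lib.FP95
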