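import Pool.Agent.Lib.FP95.Blue

/-! Block CURV: points of quadratic support near a point where `f` is not affine. -/

namespace Pool.Agent.Lib.FP95

open Set

namespace CURV

variable {f : ℝ → ℝ}

/-- a local quadratic bound gives the global one -/
theorem quad_of (hf : ConvexOn ℝ univ f) {x l c e : ℝ} (hc : 0 < c) (he : 0 < e)
    (h : ∀ t, |t - x| ≤ e → c * (t - x) ^ 2 ≤ f t - f x - l * (t - x)) (t : ℝ) :
    c * min ((t - x) ^ 2) (e * |t - x|) ≤ f t - f x - l * (t - x) := by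
  rcases le_total |t - x| e with h1 | h1
  · exact (mul_le_mul_of_nonneg_left (min_le_left _ _) hc.le).trans (h t h1)
  refine (mul_le_mul_of_nonneg_left (min_le_right _ _) hc.le).trans ?_
  have h2 : 0 < |t - x| := he.trans_le h1
  obtain ⟨a, ha⟩ : ∃ a, a = e / |t - x| := ⟨_, rfl⟩
  have h3 : 0 < a := ha ▸ div_pos he h2
  have h4 : a * |t - x| = e := ha ▸ div_mul_cancel₀ _ h2.ne'
  have h5 : a ≤ 1 := ha ▸ (div_le_one h2).2 h1
  have h6 := hf.2 (mem_univ x) (mem_univ t) (sub_nonneg.2 h5) h3.le (sub_add_cancel 1 a)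
  simp only [smul_eq_mul] at h6
  have h7 : (1 - a) * x + a * t - x = a * (t - x) := by ring
  have h8 := h ((1 - a) * x + a * t) (by rw [h7, abs_mul, abs_of_pos h3, h4])
  rw [h7, mul_pow, ← sq_abs (t - x)] at h8
  refine le_of_mul_le_mul_left ?_ h3
  rw [← h4]
  linarith

theorem loc (hf : ConvexOn ℝ univ f) {p q : ℝ} (hpq : p < q) (h : ¬ Aff f p q) :
    ∃ x ∈ Ioo p q, ∃ l c, 0 < c ∧ ∀ t ∈ Icc p q, c * (t - x) ^ 2 ≤ f t - f x - l * (t - x) := by
  have h0 : 0 < q - p := sub_pos.2 hpq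
  obtain ⟨m, hm⟩ : ∃ m, m * (q - p) = f q - f p := ⟨_, div_mul_cancel₀ _ h0.ne'⟩
  obtain ⟨y, hy, h1⟩ : ∃ y ∈ Icc p q, f y < f p + m * (y - p) := by
    by_contra hn
    refine h ⟨f p - m * p, m, fun y hy => ?_⟩
    have h1 : f p + m * (y - p) ≤ f y := not_lt.1 fun h1 => hn ⟨y, hy, h1⟩
    obtain ⟨a, ha⟩ : ∃ a, a = (y - p) / (q - p) := ⟨_, rfl⟩
    have h2 : 0 ≤ a := ha ▸ div_nonneg (sub_nonneg.2 hy.1) h0.le
    have h3 : a ≤ 1 := ha ▸ (div_le_one h0).2 (sub_le_sub_right hy.2 p)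
    have h4 : a * (q - p) = y - p := ha ▸ div_mul_cancel₀ _ h0.ne'
    have h5 := hf.2 (mem_univ p) (mem_univ q) (sub_nonneg.2 h3) h2 (sub_add_cancel 1 a)
    simp only [smul_eq_mul] at h5
    rw [show (1 - a) * p + a * q = y by linarith] at h5
    have h6 : m * (y - p) = a * (f q - f p) := by rw [← h4, ← hm]; ring
    linarith
  obtain ⟨c, hc⟩ : ∃ c, c = (f p + m * (y - p) - f y) / (q - p) ^ 2 := ⟨_, rfl⟩
  have h2 : 0 < c := hc ▸ div_pos (sub_pos.2 h1) (pow_pos h0 2)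
  have h3 : c * (q - p) ^ 2 = f p + m * (y - p) - f y := hc ▸ div_mul_cancel₀ _ (pow_pos h0 2).ne'
  have h4 : Continuous fun t => f t - m * t + c * ((t - p) * (q - t)) := by
    have := continuousOn_univ.1 (hf.continuousOn isOpen_univ)
    fun_prop
  obtain ⟨x, hx, h5⟩ := isCompact_Icc.exists_isMinOn ⟨y, hy⟩ h4.continuousOn
  have h6 : f x - m * x + c * ((x - p) * (q - x)) < f p - m * p := by
    have h7 : (y - p) * (q - y) < (q - p) ^ 2 := by nlinarith [sq_nonneg (q + p - 2 * y)]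
    have h8 := mul_lt_mul_of_pos_left h7 h2
    have h9 : f x - m * x + c * ((x - p) * (q - x)) ≤ f y - m * y + c * ((y - p) * (q - y)) := h5 hy
    linarith
  refine ⟨x, ⟨lt_of_le_of_ne hx.1 ?_, lt_of_le_of_ne hx.2 ?_⟩, m - c * (p + q - 2 * x), c, h2,
    fun t ht => ?_⟩
  · rintro rfl
    linarith
  · rintro rfl
    linarith
  · have h9 : f x - m * x + c * ((x - p) * (q - x)) ≤ f t - m * t + c * ((t - p) * (q - t)) := h5 ht
    linarith

end CURV

open CURV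

theorem bCURV : St_CURV := by
  intro f s e hf hs he
  obtain ⟨x, hx, l, c, hc, h⟩ := loc hf (by linarith : s - e / 2 < s + e / 2) (hs _ (half_pos he))
  obtain ⟨d, hd, h1, h2⟩ : ∃ d, 0 < d ∧ d ≤ s + e / 2 - x ∧ d ≤ x - (s - e / 2) :=
    ⟨min _ _, lt_min (sub_pos.2 hx.2) (sub_pos.2 hx.1), min_le_left _ _, min_le_right _ _⟩
  have h3 : ∀ t, |t - x| ≤ d → c * (t - x) ^ 2 ≤ f t - f x - l * (t - x) := fun t ht =>
    h t ⟨by linarith [(abs_le.1 ht).1], by linarith [(abs_le.1 ht).2]⟩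
  have h4 := quad_of hf hc hd h3
  refine ⟨x, ⟨by linarith [hx.1], by linarith [hx.2]⟩, l, ?_, fun t => ?_, c, d, hc, hd, h4⟩
  · rintro r hr ⟨a, b, h5⟩
    obtain ⟨u, hu, h6, h7⟩ : ∃ u, 0 < u ∧ u ≤ d ∧ u ≤ r :=
      ⟨min _ _, lt_min hd hr, min_le_left _ _, min_le_right _ _⟩
    have k1 := h3 (x + u) (abs_le.2 ⟨by linarith, by linarith⟩)
    have k2 := h3 (x - u) (abs_le.2 ⟨by linarith, by linarith⟩)
    rw [h5 (x + u) ⟨by linarith, by linarith⟩, h5 x ⟨by linarith, by linarith⟩] at k1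
    rw [h5 (x - u) ⟨by linarith, by linarith⟩, h5 x ⟨by linarith, by linarith⟩] at k2
    linarith [mul_pos hc (pow_pos hu 2)]
  · have k : 0 ≤ c * min ((t - x) ^ 2) (d * |t - x|) := by positivity
    linarith [h4 t]

end Pool.Agent.Lib.FP95
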