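import Pool.Agent.Lib.FP95.Blue

/-! Block CVX: subgradients and affine pieces of a convex function on the line. -/

namespace Pool.Agent.Lib.FP95

open Filter Topology

namespace CVX

theorem sub_ex {f : ℝ → ℝ} (hf : ConvexOn ℝ Set.univ f) (s : ℝ) : ∃ lam, Sub f s lam := by
  have key : ∀ a b, a < s → s < b → (f s - f a) / (s - a) ≤ (f b - f s) / (b - s) :=
    fun a b ha hb => hf.slope_mono_adjacent (Set.mem_univ a) (Set.mem_univ b) ha hb
  let S : Set ℝ := {z | ∃ a, a < s ∧ z = (f s - f a) / (s - a)}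
  have hne : S.Nonempty := ⟨_, s - 1, by linarith, rfl⟩
  have hub : ∀ b, s < b → ∀ z ∈ S, z ≤ (f b - f s) / (b - s) := by
    rintro b hb z ⟨a, ha, rfl⟩
    exact key a b ha hb
  have hbd : BddAbove S := ⟨_, hub (s + 1) (by linarith)⟩
  refine ⟨sSup S, fun t => ?_⟩
  rcases lt_trichotomy t s with h | h | h
  · have h1 : (f s - f t) / (s - t) ≤ sSup S := le_csSup hbd ⟨t, h, rfl⟩
    rw [div_le_iff₀ (by linarith)] at h1
    linarith
  · subst h
    simp
  · have h1 : sSup S ≤ (f t - f s) / (t - s) := csSup_le hne (hub t h)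
    rw [le_div_iff₀ (by linarith)] at h1
    linarith

theorem not_kk {f : ℝ → ℝ} {s : ℝ} (h : s ∉ KK f) : ∃ e, 0 < e ∧ Aff f (s - e) (s + e) := by
  by_contra hc
  exact h fun e he ha => hc ⟨e, he, ha⟩

theorem closed_kk (f : ℝ → ℝ) : IsClosed (KK f) := by
  rw [← isOpen_compl_iff, Metric.isOpen_iff]
  intro s hs
  obtain ⟨e, he, c₀, c₁, hc⟩ := not_kk hs
  refine ⟨e / 2, by linarith, fun y hy hk => hk (e / 2) (by linarith) ⟨c₀, c₁, fun z hz => hc z ?_⟩⟩
  rw [Metric.mem_ball, Real.dist_eq, abs_lt] at hy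
  exact ⟨by linarith [hz.1, hy.1], by linarith [hz.2, hy.2]⟩

theorem loc {f : ℝ → ℝ} {s : ℝ} (h : s ∉ KK f) :
    ∃ c₁ : ℝ, ∀ᶠ y in 𝓝 s, HasDerivAt f c₁ y := by
  obtain ⟨e, he, c₀, c₁, hc⟩ := not_kk h
  refine ⟨c₁, ?_⟩
  have hI : Set.Ioo (s - e) (s + e) ∈ 𝓝 s := Ioo_mem_nhds (by linarith) (by linarith)
  filter_upwards [hI] with y hy
  have h1 : HasDerivAt (fun z : ℝ => c₀ + c₁ * z) c₁ y := by
    simpa using ((hasDerivAt_id y).const_mul c₁).const_add c₀
  refine h1.congr_of_eventuallyEq ?_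
  filter_upwards [Ioo_mem_nhds hy.1 hy.2] with z hz
  exact hc z ⟨hz.1.le, hz.2.le⟩

theorem aff_of {f : ℝ → ℝ} (hf : Continuous f) {s t : ℝ} (hst : s < t)
    (h : ∀ y ∈ Set.Ioo s t, y ∉ KK f) : Aff f s t := by
  have hd : ∀ y ∈ Set.Ioo s t, HasDerivAt (deriv f) 0 y := by
    intro y hy
    obtain ⟨c, hc⟩ := loc (h y hy)
    refine (hasDerivAt_const y c).congr_of_eventuallyEq ?_
    filter_upwards [hc] with z hz
    exact hz.deriv
  have hm : (s + t) / 2 ∈ Set.Ioo s t := ⟨by linarith, by linarith⟩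
  have h1 : ∀ y ∈ Set.Ioo s t, deriv f y = deriv f ((s + t) / 2) := fun y hy =>
    isOpen_Ioo.is_const_of_deriv_eq_zero isPreconnected_Ioo
      (fun z hz => (hd z hz).differentiableAt.differentiableWithinAt)
      (fun z hz => (hd z hz).deriv) hy hm
  set c₁ := deriv f ((s + t) / 2)
  have h2 : ∀ y ∈ Set.Ioo s t, HasDerivAt (fun z => f z - c₁ * z) 0 y := by
    intro y hy
    obtain ⟨c, hc⟩ := loc (h y hy)
    have h3 := hc.self_of_nhds
    have h4 : c = c₁ := h3.deriv.symm.trans (h1 y hy)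
    have h5 := h3.sub ((hasDerivAt_id y).const_mul c₁)
    rw [h4, mul_one, sub_self] at h5
    exact h5
  have h6 : ∀ y ∈ Set.Ioo s t, f y - c₁ * y = f ((s + t) / 2) - c₁ * ((s + t) / 2) := fun y hy =>
    isOpen_Ioo.is_const_of_deriv_eq_zero isPreconnected_Ioo
      (fun z hz => (h2 z hz).differentiableAt.differentiableWithinAt)
      (fun z hz => (h2 z hz).deriv) hy hm
  have hcl : IsClosed {y | f y - c₁ * y = f ((s + t) / 2) - c₁ * ((s + t) / 2)} :=
    isClosed_eq (hf.sub (continuous_const.mul continuous_id)) continuous_const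
  refine ⟨f ((s + t) / 2) - c₁ * ((s + t) / 2), c₁, fun y hy => ?_⟩
  rw [← closure_Ioo hst.ne] at hy
  have h7 : f y - c₁ * y = f ((s + t) / 2) - c₁ * ((s + t) / 2) := closure_minimal h6 hcl hy
  linarith

end CVX

theorem bCVX : St_CVX := by
  intro f hf
  have hc : Continuous f := continuousOn_univ.1 (hf.continuousOn isOpen_univ)
  refine ⟨CVX.sub_ex hf, CVX.closed_kk f, fun s t hst h => CVX.aff_of hc hst h, ?_⟩
  intro s t l₁ l₂ hst h₁ h₂
  have a := h₁ t
  have b := h₂ s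
  by_contra hl
  have : 0 < (l₁ - l₂) * (t - s) := mul_pos (by linarith [not_le.1 hl]) (by linarith)
  nlinarith

end Pool.Agent.Lib.FP95
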