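import Pool.Agent.Lib.FP95.Blue

/-! Block DAT: the chart of the time constant and its direction data. -/

namespace Pool.Agent.Lib.FP95

open Set

namespace DAT

theorem dot_apply (x v : R2) : dot x v = x 0 * v 0 + x 1 * v 1 := by simp [dot]

theorem perp0 (x : R2) : perp x 0 = -x 1 := rfl
theorem perp1 (x : R2) : perp x 1 = x 0 := rfl
theorem uu0 (x : R2) (s : ℝ) : uu x s 0 = x 0 - s * x 1 := by simp [uu, perp0, sub_eq_add_neg]
theorem uu1 (x : R2) (s : ℝ) : uu x s 1 = x 1 + s * x 0 := by simp [uu, perp1]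

theorem ext2 {u v : R2} (h0 : u 0 = v 0) (h1 : u 1 = v 1) : u = v := by
  funext i
  fin_cases i
  exacts [h0, h1]

variable {x : R2}

theorem abs0 (hx : x 0 ^ 2 + x 1 ^ 2 = 1) : |x 0| ≤ 1 :=
  abs_le.2 ⟨by nlinarith [sq_nonneg (x 1)], by nlinarith [sq_nonneg (x 1)]⟩

theorem abs1 (hx : x 0 ^ 2 + x 1 ^ 2 = 1) : |x 1| ≤ 1 :=
  abs_le.2 ⟨by nlinarith [sq_nonneg (x 0)], by nlinarith [sq_nonneg (x 0)]⟩

theorem dot_uu (hx : x 0 ^ 2 + x 1 ^ 2 = 1) (s : ℝ) : dot x (uu x s) = 1 := by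
  rw [dot_apply, uu0, uu1]; linear_combination hx

theorem dotp_uu (hx : x 0 ^ 2 + x 1 ^ 2 = 1) (s : ℝ) : dot (perp x) (uu x s) = s := by
  rw [dot_apply, uu0, uu1, perp0, perp1]; linear_combination s * hx

theorem dot_perp (x : R2) : dot x (perp x) = 0 := by
  rw [dot_apply, perp0, perp1]; ring

theorem dotp_perp (hx : x 0 ^ 2 + x 1 ^ 2 = 1) : dot (perp x) (perp x) = 1 := by
  rw [dot_apply, perp0, perp1]; linear_combination hx

theorem dot_le (hx : x 0 ^ 2 + x 1 ^ 2 = 1) (v : R2) : |dot x v| ≤ l1 v := by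
  rw [dot_apply, l1]
  refine (abs_add_le _ _).trans (add_le_add ?_ ?_) <;> rw [abs_mul]
  exacts [mul_le_of_le_one_left (abs_nonneg _) (abs0 hx),
    mul_le_of_le_one_left (abs_nonneg _) (abs1 hx)]

theorem perp_unit (hx : x 0 ^ 2 + x 1 ^ 2 = 1) : perp x 0 ^ 2 + perp x 1 ^ 2 = 1 := by
  rw [perp0, perp1]; linear_combination hx

theorem split (hx : x 0 ^ 2 + x 1 ^ 2 = 1) (s : ℝ) (v : R2) :
    v = dot x v • uu x s + (dot (perp x) v - s * dot x v) • perp x := by
  refine ext2 ?_ ?_ <;>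
    simp only [Pi.add_apply, Pi.smul_apply, smul_eq_mul, dot_apply, uu0, uu1, perp0, perp1]
  · linear_combination (-v 0) * hx
  · linear_combination (-v 1) * hx

theorem l1_nonneg (v : R2) : 0 ≤ l1 v := add_nonneg (abs_nonneg _) (abs_nonneg _)

theorem l1_smul (c : ℝ) (v : R2) : l1 (c • v) = |c| * l1 v := by
  simp [l1, abs_mul, mul_add]

variable {p : Par}

theorem r_le_f (hN : p.Norm) (hx : x 0 ^ 2 + x 1 ^ 2 = 1) (s : ℝ) : p.r ≤ p.f x s := by
  have h1 := dot_le hx (uu x s)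
  rw [dot_uu hx, abs_one] at h1
  exact (le_mul_of_one_le_right p.r_pos.le h1).trans (hN.ge _)

theorem convex (hN : p.Norm) (x : R2) : ConvexOn ℝ univ (p.f x) := by
  refine ⟨convex_univ, fun s _ t _ a b ha hb hab => ?_⟩
  have e : uu x (a • s + b • t) = a • uu x s + b • uu x t := by
    refine ext2 ?_ ?_ <;> simp only [Pi.add_apply, Pi.smul_apply, smul_eq_mul, uu0, uu1]
    · linear_combination (-x 0) * hab
    · linear_combination (-x 1) * hab
  simp only [Par.f]
  rw [e, smul_eq_mul, smul_eq_mul, ← hN.smul a _ ha, ← hN.smul b _ hb]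
  exact hN.add _ _

theorem rho_le (hN : p.Norm) (hx : x 0 ^ 2 + x 1 ^ 2 = 1) {s lam : ℝ} (hs : Sub (p.f x) s lam)
    (v : R2) : (p.f x s - lam * s) * dot x v + lam * dot (perp x) v ≤ p.m v := by
  have pos : ∀ v : R2, 0 < dot x v →
      (p.f x s - lam * s) * dot x v + lam * dot (perp x) v ≤ p.m v := by
    intro v hv
    obtain ⟨t, ht⟩ : ∃ t, t * dot x v = dot (perp x) v := ⟨_, div_mul_cancel₀ _ hv.ne'⟩
    have e := split hx t v
    rw [ht, sub_self, zero_smul, add_zero] at e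
    have e2 : p.m v = dot x v * p.f x t := by
      rw [Par.f, ← hN.smul _ _ hv.le, ← e]
    have := mul_le_mul_of_nonneg_left (hs t) hv.le
    rw [e2, ← ht]
    linarith
  have h0 : 0 ≤ |dot x v| + 1 := by positivity
  have h1 := pos ((|dot x v| + 1) • uu x s + v) (by
    rw [map_add, map_smul, dot_uu hx, smul_eq_mul]
    linarith [neg_abs_le (dot x v)])
  have h2 := hN.add ((|dot x v| + 1) • uu x s) v
  rw [hN.smul _ _ h0] at h2
  rw [map_add, map_smul, dot_uu hx, map_add, map_smul, dotp_uu hx, smul_eq_mul, smul_eq_mul] at h1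
  change _ ≤ _ * p.f x s + _ at h2
  linarith

end DAT

open DAT in
theorem bDAT : St_DAT := by
  intro p x hN hx
  refine ⟨convex hN x, r_le_f hN hx, 4 * p.b + 1 / p.r + 2, fun s lam hs hl => ?_⟩
  have hr := p.r_pos
  have hb : 0 < p.b := hr.trans_le p.r_le
  have hr' : 0 < 1 / p.r := by positivity
  have hf : 0 < p.f x s := hr.trans_le (r_le_f hN hx s)
  have hu : l1 (uu x s) ≤ 4 := by
    have a0 := abs0 hx
    have a1 := abs1 hx
    have b0 : |s * x 0| ≤ 1 := by rw [abs_mul]; exact mul_le_one₀ hs (abs_nonneg _) a0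
    have b1 : |s * x 1| ≤ 1 := by rw [abs_mul]; exact mul_le_one₀ hs (abs_nonneg _) a1
    rw [l1, uu0, uu1]
    linarith [abs_sub (x 0) (s * x 1), abs_add_le (x 1) (s * x 0)]
  have hfb : p.f x s ≤ 4 * p.b :=
    (hN.le _).trans ((mul_le_mul_of_nonneg_left hu hb.le).trans_eq (mul_comm _ _))
  have ma : p.m ((p.f x s)⁻¹ • uu x s) = 1 := by
    rw [hN.smul _ _ (inv_nonneg.2 hf.le)]
    exact inv_mul_cancel₀ hf.ne'
  refine ⟨by linarith, ?_, ?_, ?_, ?_, ?_, ?_, ?_, ?_, ?_, ?_, ?_, ma⟩ <;>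
    simp only [Par.dat, LinearMap.add_apply, LinearMap.sub_apply,
    LinearMap.smul_apply, smul_eq_mul, map_smul, dot_uu hx, dotp_uu hx, dot_perp, dotp_perp hx]
  · intro v
    rw [smul_smul, mul_right_comm, mul_inv_cancel₀ hf.ne', one_mul]
    exact split hx s v
  · rw [mul_one, inv_mul_cancel₀ hf.ne']
  · exact mul_zero _
  · ring
  · ring
  · intro v
    rw [abs_mul, abs_of_pos hf]
    exact mul_le_mul (by linarith) (dot_le hx v) (abs_nonneg _) (by linarith)
  · intro v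
    have h1 := dot_le hx v
    have h2 := dot_le (perp_unit hx) v
    have h3 : |s * dot x v| ≤ l1 v := by
      rw [abs_mul]
      exact (mul_le_of_le_one_left (abs_nonneg _) hs).trans h1
    have h4 := mul_le_mul_of_nonneg_right (show 2 ≤ 4 * p.b + 1 / p.r + 2 by linarith)
      (l1_nonneg v)
    linarith [abs_sub (dot (perp x) v) (s * dot x v)]
  · have h1 := hN.ge ((p.f x s)⁻¹ • uu x s)
    rw [ma] at h1
    have h2 : l1 ((p.f x s)⁻¹ • uu x s) ≤ 1 / p.r := by rw [le_div_iff₀' hr]; exact h1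
    linarith
  · have a0 := abs0 (perp_unit hx)
    have a1 := abs1 (perp_unit hx)
    rw [l1]
    linarith
  · exact rho_le hN hx hl
  · field_simp
    ring

end Pool.Agent.Lib.FP95
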