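import Pool.Agent.Lib.FP95.Blue

/-! Row `DBL`: the doubling argument. -/

namespace Pool.Agent.Lib.FP95

open Filter Topology

theorem bDBL : St_DBL := by
  intro β C u₀ g b0 b1 C0 u0 hg h u hu
  have d0 : 0 < 2 - (2 : ℝ) ^ β := by
    have := Real.rpow_lt_rpow_of_exponent_lt one_lt_two b1
    rw [Real.rpow_one] at this
    linarith
  set K := C / (2 - 2 ^ β) with hK
  have K0 : 0 ≤ K := div_nonneg C0 d0.le
  have e : C = K * (2 - 2 ^ β) := (div_mul_cancel₀ C d0.ne').symm
  have up : 0 < u := u0.trans_le hu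
  by_contra hn
  set c := (g u - K * u ^ β) / u with hc
  have c0 : 0 < c := div_pos (sub_pos.2 (not_le.1 hn)) up
  have key : ∀ k : ℕ, ∃ v, (3 / 2) ^ k * u ≤ v ∧ c * v ≤ g v - K * v ^ β := fun k => by
    induction k with
    | zero => exact ⟨u, by simp, (div_mul_cancel₀ _ up.ne').le⟩
    | succ k ih =>
      obtain ⟨v, v1, v2⟩ := ih
      have v3 : u ≤ v := (le_mul_of_one_le_left up.le (one_le_pow₀ (by norm_num))).trans v1
      have v0 : 0 < v := up.trans_le v3
      obtain ⟨w, w1, w2, w3⟩ := h v (hu.trans v3)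
      have w4 : w ^ β ≤ 2 ^ β * v ^ β := by
        rw [← Real.mul_rpow zero_le_two v0.le]
        exact Real.rpow_le_rpow (by linarith) w2 b0
      refine ⟨w, by rw [pow_succ]; linarith, ?_⟩
      have w5 := mul_le_mul_of_nonneg_left w4 K0
      have w6 := mul_le_mul_of_nonneg_left w2 c0.le
      rw [e] at w3
      linarith
  obtain ⟨T, hT⟩ := eventually_atTop.1 (hg.eventually (gt_mem_nhds c0))
  obtain ⟨k, hk⟩ := (((tendsto_pow_atTop_atTop_of_one_lt
    (by norm_num : (1 : ℝ) < 3 / 2)).atTop_mul_const up).eventually_ge_atTop T).exists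
  obtain ⟨v, v1, v2⟩ := key k
  have v0 : 0 < v := lt_of_lt_of_le (by positivity) v1
  have q := (div_lt_iff₀ v0).1 (hT v (hk.trans v1))
  have := mul_nonneg K0 (Real.rpow_nonneg v0.le β)
  linarith

end Pool.Agent.Lib.FP95
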