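import Pool.Agent.Lib.FP95.Base

/-! Row DET: the deterministic lower bound for the total gain. -/

namespace Pool.Agent.Lib.FP95

open Finset Pool.Agent.Lib.MP_eba68f_pr
open scoped NNReal Classical

namespace DET

lemma memQ94 {L : ℕ} (hL : 1 ≤ L) {u z : V} (h : n1 (z - u) ≤ L) : z ∈ Q L (kx L u) := by
  intro i
  have h0 := abs_nonneg ((z - u) 0 : ℝ)
  have h1 := abs_nonneg ((z - u) 1 : ℝ)
  have h2 : |((z - u) i : ℝ)| ≤ L := by
    unfold n1 at h
    fin_cases i
    · simp only [Fin.zero_eta]; linarith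
    · simp only [Fin.mk_one]; linarith
  have h3 : |z i - u i| ≤ (L : ℤ) := by exact_mod_cast h2
  have hL' : (0 : ℤ) < L := by exact_mod_cast hL
  have h4 := Int.ediv_mul_le (u i) hL'.ne'
  have h5 := Int.lt_ediv_add_one_mul_self (u i) hL'
  have h6 := abs_le.1 h3
  simp only [kx]
  constructor <;> linarith [h6.1, h6.2]

lemma tele94 {p : Par} {τ : Cfg} {X : V} {N : ℕ} {Z : ℕ → V} (g : p.Geo τ 0 X N Z)
    (ρ : R2 →ₗ[ℝ] ℝ) {C δ : ℝ} (hδ : 0 ≤ δ) {c : ℕ → ℕ} (h0 : c 0 = 0) (hm : ∀ l, c l ≤ c (l + 1))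
    (hN : ∀ l, c l ≤ N) (n : ℕ) :
    δ * n1 (Z (c n)) - C * (p.T τ 0 (Z (c n)) - ρ (up (Z (c n)))) ≤ ∑ l ∈ range n,
      (δ * n1 (Z (c (l + 1)) - Z (c l)) -
        C * (p.T τ (Z (c l)) (Z (c (l + 1))) - ρ (up (Z (c (l + 1)) - Z (c l))))) := by
  induction n with
  | zero => simp [h0, g.zero, p.T_self]
  | succ n ih =>
    have h1 := mul_le_mul_of_nonneg_left (n1_tri 0 (Z (c n)) (Z (c (n + 1)))) hδ
    rw [sum_range_succ, ← g.add _ _ (hm n) (hN _), up_sub, map_sub]
    rw [sub_zero, sub_zero] at h1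
    linarith

lemma card94 {L : ℕ} (hL : 1 ≤ L) (N : ℕ) :
    (((range N).filter fun l => l * L < N).card : ℝ) * L ≤ N + L := by
  have h1 : ((range N).filter fun l => l * L < N).card ≤ N / L + 1 := by
    refine (card_le_card fun l hl => mem_range.2 ?_).trans_eq (card_range _)
    exact Nat.lt_succ_of_le ((Nat.le_div_iff_mul_le hL).2 (mem_filter.1 hl).2.le)
  have h2 := (Nat.mul_le_mul_right L h1).trans_eq (Nat.succ_mul _ _)
  exact_mod_cast h2.trans (Nat.add_le_add_right (Nat.div_mul_le_self N L) L)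

end DET

open DET in
theorem bDET (hC : St_CAP) (hM : St_MULT) : St_DET := by
  intro p R d lev C δ ε L Bd B τ X N Z n gd hlev hC0 hδ hε hL hin g hB hgood
  have g0 : ∀ k, 0 ≤ p.gain lev L X k τ := fun k => sub_nonneg.2 ((hC p lev L k τ hlev).1 0 X)
  have hm : ∀ l, min (l * L) N ≤ min ((l + 1) * L) N := fun l =>
    min_le_min_right _ (Nat.mul_le_mul_right _ l.le_succ)
  have h1 := tele94 g d.ρ (C := C) hδ (c := fun l => min (l * L) N) (by simp) hm
    (fun l => min_le_right _ _) N
  simp only [min_eq_right (Nat.le_mul_of_pos_right N hL), g.last] at h1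
  have h2 : ∀ l ∈ range N, δ * n1 (Z (min ((l + 1) * L) N) - Z (min (l * L) N)) -
      C * (p.T τ (Z (min (l * L) N)) (Z (min ((l + 1) * L) N)) -
        d.ρ (up (Z (min ((l + 1) * L) N) - Z (min (l * L) N)))) ≤
      (if l * L < N then p.gain lev L X (kx L (Z (l * L))) τ else 0) +
        (if l * L < N then (C + 1) * ε * L else 0) +
        if l * L < N ∧ τ ∈ Bd (kx L (Z (l * L))) then (δ + C * p.b) * L else 0 := by
    intro l _
    by_cases hl : l * L < N
    · have hj := hm l
      have hjN := min_le_right ((l + 1) * L) N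
      have hjL : ((min ((l + 1) * L) N : ℕ) : ℝ) ≤ (l * L : ℕ) + L := by
        exact_mod_cast (min_le_left _ _).trans_eq (Nat.succ_mul _ _)
      simp only [hl, if_true, true_and, min_eq_left hl.le] at hj ⊢
      generalize min ((l + 1) * L) N = j at hj hjN hjL
      generalize l * L = i at hj hjL hl
      have s1 : n1 (Z j - Z i) ≤ L := by linarith [g.steps hj hjN]
      have s0 := p.T_nonneg τ (Z i) (Z j)
      have e0 : 0 ≤ (C + 1) * ε * L := by positivity
      split_ifs with hb
      · have s2 := (le_abs_self _).trans (n.abs_ρ gd (up (Z j - Z i)))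
        rw [← n1_eq] at s2
        have s3 := mul_le_mul_of_nonneg_left s1 p.b_pos.le
        have s4 := mul_le_mul_of_nonneg_left s1 hδ
        have s5 := mul_le_mul_of_nonneg_left (s2.trans s3) hC0
        have s6 := mul_nonneg hC0 s0
        linarith [g0 (kx L (Z i))]
      · have q1 : Z i ∈ Q L (kx L (Z i)) := memQ94 hL (by simp)
        have q2 := memQ94 hL s1
        have s2 := hgood _ hb _ q1 _ q2
        have s3 := hin (up (Z j - Z i))
        obtain ⟨c1, c2⟩ := hC p lev L (kx L (Z i)) τ hlev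
        have s4 := p.T_tri (cap lev (EQ L (kx L (Z i))) τ) 0 (Z j) X
        have s5 := p.T_tri (cap lev (EQ L (kx L (Z i))) τ) 0 (Z i) (Z j)
        have s6 := mul_le_mul_of_nonneg_left s2 hC0
        rw [← n1_eq, Par.D] at s3
        unfold Par.gain
        linarith [c1 0 (Z i), c1 (Z j) X, c2 _ q1 _ q2, g.add i j hj hjN, g.split hjN]
    · have e1 := min_eq_right (not_lt.1 hl)
      have e2 := min_eq_right ((not_lt.1 hl).trans (Nat.mul_le_mul_right L l.le_succ))
      simp [hl, e1, e2, p.T_self]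
  have h3 := h1.trans (sum_le_sum h2)
  rw [sum_add_distrib, sum_add_distrib, ← sum_filter, ← sum_filter, ← sum_filter, sum_const,
    sum_const, nsmul_eq_mul, nsmul_eq_mul,
    ← sum_fiberwise_of_maps_to (t := B) (g := fun l => kx L (Z (l * L)))
      fun l hl => hB _ (mem_filter.1 hl).2.le] at h3
  have h4 : ∀ k ∈ B, ∑ l ∈ ((range N).filter fun l => l * L < N).filter
      fun l => kx L (Z (l * L)) = k, p.gain lev L X (kx L (Z (l * L))) τ ≤
      (2 * (p.b / p.r) + 1) * p.gain lev L X k τ := fun k _ => by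
    rw [sum_congr rfl fun l hl => by rw [(mem_filter.1 hl).2], sum_const, nsmul_eq_mul,
      filter_filter]
    exact mul_le_mul_of_nonneg_right (hM p τ X N L Z k hL g) (g0 k)
  have h5 := sum_le_sum h4
  rw [← mul_sum] at h5
  have h6 := mul_le_mul_of_nonneg_left (card94 hL N) (show 0 ≤ (C + 1) * ε by positivity)
  unfold nbad
  linarith

end Pool.Agent.Lib.FP95
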