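import Pool.Agent.Lib.FP95.Base

/-! The end of the argument: confinement and the lower bound contradict a small variance. -/

namespace Pool.Agent.Lib.FP95

open Filter Pool.Agent.Lib.MP_eba68f_pr

theorem bEND (hC : St_CONF) (hL : St_LB) : St_END := by
  rintro p R θ κ d lev hn hg hs h1 h2 h3 hθ hU hLo hφ k0 k1 ⟨C', hC', hV⟩
  obtain ⟨K, M₀, hK, hM₀, hc⟩ := hC p R θ {d} hn (fun _ h => h ▸ hg) hθ hU hLo (1 / 4) (by norm_num)
  obtain ⟨c, M₁, c0, -, hl⟩ := hL p R d lev hn hg hs h1 h2 h3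
  obtain ⟨C, hC⟩ := hφ K hK
  have r6 := hg.R1_ge
  have r0 : 0 ≤ p.R1 R := by linarith
  have t := (tendsto_rpow_atTop (show 0 < 2 / 5 - 2 * κ by linarith)).const_mul_atTop c0
  obtain ⟨M, a1, a2, a3⟩ := ((eventually_ge_atTop M₀).and ((eventually_ge_atTop M₁).and
    (t.eventually_gt_atTop ((4 * |C| * p.R1 R ^ (3 / 5 : ℝ) + 1) *
      (2 * (C' * 2 ^ (2 * κ)) + 2 * (p.b * 2) ^ 2))))).exists
  have m1 : 1 ≤ M := hM₀.trans a1
  have m0 : 0 < M := by linarith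
  obtain ⟨W, w0, -, w2, w3⟩ := hc d rfl M M a1 m0.le le_rfl
  have l1 : M ≤ p.R1 R * M := by nlinarith
  have w4 := hC (p.R1 R * M) W (m1.trans l1) w0.le
    (w2.trans (mul_le_mul_of_nonneg_left (Real.rpow_le_rpow m0.le l1 hθ) hK.le))
  rw [Real.mul_rpow r0 m0.le] at w4
  have e1 : 1 ≤ M ^ (3 / 5 : ℝ) := Real.one_le_rpow m1 (by norm_num)
  have e2 : 1 ≤ M ^ (2 * κ) := Real.one_le_rpow m1 (by linarith)
  have e3 : 0 ≤ p.R1 R ^ (3 / 5 : ℝ) := Real.rpow_nonneg r0 _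
  have b1 : max (4 * W) 1 ≤ (4 * |C| * p.R1 R ^ (3 / 5 : ℝ) + 1) * M ^ (3 / 5 : ℝ) := by
    have := mul_le_mul_of_nonneg_right (le_abs_self C) (mul_nonneg e3 (zero_le_one.trans e1))
    have := mul_nonneg (abs_nonneg C) (mul_nonneg e3 (zero_le_one.trans e1))
    exact max_le (by linarith) (by linarith)
  have b2 := hl M (max (4 * W) 1) a2 (le_max_right _ _)
    ((p.pr_mono (p.exit_mono d _ (le_max_left _ _))).trans w3)
  have b3 : p.Vr (fl (M • d.a) + fl (M • d.a)) ≤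
      (2 * (C' * 2 ^ (2 * κ)) + 2 * (p.b * 2) ^ 2) * M ^ (2 * κ) := by
    have v1 := p.Vr_le (fl (M • d.a) + fl (M • d.a)) (fl ((2 * M) • d.a))
    have v2 := hV d rfl (2 * M) (2 * M) (by linarith) (by linarith) le_rfl
    have v3 := n1_fl_add (M • d.a) (M • d.a)
    rw [← add_smul, ← two_mul, ← n1_neg', neg_sub] at v3
    rw [Real.mul_rpow zero_le_two m0.le] at v2
    have v4 := pow_le_pow_left₀ (mul_nonneg p.b_pos.le (n1_nonneg _))
      (mul_le_mul_of_nonneg_left v3 p.b_pos.le) 2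
    have v5 := mul_le_mul_of_nonneg_left e2 (sq_nonneg (p.b * 2))
    linarith
  rw [div_le_iff₀ (lt_max_of_lt_right one_pos)] at b2
  have b4 := b2.trans (mul_le_mul b3 b1 (le_max_of_le_right zero_le_one) ((p.Vr_nonneg _).trans b3))
  have b5 : M = M ^ (2 / 5 - 2 * κ) * (M ^ (2 * κ) * M ^ (3 / 5 : ℝ)) := by
    rw [← Real.rpow_add m0, ← Real.rpow_add m0,
      show 2 / 5 - 2 * κ + (2 * κ + 3 / 5) = 1 by ring, Real.rpow_one]
  have b6 := mul_lt_mul_of_pos_right a3 (mul_pos (one_pos.trans_le e2) (one_pos.trans_le e1))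
  rw [mul_assoc c, ← b5] at b6
  linarith

end Pool.Agent.Lib.FP95
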