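import Pool.Agent.Lib.FP95.Blue

/-! The inequality of Efron and Stein. -/

namespace Pool.Agent.Lib.FP95

open MeasureTheory ProbabilityTheory Function Pool.Agent.Lib.MP_eba68f_pr
open scoped NNReal

namespace ES

variable {α β : Type} [MeasurableSpace α] [MeasurableSpace β]

/-- bounded measurable functions on any space -/
def BM (f : α → ℝ) : Prop := Measurable f ∧ ∃ C, ∀ x, |f x| ≤ C

theorem BM.int {f : α → ℝ} (h : BM f) (μ : Measure α) [IsFiniteMeasure μ] : Integrable f μ := by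
  obtain ⟨h1, C, h2⟩ := h
  exact Integrable.of_bound h1.aestronglyMeasurable C (ae_of_all _ h2)

theorem BM.comp {f : β → ℝ} (h : BM f) {g : α → β} (hg : Measurable g) : BM fun x => f (g x) :=
  ⟨h.1.comp hg, h.2.imp fun _ hC _ => hC _⟩

theorem bm_const (c : ℝ) : BM fun _ : α => c := ⟨measurable_const, |c|, fun _ => le_rfl⟩

theorem BM.sub {f g : α → ℝ} (hf : BM f) (hg : BM g) : BM fun x => f x - g x := by
  obtain ⟨h1, C, h2⟩ := hf
  obtain ⟨h3, D, h4⟩ := hg
  exact ⟨h1.sub h3, C + D, fun x => (abs_sub _ _).trans (add_le_add (h2 x) (h4 x))⟩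

theorem BM.sq {f : α → ℝ} (hf : BM f) : BM fun x => f x ^ 2 := by
  obtain ⟨h1, C, h2⟩ := hf
  refine ⟨h1.pow_const 2, C ^ 2, fun x => ?_⟩
  rw [abs_pow]
  exact pow_le_pow_left₀ (abs_nonneg _) (h2 x) 2

theorem BM.pos {f : α → ℝ} (hf : BM f) : BM fun x => max (f x) 0 := by
  obtain ⟨h1, C, h2⟩ := hf
  refine ⟨h1.max measurable_const, C, fun x => ?_⟩
  rw [abs_of_nonneg (le_max_right _ _)]
  exact max_le ((le_abs_self _).trans (h2 x)) ((abs_nonneg _).trans (h2 x))

theorem BM.par {f : α → β → ℝ} (h : BM fun z : α × β => f z.1 z.2) (ν : Measure β)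
    [IsProbabilityMeasure ν] : BM fun a => ∫ b, f a b ∂ν := by
  obtain ⟨h1, C, h2⟩ := h
  refine ⟨(h1.stronglyMeasurable.integral_prod_right' (ν := ν)).measurable, C, fun a => ?_⟩
  have := norm_integral_le_of_norm_le_const (μ := ν) (f := fun b => f a b) (C := C)
    (ae_of_all _ fun b => h2 (a, b))
  simpa using this

theorem BM.sec {f : α → β → ℝ} (h : BM fun z : α × β => f z.1 z.2) (a : α) : BM (f a) :=
  h.comp (g := fun b => (a, b)) measurable_prodMk_left

variable {ν : Measure β} [IsProbabilityMeasure ν] {φ : β → ℝ}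

theorem expand (h : BM φ) (m : ℝ) :
    ∫ t, (φ t - m) ^ 2 ∂ν = ∫ t, φ t ^ 2 ∂ν - 2 * m * ∫ t, φ t ∂ν + m ^ 2 := by
  have e : ∀ t, (φ t - m) ^ 2 = φ t ^ 2 - 2 * m * φ t + m ^ 2 := fun t => by ring
  simp only [e]
  rw [integral_add (f := fun t => φ t ^ 2 - 2 * m * φ t)
    ((h.sq.int ν).sub ((h.int ν).const_mul _)) (integrable_const _),
    integral_sub (h.sq.int ν) ((h.int ν).const_mul _), integral_const_mul]
  simp

theorem jen (h : BM φ) : max (∫ t, φ t ∂ν) 0 ^ 2 ≤ ∫ t, max (φ t) 0 ^ 2 ∂ν := by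
  have a : max (∫ t, φ t ∂ν) 0 ≤ ∫ t, max (φ t) 0 ∂ν :=
    max_le (integral_mono (h.int ν) (h.pos.int ν) fun t => le_max_left _ _)
      (integral_nonneg fun t => le_max_right _ _)
  have b := expand (ν := ν) h.pos (∫ t, max (φ t) 0 ∂ν)
  have c : 0 ≤ ∫ t, (max (φ t) 0 - ∫ t, max (φ t) 0 ∂ν) ^ 2 ∂ν :=
    integral_nonneg fun t => sq_nonneg _
  nlinarith [pow_le_pow_left₀ (le_max_right _ _) a 2]

theorem one (h : BM φ) (m : ℝ) : ∫ t, (φ t - m) ^ 2 ∂ν =
    (∫ t, φ t ∂ν - m) ^ 2 + ∫ t, ∫ s, max (φ s - φ t) 0 ^ 2 ∂ν ∂ν := by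
  have k1 : BM fun z : β × β => max (φ z.2 - φ z.1) 0 ^ 2 :=
    ((h.comp measurable_snd).sub (h.comp measurable_fst)).pos.sq
  have k2 : BM fun z : β × β => max (φ z.1 - φ z.2) 0 ^ 2 :=
    ((h.comp measurable_fst).sub (h.comp measurable_snd)).pos.sq
  have a : ∫ t, ∫ s, max (φ s - φ t) 0 ^ 2 ∂ν ∂ν = ∫ t, ∫ s, max (φ t - φ s) 0 ^ 2 ∂ν ∂ν :=
    integral_integral_swap (f := fun t s => max (φ s - φ t) 0 ^ 2) (k1.int _)
  have b : ∀ t, ∫ s, max (φ s - φ t) 0 ^ 2 ∂ν + ∫ s, max (φ t - φ s) 0 ^ 2 ∂ν =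
      (φ t - ∫ s, φ s ∂ν) ^ 2 - ((∫ s, φ s ∂ν) ^ 2 - ∫ s, φ s ^ 2 ∂ν) := fun t => by
    rw [← integral_add ((BM.sec (f := fun t s => max (φ s - φ t) 0 ^ 2) k1 t).int ν)
      ((BM.sec (f := fun t s => max (φ t - φ s) 0 ^ 2) k2 t).int ν)]
    have e : ∀ s, max (φ s - φ t) 0 ^ 2 + max (φ t - φ s) 0 ^ 2 = (φ s - φ t) ^ 2 := fun s => by
      rcases le_total (φ s) (φ t) with h1 | h1
      · rw [max_eq_right (by linarith), max_eq_left (by linarith)]
        ring
      · rw [max_eq_left (by linarith), max_eq_right (by linarith)]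
        ring
    simp only [e]
    rw [expand h]
    ring
  have c := integral_add ((BM.par (f := fun t s => max (φ s - φ t) 0 ^ 2) k1 ν).int ν)
    ((BM.par (f := fun t s => max (φ t - φ s) 0 ^ 2) k2 ν).int ν)
  simp only [b] at c
  rw [integral_sub ((h.sub (bm_const _)).sq.int ν) (integrable_const _), expand h] at c
  simp only [integral_const, probReal_univ, one_smul] at c
  rw [expand h]
  linarith

theorem mu (e : Sym2 V) : Measurable fun z : Cfg × ℝ≥0 => update z.1 e z.2 := measurable_update'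

/-- the squared increments -/
def inc (f : Cfg → ℝ) (e : Sym2 V) (τ : Cfg) (t : ℝ≥0) : ℝ := max (f (update τ e t) - f τ) 0 ^ 2

theorem bm_inc {f : Cfg → ℝ} (hf : BM f) (e : Sym2 V) : BM fun z : Cfg × ℝ≥0 => inc f e z.1 z.2 :=
  ((hf.comp (mu e)).sub (hf.comp measurable_fst)).pos.sq

end ES

open ES in
theorem bES (hR : St_RES) : St_ES := by
  intro p f A hf hd
  have := p.prob
  have : IsProbabilityMeasure p.P := by unfold Par.P; infer_instance
  have iu : ∀ {g : Cfg → ℝ}, BM g → ∀ e,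
      ∫ τ, g τ ∂p.P = ∫ τ, ∫ t, g (update τ e t) ∂p.F ∂p.P := fun {g} hg e => by
    rw [← integral_prod (fun z : Cfg × ℝ≥0 => g (update z.1 e z.2)) ((hg.comp (mu e)).int _),
      ← integral_map (mu e).aemeasurable hg.1.aestronglyMeasurable, (hR p e).map_eq]
  rw [variance_eq_integral hf.1.aemeasurable]
  change _ ≤ ∑ e ∈ A, ∫ τ, ∫ t, inc f e τ t ∂p.F ∂p.P
  replace hf : BM f := hf
  induction A using Finset.induction_on generalizing f with
  | empty =>
    have e : f = fun _ => f 0 := funext fun τ => hd (by simp)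
    rw [e]
    simp
  | insert a S ha ih =>
    have u : BM fun z : Cfg × ℝ≥0 => f (update z.1 a z.2) := hf.comp (mu a)
    have hg := BM.par (f := fun τ t => f (update τ a t)) u p.F
    have h4 := ih (fun τ => ∫ t, f (update τ a t) ∂p.F) (fun τ τ' h => ?_) hg
    · have h1 : ∫ τ, (f τ - ∫ τ, f τ ∂p.P) ^ 2 ∂p.P =
          ∫ τ, (∫ t, f (update τ a t) ∂p.F - ∫ τ, f τ ∂p.P) ^ 2 ∂p.P +
            ∫ τ, ∫ t, inc f a τ t ∂p.F ∂p.P := by
        have k := (bm_inc hf a).par p.F
        rw [iu (hf.sub (bm_const _)).sq a, iu k a, ← integral_add ((hg.sub (bm_const _)).sq.int _)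
          ((BM.par (f := fun τ t => ∫ s, inc f a (update τ a t) s ∂p.F) (k.comp (mu a)) p.F).int _)]
        refine integral_congr_ae (ae_of_all _ fun τ => ?_)
        simp only [inc, update_idem]
        exact one (BM.sec (f := fun τ t => f (update τ a t)) u τ) _
      have h2 : ∀ e ∈ S, ∫ τ, ∫ t, inc (fun τ => ∫ t, f (update τ a t) ∂p.F) e τ t ∂p.F ∂p.P ≤
          ∫ τ, ∫ t, inc f e τ t ∂p.F ∂p.P := fun e he => by
        have hea : e ≠ a := fun h => ha (h ▸ he)
        have k := (bm_inc hf e).par p.F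
        rw [iu k a]
        refine integral_mono (((bm_inc hg e).par p.F).int _)
          ((BM.par (f := fun τ s => ∫ t, inc f e (update τ a s) t ∂p.F) (k.comp (mu a)) p.F).int _)
          fun τ => ?_
        have k2 : BM fun z : ℝ≥0 × ℝ≥0 => inc f e (update τ a z.2) z.1 :=
          (bm_inc hf e).comp (g := fun z : ℝ≥0 × ℝ≥0 => (update τ a z.2, z.1))
            (((measurable_update τ).comp measurable_snd).prodMk measurable_fst)
        refine le_trans ?_ (integral_integral_swap (f := fun t s => inc f e (update τ a s) t)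
          (k2.int _)).le
        refine integral_mono (((bm_inc hg e).sec τ).int _)
          ((BM.par (f := fun t s => inc f e (update τ a s) t) k2 p.F).int _) fun t => ?_
        have k3 := fun σ => BM.sec (f := fun τ t => f (update τ a t)) u σ
        simp only [inc]
        rw [← integral_sub ((k3 _).int _) ((k3 _).int _)]
        simp only [← update_comm hea]
        exact jen ((k3 _).sub (k3 _))
      rw [h1, Finset.sum_insert ha, add_comm, iu hf a]
      exact add_le_add le_rfl (h4.trans (Finset.sum_le_sum h2))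
    · refine integral_congr_ae (ae_of_all _ fun t => hd fun e he => ?_)
      by_cases hea : e = a
      · subst hea
        simp
      · rw [update_of_ne hea, update_of_ne hea]
        exact h e ((Finset.mem_insert.1 he).resolve_left hea)

end Pool.Agent.Lib.FP95
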