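import Pool.Agent.Lib.FP95.B_DAT

/-! Block EXT: extreme directions are the points near which the chart is not affine. -/

namespace Pool.Agent.Lib.FP95

open Set Filter Topology

namespace EXT

open DAT

variable {p : Par} {x : R2}

theorem first (hN : p.Norm) (hx : x 0 ^ 2 + x 1 ^ 2 = 1) (t : ℝ) (ht : 0 < t)
    (h : t • x ∈ extremePoints ℝ {z | p.m z ≤ 1}) : 0 ∈ KK (p.f x) := by
  rintro e he ⟨c0, c1, hc⟩
  have pos : ∀ s, 0 < p.f x s := fun s => p.r_pos.trans_le (r_le_f hN hx s)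
  have f0 := hc 0 ⟨by linarith, by linarith⟩
  have f1 := hc (-e) ⟨by linarith, by linarith⟩
  have f2 := hc e ⟨by linarith, by linarith⟩
  have h0 := pos 0
  have h1 := pos (-e)
  have h2 := pos e
  have hm : t * p.f x 0 ≤ 1 := by
    have : p.m (t • x) ≤ 1 := h.1
    rw [hN.smul _ _ ht.le] at this
    simpa [Par.f, uu] using this
  have mem : ∀ s, (t * p.f x 0 / p.f x s) • uu x s ∈ {z | p.m z ≤ 1} := fun s => by
    have := pos s
    change p.m _ ≤ 1
    rw [hN.smul _ _ (by positivity)]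
    exact (div_mul_cancel₀ _ this.ne').trans_le hm
  have key := h.2 (mem (-e)) (mem e) ⟨p.f x (-e) / (2 * p.f x 0), p.f x e / (2 * p.f x 0),
    by positivity, by positivity, by
      rw [← add_div, div_eq_one_iff_eq (by positivity)]
      linarith, by
      rw [smul_smul, smul_smul, show p.f x (-e) / (2 * p.f x 0) * (t * p.f x 0 / p.f x (-e)) = t / 2
        by field_simp, show p.f x e / (2 * p.f x 0) * (t * p.f x 0 / p.f x e) = t / 2 by field_simp]
      refine ext2 ?_ ?_ <;> simp only [Pi.add_apply, Pi.smul_apply, smul_eq_mul, uu0, uu1] <;> ring⟩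
  have := congrArg (dot (perp x)) key
  rw [map_smul, map_smul, dotp_uu hx, smul_eq_mul, smul_eq_mul, dot_apply, perp0, perp1] at this
  have h3 : 0 < t * p.f x 0 / p.f x (-e) * e := by positivity
  linarith

/-- the norm is linear on a cone around a point inside a segment of the unit sphere -/
theorem flat (hN : p.Norm) {a z₁ z₂ : R2} (ha : p.m a = 1) (h1 : p.m z₁ ≤ 1) (h2 : p.m z₂ ≤ 1)
    (h : a ∈ openSegment ℝ z₁ z₂) : ∃ τ : ℝ, 0 < τ ∧ ∀ lam μ : ℝ, |μ| ≤ τ * lam →
      p.m (lam • a + μ • (z₁ - z₂)) = lam := by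
  obtain ⟨α, β, hα, hβ, hab, rfl⟩ := h
  refine ⟨min α β, lt_min hα hβ, ?_⟩
  have le : ∀ lam μ : ℝ, |μ| ≤ min α β * lam →
      p.m (lam • (α • z₁ + β • z₂) + μ • (z₁ - z₂)) ≤ lam := by
    intro lam μ hμ
    have hl : 0 ≤ lam := nonneg_of_mul_nonneg_right ((abs_nonneg _).trans hμ) (lt_min hα hβ)
    have a1 := mul_le_mul_of_nonneg_right (min_le_left α β) hl
    have a2 := mul_le_mul_of_nonneg_right (min_le_right α β) hl
    obtain ⟨b1, b2⟩ := abs_le.1 hμ
    have c1 : 0 ≤ lam * α + μ := by linarith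
    have c2 : 0 ≤ lam * β - μ := by linarith
    have e : lam • (α • z₁ + β • z₂) + μ • (z₁ - z₂) =
        (lam * α + μ) • z₁ + (lam * β - μ) • z₂ := by module
    have d1 := mul_le_mul_of_nonneg_left h1 c1
    have d2 := mul_le_mul_of_nonneg_left h2 c2
    have := hN.add ((lam * α + μ) • z₁) ((lam * β - μ) • z₂)
    rw [hN.smul _ _ c1, hN.smul _ _ c2] at this
    rw [e]
    have e2 : lam * α + lam * β = lam := by rw [← mul_add, hab, mul_one]
    linarith
  intro lam μ hμ
  have hl : 0 ≤ lam := nonneg_of_mul_nonneg_right ((abs_nonneg _).trans hμ) (lt_min hα hβ)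
  refine le_antisymm (le lam μ hμ) ?_
  have l2 := le lam (-μ) (by rwa [abs_neg])
  have := hN.add (lam • (α • z₁ + β • z₂) + μ • (z₁ - z₂))
    (lam • (α • z₁ + β • z₂) + (-μ) • (z₁ - z₂))
  rw [show lam • (α • z₁ + β • z₂) + μ • (z₁ - z₂) + (lam • (α • z₁ + β • z₂) + (-μ) • (z₁ - z₂)) =
    (2 * lam) • (α • z₁ + β • z₂) by module, hN.smul _ _ (by linarith), ha] at this
  linarith

theorem second (hN : p.Norm) (hx : x 0 ^ 2 + x 1 ^ 2 = 1) (s : ℝ) (hs : s ∈ KK (p.f x)) :
    (p.f x s)⁻¹ • uu x s ∈ extremePoints ℝ {z | p.m z ≤ 1} := by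
  have hf : 0 < p.f x s := p.r_pos.trans_le (r_le_f hN hx s)
  have ma : p.m ((p.f x s)⁻¹ • uu x s) = 1 := by
    rw [hN.smul _ _ (inv_nonneg.2 hf.le)]
    exact inv_mul_cancel₀ hf.ne'
  refine ⟨ma.le, fun z₁ h1 z₂ h2 h => ?_⟩
  obtain ⟨τ, hτ, key⟩ := flat hN ma h1 h2 h
  obtain ⟨A, hA⟩ : ∃ A, A = dot x (z₁ - z₂) := ⟨_, rfl⟩
  obtain ⟨B, hB⟩ : ∃ B, B = dot (perp x) (z₁ - z₂) - s * dot x (z₁ - z₂) := ⟨_, rfl⟩
  have hw := split hx s (z₁ - z₂)
  rw [← hB, ← hA] at hw
  rw [hw] at key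
  have hi : ∀ c : ℝ, (c * p.f x s) • (p.f x s)⁻¹ • uu x s = c • uu x s := fun c => by
    rw [smul_smul, mul_assoc, mul_inv_cancel₀ hf.ne', mul_one]
  have B0 : B = 0 := by
    by_contra hB0
    have c1 : ContinuousAt (fun y : ℝ => |(y - s) / B|) s := by fun_prop
    have c2 : ContinuousAt (fun y : ℝ => τ * ((1 - (y - s) / B * A) * p.f x s)) s := by fun_prop
    obtain ⟨ε, hε, ev⟩ := Metric.eventually_nhds_iff.1 (c1.eventually_lt c2 (by simp; positivity))
    refine hs (ε / 2) (by linarith) ⟨(1 + s / B * A) * p.f x s, -(A / B * p.f x s), fun y hy => ?_⟩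
    have := key _ _ (ev (y := y) (by
      rw [Real.dist_eq, abs_lt]
      constructor <;> linarith [hy.1, hy.2])).le
    rw [hi, show (1 - (y - s) / B * A) • uu x s + ((y - s) / B) • (A • uu x s + B • perp x) =
      uu x y by
        rw [smul_add, smul_smul, smul_smul, div_mul_cancel₀ _ hB0]
        unfold uu
        module] at this
    rw [Par.f, this]
    ring
  have A0 : A = 0 := by
    have aux : ∀ μ : ℝ, |μ| ≤ τ * (1 * p.f x s) → 0 ≤ μ * A → μ * A = 0 := by
      intro μ h1 h2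
      have := key _ _ h1
      rw [hi, B0, zero_smul, add_zero, smul_smul, ← add_smul, hN.smul _ _ (by linarith)] at this
      have h3 : μ * A * p.f x s = 0 := by
        change _ * p.f x s = _ at this
        linarith
      exact (mul_eq_zero.1 h3).resolve_right hf.ne'
    have h0 : 0 < τ * (1 * p.f x s) := by positivity
    rcases le_total 0 A with h3 | h3
    · exact (mul_eq_zero.1 (aux _ (abs_of_pos h0).le (by positivity))).resolve_left h0.ne'
    · exact (mul_eq_zero.1 (aux (-(τ * (1 * p.f x s))) (by rw [abs_neg, abs_of_pos h0])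
        (mul_nonneg_of_nonpos_of_nonpos (by linarith) h3))).resolve_left (neg_ne_zero.2 h0.ne')
  rw [A0, B0, zero_smul, zero_smul, add_zero, sub_eq_zero] at hw
  subst hw
  rw [openSegment_same] at h
  exact h.symm

end EXT

theorem bEXT : St_EXT := fun _ _ hN hx => ⟨EXT.first hN hx, EXT.second hN hx⟩

end Pool.Agent.Lib.FP95
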