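import Pool.Agent.Lib.FP95.Base

/-! Many local events of small probability rarely occur together. -/

namespace Pool.Agent.Lib.FP95

open MeasureTheory ProbabilityTheory Filter Topology Pool.Agent.Lib.MP_eba68f_pr
open scoped NNReal ENNReal

namespace FAR

/-- residue class of a site -/
def cls (K : ℕ) (k : V) : V := fun i => k i % (K : ℤ)

noncomputable def box (K : ℕ) : Finset V := Fintype.piFinset fun _ => Finset.Ico (0 : ℤ) K

lemma cls_mem {K : ℕ} (hK : 0 < K) (k : V) : cls K k ∈ box K := by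
  have h : (0 : ℤ) < K := by exact_mod_cast hK
  exact Fintype.mem_piFinset.2 fun i =>
    Finset.mem_Ico.2 ⟨Int.emod_nonneg _ h.ne', Int.emod_lt_of_pos _ h⟩

lemma card_box (K : ℕ) : (box K).card = K ^ 2 := by
  simp [box, Fintype.card_piFinset]

lemma far {K : ℕ} {k k' : V} (h : cls K k = cls K k') (hne : k ≠ k') : (K : ℝ) ≤ n1 (k - k') := by
  obtain ⟨i, hi⟩ := Function.ne_iff.1 hne
  have hd : (K : ℤ) ∣ k i - k' i :=
    Int.ModEq.dvd (show k' i ≡ k i [ZMOD (K : ℤ)] from (congrFun h i).symm)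
  have h1 : (K : ℤ) ≤ |k i - k' i| :=
    Int.le_of_dvd (abs_pos.2 (sub_ne_zero.2 hi)) ((dvd_abs _ _).2 hd)
  have h2 : (K : ℝ) ≤ |(((k - k') i : ℤ) : ℝ)| := by
    rw [Pi.sub_apply]; exact_mod_cast h1
  have h0 := abs_nonneg (((k - k') 0 : ℤ) : ℝ)
  have h3 := abs_nonneg (((k - k') 1 : ℤ) : ℝ)
  unfold n1
  fin_cases i
  · simp only [Fin.zero_eta] at h2; linarith
  · simp only [Fin.mk_one] at h2; linarith

lemma n1_smul (L : ℕ) (v : V) : n1 ((L : ℤ) • v) = L * n1 v := by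
  simp only [n1, Pi.smul_apply, smul_eq_mul, Int.cast_mul, Int.cast_natCast, abs_mul,
    Nat.abs_cast]
  ring

lemma pr_inter (hI : St_IND) (p : Par) {K L : ℕ} {δ : ℝ} {Bd : V → Set Cfg} (hL : 1 ≤ L)
    (hK : 2 * (4 + 6 * (p.b / p.r)) < K) (h : p.Loc L δ Bd) (S : Finset V) (c : V)
    (hS : ∀ k ∈ S, cls K k = c) : p.pr {τ | ∀ k ∈ S, τ ∈ Bd k} ≤ δ ^ S.card := by
  have hL' : (1 : ℝ) ≤ L := by exact_mod_cast hL
  have hm : MeasurableSet {τ | ∀ k ∈ S, τ ∈ Bd k} := by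
    have : {τ | ∀ k ∈ S, τ ∈ Bd k} = ⋂ k ∈ S, Bd k := by ext τ; simp
    rw [this]
    exact S.measurableSet_biInter fun k _ => h.meas k
  have key := hI p V S (fun k => (Bd k).indicator fun _ => (1 : ℝ))
    (fun k => near ((L : ℤ) • k) ((4 + 6 * (p.b / p.r)) * L)) (fun k _ => near_finite _ _)
    (fun k _ => Nice.ind (h.meas k)) (fun k _ τ τ' hτ => by
      by_cases h1 : τ ∈ Bd k
      · simp [h1, h.dep k τ τ' hτ h1]
      · have h2 : τ' ∉ Bd k := fun h2 => h1 (h.dep k τ' τ (fun e he => (hτ e he).symm) h2)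
        simp [h1, h2])
    (fun k hk k' hk' hne => near_disjoint (by
      have h1 := far ((hS k hk).trans (hS k' hk').symm) hne
      rw [← smul_sub, n1_smul]
      nlinarith))
  have e1 : ∀ τ, ∏ k ∈ S, (Bd k).indicator (fun _ => (1 : ℝ)) τ =
      {τ | ∀ k ∈ S, τ ∈ Bd k}.indicator (fun _ => (1 : ℝ)) τ := fun τ => by
    by_cases h1 : ∀ k ∈ S, τ ∈ Bd k
    · rw [Set.indicator_of_mem (show τ ∈ {τ | ∀ k ∈ S, τ ∈ Bd k} from h1)]
      exact Finset.prod_eq_one fun k hk => Set.indicator_of_mem (h1 k hk) _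
    · rw [Set.indicator_of_notMem (show τ ∉ {τ | ∀ k ∈ S, τ ∈ Bd k} from h1)]
      push Not at h1
      obtain ⟨k, hk, hk'⟩ := h1
      exact Finset.prod_eq_zero hk (Set.indicator_of_notMem hk' _)
  simp only [e1] at key
  rw [p.int_ind hm] at key
  rw [key]
  refine (Finset.prod_le_prod (fun k _ => ?_) fun k _ => ?_).trans_eq (Finset.prod_const δ)
  · rw [p.int_ind (h.meas k)]; exact p.pr_nonneg _
  · rw [p.int_ind (h.meas k)]; exact h.small k

end FAR

open FAR in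
theorem bFAR (hIND : St_IND) : St_FAR := by
  classical
  intro p e he
  obtain ⟨K, hK⟩ := exists_nat_gt (2 * (4 + 6 * (p.b / p.r)))
  have hK0 : 0 < K := by
    have : (0 : ℝ) < K := by linarith [p.one_le_ratio]
    exact_mod_cast this
  obtain ⟨q, hq⟩ := exists_nat_ge ((K : ℝ) ^ 2 / e)
  rw [div_le_iff₀ he] at hq
  refine ⟨(1 / 36) ^ q, by positivity, fun L Bd hL h n A hA => ?_⟩
  set T := A.powerset.filter fun S => (∃ c, ∀ k ∈ S, cls K k = c) ∧ n ≤ q * S.card with hT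
  have hsub : {τ | e * n ≤ ((A.filter fun k => τ ∈ Bd k).card : ℝ)} ⊆
      ⋃ S ∈ T, {τ | ∀ k ∈ S, τ ∈ Bd k} := by
    intro τ hτ
    set B := A.filter fun k => τ ∈ Bd k with hB
    obtain ⟨c, -, hc⟩ := Finset.exists_max_image (box K)
      (fun c => (B.filter fun k => cls K k = c).card) ⟨_, cls_mem hK0 0⟩
    have h1 := Finset.card_le_mul_card_image_of_maps_to (s := B) (t := box K) (f := cls K)
      (fun k _ => cls_mem hK0 k) _ hc
    rw [card_box] at h1
    set S := B.filter fun k => cls K k = c with hS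
    have h2 : (B.card : ℝ) ≤ S.card * (K : ℝ) ^ 2 := by exact_mod_cast h1
    have h3 : e * n ≤ (B.card : ℝ) := hτ
    have h4 : (n : ℝ) ≤ q * S.card := by
      have h5 : (0 : ℝ) ≤ S.card := Nat.cast_nonneg _
      have h6 : e * n ≤ e * (q * S.card) := by nlinarith
      exact le_of_mul_le_mul_left h6 he
    refine Set.mem_iUnion₂.2 ⟨S, Finset.mem_filter.2 ⟨Finset.mem_powerset.2
      ((Finset.filter_subset _ _).trans (Finset.filter_subset _ _)),
      ⟨c, fun k hk => (Finset.mem_filter.1 hk).2⟩, by exact_mod_cast h4⟩, fun k hk => ?_⟩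
    exact (Finset.mem_filter.1 (Finset.mem_filter.1 hk).1).2
  refine (p.pr_mono hsub).trans ((p.pr_biUnion_le T _).trans ?_)
  have h1 : ∀ S ∈ T, p.pr {τ | ∀ k ∈ S, τ ∈ Bd k} ≤ (1 / 36) ^ n := fun S hS => by
    obtain ⟨-, ⟨c, hc⟩, hn⟩ := Finset.mem_filter.1 hS
    refine (pr_inter hIND p hL hK h S c hc).trans ?_
    rw [← pow_mul]
    exact pow_le_pow_of_le_one (by norm_num) (by norm_num) hn
  have h2 : (T.card : ℝ) ≤ 2 ^ (n + 1) := by
    have h3 : T.card ≤ 2 ^ (n + 1) := (Finset.card_filter_le _ _).trans (by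
      rw [Finset.card_powerset]; exact Nat.pow_le_pow_right (by norm_num) hA)
    exact_mod_cast h3
  refine (Finset.sum_le_card_nsmul T _ _ h1).trans ?_
  rw [nsmul_eq_mul]
  refine (mul_le_mul_of_nonneg_right h2 (by positivity)).trans_eq ?_
  rw [pow_succ, mul_comm ((2 : ℝ) ^ n), mul_assoc, ← mul_pow]
  norm_num

end Pool.Agent.Lib.FP95
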