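import Pool.Agent.Lib.FP95.Base

/-! Row FIN: back to the Euclidean plane. -/

namespace Pool.Agent.Lib.FP95

open MeasureTheory ProbabilityTheory Pool.Agent.Lib.MP_eba68f_pr
open scoped NNReal

namespace FIN

lemma ext_iff {f : EuclideanSpace ℝ (Fin 2) → ℝ} {g : R2 → ℝ} (h : ∀ z, f z = g z.ofLp)
    (z : EuclideanSpace ℝ (Fin 2)) :
    z ∈ Set.extremePoints ℝ {z | f z ≤ 1} ↔ z.ofLp ∈ Set.extremePoints ℝ {z | g z ≤ 1} := by
  have e : (WithLp.linearEquiv 2 ℝ R2) '' {z : EuclideanSpace ℝ (Fin 2) | f z ≤ 1} =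
      {z | g z ≤ 1} := by
    ext w
    constructor
    · rintro ⟨z, hz, rfl⟩
      exact (h z).symm.trans_le hz
    · exact fun hw => ⟨WithLp.toLp 2 w, (h _).trans_le hw, rfl⟩
  rw [← e, ← image_extremePoints]
  exact ((WithLp.linearEquiv 2 ℝ R2).injective.mem_set_image (a := z)).symm

lemma nsq (z : EuclideanSpace ℝ (Fin 2)) : ‖z‖ ^ 2 = z.ofLp 0 ^ 2 + z.ofLp 1 ^ 2 := by
  rw [EuclideanSpace.real_norm_sq_eq, Fin.sum_univ_two]

end FIN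

theorem bFIN (hMU : St_MU) (hEXT : St_EXT) (hMAIN : St_MAIN) (hOUT : St_OUT) : St_FIN := by
  intro F hF r b a hr h1 ha x hx ⟨t, ht, hte⟩ hlt ε hε
  have hrb : r ≤ b := by
    by_contra hn
    rw [Set.Icc_eq_empty hn, measure_empty] at h1
    exact zero_ne_one h1
  have hra : r ≤ a := by
    by_contra hn
    have h2 : F (Set.Icc r b)ᶜ = 0 := (prob_compl_eq_zero_iff measurableSet_Icc).2 h1
    refine ha.ne' (measure_mono_null ?_ h2)
    exact fun y hy h => hn (le_trans h.1 hy)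
  let p : Par := ⟨F, hF, r, b, hr, hrb⟩
  have n := hMU p
  obtain ⟨o1, o2⟩ := hOUT p h1
  have hx0 : x.ofLp 0 ^ 2 + x.ofLp 1 ^ 2 = 1 := by rw [← FIN.nsq, hx, one_pow]
  obtain ⟨e1, e2⟩ := hEXT p x.ofLp n hx0
  obtain ⟨s, s1, s2, s3⟩ := hMAIN p x.ofLp a (min ε 1 / 2) hx0 hra ha
    (by rw [← o1]; simpa only [l1, Fin.sum_univ_two] using hlt)
    (e1 t ht ((FIN.ext_iff o1 _).1 hte)) (by positivity)
  obtain ⟨u, hu⟩ : ∃ u : EuclideanSpace ℝ (Fin 2), u.ofLp = uu x.ofLp s := ⟨WithLp.toLp 2 _, rfl⟩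
  have d1 : ‖u - x‖ = |s| := by
    rw [← sq_eq_sq₀ (norm_nonneg _) (abs_nonneg _), FIN.nsq, sq_abs]
    simp only [WithLp.ofLp_sub, hu, uu, perp, add_sub_cancel_left, Pi.smul_apply, smul_eq_mul,
      Matrix.cons_val_zero, Matrix.cons_val_one]
    linear_combination s ^ 2 * hx0
  have d2 := abs_norm_sub_norm_le u x
  rw [hx, d1] at d2
  have m1 := min_le_left ε 1
  have m2 := min_le_right ε 1
  have c0 : 0 < ‖u‖ := by linarith [(abs_le.1 d2).1]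
  have y1 : ‖‖u‖⁻¹ • u‖ = 1 := norm_smul_inv_norm (norm_pos_iff.1 c0)
  have y2 : ‖u‖ • ‖u‖⁻¹ • u = u := smul_inv_smul₀ c0.ne' u
  have f0 : 0 < p.f x.ofLp s := by
    refine lt_of_lt_of_le (mul_pos p.r_pos ((l1_nonneg _).lt_of_ne fun h => ?_)) (n.ge _)
    exact norm_pos_iff.1 c0 (WithLp.ofLp_injective 2 (hu.trans (l1_eq_zero h.symm)))
  refine ⟨‖u‖⁻¹ • u, y1, ?_, ⟨(p.f x.ofLp s)⁻¹ * ‖u‖, by positivity, ?_⟩, not_lt.1 fun h => s3 ?_⟩
  · have d3 : ‖‖u‖⁻¹ • u - u‖ = |‖u‖ - 1| := by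
      rw [norm_sub_rev, show u - ‖u‖⁻¹ • u = (‖u‖ - 1) • ‖u‖⁻¹ • u by rw [sub_smul, y2, one_smul],
        norm_smul, y1, mul_one, Real.norm_eq_abs]
    have := dist_triangle (‖u‖⁻¹ • u) u x
    rw [dist_eq_norm _ u, dist_eq_norm u, d1, d3] at this
    linarith
  · rw [mul_smul, y2]
    refine (FIN.ext_iff o1 _).2 ?_
    rw [WithLp.ofLp_smul, hu]
    exact e2 s s1
  · have := o2 _ _ c0 h
    rwa [← WithLp.ofLp_smul, y2, hu] at this

end Pool.Agent.Lib.FP95
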