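import Pool.Agent.Lib.FP95.Blue

/-! The inequality of Harris for a general weight law. -/

namespace Pool.Agent.Lib.FP95

open MeasureTheory ProbabilityTheory Filter Function Pool.Agent.Lib.MP_eba68f_pr
open scoped NNReal ENNReal

namespace HAR

theorem intg {α : Type} [MeasurableSpace α] (μ : Measure α) [IsProbabilityMeasure μ] {f : α → ℝ}
    (hf : Measurable f) {C : ℝ} (hC : ∀ a, |f a| ≤ C) : Integrable f μ :=
  Integrable.of_bound hf.aestronglyMeasurable C (ae_of_all _ hC)

theorem bd_mul {α : Type} {f g : α → ℝ} {C D : ℝ} (hC : ∀ a, |f a| ≤ C) (hD : ∀ a, |g a| ≤ D)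
    (a : α) : |f a * g a| ≤ C * D := by
  rw [abs_mul]
  exact mul_le_mul (hC a) (hD a) (abs_nonneg _) ((abs_nonneg _).trans (hC a))

theorem cheb (F : Measure ℝ≥0) [IsProbabilityMeasure F] {φ ψ : ℝ≥0 → ℝ} (hφ : Monotone φ)
    (hψ : Monotone ψ) {C D : ℝ} (hC : ∀ a, |φ a| ≤ C) (hD : ∀ a, |ψ a| ≤ D) :
    (∫ t, φ t ∂F) * ∫ t, ψ t ∂F ≤ ∫ t, φ t * ψ t ∂F := by
  have i1 := intg F hφ.measurable hC
  have i2 := intg F hψ.measurable hD
  have i3 : Integrable (fun t => φ t * ψ t) F :=
    intg F (hφ.measurable.mul hψ.measurable) (bd_mul hC hD)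
  have h1 : ∀ t, φ t * (∫ s, ψ s ∂F) + ψ t * ∫ s, φ s ∂F ≤ φ t * ψ t + ∫ s, φ s * ψ s ∂F := by
    intro t
    have h := integral_mono ((i2.const_mul (φ t)).add (i1.const_mul (ψ t)))
      ((integrable_const (φ t * ψ t)).add i3) fun s => by
        have h0 : 0 ≤ (φ t - φ s) * (ψ t - ψ s) := by
          rcases le_total s t with h | h
          · exact mul_nonneg (sub_nonneg.2 (hφ h)) (sub_nonneg.2 (hψ h))
          · exact mul_nonneg_of_nonpos_of_nonpos (sub_nonpos.2 (hφ h)) (sub_nonpos.2 (hψ h))
        simp only [Pi.add_apply]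
        linarith
    simp only [Pi.add_apply] at h
    rwa [integral_add (i2.const_mul _) (i1.const_mul _), integral_add (integrable_const _) i3,
      integral_const_mul, integral_const_mul, integral_const, probReal_univ, one_smul] at h
  have h2 := integral_mono ((i1.mul_const _).add (i2.mul_const _))
    (i3.add (integrable_const _)) h1
  simp only [Pi.add_apply] at h2
  rw [integral_add (i1.mul_const _) (i2.mul_const _), integral_add i3 (integrable_const _),
    integral_mul_const, integral_mul_const, integral_const, probReal_univ, one_smul] at h2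
  linarith

/-- The average over one coordinate. -/
noncomputable def av (p : Par) (e : Sym2 V) (f : Cfg → ℝ) (τ : Cfg) : ℝ :=
  ∫ t, f (update τ e t) ∂p.F

theorem av_nice (hR : St_RES) (p : Par) (e : Sym2 V) {f : Cfg → ℝ} (hf : Nice f) :
    Nice (av p e f) := by
  haveI := p.prob
  obtain ⟨hm, C, hC⟩ := hf
  refine ⟨((hm.comp (hR p e).measurable).stronglyMeasurable.integral_prod_right').measurable,
    C, fun τ => ?_⟩
  have h := norm_integral_le_of_norm_le_const (μ := p.F) (f := fun t => f (update τ e t)) (C := C)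
    (ae_of_all _ fun t => hC _)
  rwa [probReal_univ, mul_one] at h

theorem av_int (hR : St_RES) (p : Par) (e : Sym2 V) {f : Cfg → ℝ} (hf : Nice f) :
    ∫ τ, f τ ∂p.P = ∫ τ, av p e f τ ∂p.P := by
  haveI := p.prob
  haveI : IsProbabilityMeasure p.P := by unfold Par.P; infer_instance
  obtain ⟨hm, C, hC⟩ := hf
  have h1 := integral_map (μ := p.P.prod p.F) (hR p e).measurable.aemeasurable
    hm.aestronglyMeasurable
  rw [(hR p e).map_eq] at h1
  exact h1.trans (integral_prod _ (intg _ (hm.comp (hR p e).measurable) fun z => hC _))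

theorem av_mono (p : Par) (e : Sym2 V) {f : Cfg → ℝ} (hf : Nice f) (hm : Monotone f) :
    Monotone (av p e f) := fun τ τ' h => by
  haveI := p.prob
  obtain ⟨m, C, hC⟩ := hf
  exact integral_mono (intg _ (m.comp (measurable_update τ)) fun t => hC _)
    (intg _ (m.comp (measurable_update τ')) fun t => hC _)
    fun t => hm (update_le_update_iff.2 ⟨le_rfl, fun j _ => h j⟩)

theorem main (hR : St_RES) (p : Par) (S : Finset (Sym2 V)) : ∀ f g : Cfg → ℝ, Nice f → Nice g →
    Monotone f → Monotone g → DependsOn f (S : Set (Sym2 V)) →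
    (∫ τ, f τ ∂p.P) * (∫ τ, g τ ∂p.P) ≤ ∫ τ, f τ * g τ ∂p.P := by
  haveI := p.prob
  haveI : IsProbabilityMeasure p.P := by unfold Par.P; infer_instance
  induction S using Finset.induction_on with
  | empty =>
    intro f g _ _ _ _ hd
    have h : f = fun _ => f 0 := funext fun τ => hd fun i hi => absurd hi (by simp)
    rw [h, integral_const_mul, integral_const, probReal_univ, one_smul]
  | insert e S he ih =>
    intro f g nf ng mf mg hd
    obtain ⟨C, hC⟩ := nf.2
    obtain ⟨D, hD⟩ := ng.2
    have nfg : Nice fun τ => f τ * g τ := ⟨nf.1.mul ng.1, _, bd_mul hC hD⟩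
    have af := av_nice hR p e nf
    have ag := av_nice hR p e ng
    have afg := av_nice hR p e nfg
    obtain ⟨C', hC'⟩ := af.2
    obtain ⟨D', hD'⟩ := ag.2
    obtain ⟨K, hK⟩ := afg.2
    rw [av_int hR p e nf, av_int hR p e ng, av_int hR p e nfg]
    refine (ih _ _ af ag (av_mono p e nf mf) (av_mono p e ng mg) fun τ τ' h => ?_).trans
      (integral_mono (intg _ (af.1.mul ag.1) (bd_mul hC' hD')) (intg _ afg.1 hK) fun τ => ?_)
    · refine integral_congr_ae (ae_of_all _ fun t => hd fun a ha => ?_)
      by_cases hae : a = e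
      · rw [hae, update_self, update_self]
      · rw [update_of_ne hae, update_of_ne hae]
        exact h a ((Finset.mem_insert.1 ha).resolve_left hae)
    · exact cheb p.F (mf.comp (update_mono (f := τ))) (mg.comp (update_mono (f := τ)))
        (fun t => hC _) fun t => hD _

end HAR

theorem bHAR (hR : St_RES) : St_HAR := fun p f g _ hA nf ng mf mg hf _ =>
  HAR.main hR p hA.toFinset f g nf ng mf mg (by rwa [Set.Finite.coe_toFinset])

end Pool.Agent.Lib.FP95
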