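import Pool.Agent.Lib.FP95.Base

/-! From the doubling step to the bound on the mean excess. -/

namespace Pool.Agent.Lib.FP95

open MeasureTheory ProbabilityTheory Filter Topology Pool.Agent.Lib.MP_eba68f_pr

namespace IL

lemma int_max (p : Par) (v : V) (l s c : ℝ) (hs : 0 < s) (hv : p.Vr v ≤ s ^ 2) (hc : 0 ≤ c)
    (hg : p.h v - l ≤ c) : ∫ τ, max (p.T τ 0 v - l) 0 ∂p.P ≤ s + c := by
  have n0 : Nice fun τ => p.T τ 0 v - p.h v := (p.T_nice 0 v).sub (Nice.const _)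
  have n1' : Nice fun τ => max (p.T τ 0 v - l) 0 :=
    ((p.T_nice 0 v).sub (Nice.const _)).max (Nice.const 0)
  have h := integral_mono (n1'.int p.P) ((n0.abs.add (Nice.const c)).int p.P) fun τ => by
    show max (p.T τ 0 v - l) 0 ≤ |p.T τ 0 v - p.h v| + c
    refine max_le ?_ ?_
    · linarith [le_abs_self (p.T τ 0 v - p.h v)]
    · linarith [abs_nonneg (p.T τ 0 v - p.h v)]
  rw [integral_add (n0.abs.int p.P) ((Nice.const c).int p.P)] at h
  simp only [integral_const, probReal_univ, smul_eq_mul, one_mul] at h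
  linarith [p.abs_dev v hs hv]

end IL

theorem bIL (hSTEP : St_STEP) (hDBL : St_DBL) : St_IL := by
  intro p R θ κ ζ β S hN hG hθ0 hθ1 hκ hζ0 hζ1 hβ1 hβ2 hβ3 hU hL hV
  obtain ⟨C, M₀, hC, hM₀, hst⟩ := hSTEP p R θ κ ζ β S hN hG hθ0 hθ1 hκ hζ0 hζ1 hβ1 hβ2 hU hL hV
  obtain ⟨Cv, hCv, hV⟩ := hV
  have hβ0 : 0 ≤ β := by linarith
  have h2 : (2 : ℝ) ^ β < 2 := by
    have := Real.rpow_lt_rpow_of_exponent_lt (x := 2) (by norm_num) hβ3
    rwa [Real.rpow_one] at this
  have hC1 : 0 ≤ C / (2 - 2 ^ β) := div_nonneg hC (by linarith)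
  have hb := p.b_pos
  have hC2 : 0 ≤ p.b * (M₀ * |R| + 2) :=
    mul_nonneg hb.le (by linarith [mul_nonneg (zero_le_one.trans hM₀) (abs_nonneg R)])
  have hs0 : 0 < Cv + 1 := by linarith
  refine ⟨(Cv + 1) + (C / (2 - 2 ^ β) + p.b * (M₀ * |R| + 2)), by linarith, ?_⟩
  intro d hd N l hN1 hl0 hlN
  have g := hG d hd
  have hNβ : 1 ≤ N ^ β := Real.one_le_rpow hN1 hβ0
  have hNκ : 0 < N ^ κ := Real.rpow_pos_of_pos (by linarith) κ
  have hκβ : N ^ κ ≤ N ^ β := Real.rpow_le_rpow_of_exponent_le hN1 (by linarith)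
  have hvar : p.Vr (fl (l • d.a)) ≤ ((Cv + 1) * N ^ κ) ^ 2 := by
    have h1 := hV d hd N l hN1 hl0 hlN
    have h3 : N ^ (2 * κ) = (N ^ κ) ^ 2 := by
      rw [mul_comm, Real.rpow_mul (by linarith), Real.rpow_two]
    rw [h3] at h1
    have h4 : Cv ≤ (Cv + 1) ^ 2 := by nlinarith
    rw [mul_pow]
    exact h1.trans (mul_le_mul_of_nonneg_right h4 (sq_nonneg _))
  have hmean : p.h (fl (l • d.a)) - l ≤ (C / (2 - 2 ^ β) + p.b * (M₀ * |R| + 2)) * N ^ β := by
    have hA : 0 ≤ C / (2 - 2 ^ β) * N ^ β := mul_nonneg hC1 (by linarith)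
    have hB : p.b * (M₀ * |R| + 2) ≤ p.b * (M₀ * |R| + 2) * N ^ β :=
      le_mul_of_one_le_right hC2 hNβ
    rw [add_mul]
    rcases le_total M₀ l with hl | hl
    · have hlim : Tendsto (fun u : ℝ => (p.h (fl (u • d.a)) - u) / u) atTop (𝓝 0) := by
        have h1 := (hN.lim d.a).sub_const 1
        rw [g.ma, sub_self] at h1
        refine h1.congr' ?_
        filter_upwards [eventually_gt_atTop (0 : ℝ)] with u hu
        rw [sub_div, div_self hu.ne']
      have h1 := hDBL β C M₀ (fun u => p.h (fl (u • d.a)) - u) hβ0 hβ3 hC (by linarith) hlim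
        (fun u hu => hst d hd u hu) l hl
      have h3 : l ^ β ≤ N ^ β := Real.rpow_le_rpow hl0 hlN hβ0
      have h4 := mul_le_mul_of_nonneg_left h3 hC1
      linarith
    · have h1 := p.h_le (fl (l • d.a))
      have h3 := g.n1_fl hl0
      have h4 : l * R ≤ M₀ * |R| :=
        mul_le_mul hl (le_abs_self R) (zero_le_one.trans g.one_le) (zero_le_one.trans hM₀)
      have h5 : p.b * n1 (fl (l • d.a)) ≤ p.b * (M₀ * |R| + 2) :=
        mul_le_mul_of_nonneg_left (by linarith) hb.le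
      linarith
  have h := IL.int_max p (fl (l • d.a)) l _ _ (mul_pos hs0 hNκ) hvar
    (mul_nonneg (by linarith) (by linarith)) hmean
  have h6 := mul_le_mul_of_nonneg_left hκβ hs0.le
  rw [add_mul]
  linarith

end Pool.Agent.Lib.FP95
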