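import Pool.Agent.Lib.FP95.Blue

/-! Row IND. -/

namespace Pool.Agent.Lib.FP95

open MeasureTheory ProbabilityTheory Filter Topology Pool.Agent.Lib.MP_eba68f_pr
open scoped NNReal ENNReal

namespace IND

open Classical in
theorem fac {f : Cfg → ℝ} {S : Finset (Sym2 V)} (hm : Measurable f) (hd : DependsOn f S) :
    ∃ g : (S → ℝ≥0) → ℝ, Measurable g ∧ f = g ∘ fun τ (e : S) => τ e := by
  refine ⟨fun y => f fun e => if h : e ∈ S then y ⟨e, h⟩ else 0, hm.comp ?_, funext fun τ => ?_⟩
  · refine measurable_pi_lambda _ fun e => ?_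
    by_cases h : e ∈ S
    · simpa only [dif_pos h] using measurable_pi_apply _
    · simpa only [dif_neg h] using measurable_const
  · exact hd fun e he => by simp [Finset.mem_coe.1 he]

theorem two (p : Par) {f g : Cfg → ℝ} {A B : Set (Sym2 V)} (hA : A.Finite) (hB : B.Finite)
    (hf : Measurable f) (hg : Measurable g) (df : DependsOn f A) (dg : DependsOn g B)
    (h : Disjoint A B) : ∫ τ, f τ * g τ ∂p.P = (∫ τ, f τ ∂p.P) * ∫ τ, g τ ∂p.P := by
  have := p.prob
  lift A to Finset (Sym2 V) using hA
  lift B to Finset (Sym2 V) using hB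
  obtain ⟨f', f1, f2⟩ := fac hf df
  obtain ⟨g', g1, g2⟩ := fac hg dg
  have i : iIndepFun (fun (e : Sym2 V) (τ : Cfg) => τ e) p.P :=
    iIndepFun_infinitePi (X := fun _ => id) fun _ => measurable_id
  have j : IndepFun f g p.P := by
    rw [f2, g2]
    exact (i.indepFun_finset A B (Finset.disjoint_coe.1 h) fun e => measurable_pi_apply e).comp f1 g1
  exact j.integral_fun_mul_eq_mul_integral hf.aestronglyMeasurable hg.aestronglyMeasurable

end IND

theorem bIND : St_IND := by
  classical
  intro p ι s f A h1 h2 h3 h4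
  have := p.prob
  induction s using Finset.induction_on with
  | empty => simp [Par.P]
  | insert a s ha ih =>
    have m : ∀ {i}, i ∈ s → i ∈ insert a s := Finset.mem_insert_of_mem
    simp only [Finset.prod_insert ha]
    rw [← ih (fun i hi => h1 i (m hi)) (fun i hi => h2 i (m hi)) (fun i hi => h3 i (m hi))
      (h4.subset (Finset.coe_subset.2 (Finset.subset_insert a s)))]
    refine IND.two p (B := ⋃ i ∈ s, A i) (h1 a (Finset.mem_insert_self a s))
      (s.finite_toSet.biUnion fun i hi => h1 i (m hi)) (h2 a (Finset.mem_insert_self a s)).1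
      (Finset.measurable_prod s fun i hi => (h2 i (m hi)).1) (h3 a (Finset.mem_insert_self a s))
      (fun x y h => Finset.prod_congr rfl fun i hi => h3 i (m hi) fun e he =>
        h e (Set.mem_biUnion hi he)) ?_
    refine Set.disjoint_iUnion₂_right.2 fun i hi => h4 (Finset.mem_coe.2 (Finset.mem_insert_self a s))
      (Finset.mem_coe.2 (m hi)) fun e => ha (e ▸ hi)

end Pool.Agent.Lib.FP95
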