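import Pool.Agent.Lib.FP95.Base

/-! Block KES: linear bound for the variance of the passage time. -/

namespace Pool.Agent.Lib.FP95

open MeasureTheory ProbabilityTheory Pool.Agent.Lib.MP_eba68f_pr
open scoped NNReal

namespace KES

open Classical in
theorem LW_upd (p : Par) (τ : Cfg) (e : Sym2 V) (t : ℝ≥0) {l : List (Sym2 V)} (hl : l.Nodup) :
    p.LW (Function.update τ e t) l ≤ p.LW τ l + if e ∈ l then p.b else 0 := by
  induction l with
  | nil => simp
  | cons a l ih =>
    rw [List.nodup_cons] at hl
    have h := ih hl.2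
    rw [Par.LW_cons, Par.LW_cons]
    by_cases ha : a = e
    · subst ha
      rw [if_neg hl.1] at h
      rw [if_pos List.mem_cons_self, Function.update_self]
      linarith [p.w_le t, p.w_ge (τ a), p.r_pos]
    · rw [Function.update_of_ne ha]
      by_cases he : e ∈ l
      · rw [if_pos he] at h
        rw [if_pos (List.mem_cons_of_mem _ he)]
        linarith
      · rw [if_neg he] at h
        rw [if_neg (fun h' => (List.mem_cons.1 h').elim (fun h'' => ha h''.symm) he)]
        linarith

end KES

theorem bKES (hES : St_ES) : St_KES := by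
  classical
  intro p
  haveI := p.prob
  have hb := p.b_pos
  have hr := p.r_pos
  refine ⟨p.b ^ 2 * (p.b / p.r), by positivity, fun v => ?_⟩
  have hfin := near_finite (0 : V) (p.b / p.r * n1 (v - 0))
  have h1 := hES p (fun τ => p.T τ 0 v) hfin.toFinset (p.T_nice 0 v)
    (by rw [hfin.coe_toFinset]; exact p.T_dep 0 v)
  refine le_trans h1 ?_
  set g : Sym2 V → Cfg → ℝ := fun e τ =>
    ∫ t, (max (p.T (Function.update τ e t) 0 v - p.T τ 0 v) 0) ^ 2 ∂p.F with hg
  have key : ∀ τ, ∃ l : List (Sym2 V), (l.length : ℝ) ≤ p.b / p.r * n1 v ∧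
      ∀ e, 0 ≤ g e τ ∧ g e τ ≤ if e ∈ l then p.b ^ 2 else 0 := by
    intro τ
    obtain ⟨q, hq, hw⟩ := p.exists_geo τ 0 v
    refine ⟨q.edges, by simpa using p.geo_length hw, fun e =>
      ⟨integral_nonneg fun t => sq_nonneg _, ?_⟩⟩
    have h2 : ∀ t, (max (p.T (Function.update τ e t) 0 v - p.T τ 0 v) 0) ^ 2 ≤
        if e ∈ q.edges then p.b ^ 2 else 0 := by
      intro t
      have h3 := KES.LW_upd p τ e t hq.isTrail.edges_nodup
      have h4 := p.T_le_LW (Function.update τ e t) q
      split_ifs at h3 ⊢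
      · exact pow_le_pow_left₀ (le_max_right _ _) (max_le (by linarith) hb.le) 2
      · rw [max_eq_right (by linarith)]; simp
    have h5 := integral_mono_of_nonneg (μ := p.F) (ae_of_all _ fun t => sq_nonneg _)
      (integrable_const _) (ae_of_all _ h2)
    simpa using h5
  have hn : ∀ e, Nice (g e) := by
    intro e
    refine ⟨?_, p.b ^ 2, fun τ => ?_⟩
    · have hm : Measurable fun z : Cfg × ℝ≥0 =>
          (max (p.T (Function.update z.1 e z.2) 0 v - p.T z.1 0 v) 0) ^ 2 :=
        ((((p.T_meas 0 v).comp measurable_update').sub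
          ((p.T_meas 0 v).comp measurable_fst)).max measurable_const).pow_const 2
      exact (hm.stronglyMeasurable.integral_prod_right' (ν := p.F)).measurable
    · obtain ⟨l, -, hl⟩ := key τ
      rw [abs_of_nonneg (hl e).1]
      refine (hl e).2.trans ?_
      split_ifs
      · exact le_rfl
      · positivity
  change ∑ e ∈ hfin.toFinset, ∫ τ, g e τ ∂p.P ≤ _
  rw [← integral_finsetSum _ fun e _ => (hn e).int p.P]
  have h6 : ∀ τ, ∑ e ∈ hfin.toFinset, g e τ ≤ p.b ^ 2 * (p.b / p.r) * n1 v := by
    intro τ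
    obtain ⟨l, hl0, hl⟩ := key τ
    refine (Finset.sum_le_sum fun e _ => (hl e).2).trans ?_
    rw [← Finset.sum_filter, Finset.sum_const, nsmul_eq_mul]
    have h7 : ((hfin.toFinset.filter fun e => e ∈ l).card : ℝ) ≤ l.length := by
      have h8 : (hfin.toFinset.filter fun e => e ∈ l).card ≤ l.toFinset.card :=
        Finset.card_le_card fun e he => List.mem_toFinset.2 (Finset.mem_filter.1 he).2
      exact_mod_cast h8.trans (List.toFinset_card_le l)
    nlinarith [mul_le_mul_of_nonneg_left (h7.trans hl0) (sq_nonneg p.b)]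
  have h9 := integral_mono ((Nice.sum _ fun e _ => hn e).int p.P)
    ((Nice.const (p.b ^ 2 * (p.b / p.r) * n1 v)).int p.P) h6
  simpa using h9

end Pool.Agent.Lib.FP95
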