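import Pool.Agent.Lib.FP95.Blue

/-! Block KING: the walks of a king lie in few small sets. -/

namespace Pool.Agent.Lib.FP95

open Pool.Agent.Lib.MP_eba68f_pr

namespace KING

/-- The nine steps. -/
noncomputable def st : Finset V := Fintype.piFinset fun _ => Finset.Icc (-1) 1

theorem st_card : st.card = 9 := by
  rw [st, Fintype.card_piFinset]
  simp

/-- The points visited by a sequence of steps. -/
def vis (n : ℕ) (s : Fin n → V) : Finset V :=
  (Finset.range (n + 1)).image fun l => ∑ j ∈ Finset.range l, if h : j < n then s ⟨j, h⟩ else 0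

end KING

open KING in
theorem bKING : St_KING := by
  intro n
  refine ⟨(Fintype.piFinset fun _ : Fin n => st).image (vis n), ?_, ?_, ?_⟩
  · refine Finset.card_image_le.trans ?_
    rw [Fintype.card_piFinset]
    simp [st_card]
  · intro A hA
    obtain ⟨s, -, rfl⟩ := Finset.mem_image.1 hA
    exact Finset.card_image_le.trans (Finset.card_range _).le
  · intro k k0 hk
    refine ⟨_, Finset.mem_image_of_mem _ (a := fun j : Fin n => k (j + 1) - k j) ?_, ?_⟩
    · refine Fintype.mem_piFinset.2 fun j => Fintype.mem_piFinset.2 fun i => ?_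
      exact Finset.mem_Icc.2 (abs_le.1 (hk j j.2 i))
    · intro l hl
      refine Finset.mem_image.2 ⟨l, Finset.mem_range.2 (Nat.lt_succ_of_le hl), ?_⟩
      refine (Finset.sum_congr rfl (g := fun j => k (j + 1) - k j) fun j hj =>
        dif_pos ((Finset.mem_range.1 hj).trans_le hl)).trans ?_
      rw [Finset.sum_range_sub k l, k0, sub_zero]

end Pool.Agent.Lib.FP95
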