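import Pool.Agent.Lib.FP95.Base

/-! Block LB: the variance lower bound from confinement. -/

namespace Pool.Agent.Lib.FP95

open MeasureTheory ProbabilityTheory Filter Topology Pool.Agent.Lib.MP_eba68f_pr
open scoped NNReal ENNReal

theorem bLB (hLB1 : St_LB1) (hCNT : St_CNT) (hCOV : St_COV) (hCAP : St_CAP) : St_LB := by
  classical
  intro p R d lev n g hD hr hl hF
  obtain ⟨L, c, M₀, hL, hc, hM₀, h1⟩ := hLB1 p R d lev n g hD hr hl
  obtain ⟨c', hc', h2⟩ := hCOV p lev L hF hL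
  have hR : 0 < R := zero_lt_one.trans_le g.one_le
  have hR1 := g.R1_ge
  have hR0 : 0 < p.R1 R := by linarith
  refine ⟨c' * c ^ 2 / (400 * R ^ 2 * p.R1 R), M₀, by positivity, hM₀, fun M H hM hH hE => ?_⟩
  have hM1 : 1 ≤ M := hM₀.trans hM
  have hM0 : 0 < M := zero_lt_one.trans_le hM1
  have hH0 : 0 < H := zero_lt_one.trans_le hH
  obtain ⟨B₀, hB, hB'⟩ := hCNT p R d (p.R1 R * M) H g (by nlinarith) hH
  set X := fl (M • d.a) + fl (M • d.a) with hX
  set B := B₀.image (kx L) with hBd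
  have hn : Nice fun τ => ∑ k ∈ B, p.gain lev L X k τ := Nice.sum _ fun k _ =>
    (p.T_nice 0 X).sub ((p.T_nice 0 X).comp (meas_cap lev _))
  have h0 : ∀ τ, 0 ≤ ∑ k ∈ B, p.gain lev L X k τ := fun τ =>
    Finset.sum_nonneg fun k _ => sub_nonneg.2 ((hCAP p lev L k τ hr).1 0 X)
  have h3 := p.markov hn h0 (mul_pos hc hM0)
  have h4 := h1 M hM X hX B
  have h5 : p.pr Set.univ ≤ p.pr ({τ | c * M ≤ ∑ k ∈ B, p.gain lev L X k τ} ∪ (p.Exit d X H ∪
      {τ | (∀ N Z, p.Geo τ 0 X N Z → ∀ k, k ≤ N → kx L (Z k) ∈ B) ∧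
        ∑ k ∈ B, p.gain lev L X k τ < c * M})) := p.pr_mono fun τ _ => by
    by_cases ha : c * M ≤ ∑ k ∈ B, p.gain lev L X k τ
    · exact Or.inl ha
    by_cases hb : τ ∈ p.Exit d X H
    · exact Or.inr (Or.inl hb)
    exact Or.inr (Or.inr ⟨fun N Z hZ k hk => Finset.mem_image_of_mem _ (hB' _
      (g.strip hM1 hM0.le le_rfl hZ hk).2.1 (not_lt.1 fun h => hb ⟨N, Z, hZ, k, hk, h⟩)),
        not_le.1 ha⟩)
  have h6 := h5.trans ((p.pr_union_le _ _).trans (add_le_add le_rfl (p.pr_union_le _ _)))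
  rw [p.pr_univ] at h6
  have h7 : c * M / 2 ≤ ∫ τ, ∑ k ∈ B, p.gain lev L X k τ ∂p.P := by
    have := (le_div_iff₀ (mul_pos hc hM0)).1 (le_trans (by linarith : (1 / 2 : ℝ) ≤ _) h3)
    linarith
  have h8 : (B.card : ℝ) ≤ 100 * R ^ 2 * (p.R1 R * M * H) :=
    le_trans (Nat.cast_le.2 Finset.card_image_le) hB
  have h9 := (mul_le_mul_of_nonneg_left (pow_le_pow_left₀ (by positivity) h7 2) hc'.le).trans
    ((h2 X B).trans (mul_le_mul_of_nonneg_left h8 (p.Vr_nonneg X)))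
  rw [div_mul_eq_mul_div, div_div, div_le_iff₀ (by positivity)]
  refine le_of_mul_le_mul_right ?_ hM0
  linarith

end Pool.Agent.Lib.FP95
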