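import Pool.Agent.Lib.FP95.Base

/-! Block LB1: the total gain is linear with probability three quarters. -/

namespace Pool.Agent.Lib.FP95

open MeasureTheory ProbabilityTheory Filter Topology Pool.Agent.Lib.MP_eba68f_pr
open scoped NNReal ENNReal

namespace LB1

lemma rho_X {p : Par} (n : p.Norm) {R : ℝ} {d : Dat} (g : p.Good R d) (M : ℝ) :
    2 * M - 4 * p.b ≤ d.ρ (up (fl (M • d.a) + fl (M • d.a))) := by
  have h1 := (abs_le.1 (n.abs_ρ g (up (fl (M • d.a)) - M • d.a))).1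
  have h2 := mul_le_mul_of_nonneg_left (l1_fl (M • d.a)) p.b_pos.le
  rw [map_sub, map_smul, g.ρa, smul_eq_mul] at h1
  rw [up_add, map_add]
  linarith

lemma h_X {p : Par} (n : p.Norm) {R : ℝ} {d : Dat} (g : p.Good R d) {e : ℝ} (he : 0 < e) :
    ∃ M₀ : ℝ, ∀ M, M₀ ≤ M → 0 < M →
      p.h (fl (M • d.a) + fl (M • d.a)) ≤ 2 * M + 2 * (e * M) := by
  have h := n.lim d.a
  rw [g.ma] at h
  obtain ⟨M₀, hM₀⟩ := eventually_atTop.1 (h.eventually (gt_mem_nhds (show (1 : ℝ) < 1 + e by linarith)))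
  refine ⟨M₀, fun M hM hp => ?_⟩
  have h1 := (div_lt_iff₀ hp).1 (hM₀ M hM)
  have h2 := p.h_add (fl (M • d.a)) (fl (M • d.a))
  linarith

end LB1

theorem bLB1 (hKES : St_KES) (hINEQ : St_INEQ) (hBAD : St_BAD) (hDET : St_DET) (hPEI : St_PEI) :
    St_LB1 := by
  intro p R d lev n g hD hlev hla
  obtain ⟨C, δ, hC, hδ, hI⟩ := hINEQ p R lev d n g hD lev.2 hla
  obtain ⟨Ck, hCk, hK⟩ := hKES p
  have hb := p.b_pos
  have hρ := p.one_le_ratio
  have hR := g.one_le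
  obtain ⟨K, hKd⟩ : ∃ K : ℝ, K = p.b / p.r * (2 * R + 4) := ⟨_, rfl⟩
  have hK1 : 1 ≤ K := by rw [hKd]; nlinarith
  obtain ⟨γ, hγd⟩ : ∃ γ : ℝ, γ = δ / (4 * p.b) := ⟨_, rfl⟩
  have hγ : 0 < γ := by rw [hγd]; positivity
  have hγ' : γ * (4 * p.b) = δ := by rw [hγd]; field_simp
  obtain ⟨e₁, he₁d⟩ : ∃ e₁ : ℝ, e₁ = γ / (4 * (C + 1)) := ⟨_, rfl⟩
  have he₁ : 0 < e₁ := by rw [he₁d]; positivity
  have he₁' : e₁ * (4 * (C + 1)) = γ := by rw [he₁d]; field_simp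
  obtain ⟨ε, hεd⟩ : ∃ ε : ℝ, ε = γ / ((C + 1) * (K + 1)) := ⟨_, rfl⟩
  have hε : 0 < ε := by rw [hεd]; positivity
  have hε' : ε * ((C + 1) * (K + 1)) = γ := by rw [hεd]; field_simp
  have hδb : 0 < δ + C * p.b := by positivity
  obtain ⟨e, hed⟩ : ∃ e : ℝ, e = γ / ((δ + C * p.b) * (K + 1)) := ⟨_, rfl⟩
  have he : 0 < e := by rw [hed]; positivity
  have he' : e * ((δ + C * p.b) * (K + 1)) = γ := by rw [hed]; field_simp
  obtain ⟨δ', hδ', hP⟩ := hPEI p e he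
  obtain ⟨L, Bd, hL, hLoc, hBd⟩ := hBAD p ε δ' n hε hδ'
  obtain ⟨M₁, hM₁⟩ := LB1.h_X n g he₁
  have hL' : (1 : ℝ) ≤ L := by exact_mod_cast hL
  refine ⟨L, γ / (2 * (p.b / p.r) + 1),
    max (max (max 1 M₁) (max (4 * p.b) (4 * p.b / e₁)))
      (max (4 * L) (8 * (Ck * (2 * R + 4)) / e₁ ^ 2)), hL, by positivity,
    le_max_of_le_left (le_max_of_le_left (le_max_left _ _)), fun M hM X hX B => ?_⟩
  simp only [max_le_iff] at hM
  obtain ⟨⟨⟨m1, m2⟩, m3, m4⟩, m5, m6⟩ := hM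
  have hM0 : 0 < M := by linarith
  have x1 : 2 * M - 4 * p.b ≤ d.ρ (up X) := hX ▸ LB1.rho_X n g M
  have x2 : p.h X ≤ 2 * M + 2 * (e₁ * M) := hX ▸ hM₁ M m2 hM0
  have x3 : n1 X ≤ (2 * R + 4) * M := hX ▸ g.n1_X m1 hM0.le le_rfl
  have x4 : M ≤ p.b * n1 X := by
    have h1 := g.ρ_le (up X)
    have h2 := n.le (up X)
    rw [← n1_eq] at h2
    linarith
  have m4' : 4 * p.b ≤ M * e₁ := (div_le_iff₀ he₁).1 m4
  have m6' : 8 * (Ck * (2 * R + 4)) ≤ M * e₁ ^ 2 := (div_le_iff₀ (by positivity)).1 m6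
  obtain ⟨k, hk⟩ : ∃ k : ℕ, k = ⌈K * M / L⌉₊ := ⟨_, rfl⟩
  have k1 : K * M ≤ k * L := by
    rw [← div_le_iff₀ (by linarith), hk]; exact Nat.le_ceil _
  have k2 : (k : ℝ) * L ≤ (K + 1) * M := by
    have h1 : (k : ℝ) < K * M / L + 1 := by rw [hk]; exact Nat.ceil_lt_add_one (by positivity)
    have h2 : (K * M / L + 1) * L = K * M + L := by field_simp
    have h3 := mul_le_mul_of_nonneg_right h1.le (Nat.cast_nonneg (α := ℝ) L)
    linarith only [h2, h3, m5, hL']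
  have k3 : 4 ≤ k := by
    have h1 : 1 * M ≤ K * M := mul_le_mul_of_nonneg_right hK1 hM0.le
    have h2 : (4 : ℝ) * L ≤ k * L := by linarith
    have h3 : (4 : ℝ) ≤ k := le_of_mul_le_mul_right h2 (by linarith)
    exact_mod_cast h3
  have p1 : p.pr {τ | e₁ * M ≤ |p.T τ 0 X - p.h X|} ≤ 1 / 8 := by
    refine (p.cheb0 X (by positivity)).trans ?_
    rw [div_le_iff₀ (by positivity)]
    have h1 := (hK X).trans (mul_le_mul_of_nonneg_left x3 hCk)
    have h2 := mul_le_mul_of_nonneg_right m6' hM0.le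
    linarith only [h1, h2]
  have p2 := hP L Bd hL hLoc k X
  have p3 : (2 : ℝ) * (1 / 2) ^ k ≤ 1 / 8 := by
    have : ((1 : ℝ) / 2) ^ k ≤ (1 / 2) ^ 4 := pow_le_pow_of_le_one (by norm_num) (by norm_num) k3
    linarith
  refine le_trans (p.pr_mono ?_)
    (((p.pr_union_le _ _).trans (add_le_add p1 (p2.trans p3))).trans (by norm_num))
  rintro τ ⟨hB, hlt⟩
  by_contra hcon
  simp only [Set.mem_union, Set.mem_ofPred_eq, not_or, not_le, not_exists, not_and] at hcon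
  obtain ⟨c1, c2⟩ := hcon
  obtain ⟨N, Z, hZ⟩ := p.exists_Geo τ 0 X
  have n1' : (N : ℝ) ≤ K * M := by
    have h1 := hZ.N_le
    rw [sub_zero] at h1
    have h2 := mul_le_mul_of_nonneg_left x3 (zero_le_one.trans hρ)
    rw [hKd]; linarith only [h1, h2]
  have n2 : N ≤ k * L := by exact_mod_cast n1'.trans k1
  have c3 := c2 N Z hZ n2
  have key := hDET p R d lev C δ ε L Bd B τ X N Z n g hlev hC hδ.le hε.le hL hI hZ (hB N Z hZ)
    fun j hj => hBd j τ hj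
  have t0 : 4 * (γ * M) ≤ δ * n1 X := by
    have := mul_le_mul_of_nonneg_left x4 (show 0 ≤ 4 * γ by positivity)
    rw [← hγ']; linarith only [this]
  have t1 : C * (p.T τ 0 X - d.ρ (up X)) ≤ γ * M := by
    have h1 : p.T τ 0 X - d.ρ (up X) ≤ 4 * (e₁ * M) := by
      linarith only [(abs_lt.1 c1).2, x1, x2, m4']
    have h2 := mul_le_mul_of_nonneg_left h1 hC
    have h3 : 0 ≤ e₁ * M := by positivity
    rw [← he₁']; linarith only [h2, h3]
  have t2 : (C + 1) * ε * (N + L) ≤ γ * M := by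
    have h1 : (N : ℝ) + L ≤ (K + 1) * M := by linarith only [n1', m5, hL']
    have h2 := mul_le_mul_of_nonneg_left h1 (show 0 ≤ (C + 1) * ε by positivity)
    rw [← hε']; linarith only [h2]
  have t3 : (δ + C * p.b) * (L * nbad L Bd τ N Z) ≤ γ * M := by
    have h1 := mul_le_mul_of_nonneg_left c3.le (Nat.cast_nonneg (α := ℝ) L)
    have h2 := mul_le_mul_of_nonneg_left k2 he.le
    have h3 : (L : ℝ) * nbad L Bd τ N Z ≤ e * ((K + 1) * M) := by linarith only [h1, h2]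
    have h4 := mul_le_mul_of_nonneg_left h3 hδb.le
    rw [← he']; linarith only [h4]
  have t4 : γ * M ≤ (2 * (p.b / p.r) + 1) * ∑ j ∈ B, p.gain lev L X j τ := by
    linarith only [key, t0, t1, t2, t3]
  have t5 := mul_lt_mul_of_pos_left hlt (show 0 < 2 * (p.b / p.r) + 1 by positivity)
  have t6 : (2 * (p.b / p.r) + 1) * (γ / (2 * (p.b / p.r) + 1) * M) = γ * M := by
    have : 2 * (p.b / p.r) + 1 ≠ 0 := by positivity
    rw [← mul_assoc, mul_div_cancel₀ _ this]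
  linarith only [t4, t5, t6]

end Pool.Agent.Lib.FP95
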