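import Pool.Agent.Lib.FP95.Base

namespace Pool.Agent.Lib.FP95

open MeasureTheory Pool.Agent.Lib.MP_eba68f_pr
open scoped NNReal

namespace MAIN

lemma var_mono {p : Par} {S S' : Set Dat} {κ : ℝ} (h : S' ⊆ S) : p.VarB S κ → p.VarB S' κ :=
  fun ⟨C, hC, H⟩ => ⟨C, hC, fun d hd => H d (h hd)⟩
lemma up_mono {p : Par} {S S' : Set Dat} {κ : ℝ} (h : S' ⊆ S) : p.Up S κ → p.Up S' κ :=
  fun ⟨A, hA, H⟩ => ⟨A, hA, fun q => (H q).imp fun _ H' => ⟨H'.1, fun d hd => H'.2 d (h hd)⟩⟩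
lemma lo_mono {p : Par} {S S' : Set Dat} {κ : ℝ} (h : S' ⊆ S) : p.Lo S κ → p.Lo S' κ :=
  fun ⟨C, hC, H⟩ => ⟨C, hC, fun d hd => H d (h hd)⟩
lemma ss_mono {p : Par} {x : R2} {s t s' t' : ℝ} (h₁ : s ≤ s') (h₂ : t' ≤ t) :
    p.SS x s' t' ⊆ p.SS x s t :=
  fun _ ⟨y, hy, H⟩ => ⟨y, ⟨h₁.trans hy.1, hy.2.trans h₂⟩, H⟩

lemma level {p : Par} (hN : p.Norm) {x : R2} (hx : x 0 ^ 2 + x 1 ^ 2 = 1) {lev : ℝ} (h0 : 0 ≤ lev)
    (h : lev * l1 x < p.m x) : ∃ e : ℝ, 0 < e ∧ ∀ s, |s| < e → lev * l1 (uu x s) < p.f x s := by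
  have hb := p.b_pos
  have h1 : l1 (perp x) ≤ 2 := by
    have a₀ : |x 0| ≤ 1 := abs_le_one_iff_mul_self_le_one.2 (by nlinarith [sq_nonneg (x 1)])
    have a₁ : |x 1| ≤ 1 := abs_le_one_iff_mul_self_le_one.2 (by nlinarith [sq_nonneg (x 0)])
    simp only [l1, perp, Matrix.cons_val_zero, Matrix.cons_val_one, abs_neg]
    linarith
  refine ⟨(p.m x - lev * l1 x) / (2 * (lev + p.b)), div_pos (by linarith) (by linarith),
    fun s hs => ?_⟩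
  rw [lt_div_iff₀ (by linarith)] at hs
  have h2 : l1 (s • perp x) ≤ |s| * 2 := by
    rw [l1_smul]; exact mul_le_mul_of_nonneg_left h1 (abs_nonneg s)
  have h3 := mul_le_mul_of_nonneg_left ((l1_add_le x (s • perp x)).trans
    (add_le_add le_rfl h2)) h0
  have h4 := hN.lip x (uu x s)
  rw [show x - uu x s = -(s • perp x) by unfold uu; abel, l1_neg] at h4
  have h5 := mul_le_mul_of_nonneg_left h2 hb.le
  unfold Par.f
  unfold uu at h4 ⊢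
  nlinarith

end MAIN

open MAIN in
theorem bMAIN (hMU : St_MU) (hDAT : St_DAT) (hBAIRE : St_BAIRE) (hCURV : St_CURV) (hCRN : St_CRN)
    (hPHI : St_PHI) (hNEST : St_NEST) (hCOVER : St_COVER) (hCHAIN : St_CHAIN) (hTRA : St_TRA)
    (hTRU : St_TRU) (hTRL : St_TRL) (hEND : St_END) : St_MAIN := by
  intro p x lev e hx hr hF hlev h0 he
  by_contra hcon
  have hN := hMU p
  obtain ⟨hcv, hfr, R, hR⟩ := hDAT p x hN hx
  obtain ⟨e₁, he₁, hl⟩ := level hN hx lev.coe_nonneg hlev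
  obtain ⟨s, e', κ, hs, he', hse, hκ0, hκ, hV⟩ := hBAIRE p x (min e (min e₁ 1)) hN hx
    (lt_min he (lt_min he₁ one_pos)) h0 fun s hs h => by
      by_contra h'
      exact hcon ⟨s, hs, h.trans_le (min_le_left _ _), h'⟩
  obtain ⟨x₀, hx₀, lam, hK, hS, hQ⟩ := hCURV (p.f x) s e' hcv hs he'
  have hin : ∀ y, s - e' ≤ y → y ≤ s + e' → |y| < e₁ ∧ |y| ≤ 1 := fun y h₁ h₂ => by
    have : |y| < min e (min e₁ 1) :=
      lt_of_le_of_lt (abs_le.2 ⟨by linarith [neg_abs_le s], by linarith [le_abs_self s]⟩) hse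
    exact ⟨this.trans_le ((min_le_right _ _).trans (min_le_left _ _)),
      this.le.trans ((min_le_right _ _).trans (min_le_right _ _))⟩
  obtain ⟨i₁, i₂⟩ := hin x₀ hx₀.1.le hx₀.2.le
  have hlev' : ∀ l, (lev : ℝ) * l1 (p.dat x x₀ l).a < 1 := fun l => by
    have hf : 0 < p.f x x₀ := p.r_pos.trans_le (hfr x₀)
    show (lev : ℝ) * l1 ((p.f x x₀)⁻¹ • uu x x₀) < 1
    rw [l1_smul, abs_of_pos (inv_pos.2 hf), mul_left_comm, inv_mul_lt_iff₀ hf, mul_one]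
    exact hl x₀ i₁
  have hmem : ∀ l a b, Sub (p.f x) x₀ l → a ≤ x₀ → x₀ ≤ b →
      ({p.dat x x₀ l} : Set Dat) ⊆ p.SS x a b := fun l a b h₁ h₂ h₃ =>
    Set.singleton_subset_iff.2 ⟨x₀, ⟨h₂, h₃⟩, l, hK, h₁, rfl⟩
  by_cases hu : ∀ l, Sub (p.f x) x₀ l → l = lam
  · obtain ⟨A, B, hAB⟩ := hNEST (p.f x) x₀ lam (min (x₀ - (s - e')) (s + e' - x₀)) hcv hQ hu
      (lt_min (by linarith [hx₀.1]) (by linarith [hx₀.2]))
    have hA : ∀ j, s - e' ≤ A j := fun j => by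
      linarith [(hAB j).1, min_le_left (x₀ - (s - e')) (s + e' - x₀)]
    have hB : ∀ j, B j ≤ s + e' := fun j => by
      linarith [(hAB j).2.2.2.2.2.1, min_le_right (x₀ - (s - e')) (s + e' - x₀)]
    have hG : ∀ j, ∀ d ∈ p.SS x (A j) (B j), p.Good R d := by
      rintro j d ⟨y, hy, l, -, h₂, rfl⟩
      exact hR y l (hin y ((hA j).trans hy.1) (hy.2.trans (hB j))).2 h₂
    obtain ⟨J, hU, hL⟩ := hCHAIN p R κ (1 / 5) (fun j => p.SS x (A j) (B j)) hN hG hκ0 hκ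
      (by norm_num) (fun j => var_mono (ss_mono (hA j) (hB j)) hV) fun j θ h₁ _ hT => by
        obtain ⟨-, a₂, a₃, a₄, a₅, -, a₇, a₈, c, hc, a₉⟩ := hAB j
        have hcov := hCOVER p x (A j) (A (j + 1)) (B (j + 1)) (B j) c hN hx
          (abs_le.1 (hin _ (hA j) (by linarith [hx₀.2])).2).1 a₂ a₅
          (abs_le.1 (hin _ (by linarith [hx₀.1]) (hB j)).2).2 a₇ a₈ hc a₉
        exact ⟨hTRU p R θ _ _ hN (hG (j + 1)) (by linarith) hcov hT,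
          hTRL p R θ _ _ hN (hG (j + 1)) (by linarith) hcov hT⟩
    obtain ⟨b₁, b₂⟩ := hPHI p x x₀ lam hN hx i₂ hS hQ _ rfl
    have hsub := hmem lam (A J) (B J) hS (hAB J).2.2.1.le (hAB J).2.2.2.1.le
    exact hEND p R (1 / 5) κ _ lev hN (hR x₀ lam i₂ hS) b₁ hr (hlev' lam) hF (by norm_num)
      (up_mono hsub hU) (lo_mono hsub hL) b₂ hκ0 hκ
      (var_mono (hmem lam _ _ hS hx₀.1.le hx₀.2.le) hV)
  · have : ∃ l₁ l₂, Sub (p.f x) x₀ l₁ ∧ Sub (p.f x) x₀ l₂ ∧ l₁ < l₂ := by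
      obtain ⟨l, h₁⟩ := not_forall.1 hu
      obtain ⟨h₂, h₃⟩ := Classical.not_imp.1 h₁
      rcases lt_or_gt_of_ne h₃ with h | h
      · exact ⟨l, lam, h₂, hS, h⟩
      · exact ⟨lam, l, hS, h₂, h⟩
    obtain ⟨l₁, l₂, s₁, s₂, hlt⟩ := this
    obtain ⟨c₁, c₂, c₃, c₄⟩ := hCRN p x x₀ l₁ l₂ hN hx i₂ s₁ s₂ hlt _ rfl
    have hg := hR x₀ _ i₂ c₁
    have hV' := var_mono (hmem _ _ _ c₁ hx₀.1.le hx₀.2.le) hV
    obtain ⟨J, hU, hL⟩ := hCHAIN p R κ (3 / 5) (fun _ => {p.dat x x₀ ((l₁ + l₂) / 2)}) hN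
      (fun _ d hd => hd ▸ hg) hκ0 (by linarith) (by norm_num) (fun _ => hV') fun j θ h₁ _ hT =>
        hTRA p R ((l₂ - l₁) / 2) θ _ hN hg (by linarith) c₂ (by linarith) hT
    exact hEND p R (3 / 5) κ _ lev hN hg c₃ hr (hlev' _) hF (by norm_num) hU hL c₄ hκ0 hκ hV'

end Pool.Agent.Lib.FP95
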