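import Pool.Agent.Lib.FP95.Base

/-! The time constant is a norm. -/

namespace Pool.Agent.Lib.FP95

open MeasureTheory Filter Topology Pool.Agent.Lib.MP_eba68f_pr

namespace MU

variable (p : Par)

theorem fl_zero : fl 0 = 0 := by rw [← up_zero, fl_up]

theorem sub (x y : R2) : p.h (fl (x + y)) ≤ p.h (fl x) + p.h (fl y) + 2 * p.b := by
  have h1 := p.h_lip (fl (x + y)) (fl x + fl y)
  have h2 := mul_le_mul_of_nonneg_left (n1_fl_add x y) p.b_pos.le
  linarith [p.h_add (fl x) (fl y)]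

theorem lip (x y : R2) : p.h (fl x) ≤ p.h (fl y) + p.b * (l1 (x - y) + 2) :=
  (p.h_lip _ _).trans
    (add_le_add le_rfl (mul_le_mul_of_nonneg_left (n1_fl_sub x y) p.b_pos.le))

theorem neg (x : R2) : p.h (fl (-x)) ≤ p.h (fl x) + 2 * p.b := by
  have h1 := p.h_lip (fl (-x)) (-fl x)
  have h2 := n1_fl_add x (-x)
  rw [add_neg_cancel, fl_zero, zero_sub, n1_neg', add_comm, ← sub_neg_eq_add] at h2
  have h3 := mul_le_mul_of_nonneg_left h2 p.b_pos.le
  rw [p.h_neg] at h1
  linarith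

theorem cdiv (C : ℝ) : Tendsto (fun u : ℝ => C / u) atTop (𝓝 0) :=
  tendsto_const_nhds.div_atTop tendsto_id

theorem cmp {f g : ℝ → ℝ} {A B : ℝ} (C : ℝ) (hf : Tendsto (fun u => f u / u) atTop (𝓝 A))
    (hg : Tendsto (fun u => g u / u) atTop (𝓝 B)) (h : ∀ u, 0 < u → f u ≤ g u + C) : A ≤ B := by
  have h1 := hg.add (cdiv C)
  rw [add_zero] at h1
  refine le_of_tendsto_of_tendsto hf h1 ((eventually_gt_atTop 0).mono fun u hu => ?_)
  show f u / u ≤ g u / u + C / u
  rw [← add_div]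
  exact div_le_div_of_nonneg_right (h u hu) hu.le

theorem lin (c : ℝ) : Tendsto (fun u : ℝ => u * c / u) atTop (𝓝 c) :=
  tendsto_const_nhds.congr' ((eventually_gt_atTop 0).mono fun u hu =>
    (mul_div_cancel_left₀ c hu.ne').symm)

theorem lim_nat (x : R2) :
    Tendsto (fun n : ℕ => p.h (fl ((n : ℝ) • x)) / n) atTop (𝓝 (p.m x)) := by
  have hs : Subadditive fun n : ℕ => p.h (fl ((n : ℝ) • x)) + 2 * p.b := fun m n => by
    have h := sub p ((m : ℝ) • x) ((n : ℝ) • x)
    rw [← add_smul, ← Nat.cast_add] at h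
    linarith
  have h1 := (hs.tendsto_lim ⟨0, by
    rintro _ ⟨n, rfl⟩
    have h2 := (mul_nonneg p.r_pos.le (n1_nonneg _)).trans (p.h_ge (fl ((n : ℝ) • x)))
    exact div_nonneg (by linarith [p.b_pos]) (Nat.cast_nonneg n)⟩).sub
      ((cdiv (2 * p.b)).comp tendsto_natCast_atTop_atTop)
  have h3 : Tendsto (fun n : ℕ => p.h (fl ((n : ℝ) • x)) / n) atTop (𝓝 (hs.lim - 0)) :=
    h1.congr fun n => by
      show (_ + _) / (n : ℝ) - _ / (n : ℝ) = _
      rw [add_div, add_sub_cancel_right]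
  rwa [← h3.limsup_eq] at h3

theorem lim (x : R2) : Tendsto (fun u : ℝ => p.h (fl (u • x)) / u) atTop (𝓝 (p.m x)) := by
  have h1 := ((lim_nat p x).comp (tendsto_nat_floor_atTop (α := ℝ))).mul
    (tendsto_nat_floor_div_atTop (R := ℝ))
  rw [mul_one] at h1
  have h2 : Tendsto (fun u : ℝ => p.h (fl (((⌊u⌋₊ : ℕ) : ℝ) • x)) / u) atTop (𝓝 (p.m x)) :=
    h1.congr' ((eventually_ge_atTop 1).mono fun u hu => by
      have h3 : ((⌊u⌋₊ : ℕ) : ℝ) ≠ 0 := Nat.cast_ne_zero.2 (Nat.floor_pos.2 hu).ne'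
      show _ / ((⌊u⌋₊ : ℕ) : ℝ) * (((⌊u⌋₊ : ℕ) : ℝ) / u) = _
      rw [div_mul_div_cancel₀ h3])
  have hu := h2.add (cdiv (p.b * (l1 x + 2)))
  have hl := h2.sub (cdiv (p.b * (l1 x + 2)))
  rw [add_zero] at hu
  rw [sub_zero] at hl
  have key : ∀ u : ℝ, 0 < u → p.b * (l1 (u • x - ((⌊u⌋₊ : ℕ) : ℝ) • x) + 2) ≤ p.b * (l1 x + 2) :=
    fun u hu => by
      have h3 := Nat.floor_le hu.le
      have h4 := Nat.lt_floor_add_one u
      rw [← sub_smul, l1_smul, abs_of_nonneg (sub_nonneg.2 h3)]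
      exact mul_le_mul_of_nonneg_left (add_le_add
        (mul_le_of_le_one_left (l1_nonneg x) (by linarith)) le_rfl) p.b_pos.le
  refine tendsto_of_tendsto_of_tendsto_of_le_of_le' hl hu
    ((eventually_gt_atTop 0).mono fun u hu => ?_) ((eventually_gt_atTop 0).mono fun u hu => ?_)
  · have h3 := lip p (((⌊u⌋₊ : ℕ) : ℝ) • x) (u • x)
    rw [l1_sub_comm] at h3
    show _ / u - _ / u ≤ _ / u
    rw [← sub_div]
    exact div_le_div_of_nonneg_right (by linarith [key u hu]) hu.le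
  · show _ / u ≤ _ / u + _ / u
    rw [← add_div]
    exact div_le_div_of_nonneg_right
      (by linarith [key u hu, lip p (u • x) (((⌊u⌋₊ : ℕ) : ℝ) • x)]) hu.le

theorem m_neg (x : R2) : p.m (-x) ≤ p.m x :=
  cmp (2 * p.b) (lim p (-x)) (lim p x) fun u _ => by rw [smul_neg]; exact neg p _

theorem h_nsmul (v : V) (n : ℕ) : p.h (n • v) ≤ n * p.h v := by
  induction n with
  | zero => simpa [n1_eq, l1] using p.h_le 0
  | succ n ih =>
    rw [succ_nsmul, Nat.cast_succ, add_mul, one_mul]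
    linarith [p.h_add (n • v) v]

end MU

open MU in
theorem bMU : St_MU := fun p => by
  refine ⟨fun x y => ?_, fun c x hc => ?_, fun x => ?_, fun x => ?_, fun x => ?_, fun v => ?_,
    lim p⟩
  · refine cmp (g := fun u => p.h (fl (u • x)) + p.h (fl (u • y))) (2 * p.b) (lim p (x + y))
      (((lim p x).add (lim p y)).congr fun u => (add_div _ _ _).symm) fun u _ => ?_
    rw [smul_add]
    exact sub p _ _
  · rcases hc.eq_or_lt with rfl | hc
    · rw [zero_smul, zero_mul]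
      refine tendsto_nhds_unique (lim p 0) ((cdiv (p.h 0)).congr fun u => ?_)
      rw [smul_zero, fl_zero]
    · refine tendsto_nhds_unique (lim p (c • x))
        ((((lim p x).comp (tendsto_id.atTop_mul_const hc)).const_mul c).congr fun u => ?_)
      show c * (p.h (fl ((u * c) • x)) / (u * c)) = _
      rw [smul_smul, ← mul_div_assoc, mul_comm u c, mul_div_mul_left _ _ hc.ne']
  · refine le_antisymm (m_neg p x) ?_
    have h := m_neg p (-x)
    rwa [neg_neg] at h
  · refine cmp (2 * p.r) (lin _) (lim p x) fun u hu => ?_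
    have h1 := l1_sub_le (up (fl (u • x))) (up (fl (u • x)) - u • x)
    rw [sub_sub_cancel, l1_smul, abs_of_pos hu, ← n1_eq] at h1
    have h2 := mul_le_mul_of_nonneg_left
      (h1.trans (add_le_add le_rfl (l1_fl (u • x)))) p.r_pos.le
    linarith [p.h_ge (fl (u • x))]
  · refine cmp (2 * p.b) (lim p x) (lin _) fun u hu => ?_
    have h1 := n1_fl_le (u • x)
    rw [l1_smul, abs_of_pos hu] at h1
    have h2 := mul_le_mul_of_nonneg_left h1 p.b_pos.le
    linarith [p.h_le (fl (u • x))]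
  · refine le_of_tendsto (lim_nat p (up v)) ((eventually_gt_atTop 0).mono fun n hn => ?_)
    have e : (n : ℝ) • up v = up (n • v) := by
      ext i
      simp [up]
    rw [e, fl_up, div_le_iff₀ (Nat.cast_pos.2 hn), mul_comm]
    exact h_nsmul p v n

end Pool.Agent.Lib.FP95
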