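import Pool.Agent.Lib.FP95.Base

/-! Block MULT: a geodesic is cut a bounded number of times in one box. -/

namespace Pool.Agent.Lib.FP95

open Pool.Agent.Lib.MP_eba68f_pr

namespace MULT

lemma coord {L : ℕ} (hL : 1 ≤ L) {a b : ℤ} (h : a / (L : ℤ) = b / (L : ℤ)) :
    |((a - b : ℤ) : ℝ)| ≤ L := by
  have hL0 : (0 : ℤ) < L := by exact_mod_cast hL
  have h1 := Int.mul_ediv_add_emod a L
  have h2 := Int.mul_ediv_add_emod b L
  have h3 := Int.emod_nonneg a hL0.ne'
  have h4 := Int.emod_nonneg b hL0.ne'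
  have h5 := Int.emod_lt_of_pos a hL0
  have h6 := Int.emod_lt_of_pos b hL0
  rw [h] at h1
  have h7 : |a - b| ≤ (L : ℤ) := abs_le.2 ⟨by linarith, by linarith⟩
  exact_mod_cast h7

lemma n1_box {L : ℕ} (hL : 1 ≤ L) {u v : V} (h : kx L u = kx L v) : n1 (u - v) ≤ 2 * L := by
  have h0 := coord hL (show u 0 / (L : ℤ) = v 0 / (L : ℤ) from congrFun h 0)
  have h1 := coord hL (show u 1 / (L : ℤ) = v 1 / (L : ℤ) from congrFun h 1)
  unfold n1
  simp only [Pi.sub_apply]
  linarith

end MULT

theorem bMULT : St_MULT := by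
  classical
  intro p τ X N L Z k hL g
  have hρ := p.one_le_ratio
  have hr := p.r_pos
  have hLr : (0 : ℝ) < L := by exact_mod_cast hL
  set S := (Finset.range N).filter fun l => l * L < N ∧ kx L (Z (l * L)) = k with hS
  rcases S.eq_empty_or_nonempty with h | h
  · rw [h]
    simp only [Finset.card_empty, Nat.cast_zero]
    linarith
  · have hm := S.min'_mem h
    have hM := S.max'_mem h
    have hle : S.min' h ≤ S.max' h := S.min'_le_max' h
    have hsub : S ⊆ Finset.Icc (S.min' h) (S.max' h) := fun l hl =>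
      Finset.mem_Icc.2 ⟨S.min'_le l hl, S.le_max' l hl⟩
    have hc := Finset.card_le_card hsub
    rw [Nat.card_Icc] at hc
    generalize S.min' h = a at hm hle hc
    generalize S.max' h = c at hM hle hc
    obtain ⟨-, -, ha2⟩ := Finset.mem_filter.1 hm
    obtain ⟨-, hc1, hc2⟩ := Finset.mem_filter.1 hM
    have h1 := g.len (Nat.mul_le_mul_right L hle) hc1.le
    have h2 := p.T_le τ (Z (a * L)) (Z (c * L))
    have h3 := MULT.n1_box hL (hc2.trans ha2.symm)
    have h4 : p.b * n1 (Z (c * L) - Z (a * L)) ≤ p.b * (2 * L) :=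
      mul_le_mul_of_nonneg_left h3 p.b_pos.le
    have h5 : p.r * ((c : ℝ) - a) * L ≤ 2 * p.b * L := by
      push_cast at h1
      nlinarith
    have h6 : p.r * ((c : ℝ) - a) ≤ 2 * p.b := le_of_mul_le_mul_right h5 hLr
    have h7 : (c : ℝ) - a ≤ 2 * (p.b / p.r) := by
      rw [← mul_div_assoc, le_div_iff₀ hr]
      linarith
    have h8 : S.card + a ≤ c + 1 := by omega
    have h9 : (S.card : ℝ) + a ≤ c + 1 := by exact_mod_cast h8
    linarith

end Pool.Agent.Lib.FP95
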