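import Pool.Agent.Lib.FP95.Blue

/-! Block NEST: nested windows around a point with a unique subgradient. -/

namespace Pool.Agent.Lib.FP95

namespace NEST

variable {f : ℝ → ℝ} {x₀ lam : ℝ}

theorem meets (hC : St_CVX) (hf : ConvexOn ℝ Set.univ f) (hQ : Quad f x₀ lam)
    (hu : ∀ l, Sub f x₀ l → l = lam) {y : ℝ} (hy : y < x₀) : ∃ z ∈ KK f, y < z ∧ z < x₀ := by
  obtain ⟨h1, -, h3, -⟩ := hC f hf
  by_contra hn
  obtain ⟨c₀, c₁, hc⟩ := h3 y x₀ hy fun z hz hk => hn ⟨z, hk, hz.1, hz.2⟩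
  obtain ⟨l, hl⟩ := h1 ((y + x₀) / 2)
  have e1 := hc y ⟨le_rfl, hy.le⟩
  have e2 := hc x₀ ⟨hy.le, le_rfl⟩
  have e3 := hc ((y + x₀) / 2) ⟨by linarith, by linarith⟩
  have a1 := hl y
  have a2 := hl x₀
  have hlc : l = c₁ := by
    have : (l - c₁) * (x₀ - y) = 0 := by linarith
    rcases mul_eq_zero.1 this with h | h <;> linarith
  subst hlc
  have hs : Sub f x₀ l := fun t => by linarith [hl t]
  obtain rfl := hu l hs
  obtain ⟨c, e, hc0, he, hq⟩ := hQ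
  have h0 : y - x₀ ≠ 0 := by linarith
  have : 0 < c * min ((y - x₀) ^ 2) (e * |y - x₀|) :=
    mul_pos hc0 (lt_min (by positivity) (by positivity))
  linarith [hq y]

theorem step (hC : St_CVX) (hf : ConvexOn ℝ Set.univ f) (hQ : Quad f x₀ lam)
    (hu : ∀ l, Sub f x₀ l → l = lam) {a : ℝ} (ha : a < x₀) :
    ∃ a' ∈ KK f, a < a' ∧ a' < x₀ ∧ ∃ c : ℝ, 0 < c ∧
      ∀ s, a' ≤ s → ∀ l, Sub f s l → c ≤ f a - f s - l * (a - s) := by
  obtain ⟨y, hyk, hay, hyx⟩ := meets hC hf hQ hu ha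
  obtain ⟨a', hak, h1, h2⟩ := meets hC hf hQ hu (show (y + x₀) / 2 < x₀ by linarith)
  obtain ⟨hs, -, -, hm⟩ := hC f hf
  obtain ⟨p, hp⟩ : ∃ p, p = (y + x₀) / 2 := ⟨_, rfl⟩
  rw [← hp] at h1
  have hyp : y < p := by linarith
  obtain ⟨l₀, hl₀⟩ := hs p
  refine ⟨a', hak, by linarith, h2, f a - f p - l₀ * (a - p), ?_, fun s hs' l hl => ?_⟩
  · by_contra hn
    have h0 : f a = f p + l₀ * (a - p) := by linarith [hl₀ a]
    refine hyk (min (y - a) (p - y)) (lt_min (by linarith) (by linarith))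
      ⟨f p - l₀ * p, l₀, fun t ht => ?_⟩
    have t1 : a ≤ t := by linarith [ht.1, min_le_left (y - a) (p - y)]
    have t2 : t ≤ p := by linarith [ht.2, min_le_right (y - a) (p - y)]
    have hap : 0 < p - a := by linarith
    have hc := hf.2 (Set.mem_univ a) (Set.mem_univ p) (div_nonneg (sub_nonneg.2 t2) hap.le)
      (div_nonneg (sub_nonneg.2 t1) hap.le) (by field_simp; ring)
    simp only [smul_eq_mul] at hc
    have e1 : (p - t) / (p - a) * a + (t - a) / (p - a) * p = t := by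
      field_simp
      ring
    have e2 : (p - t) / (p - a) * f a + (t - a) / (p - a) * f p = f p + l₀ * (t - p) := by
      rw [h0]
      field_simp
      ring
    rw [e1, e2] at hc
    linarith [hl₀ t]
  · have h3 := hm p s l₀ l (by linarith) hl₀ hl
    have h4 := mul_nonneg (sub_nonneg.2 h3) (show 0 ≤ p - a by linarith)
    linarith [hl p]

theorem left (hC : St_CVX) (hf : ConvexOn ℝ Set.univ f) (hQ : Quad f x₀ lam)
    (hu : ∀ l, Sub f x₀ l → l = lam) {e : ℝ} (he : 0 < e) : ∃ A : ℕ → ℝ, ∀ j,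
      x₀ - e < A j ∧ A j < A (j + 1) ∧ A j < x₀ ∧ A j ∈ KK f ∧ ∃ c : ℝ, 0 < c ∧
        ∀ s, A (j + 1) ≤ s → ∀ l, Sub f s l → c ≤ f (A j) - f s - l * (A j - s) := by
  obtain ⟨a₀, hk, h1, h2⟩ := meets hC hf hQ hu (show x₀ - e < x₀ by linarith)
  have key : ∀ a : {a : ℝ // x₀ - e < a ∧ a < x₀ ∧ a ∈ KK f},
      ∃ a' : {a : ℝ // x₀ - e < a ∧ a < x₀ ∧ a ∈ KK f}, a.1 < a'.1 ∧ ∃ c : ℝ, 0 < c ∧
        ∀ s, a'.1 ≤ s → ∀ l, Sub f s l → c ≤ f a.1 - f s - l * (a.1 - s) := fun a => by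
    obtain ⟨a', hk', h3, h4, h5⟩ := step hC hf hQ hu a.2.2.1
    exact ⟨⟨a', a.2.1.trans h3, h4, hk'⟩, h3, h5⟩
  choose nx hnx using key
  refine ⟨fun j => (nx^[j] ⟨a₀, h1, h2, hk⟩).1, fun j => ?_⟩
  simp only [Function.iterate_succ_apply']
  exact ⟨(nx^[j] _).2.1, (hnx _).1, (nx^[j] _).2.2.1, (nx^[j] _).2.2.2, (hnx _).2⟩

theorem sub_neg {s l : ℝ} (h : Sub f s l) : Sub (fun t => f (-t)) (-s) (-l) := fun t => by
  have := h (-t)
  simp only [neg_neg]
  linarith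

theorem kk_neg {s : ℝ} (h : s ∈ KK fun t => f (-t)) : -s ∈ KK f := by
  rintro e he ⟨c₀, c₁, hc⟩
  refine h e he ⟨c₀, -c₁, fun y hy => ?_⟩
  have := hc (-y) ⟨by linarith [hy.2], by linarith [hy.1]⟩
  linarith

end NEST

theorem bNEST (hC : St_CVX) : St_NEST := by
  intro f x₀ lam e hf hQ hu he
  obtain ⟨A, hA⟩ := NEST.left hC hf hQ hu he
  have hg : ConvexOn ℝ Set.univ fun t => f (-t) := by
    refine ⟨convex_univ, fun x _ y _ a b ha hb hab => ?_⟩
    have := hf.2 (Set.mem_univ (-x)) (Set.mem_univ (-y)) ha hb hab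
    have e : a • -x + b • -y = -(a • x + b • y) := by
      simp only [smul_eq_mul]
      ring
    rwa [e] at this
  have hQ' : Quad (fun t => f (-t)) (-x₀) (-lam) := by
    obtain ⟨c, e, hc, he, hq⟩ := hQ
    refine ⟨c, e, hc, he, fun t => ?_⟩
    have := hq (-t)
    have e1 : -t - x₀ = -(t - -x₀) := by ring
    rw [e1, neg_sq, abs_neg] at this
    simp only [neg_neg] at this ⊢
    linarith
  have hu' : ∀ l, Sub (fun t => f (-t)) (-x₀) l → l = -lam := fun l hl => by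
    have := NEST.sub_neg hl
    simp only [neg_neg] at this
    linarith [hu _ this]
  obtain ⟨B, hB⟩ := NEST.left hC hg hQ' hu' he
  refine ⟨A, fun j => -B j, fun j => ?_⟩
  obtain ⟨a1, a2, a3, a4, c, hc, a5⟩ := hA j
  obtain ⟨b1, b2, b3, b4, c', hc', b5⟩ := hB j
  refine ⟨a1, a2, a3, by linarith, by linarith, by linarith, a4, NEST.kk_neg b4, min c c',
    lt_min hc hc', fun s hs l hl => ⟨(min_le_left _ _).trans (a5 s hs.1 l hl), ?_⟩⟩
  have := b5 (-s) (by linarith [hs.2]) (-l) (NEST.sub_neg hl)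
  simp only [neg_neg] at this
  linarith [min_le_right c c']

end Pool.Agent.Lib.FP95
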