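import Pool.Agent.Lib.FP95.Base

/-! Row OUT: back to the definitions of the hand-in. -/

namespace Pool.Agent.Lib.FP95

open MeasureTheory ProbabilityTheory Filter Pool.Agent.Lib.MP_eba68f_pr SimpleGraph
open scoped NNReal ENNReal

namespace OUT

lemma ident94 (p : Par) (hF : p.F {t | p.r ≤ (t : ℝ) ∧ (t : ℝ) ≤ p.b} = 1) (z : V) :
    IdentDistrib (fun τ => passage τ 0 z) (fun τ => p.T τ 0 z)
      (Measure.infinitePi fun _ : (lattice 2).edgeSet => p.F) p.P := by
  have hm : Measurable fun τ : (lattice 2).edgeSet → ℝ≥0 => passage τ 0 z := by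
    refine Measurable.iInf fun q => ?_
    induction q.darts with
    | nil => simp
    | cons a l ih =>
      simp only [List.map_cons, List.sum_cons]
      exact ((measurable_pi_apply (⟨a.edge, a.edge_mem⟩ : (lattice 2).edgeSet)).coe_nnreal_real).add ih
  have h1 := Measure.map_infinitePi_infinitePi_of_inj (P := fun _ : Sym2 V => p.F)
    (f := fun e : (lattice 2).edgeSet => (e : Sym2 V)) Subtype.val_injective
  have h2 : ∀ᵐ t ∂p.F, p.w t = t := by
    have ms : MeasurableSet {t : ℝ≥0 | p.r ≤ (t : ℝ) ∧ (t : ℝ) ≤ p.b} :=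
      measurable_coe_nnreal_real (measurableSet_Icc (a := p.r) (b := p.b))
    filter_upwards [(mem_ae_iff_prob_eq_one ms).2 hF] with t ht
    rw [Par.w, min_eq_right ht.2, max_eq_right ht.1]
  have h3 : ∀ᵐ τ ∂p.P, ∀ e, p.w (τ e) = τ e := ae_all_iff.2 fun e =>
    (measurePreserving_eval_infinitePi (fun _ : Sym2 V => p.F) e).quasiMeasurePreserving.ae h2
  refine ⟨hm.aemeasurable, (p.T_meas 0 z).aemeasurable, ?_⟩
  rw [← h1, Measure.map_map hm (by fun_prop)]
  refine Measure.map_congr (h3.mono fun τ hτ => ?_)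
  show passage (fun e : (lattice 2).edgeSet => τ e) 0 z = p.T τ 0 z
  unfold passage Par.T Par.LW
  simp only [hτ, Walk.edges, List.map_map]
  rfl

end OUT

open OUT in
theorem bOUT : St_OUT := by
  intro p hF
  refine ⟨fun z => ?_, fun y c hc h => ?_⟩
  · unfold MP_eba68f_edge.mu Par.m Par.h
    simp only [(ident94 p hF _).integral_eq]
    rfl
  obtain ⟨_, ⟨κ, hκ, rfl⟩, hlt⟩ := sInf_lt_iff.1 h
  have hlt : κ < 1 / 5 := EReal.coe_lt_coe_iff.1 hlt
  obtain ⟨B, hB, -⟩ := ENNReal.lt_iff_exists_nnreal_btwn.1 (Set.mem_ofPred_eq ▸ hκ :)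
  obtain ⟨n₀, hn₀⟩ := eventually_atTop.1
    ((eventually_lt_of_limsup_lt hB).and (eventually_ge_atTop 1))
  have k0 : 0 ≤ 2 * max κ 0 := by positivity
  have v0 : 0 ≤ ∑ n ∈ Finset.range n₀, p.Vr (fl ((n : ℝ) • y.ofLp)) :=
    Finset.sum_nonneg fun _ _ => p.Vr_nonneg _
  refine ⟨max κ 0, 2 * (B * c ^ (2 * max κ 0) + ∑ n ∈ Finset.range n₀, p.Vr (fl ((n : ℝ) • y.ofLp))) +
    2 * (p.b * (l1 y.ofLp + 2)) ^ 2, le_max_right _ _, max_lt hlt (by norm_num), by positivity,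
    fun N l hN hl hlN => ?_⟩
  have hlc : 0 ≤ l * c := by positivity
  have N1 : 1 ≤ N ^ (2 * max κ 0) := Real.one_le_rpow hN k0
  have h1 := p.Vr_le (fl (l • c • y.ofLp)) (fl ((⌊l * c⌋₊ : ℝ) • y.ofLp))
  have h2 := n1_fl_sub (l • c • y.ofLp) ((⌊l * c⌋₊ : ℝ) • y.ofLp)
  rw [smul_smul] at h1 h2 ⊢
  rw [← sub_smul, l1_smul, abs_of_nonneg (sub_nonneg.2 (Nat.floor_le hlc))] at h2
  have h3 := mul_le_of_le_one_left (l1_nonneg y.ofLp)
    (show l * c - ⌊l * c⌋₊ ≤ 1 by linarith [Nat.lt_floor_add_one (l * c)])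
  have h4 := pow_le_pow_left₀ (mul_nonneg p.b_pos.le (n1_nonneg _))
    (mul_le_mul_of_nonneg_left (h2.trans (add_le_add_left h3 2)) p.b_pos.le) 2
  have h5 := le_mul_of_one_le_right (sq_nonneg (p.b * (l1 y.ofLp + 2))) N1
  have h6 := le_mul_of_one_le_right v0 N1
  have h7 : 0 ≤ B * c ^ (2 * max κ 0) * N ^ (2 * max κ 0) := by positivity
  have h8 := Nat.floor_le hlc
  generalize ⌊l * c⌋₊ = n at h1 h4 h8
  rcases lt_or_ge n n₀ with hn | hn
  · have := Finset.single_le_sum (f := fun n : ℕ => p.Vr (fl ((n : ℝ) • y.ofLp)))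
      (fun _ _ => p.Vr_nonneg _) (Finset.mem_range.2 hn)
    linarith
  · obtain ⟨e1, e2⟩ := hn₀ n hn
    have n1' : (1 : ℝ) ≤ n := by exact_mod_cast e2
    rw [passVar, (ident94 p hF _).evariance_eq, ← ofReal_variance ((p.T_nice _ _).memLp _ 2),
      ← ENNReal.ofReal_mul (by positivity), ENNReal.ofReal_lt_coe_iff
        (mul_nonneg (by positivity) (variance_nonneg _ _)), neg_mul, Real.rpow_neg (by positivity),
      inv_mul_lt_iff₀ (by positivity)] at e1
    have e3 : (n : ℝ) ^ (2 * κ) ≤ c ^ (2 * max κ 0) * N ^ (2 * max κ 0) := by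
      rw [← Real.mul_rpow hc.le (by linarith)]
      exact (Real.rpow_le_rpow_of_exponent_le n1' (by linarith [le_max_left κ 0])).trans
        (Real.rpow_le_rpow (by positivity) (by nlinarith) k0)
    have e4 := mul_le_mul_of_nonneg_right e3 B.coe_nonneg
    have e5 : p.Vr (fl ((n : ℝ) • y.ofLp)) < (n : ℝ) ^ (2 * κ) * B := e1
    linarith

end Pool.Agent.Lib.FP95
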