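import Pool.Agent.Lib.FP95.Base

/-! Block PEI: few bad boxes along a short geodesic (union bound over the walks of a king). -/

namespace Pool.Agent.Lib.FP95

open Pool.Agent.Lib.MP_eba68f_pr

namespace PEI

theorem div_le {a b L : ℤ} (hL : 0 < L) (h : a ≤ b + L) : a / L ≤ b / L + 1 := by
  have := Int.ediv_le_ediv hL h
  rwa [Int.add_ediv_of_dvd_right (dvd_refl L), Int.ediv_self hL.ne'] at this

theorem div_close {a b L : ℤ} (hL : 0 < L) (h : |a - b| ≤ L) : |a / L - b / L| ≤ 1 := by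
  obtain ⟨h1, h2⟩ := abs_le.1 h
  have e1 := div_le (a := a) (b := b) hL (by linarith)
  have e2 := div_le (a := b) (b := a) hL (by linarith)
  exact abs_le.2 ⟨by linarith, by linarith⟩

theorem coord {p : Par} {τ : Cfg} {X : V} {N : ℕ} {Z : ℕ → V} (g : p.Geo τ 0 X N Z)
    {i j L : ℕ} (hij : i ≤ j) (hj : j ≤ N) (hL : j ≤ i + L) (c : Fin 2) :
    |Z j c - Z i c| ≤ (L : ℤ) := by
  have h := g.steps hij hj
  have h1 : (j : ℝ) ≤ i + L := by exact_mod_cast hL
  have h2 : |((Z j c - Z i c : ℤ) : ℝ)| ≤ n1 (Z j - Z i) := by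
    have a0 := abs_nonneg (((Z j - Z i) 0 : ℤ) : ℝ)
    have a1 := abs_nonneg (((Z j - Z i) 1 : ℤ) : ℝ)
    show |(((Z j - Z i) c : ℤ) : ℝ)| ≤ _
    unfold n1
    fin_cases c
    · simp only [Fin.zero_eta]; linarith
    · simp only [Fin.mk_one]; linarith
  have h3 : |((Z j c - Z i c : ℤ) : ℝ)| ≤ L := by linarith
  exact_mod_cast h3

open Classical in
theorem count (hMULT : St_MULT) {p : Par} {τ : Cfg} {X : V} {N L : ℕ} {Z : ℕ → V} (hL : 1 ≤ L)
    (g : p.Geo τ 0 X N Z) (Bd : V → Set Cfg) (A : Finset V)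
    (hA : ∀ l, l * L < N → kx L (Z (l * L)) ∈ A) :
    (nbad L Bd τ N Z : ℝ) ≤
      (2 * (p.b / p.r) + 1) * ((A.filter fun k => τ ∈ Bd k).card : ℝ) := by
  have h1 : ((Finset.range N).filter fun l => l * L < N ∧ τ ∈ Bd (kx L (Z (l * L)))) ⊆
      (A.filter fun k => τ ∈ Bd k).biUnion fun k =>
        (Finset.range N).filter fun l => l * L < N ∧ kx L (Z (l * L)) = k := by
    intro l hl
    obtain ⟨h0, h2, h3⟩ := Finset.mem_filter.1 hl
    exact Finset.mem_biUnion.2 ⟨_, Finset.mem_filter.2 ⟨hA l h2, h3⟩,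
      Finset.mem_filter.2 ⟨h0, h2, rfl⟩⟩
  have h2 := (Finset.card_le_card h1).trans Finset.card_biUnion_le
  have h3 : (nbad L Bd τ N Z : ℝ) ≤ ∑ k ∈ A.filter fun k => τ ∈ Bd k,
      (((Finset.range N).filter fun l => l * L < N ∧ kx L (Z (l * L)) = k).card : ℝ) := by
    unfold nbad
    exact_mod_cast h2
  refine h3.trans ((Finset.sum_le_card_nsmul _ _ _ fun k _ =>
    hMULT p τ X N L Z k hL g).trans_eq ?_)
  rw [nsmul_eq_mul, mul_comm]

end PEI

open Classical in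
theorem bPEI (hKING : St_KING) (hFAR : St_FAR) (hMULT : St_MULT) : St_PEI := by
  intro p e he
  have hc : 0 < 2 * (p.b / p.r) + 1 := by linarith [p.one_le_ratio]
  obtain ⟨δ, hδ, hF⟩ := hFAR p (e / (2 * (p.b / p.r) + 1)) (div_pos he hc)
  refine ⟨δ, hδ, fun L Bd hL hloc n X => ?_⟩
  obtain ⟨𝒜, h9, hcard, hcov⟩ := hKING n
  have hsub : {τ | ∃ N Z, p.Geo τ 0 X N Z ∧ N ≤ n * L ∧ e * n ≤ (nbad L Bd τ N Z : ℝ)} ⊆
      ⋃ A ∈ 𝒜, {τ | e / (2 * (p.b / p.r) + 1) * n ≤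
        ((A.filter fun k => τ ∈ Bd k).card : ℝ)} := by
    rintro τ ⟨N, Z, g, hN, hb⟩
    obtain ⟨A, hA, hk⟩ := hcov (fun l => kx L (Z (min (l * L) N)))
      (by ext i; simp [kx, g.zero])
      (fun l _ i => PEI.div_close (by exact_mod_cast hL)
        (PEI.coord g (min_le_min_right _ (Nat.mul_le_mul_right _ (Nat.le_succ l)))
          (min_le_right _ _) (by rw [Nat.succ_mul]; omega) i))
    refine Set.mem_biUnion hA ?_
    have h1 := PEI.count hMULT hL g Bd A fun l hl => by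
      have h2 : l ≤ n := (Nat.lt_of_mul_lt_mul_right (hl.trans_le hN)).le
      have h3 := hk l h2
      rwa [min_eq_left hl.le] at h3
    show e / (2 * (p.b / p.r) + 1) * n ≤ _
    rw [div_mul_eq_mul_div, div_le_iff₀ hc]
    linarith
  refine (p.pr_mono hsub).trans ((p.pr_biUnion_le _ _).trans ?_)
  refine (Finset.sum_le_card_nsmul _ _ _ fun A hA => hF L Bd hL hloc n A (hcard A hA)).trans ?_
  rw [nsmul_eq_mul]
  have h1 : (𝒜.card : ℝ) ≤ 9 ^ n := by exact_mod_cast h9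
  have h2 : (9 : ℝ) ^ n * (2 * (1 / 18) ^ n) = 2 * (1 / 2) ^ n := by
    rw [mul_left_comm, ← mul_pow]; norm_num
  rw [← h2]
  exact mul_le_mul_of_nonneg_right h1 (by positivity)

end Pool.Agent.Lib.FP95
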