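import Pool.Agent.Lib.FP95.Blue

/-! The deficiency function near a point of quadratic support. -/

namespace Pool.Agent.Lib.FP95

namespace PHI

lemma key (p : Par) (x : R2) (s lam : ℝ) (hN : p.Norm) (hx : x 0 ^ 2 + x 1 ^ 2 = 1)
    (hF : 0 < p.f x s) (L y : ℝ) (hL : 0 < L) :
    p.D (p.dat x s lam) (L • (p.dat x s lam).a + y • (p.dat x s lam).n) =
      L / p.f x s * (p.f x (s + y * p.f x s / L) - p.f x s - lam * (y * p.f x s / L)) := by
  have h1 : L • (p.dat x s lam).a + y • (p.dat x s lam).n =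
      (L / p.f x s) • uu x (s + y * p.f x s / L) := by
    show L • ((p.f x s)⁻¹ • uu x s) + y • perp x = _
    ext i
    simp only [uu, Pi.add_apply, Pi.smul_apply, smul_eq_mul]
    field_simp
    ring
  have h2 : ∀ t, (p.dat x s lam).ρ (uu x t) = p.f x s - lam * s + lam * t := fun t => by
    show ((p.f x s - lam * s) • dot x + lam • dot (perp x)) (uu x t) = _
    simp only [dot, uu, perp, LinearMap.add_apply, LinearMap.smul_apply, LinearMap.proj_apply,
      smul_eq_mul, Pi.add_apply, Pi.smul_apply, Matrix.cons_val_zero, Matrix.cons_val_one]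
    linear_combination (p.f x s - lam * s + lam * t) * hx
  rw [h1]
  unfold Par.D
  rw [hN.smul _ _ (by positivity), map_smul, h2, smul_eq_mul]
  show L / p.f x s * p.f x (s + y * p.f x s / L) - _ = _
  ring

lemma low (p : Par) (x : R2) (s lam c e : ℝ) (hN : p.Norm) (hx : x 0 ^ 2 + x 1 ^ 2 = 1)
    (hF : 0 < p.f x s)
    (hQ : ∀ t, c * min ((t - s) ^ 2) (e * |t - s|) ≤ p.f x t - p.f x s - lam * (t - s))
    (L y : ℝ) (hL : 0 < L) :
    c * min (y ^ 2 * p.f x s / L) (e * |y|) ≤
      p.D (p.dat x s lam) (L • (p.dat x s lam).a + y • (p.dat x s lam).n) := by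
  rw [key p x s lam hN hx hF L y hL]
  have h := hQ (s + y * p.f x s / L)
  rw [add_sub_cancel_left] at h
  have h0 : 0 < L / p.f x s := by positivity
  refine le_trans (le_of_eq ?_) (mul_le_mul_of_nonneg_left h h0.le)
  rw [mul_left_comm, mul_min_of_nonneg _ _ h0.le, abs_div, abs_mul, abs_of_pos hF, abs_of_pos hL]
  congr 2 <;> field_simp

end PHI

theorem bPHI (hDAT : St_DAT) : St_PHI := by
  intro p x s lam hN hx _ _ hQ d hd
  subst hd
  obtain ⟨c, e, hc, he, hQ⟩ := hQ
  have hF : 0 < p.f x s := p.r_pos.trans_le ((hDAT p x hN hx).2.1 s)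
  have low := PHI.low p x s lam c e hN hx hF hQ
  refine ⟨fun y hy => ?_, fun K hK => ?_⟩
  · have h := low 1 y one_pos
    rw [one_smul] at h
    refine lt_of_lt_of_le ?_ h
    have : 0 < |y| := abs_pos.2 hy
    exact mul_pos hc (lt_min (by positivity) (by positivity))
  · refine ⟨Real.sqrt (K / (c * p.f x s)) + K / (c * e), fun L y hL hy h => ?_⟩
    have hL0 : 0 < L := by linarith
    have h1 := low L y hL0
    have h2 := low L (-y) hL0
    rw [neg_smul, ← sub_eq_add_neg] at h2
    have h3 : 0 ≤ c * min ((-y) ^ 2 * p.f x s / L) (e * |-y|) :=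
      mul_nonneg hc.le (le_min (by positivity) (by positivity))
    unfold Par.phi at h
    have h4 : c * min (y ^ 2 * p.f x s / L) (e * |y|) ≤ K * L ^ (1 / 5 : ℝ) := by linarith
    have h5 : 0 < L ^ (3 / 5 : ℝ) := Real.rpow_pos_of_pos hL0 _
    have h6 : L ^ (1 / 5 : ℝ) ≤ L ^ (3 / 5 : ℝ) :=
      Real.rpow_le_rpow_of_exponent_le hL (by norm_num)
    have h7 : L ^ (1 / 5 : ℝ) * L = (L ^ (3 / 5 : ℝ)) ^ 2 := by
      rw [← Real.rpow_add_one hL0.ne', ← Real.rpow_natCast, ← Real.rpow_mul hL0.le]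
      norm_num
    have h8 : 0 ≤ Real.sqrt (K / (c * p.f x s)) := Real.sqrt_nonneg _
    have h9 : 0 ≤ K / (c * e) := by positivity
    rw [abs_of_nonneg hy] at h4
    rcases min_choice (y ^ 2 * p.f x s / L) (e * y) with h0 | h0 <;> rw [h0] at h4
    · have h10 : y ^ 2 ≤ (Real.sqrt (K / (c * p.f x s)) * L ^ (3 / 5 : ℝ)) ^ 2 := by
        rw [mul_pow, Real.sq_sqrt (by positivity), ← h7, div_mul_eq_mul_div,
          le_div_iff₀ (by positivity)]
        rw [← mul_div_assoc, div_le_iff₀ hL0] at h4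
        linarith
      have h11 := abs_le_of_sq_le_sq h10 (by positivity)
      rw [abs_of_nonneg hy] at h11
      nlinarith
    · have h10 : y ≤ K / (c * e) * L ^ (3 / 5 : ℝ) := by
        rw [div_mul_eq_mul_div, le_div_iff₀ (by positivity)]
        nlinarith
      nlinarith

end Pool.Agent.Lib.FP95
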