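import Pool.Agent.Lib.FP95.Blue

/-! Block RES: resampling one coordinate preserves the product measure. -/

namespace Pool.Agent.Lib.FP95

open MeasureTheory ProbabilityTheory Filter Topology Pool.Agent.Lib.MP_eba68f_pr
open scoped NNReal ENNReal

namespace RES

theorem pre_upd {ι α : Type} [DecidableEq ι] (e : ι) (s : Finset ι) (t : ι → Set α) :
    (fun z : (ι → α) × α => Function.update z.1 e z.2) ⁻¹' Set.pi s t =
      (Set.pi (s.erase e) t) ×ˢ (if e ∈ s then t e else Set.univ) := by
  ext z
  simp only [Set.mem_preimage, Set.mem_pi, Finset.mem_coe, Finset.mem_erase, Set.mem_prod]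
  constructor
  · intro h
    refine ⟨fun i hi => ?_, ?_⟩
    · have := h i hi.2
      rwa [Function.update_of_ne hi.1] at this
    · by_cases he : e ∈ s
      · have := h e he
        rw [Function.update_self] at this
        rw [if_pos he]
        exact this
      · rw [if_neg he]
        exact Set.mem_univ _
  · rintro ⟨h1, h2⟩ i hi
    by_cases hie : i = e
    · subst hie
      rw [if_pos hi] at h2
      rw [Function.update_self]
      exact h2
    · rw [Function.update_of_ne hie]
      exact h1 i ⟨hie, hi⟩

theorem resample {ι α : Type} [DecidableEq ι] [MeasurableSpace α] (F : Measure α)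
    [IsProbabilityMeasure F] (e : ι) :
    MeasurePreserving (fun z : (ι → α) × α => Function.update z.1 e z.2)
      ((Measure.infinitePi fun _ : ι => F).prod F) (Measure.infinitePi fun _ : ι => F) := by
  have hm : Measurable fun z : (ι → α) × α => Function.update z.1 e z.2 :=
    measurable_update' (X := fun _ : ι => α)
  refine ⟨hm, ?_⟩
  apply Measure.eq_infinitePi
  intro s t ht
  rw [Measure.map_apply hm (MeasurableSet.pi s.countable_toSet fun i _ => ht i), pre_upd,
    Measure.prod_prod, Measure.infinitePi_pi _ fun i _ => ht i]
  by_cases he : e ∈ s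
  · rw [if_pos he, Finset.prod_erase_mul s _ he]
  · rw [if_neg he, measure_univ, mul_one, Finset.erase_eq_of_notMem he]

end RES

theorem bRES : St_RES := by
  intro p e
  have := p.prob
  exact RES.resample p.F e

end Pool.Agent.Lib.FP95
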