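import Pool.Agent.Lib.FP95.Base

/-! Probability of leaving a strip: union bound over the exit site. -/

namespace Pool.Agent.Lib.FP95

open MeasureTheory ProbabilityTheory Filter Topology Function Finset
  Pool.Agent.Lib.MP_eba68f_pr
open scoped NNReal ENNReal

namespace SIDE

/-- a union over a ball of events of probability at most `δ` -/
lemma union_ball (p : Par) {N δ : ℝ} (hN : 1 ≤ N) (hδ : 0 ≤ δ) (E : V → Set Cfg) (c : V → Prop)
    (h : ∀ z, c z → p.pr (E z) ≤ δ) :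
    p.pr {τ | ∃ z, n1 z ≤ N ∧ c z ∧ τ ∈ E z} ≤ 9 * N ^ 2 * δ := by
  classical
  have h1 : {τ | ∃ z, n1 z ≤ N ∧ c z ∧ τ ∈ E z} ⊆ ⋃ z ∈ (ball N).filter c, E z := by
    rintro τ ⟨z, hz, hc, hτ⟩
    exact Set.mem_iUnion₂.2 ⟨z, Finset.mem_filter.2 ⟨mem_ball hz, hc⟩, hτ⟩
  refine (p.pr_mono h1).trans ((p.pr_biUnion_le _ _).trans ?_)
  have h2 : ∑ z ∈ (ball N).filter c, p.pr (E z) ≤ ((ball N).filter c).card • δ :=
    Finset.sum_le_card_nsmul _ _ _ fun z hz => h z (Finset.mem_filter.1 hz).2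
  rw [nsmul_eq_mul] at h2
  have h3 : (((ball N).filter c).card : ℝ) ≤ (ball N).card := by
    exact_mod_cast Finset.card_filter_le _ _
  have h4 := card_ball (t := N) (by linarith)
  have h5 : (2 * N + 1) ^ 2 ≤ 9 * N ^ 2 := by nlinarith
  exact h2.trans (mul_le_mul_of_nonneg_right (by linarith) hδ)

lemma union_bool (p : Par) (E : Bool → Set Cfg) {δ : ℝ} (h : ∀ s, p.pr (E s) ≤ δ) :
    p.pr {τ | ∃ s, τ ∈ E s} ≤ 2 * δ := by
  have h1 : {τ | ∃ s, τ ∈ E s} ⊆ E true ∪ E false := by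
    rintro τ ⟨s, hs⟩
    cases s
    · exact Or.inr hs
    · exact Or.inl hs
  linarith [p.pr_mono h1, p.pr_union_le (E true) (E false), h true, h false]

end SIDE

theorem bSIDE (hC : St_CDET) : St_SIDE := by
  intro p R θ S hn hG hθ hU hL ε hε
  obtain ⟨c, hc, hcd⟩ := hC p R hn
  obtain ⟨A, hA, hU⟩ := hU
  obtain ⟨C, hC0, hU⟩ := hU 3
  obtain ⟨CL, hCL, hL⟩ := hL
  have hcθ : 0 < c ^ θ := Real.rpow_pos_of_pos (by linarith) θ
  obtain ⟨l0, hl0⟩ : ∃ l0 : ℝ, l0 = 8 * (CL + 1) * c ^ θ / ε := ⟨_, rfl⟩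
  have hl0p : 0 < l0 := by rw [hl0]; positivity
  have hAc : 0 ≤ A * c := mul_nonneg hA (by linarith)
  have hCc : 0 ≤ C * c ^ θ := mul_nonneg hC0 hcθ.le
  refine ⟨l0 + 3 * (A * c) + c + 3 * (C * c ^ θ), 1 + 74 * C / ε, by linarith,
    by have : 0 ≤ 74 * C / ε := by positivity
       linarith, ?_⟩
  intro d hd M m H hM hm hmM hH hphi
  have hCe : 0 ≤ 74 * C / ε := by positivity
  have hM1 : 1 ≤ M := by linarith
  have g := hG d hd
  rcases le_total (p.R1 R * M) H with hHR | hHR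
  · rw [g.exit_empty hM1 hm hmM hHR, p.pr_empty]; exact hε.le
  obtain ⟨X, hX⟩ : ∃ X : V, X = fl (m • d.a) + fl (m • d.a) := ⟨_, rfl⟩
  obtain ⟨zp, zm, hX1, hX2, hz, hex⟩ := hcd d g M m H hM1 hm hmM hH hHR X hX
  rw [← hX]
  obtain ⟨N, hN⟩ : ∃ N : ℝ, N = c * M := ⟨_, rfl⟩
  rw [← hN] at hX1 hz hex
  have hMN : M ≤ N := by rw [hN]; nlinarith
  have hN1 : 1 ≤ N := hM1.trans hMN
  have hMθ : 1 ≤ M ^ θ := Real.one_le_rpow hM1 hθ
  have hNθ : N ^ θ = c ^ θ * M ^ θ := by rw [hN, Real.mul_rpow (by linarith) (by linarith)]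
  obtain ⟨lam, hlam⟩ : ∃ lam : ℝ, lam = l0 * M ^ θ := ⟨_, rfl⟩
  have hlamp : 0 < lam := by rw [hlam]; positivity
  -- upper events
  let U : V → V → Set Cfg := fun u v =>
    {τ | d.ρ (up (v - u)) + A * p.D d (up (v - u)) + C * N ^ θ < p.T τ u v}
  let L : V → V → Set Cfg := fun u v =>
    {τ | p.T τ u v ≤ d.ρ (up (v - u)) + p.D d (up (v - u)) / 2 - lam}
  have hUp : ∀ u v : V, n1 (v - u) ≤ N → p.pr (U u v) ≤ C * N ^ (-3 : ℝ) := fun u v h => by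
    show p.pr {τ | _ < p.T τ u v} ≤ _
    rw [p.pr_lt_T]
    exact hU d hd N (v - u) hN1 h
  have hLo : ∀ u v : V, n1 (v - u) ≤ N → p.pr (L u v) ≤ ε / 8 := fun u v h => by
    show p.pr {τ | p.T τ u v ≤ _} ≤ _
    rw [p.pr_T_le]
    refine (hL d hd N lam (v - u) hN1 h hlamp).trans ?_
    rw [div_le_iff₀ hlamp, hlam, hl0, hNθ]
    have e : ε / 8 * (8 * (CL + 1) * c ^ θ / ε * M ^ θ) = (CL + 1) * (c ^ θ * M ^ θ) := by
      field_simp
    rw [e]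
    exact mul_le_mul_of_nonneg_right (by linarith) (by positivity)
  have hδ : 0 ≤ C * N ^ (-3 : ℝ) := mul_nonneg hC0 (Real.rpow_nonneg (by linarith) _)
  have hsub : p.Exit d X H ⊆ (U 0 X ∪
      ({τ | ∃ s, τ ∈ L 0 (zp s)} ∪ {τ | ∃ s, τ ∈ L (zm s) X})) ∪
      ({τ | ∃ s, τ ∈ {τ | ∃ z, n1 z ≤ N ∧ n1 (zp s - z) ≤ N ∧ τ ∈ U z (zp s)}} ∪
        {τ | ∃ s, τ ∈ {τ | ∃ z, n1 z ≤ N ∧ n1 (z - zm s) ≤ N ∧ τ ∈ U (zm s) z}}) := by
    intro τ hτ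
    obtain ⟨s, z, h1, h2, h3, h4, h5, h6⟩ := hex τ hτ
    by_contra hcon
    simp only [Set.mem_union, not_or, Set.mem_ofPred_eq, not_exists, not_and] at hcon
    obtain ⟨⟨a0, a1, a2⟩, a3, a4⟩ := hcon
    have b0 : p.T τ 0 X ≤ d.ρ (up (X - 0)) + A * p.D d (up (X - 0)) + C * N ^ θ := not_lt.1 a0
    have b1 : d.ρ (up (zp s - 0)) + p.D d (up (zp s - 0)) / 2 - lam < p.T τ 0 (zp s) :=
      not_le.1 (a1 s)
    have b2 : d.ρ (up (X - zm s)) + p.D d (up (X - zm s)) / 2 - lam < p.T τ (zm s) X :=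
      not_le.1 (a2 s)
    have b3 : p.T τ z (zp s) ≤ d.ρ (up (zp s - z)) + A * p.D d (up (zp s - z)) + C * N ^ θ :=
      not_lt.1 (a3 s z h1 h2)
    have b4 : p.T τ (zm s) z ≤ d.ρ (up (z - zm s)) + A * p.D d (up (z - zm s)) + C * N ^ θ :=
      not_lt.1 (a4 s z h1 h3)
    rw [sub_zero] at b0 b1
    have e1 : d.ρ (up (X - zm s)) = d.ρ (up X) - d.ρ (up (zm s)) := by rw [up_sub, map_sub]
    have e2 : d.ρ (up (zp s - z)) = d.ρ (up (zp s)) - d.ρ (up z) := by rw [up_sub, map_sub]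
    have e3 : d.ρ (up (z - zm s)) = d.ρ (up z) - d.ρ (up (zm s)) := by rw [up_sub, map_sub]
    have c0 := mul_le_mul_of_nonneg_left hX2 hA
    have c3 := mul_le_mul_of_nonneg_left h4 hA
    have c4 := mul_le_mul_of_nonneg_left h5 hA
    have c5 := (hz s).2.2
    have d1 : A * c ≤ A * c * M ^ θ := le_mul_of_one_le_right hAc hMθ
    have d2 : c ≤ c * M ^ θ := le_mul_of_one_le_right (by linarith) hMθ
    have d3 : 0 ≤ C * c ^ θ * M ^ θ := by positivity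
    have e4 : C * N ^ θ = C * c ^ θ * M ^ θ := by rw [hNθ]; ring
    have e5 : (l0 + 3 * (A * c) + c + 3 * (C * c ^ θ)) * M ^ θ =
        lam + 3 * (A * c * M ^ θ) + c * M ^ θ + 3 * (C * c ^ θ * M ^ θ) := by rw [hlam]; ring
    rw [e5] at hphi
    linarith
  have p0 := hUp 0 X (by simpa using hX1)
  have p1 := SIDE.union_bool p (fun s => L 0 (zp s)) fun s => hLo 0 (zp s) (by simpa using (hz s).1)
  have p2 := SIDE.union_bool p (fun s => L (zm s) X) fun s => hLo (zm s) X (hz s).2.1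
  have p3 := SIDE.union_bool p
    (fun s => {τ | ∃ z, n1 z ≤ N ∧ n1 (zp s - z) ≤ N ∧ τ ∈ U z (zp s)}) fun s =>
      SIDE.union_ball p hN1 hδ (fun z => U z (zp s)) (fun z => n1 (zp s - z) ≤ N)
        fun z h => hUp z (zp s) h
  have p4 := SIDE.union_bool p
    (fun s => {τ | ∃ z, n1 z ≤ N ∧ n1 (z - zm s) ≤ N ∧ τ ∈ U (zm s) z}) fun s =>
      SIDE.union_ball p hN1 hδ (fun z => U (zm s) z) (fun z => n1 (z - zm s) ≤ N)
        fun z h => hUp (zm s) z h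
  have hNp : 0 < N := by linarith
  have q1 : N ^ 2 * (C * N ^ (-3 : ℝ)) = C / N := by
    rw [Real.rpow_neg hNp.le, show (3 : ℝ) = ((3 : ℕ) : ℝ) by norm_num, Real.rpow_natCast]
    field_simp
  have q2 : C * N ^ (-3 : ℝ) ≤ N ^ 2 * (C * N ^ (-3 : ℝ)) :=
    le_mul_of_one_le_left hδ (by nlinarith)
  have q3 : C / N ≤ ε / 74 := by
    rw [div_le_div_iff₀ hNp (by norm_num)]
    have : 74 * C / ε ≤ N := by linarith
    rw [div_le_iff₀ hε] at this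
    linarith
  refine (p.pr_mono hsub).trans ((p.pr_union_le _ _).trans ?_)
  have u1 := p.pr_union_le (U 0 X) ({τ | ∃ s, τ ∈ L 0 (zp s)} ∪ {τ | ∃ s, τ ∈ L (zm s) X})
  have u2 := p.pr_union_le {τ | ∃ s, τ ∈ L 0 (zp s)} {τ | ∃ s, τ ∈ L (zm s) X}
  have u3 := p.pr_union_le
    {τ | ∃ s, τ ∈ {τ | ∃ z, n1 z ≤ N ∧ n1 (zp s - z) ≤ N ∧ τ ∈ U z (zp s)}}
    {τ | ∃ s, τ ∈ {τ | ∃ z, n1 z ≤ N ∧ n1 (z - zm s) ≤ N ∧ τ ∈ U (zm s) z}}
  linarith

end Pool.Agent.Lib.FP95
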