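import Pool.Agent.Lib.FP95.Base

namespace Pool.Agent.Lib.FP95

open MeasureTheory Finset Pool.Agent.Lib.MP_eba68f_pr

namespace STP1

lemma four (p : Par) (c₁ c₂ e : ℝ) (v₁ v₂ z w x y : V) (h₁ : v₁ = w + y - z)
    (h₂ : v₂ = z - (w - y)) (e₁ : p.pr {τ | c₁ < p.T τ 0 v₁} ≤ e)
    (e₂ : p.pr {τ | c₂ < p.T τ 0 v₂} ≤ e) :
    p.pr ({τ | c₁ < p.T τ z (w + y)} ∪ {τ | c₁ < p.T τ (z + x) (w + x + y)} ∪
      {τ | c₂ < p.T τ (w - y) z} ∪ {τ | c₂ < p.T τ (w + x - y) (z + x)}) ≤ 4 * e := by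
  have a₁ := p.pr_lt_T z (w + y) c₁
  have a₂ := p.pr_lt_T (z + x) (w + x + y) c₁
  have a₃ := p.pr_lt_T (w - y) z c₂
  have a₄ := p.pr_lt_T (w + x - y) (z + x) c₂
  rw [← h₁] at a₁
  rw [show w + x + y - (z + x) = v₁ by rw [h₁]; abel] at a₂
  rw [← h₂] at a₃
  rw [show z + x - (w + x - y) = v₂ by rw [h₂]; abel] at a₄
  have b₁ := p.pr_union_le ({τ | c₁ < p.T τ z (w + y)} ∪ {τ | c₁ < p.T τ (z + x) (w + x + y)} ∪
    {τ | c₂ < p.T τ (w - y) z}) {τ | c₂ < p.T τ (w + x - y) (z + x)}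
  have b₂ := p.pr_union_le ({τ | c₁ < p.T τ z (w + y)} ∪ {τ | c₁ < p.T τ (z + x) (w + x + y)})
    {τ | c₂ < p.T τ (w - y) z}
  have b₃ := p.pr_union_le {τ | c₁ < p.T τ z (w + y)} {τ | c₁ < p.T τ (z + x) (w + x + y)}
  linarith

lemma pows {M ζ θ l : ℝ} (hM : 1 ≤ M) (hζ : 0 < ζ) (hζ' : ζ ≤ 1 / 2) (hθ : 0 ≤ θ) (hθ' : θ ≤ 1)
    (h16 : (16 : ℝ) ^ (1 / ζ) ≤ M) (hl : l = M ^ (1 - ζ)) :
    1 ≤ l ∧ 16 * l ≤ M ∧ M ≤ l ^ 2 ∧ (M / l) ^ 2 = M ^ (2 * ζ) ∧ l ^ θ = M ^ (θ * (1 - ζ)) ∧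
      M ^ θ * (l / M) ≤ M ^ (θ * (1 - ζ)) ∧ 1 ≤ M ^ (θ * (1 - ζ)) := by
  have hM0 : 0 < M := by linarith
  have h1 : 1 ≤ l := hl ▸ Real.one_le_rpow hM (by linarith)
  have h2 : l * M ^ ζ = M := by
    rw [hl, ← Real.rpow_add hM0]; simp
  have h3 : 16 ≤ M ^ ζ := by
    have := Real.rpow_le_rpow (by positivity) h16 hζ.le
    rwa [← Real.rpow_mul (by norm_num), one_div_mul_cancel hζ.ne', Real.rpow_one] at this
  refine ⟨h1, by nlinarith, ?_, ?_, ?_, ?_, Real.one_le_rpow hM (by nlinarith)⟩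
  · rw [hl, sq, ← Real.rpow_add hM0]
    simpa using Real.rpow_le_rpow_of_exponent_le hM (show (1 : ℝ) ≤ 1 - ζ + (1 - ζ) by linarith)
  · have : M / l = M ^ ζ := by
      rw [div_eq_iff (by linarith), mul_comm]; exact h2.symm
    rw [this, sq, ← Real.rpow_add hM0]; congr 1; ring
  · rw [hl, ← Real.rpow_mul hM0.le, mul_comm]
  · have : M ^ θ * (l / M) = M ^ (θ - ζ) := by
      have e : M ^ (θ - ζ) = M ^ θ * (M ^ (1 - ζ) / M ^ (1 : ℝ)) := by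
        rw [← Real.rpow_sub hM0, ← Real.rpow_add hM0]; congr 1; ring
      rw [e, Real.rpow_one, hl]
    rw [this]
    exact Real.rpow_le_rpow_of_exponent_le hM (by nlinarith)

end STP1

open STP1 in
theorem bSTP1 (hCH : St_CHORD) (hCONF : St_CONF) (hWIN : St_WIN) : St_STP1 := by
  classical
  intro p R θ ζ S hN hG hθ hθ' hζ hζ' hU hL
  by_cases hR : 1 ≤ R
  swap
  · exact ⟨0, 1, le_rfl, le_rfl, fun d hd => absurd (hG d hd).one_le hR⟩
  obtain ⟨K, M₁, hK, hM₁, hC⟩ := hCONF p R θ S hN hG hθ hU hL (1 / 4) (by norm_num)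
  obtain ⟨A, hA, hU⟩ := hU
  obtain ⟨CU, hCU, hU⟩ := hU 6
  have hb := p.b_pos
  set c₀ : ℝ := p.b / p.r * (2 * R + 4) with hc₀
  have hc1 : 1 ≤ c₀ := by
    have := mul_le_mul p.one_le_ratio (show (1 : ℝ) ≤ 2 * R + 4 by linarith) zero_le_one
      (zero_le_one.trans p.one_le_ratio)
    linarith
  refine ⟨55 * p.R1 R ^ 2 + (8 * p.b + 4 * A * (K + 8 * p.b) + 4 * CU * (4 * R + 4)),
    max (max M₁ (16 ^ (1 / ζ))) (144 * c₀ ^ 2 * CU), by positivity,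
    hM₁.trans ((le_max_left _ _).trans (le_max_left _ _)), ?_⟩
  intro d hd M l hM hl x y hx hy
  have g := hG d hd
  have hMa : M₁ ≤ M := ((le_max_left _ _).trans (le_max_left _ _)).trans hM
  have hMb : (16 : ℝ) ^ (1 / ζ) ≤ M := ((le_max_right _ _).trans (le_max_left _ _)).trans hM
  have hMc : 144 * c₀ ^ 2 * CU ≤ M := (le_max_right _ _).trans hM
  have hM1 : 1 ≤ M := hM₁.trans hMa
  have hM0 : 0 < M := by linarith
  obtain ⟨l1', l16, l2, lq, lθ, lφ, lE⟩ := pows hM1 hζ hζ' hθ hθ' hMb hl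
  set E : ℝ := M ^ (θ * (1 - ζ)) with hE
  have hR1 := g.R1_ge
  have hm0 : 0 ≤ M - 4 * l := by linarith
  have hmM : M - 4 * l ≤ M := by linarith
  obtain ⟨W, hW0, hWL, hφ, hEx⟩ := hC d hd M (M - 4 * l) hMa hm0 hmM
  rw [← hx] at hEx
  have hLM : M ≤ p.R1 R * M := by nlinarith
  obtain ⟨O, wf, hO, hcard, hw⟩ := hWIN p R d (p.R1 R * M) l W hN g l1' (by linarith) hW0 hWL y hy
  refine ⟨l16, O, hO, ?_, ?_⟩
  · have e : (p.R1 R * M / l) ^ 2 = p.R1 R ^ 2 * M ^ (2 * ζ) := by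
      rw [mul_div_assoc, mul_pow, lq]
    rw [e] at hcard
    have : 0 ≤ (8 * p.b + 4 * A * (K + 8 * p.b) + 4 * CU * (4 * R + 4)) * M ^ (2 * ζ) := by
      positivity
    linarith
  set N₂ : ℝ := (4 * R + 4) * l with hN₂
  have hN1 : l ≤ N₂ := by rw [hN₂]; nlinarith
  set thr : V → ℝ := fun v => d.ρ (up v) + A * p.D d (up v) + CU * N₂ ^ θ with hthr
  set s := (ball (c₀ * M)).filter fun z => |d.σ (up z)| ≤ p.R1 R * M ∧ |d.η (up z)| ≤ 4 * W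
    with hs
  set B : V → Set Cfg := fun z => {τ | thr (wf z + y - z) < p.T τ z (wf z + y)} ∪
    {τ | thr (wf z + y - z) < p.T τ (z + x) (wf z + x + y)} ∪
    {τ | thr (z - (wf z - y)) < p.T τ (wf z - y) z} ∪
    {τ | thr (z - (wf z - y)) < p.T τ (wf z + x - y) (z + x)} with hB
  have hBz : ∀ z ∈ s, p.pr (B z) ≤ 4 * (CU * N₂ ^ (-6 : ℝ)) := fun z hz => by
    obtain ⟨-, -, -, a₁, a₂⟩ := hw z (mem_filter.1 hz).2.1 (mem_filter.1 hz).2.2
    exact four p _ _ _ _ _ z (wf z) x y rfl rfl (hU d hd N₂ _ (l1'.trans hN1) a₁)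
      (hU d hd N₂ _ (l1'.trans hN1) a₂)
  have hsum : p.pr (⋃ z ∈ s, B z) ≤ 1 / 4 := by
    have h1 := (p.pr_biUnion_le s B).trans (sum_le_card_nsmul s _ _ hBz)
    have h2 : (s.card : ℝ) ≤ 9 * c₀ ^ 2 * M ^ 2 := by
      have a₁ : (s.card : ℝ) ≤ (ball (c₀ * M)).card := by exact_mod_cast card_filter_le _ _
      have a₂ := card_ball (t := c₀ * M) (by positivity)
      have a₃ : 1 ≤ c₀ * M := by nlinarith
      nlinarith
    have h3 : N₂ ^ (-6 : ℝ) ≤ (M ^ 3)⁻¹ := by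
      rw [Real.rpow_neg (by linarith), show (6 : ℝ) = ((6 : ℕ) : ℝ) by norm_num, Real.rpow_natCast]
      refine inv_anti₀ (by positivity) ?_
      calc M ^ 3 ≤ (l ^ 2) ^ 3 := pow_le_pow_left₀ hM0.le l2 3
        _ = l ^ 6 := by ring
        _ ≤ N₂ ^ 6 := pow_le_pow_left₀ (by linarith) hN1 6
    rw [nsmul_eq_mul] at h1
    refine h1.trans ?_
    calc (s.card : ℝ) * (4 * (CU * N₂ ^ (-6 : ℝ)))
        ≤ 9 * c₀ ^ 2 * M ^ 2 * (4 * (CU * (M ^ 3)⁻¹)) :=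
          mul_le_mul h2 (by gcongr) (by have : 0 ≤ N₂ := by linarith
                                        positivity) (by positivity)
      _ = 144 * c₀ ^ 2 * CU / M / 4 := by field_simp; ring
      _ ≤ 1 / 4 := by
          have := (div_le_one hM0).2 hMc
          linarith
  set Gd : Set Cfg := {τ | ∃ w ∈ O, p.T τ 0 (w + y) + p.T τ (w - y) (w + x + y) +
    p.T τ (w + x - y) (x + x) ≤ p.T τ 0 (x + x) + (8 * l + (55 * p.R1 R ^ 2 +
      (8 * p.b + 4 * A * (K + 8 * p.b) + 4 * CU * (4 * R + 4))) * E)} with hGd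
  have hcov : (Set.univ : Set Cfg) ⊆ p.Exit d (x + x) (4 * W) ∪ (⋃ z ∈ s, B z) ∪ Gd := by
    intro τ _
    by_cases h1 : τ ∈ p.Exit d (x + x) (4 * W)
    · exact Or.inl (Or.inl h1)
    by_cases h2 : τ ∈ ⋃ z ∈ s, B z
    · exact Or.inl (Or.inr h2)
    right
    obtain ⟨N, Z, hZ⟩ := p.exists_Geo τ 0 (x + x)
    obtain ⟨i, j, hij, hj, hP⟩ := hCH N Z x hZ.step (by rw [hZ.last, hZ.zero, sub_zero])
    have hZ' := hZ
    rw [hx] at hZ'
    obtain ⟨a₁, a₂, -⟩ := g.strip hM1 hm0 hmM hZ' (hij.trans hj)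
    have a₃ : |d.η (up (Z i))| ≤ 4 * W :=
      not_lt.1 fun h => h1 ⟨N, Z, hZ, i, hij.trans hj, h⟩
    have hzs : Z i ∈ s := mem_filter.2 ⟨mem_ball a₁, a₂, a₃⟩
    have hnB : τ ∉ B (Z i) := fun h => h2 (Set.mem_iUnion₂.2 ⟨_, hzs, h⟩)
    simp only [hB, Set.mem_union, Set.mem_ofPred_eq, not_or, not_lt] at hnB
    obtain ⟨⟨⟨t₁, t₂⟩, t₃⟩, t₄⟩ := hnB
    obtain ⟨w₀, w₁, w₂, -, -⟩ := hw (Z i) a₂ a₃
    have hj' : Z j = Z i + x := by rw [← hP]; abel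
    have g₁ := hZ.add i j hij hj
    have g₂ := hZ.split hj
    rw [hj'] at g₁ g₂
    set z := Z i
    set w := wf z
    refine ⟨w, w₀, ?_⟩
    have u₁ := p.T_tri τ 0 z (w + y)
    have u₂ := p.T_tri τ (w - y) z (w + x + y)
    have u₃ := p.T_tri τ z (z + x) (w + x + y)
    have u₄ := p.T_tri τ (w + x - y) (z + x) (x + x)
    have r₁ : d.ρ (up (w + y - z)) + d.ρ (up (z - (w - y))) = 2 * d.ρ (up y) := by
      simp only [up_sub, up_add, map_sub, map_add]; ring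
    have r₂ : d.ρ (up y) ≤ 2 * l + 2 * p.b := by
      have e : up y = (2 * l) • d.a + (up (fl ((2 * l) • d.a)) - (2 * l) • d.a) := by
        rw [hy]; abel
      have b₁ := (abs_le.1 (hN.abs_ρ g (up (fl ((2 * l) • d.a)) - (2 * l) • d.a))).2
      have b₂ := mul_le_mul_of_nonneg_left (l1_fl ((2 * l) • d.a)) hb.le
      rw [e, map_add, map_smul, g.ρa, smul_eq_mul]
      linarith
    have r₃ : p.phi d (p.R1 R * M) W * (l / (p.R1 R * M)) ≤ K * E := by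
      have b₁ : l / (p.R1 R * M) ≤ l / M := div_le_div_of_nonneg_left (by linarith) hM0 hLM
      calc _ ≤ K * M ^ θ * (l / M) :=
            mul_le_mul hφ b₁ (by have : 0 < l := by linarith
                                 positivity) (by positivity)
        _ = K * (M ^ θ * (l / M)) := by ring
        _ ≤ K * E := mul_le_mul_of_nonneg_left lφ hK.le
    have r₄ : N₂ ^ θ ≤ (4 * R + 4) * E := by
      rw [hN₂, Real.mul_rpow (by linarith) (by linarith), lθ]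
      refine mul_le_mul_of_nonneg_right ?_ (by linarith)
      simpa using Real.rpow_le_rpow_of_exponent_le (show (1 : ℝ) ≤ 4 * R + 4 by linarith) hθ'
    have r₅ : p.b ≤ p.b * E := le_mul_of_one_le_right hb.le lE
    have r₆ : A * p.D d (up (w + y - z)) ≤ A * ((K + 8 * p.b) * E) :=
      mul_le_mul_of_nonneg_left (by linarith) hA
    have r₇ : A * p.D d (up (z - (w - y))) ≤ A * ((K + 8 * p.b) * E) :=
      mul_le_mul_of_nonneg_left (by linarith) hA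
    have r₈ := mul_le_mul_of_nonneg_left r₄ hCU
    have r₉ : 0 ≤ 55 * p.R1 R ^ 2 * E := by positivity
    simp only [hthr] at t₁ t₂ t₃ t₄
    linarith
  have h1 := p.pr_mono hcov
  have h2 := p.pr_union_le (p.Exit d (x + x) (4 * W) ∪ ⋃ z ∈ s, B z) Gd
  have h3 := p.pr_union_le (p.Exit d (x + x) (4 * W)) (⋃ z ∈ s, B z)
  rw [p.pr_univ] at h1
  linarith

end Pool.Agent.Lib.FP95
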