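import Pool.Agent.Lib.FP95.Blue

/-! Basic kit: norms, passage times, geodesics, locality, translation invariance. -/

namespace Pool.Agent.Lib.FP95

open MeasureTheory ProbabilityTheory Filter Topology Function Finset SimpleGraph
  Pool.Agent.Lib.MP_eba68f_pr
open scoped NNReal ENNReal

instance Par.instF (p : Par) : IsProbabilityMeasure p.F := p.prob
instance Par.instP (p : Par) : IsProbabilityMeasure p.P := by unfold Par.P; infer_instance

/-! ### norms and rounding -/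

lemma n1_eq (v : V) : n1 v = l1 (up v) := rfl
lemma up_add (u v : V) : up (u + v) = up u + up v := by ext i; simp [up]
lemma up_sub (u v : V) : up (u - v) = up u - up v := by ext i; simp [up]
lemma up_neg (u : V) : up (-u) = -up u := by ext i; simp [up]
@[simp] lemma up_zero : up 0 = 0 := by ext i; simp [up]
@[simp] lemma fl_up (v : V) : fl (up v) = v := by ext i; simp [up, fl]
@[simp] lemma fl_zero : fl 0 = 0 := by ext i; simp [fl]
@[simp] lemma l1_zero : l1 0 = 0 := by simp [l1]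
@[simp] lemma n1_zero' : n1 0 = 0 := by simp [n1]
lemma l1_nonneg (x : R2) : 0 ≤ l1 x := by unfold l1; positivity
lemma l1_neg (x : R2) : l1 (-x) = l1 x := by simp [l1]
lemma l1_sub_comm (x y : R2) : l1 (x - y) = l1 (y - x) := by rw [← l1_neg, neg_sub]
lemma l1_add_le (x y : R2) : l1 (x + y) ≤ l1 x + l1 y := by
  simp only [l1, Pi.add_apply]
  linarith [abs_add_le (x 0) (y 0), abs_add_le (x 1) (y 1)]
lemma l1_sub_le (x y : R2) : l1 (x - y) ≤ l1 x + l1 y := by
  have := l1_add_le x (-y)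
  rwa [l1_neg, ← sub_eq_add_neg] at this
lemma l1_smul (c : ℝ) (x : R2) : l1 (c • x) = |c| * l1 x := by
  simp only [l1, Pi.smul_apply, smul_eq_mul, abs_mul]; ring
lemma l1_eq_zero {x : R2} (h : l1 x = 0) : x = 0 := by
  have h0 := abs_nonneg (x 0)
  have h1 := abs_nonneg (x 1)
  unfold l1 at h
  ext i
  fin_cases i
  · exact abs_eq_zero.1 (by simp only [Fin.zero_eta]; linarith)
  · exact abs_eq_zero.1 (by simp only [Fin.mk_one]; linarith)
lemma l1_fl (x : R2) : l1 (up (fl x) - x) ≤ 2 := by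
  have h : ∀ i, |((⌊x i⌋ : ℤ) : ℝ) - x i| ≤ 1 := fun i =>
    abs_le.2 ⟨by linarith [Int.lt_floor_add_one (x i)], by linarith [Int.floor_le (x i)]⟩
  simp only [l1, up, fl, Pi.sub_apply]
  linarith [h 0, h 1]
lemma n1_fl_le (x : R2) : n1 (fl x) ≤ l1 x + 2 := by
  have := l1_add_le x (up (fl x) - x)
  rw [add_sub_cancel] at this
  rw [n1_eq]; linarith [l1_fl x]
lemma n1_fl_sub (x y : R2) : n1 (fl x - fl y) ≤ l1 (x - y) + 2 := by
  have h : ∀ i, |((⌊x i⌋ : ℤ) : ℝ) - ((⌊y i⌋ : ℤ) : ℝ)| ≤ |x i - y i| + 1 := fun i =>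
    abs_le.2 ⟨by linarith [Int.lt_floor_add_one (x i), Int.floor_le (y i), neg_abs_le (x i - y i)],
      by linarith [Int.lt_floor_add_one (y i), Int.floor_le (x i), le_abs_self (x i - y i)]⟩
  simp only [n1, l1, fl, Pi.sub_apply, Int.cast_sub]
  linarith [h 0, h 1]
lemma n1_fl_add (x y : R2) : n1 (fl (x + y) - (fl x + fl y)) ≤ 2 := by
  have h : ∀ i, |((⌊x i + y i⌋ - (⌊x i⌋ + ⌊y i⌋) : ℤ) : ℝ)| ≤ 1 := fun i => by
    have h1 := Int.le_floor_add (x i) (y i)
    have h2 := Int.le_floor_add_floor (x i) (y i)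
    have : |⌊x i + y i⌋ - (⌊x i⌋ + ⌊y i⌋)| ≤ 1 := abs_le.2 ⟨by omega, by omega⟩
    exact_mod_cast this
  simp only [n1, fl, Pi.sub_apply, Pi.add_apply]
  linarith [h 0, h 1]
lemma n1_neg' (v : V) : n1 (-v) = n1 v := by rw [n1_eq, up_neg, l1_neg, n1_eq]
lemma n1_sub_le (u v : V) : n1 (u - v) ≤ n1 u + n1 v := by
  rw [n1_eq, up_sub]; exact l1_sub_le _ _
lemma n1_tri (u v w : V) : n1 (w - u) ≤ n1 (v - u) + n1 (w - v) := by
  have := n1_add_le (v - u) (w - v)
  rwa [show v - u + (w - v) = w - u by abel] at this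

/-- a finite set containing the sites of `l1` norm at most `t` -/
noncomputable def ball (t : ℝ) : Finset V := Fintype.piFinset fun _ => Finset.Icc (-⌊t⌋) ⌊t⌋

lemma mem_ball {t : ℝ} {z : V} (h : n1 z ≤ t) : z ∈ ball t := by
  have h0 := abs_nonneg (z 0 : ℝ)
  have h1 := abs_nonneg (z 1 : ℝ)
  have key : ∀ i, |(z i : ℝ)| ≤ t → z i ∈ Finset.Icc (-⌊t⌋) ⌊t⌋ := fun i hi => by
    have : |z i| ≤ ⌊t⌋ := Int.le_floor.2 (by exact_mod_cast hi)
    exact Finset.mem_Icc.2 (abs_le.1 this)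
  unfold n1 at h
  refine Fintype.mem_piFinset.2 fun i => key i ?_
  fin_cases i
  · simp only [Fin.zero_eta]; linarith
  · simp only [Fin.mk_one]; linarith

lemma card_ball {t : ℝ} (ht : 0 ≤ t) : ((ball t).card : ℝ) ≤ (2 * t + 1) ^ 2 := by
  have h0 : 0 ≤ ⌊t⌋ := Int.floor_nonneg.2 ht
  have h1 : (((Finset.Icc (-⌊t⌋) ⌊t⌋).card : ℕ) : ℤ) = 2 * ⌊t⌋ + 1 := by
    rw [Int.card_Icc_of_le _ _ (by omega)]; ring
  have h2 : (((Finset.Icc (-⌊t⌋) ⌊t⌋).card : ℕ) : ℝ) ≤ 2 * t + 1 := by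
    have : (((Finset.Icc (-⌊t⌋) ⌊t⌋).card : ℕ) : ℝ) = 2 * (⌊t⌋ : ℝ) + 1 := by exact_mod_cast h1
    linarith [Int.floor_le t]
  unfold ball
  rw [Fintype.card_piFinset, Fin.prod_univ_two, Nat.cast_mul, sq]
  exact mul_le_mul h2 h2 (Nat.cast_nonneg _) (by linarith)

lemma near_mono {u u' : V} {t t' : ℝ} (h : n1 (u - u') + t ≤ t') : near u t ⊆ near u' t' :=
  fun _ he z hz => by linarith [he z hz, n1_tri u' u z]

lemma near_finite (u : V) (t : ℝ) : (near u t).Finite := by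
  refine (((ball t).image (· + u)).sym2.finite_toSet).subset fun e he => ?_
  rw [Finset.mem_coe, Finset.mem_sym2_iff]
  exact fun z hz => Finset.mem_image.2 ⟨z - u, mem_ball (he z hz), by simp⟩

lemma near_disjoint {u u' : V} {t t' : ℝ} (h : t + t' < n1 (u - u')) :
    Disjoint (near u t) (near u' t') := by
  refine Set.disjoint_left.2 fun e he he' => ?_
  induction e using Sym2.ind with
  | h x y =>
    have h1 := he x (Sym2.mem_mk_left x y)
    have h2 := he' x (Sym2.mem_mk_left x y)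
    have h3 := n1_tri u' x u
    rw [n1_sub_comm u x] at h3
    linarith

/-! ### bounded measurable functions -/

lemma Nice.int {f : Cfg → ℝ} (hf : Nice f) (μ : Measure Cfg) [IsFiniteMeasure μ] :
    Integrable f μ := by
  obtain ⟨hm, C, hC⟩ := hf
  exact Integrable.of_bound hm.aestronglyMeasurable C (ae_of_all _ hC)
lemma Nice.memLp {f : Cfg → ℝ} (hf : Nice f) (μ : Measure Cfg) [IsFiniteMeasure μ] (q : ℝ≥0∞) :
    MemLp f q μ := by
  obtain ⟨hm, C, hC⟩ := hf
  exact MemLp.of_bound hm.aestronglyMeasurable C (ae_of_all _ hC)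
lemma Nice.const (c : ℝ) : Nice fun _ => c := ⟨measurable_const, |c|, fun _ => le_rfl⟩
lemma Nice.add {f g : Cfg → ℝ} (hf : Nice f) (hg : Nice g) : Nice fun τ => f τ + g τ := by
  obtain ⟨hm, C, hC⟩ := hf
  obtain ⟨hm', C', hC'⟩ := hg
  exact ⟨hm.add hm', C + C', fun τ => (abs_add_le _ _).trans (add_le_add (hC τ) (hC' τ))⟩
lemma Nice.sub {f g : Cfg → ℝ} (hf : Nice f) (hg : Nice g) : Nice fun τ => f τ - g τ := by
  obtain ⟨hm, C, hC⟩ := hf
  obtain ⟨hm', C', hC'⟩ := hg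
  exact ⟨hm.sub hm', C + C', fun τ => (abs_sub _ _).trans (add_le_add (hC τ) (hC' τ))⟩
lemma Nice.mul {f g : Cfg → ℝ} (hf : Nice f) (hg : Nice g) : Nice fun τ => f τ * g τ := by
  obtain ⟨hm, C, hC⟩ := hf
  obtain ⟨hm', C', hC'⟩ := hg
  refine ⟨hm.mul hm', C * C', fun τ => ?_⟩
  rw [abs_mul]
  exact mul_le_mul (hC τ) (hC' τ) (abs_nonneg _) ((abs_nonneg _).trans (hC τ))
lemma Nice.max {f g : Cfg → ℝ} (hf : Nice f) (hg : Nice g) : Nice fun τ => max (f τ) (g τ) := by
  obtain ⟨hm, C, hC⟩ := hf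
  obtain ⟨hm', C', hC'⟩ := hg
  refine ⟨hm.max hm', C + C', fun τ => ?_⟩
  have h1 := hC τ
  have h2 := hC' τ
  show |Max.max (f τ) (g τ)| ≤ C + C'
  rcases max_choice (f τ) (g τ) with h | h <;> rw [h] <;>
    linarith [abs_nonneg (f τ), abs_nonneg (g τ)]
lemma Nice.abs {f : Cfg → ℝ} (hf : Nice f) : Nice fun τ => |f τ| := by
  obtain ⟨hm, C, hC⟩ := hf
  exact ⟨hm.abs, C, fun τ => by simpa using hC τ⟩
lemma Nice.sum {ι : Type} (s : Finset ι) {f : ι → Cfg → ℝ} (hf : ∀ i ∈ s, Nice (f i)) :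
    Nice fun τ => ∑ i ∈ s, f i τ := by
  classical
  induction s using Finset.induction_on with
  | empty => simpa using Nice.const 0
  | insert a s ha ih =>
    simp only [sum_insert ha]
    exact (hf a (mem_insert_self _ _)).add (ih fun i hi => hf i (mem_insert_of_mem hi))
lemma Nice.comp {f : Cfg → ℝ} (hf : Nice f) {g : Cfg → Cfg} (hg : Measurable g) :
    Nice fun τ => f (g τ) := by
  obtain ⟨hm, C, hC⟩ := hf
  exact ⟨hm.comp hg, C, fun τ => hC _⟩
lemma Nice.ind {A : Set Cfg} (hA : MeasurableSet A) : Nice (A.indicator fun _ => (1 : ℝ)) :=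
  ⟨measurable_const.indicator hA, 1, fun τ => by by_cases h : τ ∈ A <;> simp [h]⟩

lemma meas_cap (lev : ℝ≥0) (A : Set (Sym2 V)) : Measurable (cap lev A) := by
  refine measurable_pi_lambda _ fun e => ?_
  unfold cap
  by_cases h : e ∈ A
  · simp only [h, if_true]; exact (measurable_pi_apply e).min measurable_const
  · simp only [h, if_false]; exact measurable_pi_apply e

namespace Par

variable (p : Par)

/-! ### probabilities -/

lemma b_pos : 0 < p.b := p.r_pos.trans_le p.r_le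
lemma one_le_ratio : 1 ≤ p.b / p.r := (one_le_div p.r_pos).2 p.r_le
lemma pr_nonneg (A : Set Cfg) : 0 ≤ p.pr A := measureReal_nonneg
lemma pr_le_one (A : Set Cfg) : p.pr A ≤ 1 := measureReal_le_one
lemma pr_mono {A B : Set Cfg} (h : A ⊆ B) : p.pr A ≤ p.pr B := measureReal_mono h
lemma pr_empty : p.pr ∅ = 0 := measureReal_empty
lemma pr_univ : p.pr Set.univ = 1 := probReal_univ
lemma pr_union_le (A B : Set Cfg) : p.pr (A ∪ B) ≤ p.pr A + p.pr B := measureReal_union_le A B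
lemma pr_biUnion_le {ι : Type} (s : Finset ι) (A : ι → Set Cfg) :
    p.pr (⋃ i ∈ s, A i) ≤ ∑ i ∈ s, p.pr (A i) := measureReal_biUnion_finset_le s A
lemma pr_eq_zero {A : Set Cfg} (h : ∀ τ, τ ∉ A) : p.pr A = 0 := by
  rw [Set.eq_empty_of_forall_notMem h, pr_empty]
lemma int_ind {A : Set Cfg} (hA : MeasurableSet A) :
    ∫ τ, A.indicator (fun _ => (1 : ℝ)) τ ∂p.P = p.pr A := by
  rw [integral_indicator_const _ hA]; simp [pr]

/-- Markov inequality -/
lemma markov {f : Cfg → ℝ} (hf : Nice f) (h0 : ∀ τ, 0 ≤ f τ) {t : ℝ} (ht : 0 < t) :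
    p.pr {τ | t ≤ f τ} ≤ (∫ τ, f τ ∂p.P) / t := by
  rw [le_div_iff₀ ht, mul_comm]
  exact mul_meas_ge_le_integral_of_nonneg (ae_of_all _ h0) (hf.int _) t

/-! ### passage times -/

lemma w_ge (t : ℝ≥0) : p.r ≤ p.w t := le_max_left _ _
lemma w_le (t : ℝ≥0) : p.w t ≤ p.b := max_le p.r_le (min_le_left _ _)
lemma w_mono : Monotone p.w := fun _ _ h =>
  max_le_max le_rfl (min_le_min le_rfl (NNReal.coe_le_coe.2 h))
lemma w_meas : Measurable p.w := p.w_mono.measurable

@[simp] lemma LW_nil (τ : Cfg) : p.LW τ [] = 0 := rfl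
@[simp] lemma LW_cons (τ : Cfg) (e : Sym2 V) (l : List (Sym2 V)) :
    p.LW τ (e :: l) = p.w (τ e) + p.LW τ l := by simp [LW]
lemma LW_append (τ : Cfg) (l l' : List (Sym2 V)) : p.LW τ (l ++ l') = p.LW τ l + p.LW τ l' := by
  simp [LW]
lemma LW_ge (τ : Cfg) (l : List (Sym2 V)) : p.r * l.length ≤ p.LW τ l := by
  induction l with
  | nil => simp
  | cons e l ih =>
    simp only [LW_cons, List.length_cons, Nat.cast_add, Nat.cast_one]; linarith [p.w_ge (τ e)]
lemma LW_le (τ : Cfg) (l : List (Sym2 V)) : p.LW τ l ≤ p.b * l.length := by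
  induction l with
  | nil => simp
  | cons e l ih =>
    simp only [LW_cons, List.length_cons, Nat.cast_add, Nat.cast_one]; linarith [p.w_le (τ e)]
lemma LW_nonneg (τ : Cfg) (l : List (Sym2 V)) : 0 ≤ p.LW τ l :=
  (mul_nonneg p.r_pos.le (Nat.cast_nonneg _)).trans (p.LW_ge τ l)
lemma LW_sublist (τ : Cfg) {l l' : List (Sym2 V)} (h : l.Sublist l') : p.LW τ l ≤ p.LW τ l' := by
  induction h with
  | slnil => simp
  | cons a _ ih => simp only [LW_cons]; linarith [p.w_ge (τ a), p.r_pos]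
  | cons_cons a _ ih => simp only [LW_cons]; linarith
lemma LW_le_LW {τ τ' : Cfg} {l : List (Sym2 V)} (h : ∀ e ∈ l, τ e ≤ τ' e) :
    p.LW τ l ≤ p.LW τ' l := by
  induction l with
  | nil => simp
  | cons a l ih =>
    simp only [LW_cons]
    exact add_le_add (p.w_mono (h a List.mem_cons_self))
      (ih fun e he => h e (List.mem_cons_of_mem _ he))
lemma meas_LW (l : List (Sym2 V)) : Measurable fun τ => p.LW τ l := by
  induction l with
  | nil => simp
  | cons a l ih =>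
    simp only [LW_cons]
    exact (p.w_meas.comp (measurable_pi_apply a)).add ih

lemma T_le_LW (τ : Cfg) {u v : V} (q : G.Walk u v) : p.T τ u v ≤ p.LW τ q.edges :=
  ciInf_le ⟨0, by rintro _ ⟨q, rfl⟩; exact p.LW_nonneg τ _⟩ q
lemma T_ge (τ : Cfg) (u v : V) : p.r * n1 (v - u) ≤ p.T τ u v :=
  le_ciInf fun q => (mul_le_mul_of_nonneg_left (n1_le_length q) p.r_pos.le).trans
    (by simpa using p.LW_ge τ q.edges)
lemma T_le (τ : Cfg) (u v : V) : p.T τ u v ≤ p.b * n1 (v - u) := by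
  obtain ⟨q, hq⟩ := exists_walk u v
  rw [← hq]
  exact (p.T_le_LW τ q).trans (by simpa using p.LW_le τ q.edges)
lemma T_nonneg (τ : Cfg) (u v : V) : 0 ≤ p.T τ u v :=
  (mul_nonneg p.r_pos.le (n1_nonneg _)).trans (p.T_ge τ u v)
lemma T_self (τ : Cfg) (u : V) : p.T τ u u = 0 :=
  le_antisymm (by simpa using p.T_le τ u u) (p.T_nonneg τ u u)
lemma T_le0 (τ : Cfg) (v : V) : p.T τ 0 v ≤ p.b * n1 v := by simpa using p.T_le τ 0 v

lemma exists_geo (τ : Cfg) (u v : V) :
    ∃ q : G.Walk u v, q.IsPath ∧ p.LW τ q.edges = p.T τ u v := by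
  obtain ⟨q₀, hq₀⟩ := exists_walk u v
  obtain ⟨K, hK⟩ := exists_nat_gt (p.b / p.r * q₀.length)
  have hK0 : q₀.length < K := by
    have : (q₀.length : ℝ) ≤ p.b / p.r * q₀.length :=
      le_mul_of_one_le_left (Nat.cast_nonneg _) p.one_le_ratio
    exact_mod_cast this.trans_lt hK
  obtain ⟨q, hq, hmin⟩ := exists_min_image (G.finsetWalkLengthLT K u v)
    (fun q => p.LW τ q.edges) ⟨q₀, by rw [mem_finsetWalkLengthLT_iff]; exact hK0⟩
  have hall : ∀ q' : G.Walk u v, p.LW τ q.edges ≤ p.LW τ q'.edges := by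
    intro q'
    by_cases h : q'.length < K
    · exact hmin q' (mem_finsetWalkLengthLT_iff.2 h)
    · have h1 := hmin q₀ (by rw [mem_finsetWalkLengthLT_iff]; exact hK0)
      have h2 := p.LW_le τ q₀.edges
      have h3 := p.LW_ge τ q'.edges
      rw [Walk.length_edges] at h2 h3
      have h4 : (K : ℝ) ≤ q'.length := by exact_mod_cast not_lt.1 h
      have h5 : p.r * (p.b / p.r * q₀.length) = p.b * q₀.length := by
        have := p.r_pos.ne'
        field_simp
      have h6 := mul_le_mul_of_nonneg_left (hK.le.trans h4) p.r_pos.le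
      linarith
  refine ⟨q.bypass, q.bypass_isPath, le_antisymm ?_ (p.T_le_LW τ _)⟩
  exact (p.LW_sublist τ q.edges_bypass_sublist_edges).trans (le_ciInf hall)

lemma geo_length {τ : Cfg} {u v : V} {q : G.Walk u v} (hq : p.LW τ q.edges = p.T τ u v) :
    (q.length : ℝ) ≤ p.b / p.r * n1 (v - u) := by
  have := p.LW_ge τ q.edges
  rw [Walk.length_edges, hq] at this
  rw [div_mul_eq_mul_div, le_div_iff₀ p.r_pos]
  linarith [p.T_le τ u v]

lemma T_meas (u v : V) : Measurable fun τ => p.T τ u v := Measurable.iInf fun _ => p.meas_LW _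
lemma T_nice (u v : V) : Nice fun τ => p.T τ u v :=
  ⟨p.T_meas u v, p.b * n1 (v - u), fun τ => by
    rw [abs_of_nonneg (p.T_nonneg τ u v)]; exact p.T_le τ u v⟩
lemma T_tri (τ : Cfg) (u v w : V) : p.T τ u w ≤ p.T τ u v + p.T τ v w := by
  obtain ⟨q, -, hq⟩ := p.exists_geo τ u v
  obtain ⟨q', -, hq'⟩ := p.exists_geo τ v w
  rw [← hq, ← hq', ← LW_append, ← Walk.edges_append]
  exact p.T_le_LW τ _
lemma T_comm (τ : Cfg) (u v : V) : p.T τ u v = p.T τ v u := by
  have key : ∀ u v, p.T τ u v ≤ p.T τ v u := fun u v => by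
    obtain ⟨q, -, hq⟩ := p.exists_geo τ v u
    have := p.T_le_LW τ q.reverse
    rw [Walk.edges_reverse] at this
    rw [← hq]
    refine this.trans_eq ?_
    simp only [LW, List.map_reverse, List.sum_reverse]
  exact le_antisymm (key u v) (key v u)
lemma T_mono (u v : V) : Monotone fun τ => p.T τ u v := fun τ τ' h => by
  obtain ⟨q, -, hq⟩ := p.exists_geo τ' u v
  show p.T τ u v ≤ p.T τ' u v
  rw [← hq]
  exact (p.T_le_LW τ q).trans (p.LW_le_LW fun e _ => h e)
/-- moving the end point -/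
lemma T_lip (τ : Cfg) (u v v' : V) : p.T τ u v ≤ p.T τ u v' + p.b * n1 (v - v') := by
  linarith [p.T_tri τ u v' v, p.T_le τ v' v]

lemma T_dep (u v : V) : DependsOn (fun τ => p.T τ u v) (near u (p.b / p.r * n1 (v - u))) := by
  have key : ∀ τ τ' : Cfg, (∀ e ∈ near u (p.b / p.r * n1 (v - u)), τ e = τ' e) →
      p.T τ u v ≤ p.T τ' u v := by
    intro τ τ' h
    obtain ⟨q, -, hq⟩ := p.exists_geo τ' u v
    rw [← hq]
    refine (p.T_le_LW τ q).trans (p.LW_le_LW fun e he => (h e fun z hz => ?_).le)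
    have hs : z ∈ q.support := Walk.mem_support_of_mem_edges he hz
    have h1 := n1_le_length (q.takeUntil z hs)
    have h2 : ((q.takeUntil z hs).length : ℝ) ≤ q.length := by
      exact_mod_cast q.length_takeUntil_le_length hs
    exact h1.trans (h2.trans (p.geo_length hq))
  exact fun τ τ' h => le_antisymm (key _ _ h) (key _ _ fun e he => (h e he).symm)

/-! ### translation invariance -/

def sh (a : V) (τ : Cfg) : Cfg := fun e => τ (Sym2.map (· + a) e)

lemma meas_sh (a : V) : Measurable (sh a) := by unfold sh; fun_prop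

lemma T_sh (a : V) (τ : Cfg) (u v : V) : p.T (sh a τ) u v = p.T τ (u + a) (v + a) := by
  have key : ∀ (a : V) (τ : Cfg) (u v : V), p.T τ (u + a) (v + a) ≤ p.T (sh a τ) u v := by
    intro a τ u v
    obtain ⟨q, -, hq⟩ := p.exists_geo (sh a τ) u v
    have := p.T_le_LW τ (q.map (transl a))
    rw [Walk.edges_map] at this
    rw [← hq]
    refine this.trans_eq ?_
    simp only [LW, List.map_map]
    rfl
  refine le_antisymm ?_ (key a τ u v)
  have h := key (-a) (sh a τ) (u + a) (v + a)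
  have h2 : sh (-a) (sh a τ) = τ := by
    ext e
    simp only [sh, Sym2.map_map]
    congr 2
    induction e using Sym2.ind with
    | h x y => simp
  rw [h2] at h
  simpa using h

lemma map_sh (a : V) : p.P.map (sh a) = p.P :=
  Measure.map_infinitePi_infinitePi_of_inj (P := fun _ : Sym2 V => p.F)
    (f := Sym2.map (· + a)) (Sym2.map.injective (add_left_injective a))

/-- the law of `T u v` is the law of `T 0 (v - u)` -/
lemma map_T (u v : V) : p.P.map (fun τ => p.T τ u v) = p.P.map (fun τ => p.T τ 0 (v - u)) := by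
  conv_rhs => rw [← p.map_sh u, Measure.map_map (p.T_meas _ _) (meas_sh u)]
  congr 1
  ext τ
  simp [T_sh]

lemma pr_T (u v : V) {B : Set ℝ} (hB : MeasurableSet B) :
    p.pr {τ | p.T τ u v ∈ B} = p.pr {τ | p.T τ 0 (v - u) ∈ B} := by
  have h1 := Measure.map_apply (μ := p.P) (p.T_meas u v) hB
  have h2 := Measure.map_apply (μ := p.P) (p.T_meas 0 (v - u)) hB
  rw [map_T, h2] at h1
  unfold pr Measure.real
  exact congrArg ENNReal.toReal h1.symm
lemma pr_lt_T (u v : V) (c : ℝ) : p.pr {τ | c < p.T τ u v} = p.pr {τ | c < p.T τ 0 (v - u)} :=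
  p.pr_T u v (B := Set.Ioi c) measurableSet_Ioi
lemma pr_T_le (u v : V) (c : ℝ) : p.pr {τ | p.T τ u v ≤ c} = p.pr {τ | p.T τ 0 (v - u) ≤ c} :=
  p.pr_T u v (B := Set.Iic c) measurableSet_Iic
lemma int_comp_T (u v : V) {g : ℝ → ℝ} (hg : Measurable g) :
    ∫ τ, g (p.T τ u v) ∂p.P = ∫ τ, g (p.T τ 0 (v - u)) ∂p.P := by
  rw [← integral_map (p.T_meas u v).aemeasurable hg.aestronglyMeasurable, map_T,
    integral_map (p.T_meas _ _).aemeasurable hg.aestronglyMeasurable]
lemma int_T (u v : V) : ∫ τ, p.T τ u v ∂p.P = p.h (v - u) := p.int_comp_T u v measurable_id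

lemma h_ge (v : V) : p.r * n1 v ≤ p.h v := by
  have := integral_mono ((Nice.const (p.r * n1 (v - 0))).int p.P) ((p.T_nice 0 v).int p.P)
    fun τ => p.T_ge τ 0 v
  simpa [h] using this
lemma h_le (v : V) : p.h v ≤ p.b * n1 v := by
  have := integral_mono ((p.T_nice 0 v).int p.P) ((Nice.const (p.b * n1 v)).int p.P)
    fun τ => p.T_le0 τ v
  simpa [h] using this
lemma h_add (u v : V) : p.h (u + v) ≤ p.h u + p.h v := by
  have := integral_mono ((p.T_nice 0 (u + v)).int p.P)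
    (((p.T_nice 0 u).add (p.T_nice u (u + v))).int p.P) fun τ => p.T_tri τ 0 u (u + v)
  rw [integral_add ((p.T_nice _ _).int _) ((p.T_nice _ _).int _), int_T, int_T, int_T] at this
  simpa using this
lemma h_neg (v : V) : p.h (-v) = p.h v := by
  have := p.int_T v 0
  simp only [p.T_comm _ v 0, zero_sub] at this
  exact this.symm
lemma h_lip (u v : V) : p.h u ≤ p.h v + p.b * n1 (u - v) := by
  have := p.h_add v (u - v)
  rw [add_sub_cancel] at this
  linarith [p.h_le (u - v)]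

/-! ### variances -/

lemma Vr_nonneg (v : V) : 0 ≤ p.Vr v := variance_nonneg _ _
lemma Vr_eq (v : V) : p.Vr v = ∫ τ, (p.T τ 0 v - p.h v) ^ 2 ∂p.P :=
  variance_eq_integral (p.T_meas 0 v).aemeasurable

lemma Vr_le_sq (v : V) (c : ℝ) : p.Vr v ≤ ∫ τ, (p.T τ 0 v - c) ^ 2 ∂p.P := by
  have h1 : variance (fun τ => p.T τ 0 v - c) p.P = p.Vr v :=
    variance_sub_const (p.T_meas 0 v).aestronglyMeasurable c
  rw [← h1]
  exact variance_le_expectation_sq ((p.T_meas 0 v).sub_const c).aestronglyMeasurable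

lemma Vr_le (u v : V) : p.Vr u ≤ 2 * p.Vr v + 2 * (p.b * n1 (u - v)) ^ 2 := by
  refine (p.Vr_le_sq u (p.h v)).trans ?_
  have n1' : Nice fun τ => (p.T τ 0 u - p.h v) ^ 2 := by
    simpa only [sq] using ((p.T_nice 0 u).sub (Nice.const _)).mul ((p.T_nice 0 u).sub (Nice.const _))
  have n2 : Nice fun τ => (p.T τ 0 v - p.h v) ^ 2 := by
    simpa only [sq] using ((p.T_nice 0 v).sub (Nice.const _)).mul ((p.T_nice 0 v).sub (Nice.const _))
  have := integral_mono (n1'.int p.P)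
    ((((Nice.const 2).mul n2).add (Nice.const (2 * (p.b * n1 (u - v)) ^ 2))).int p.P) fun τ => by
      have a1 := p.T_lip τ 0 u v
      have a2 := p.T_lip τ 0 v u
      rw [n1_sub_comm v u] at a2
      have a3 : (p.T τ 0 u - p.T τ 0 v) ^ 2 ≤ (p.b * n1 (u - v)) ^ 2 :=
        sq_le_sq' (by linarith) (by linarith)
      show (p.T τ 0 u - p.h v) ^ 2 ≤ 2 * (p.T τ 0 v - p.h v) ^ 2 + 2 * (p.b * n1 (u - v)) ^ 2
      nlinarith [sq_nonneg (p.T τ 0 u - 2 * p.T τ 0 v + p.h v)]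
  rw [integral_add (((Nice.const 2).mul n2).int _) ((Nice.const _).int _), integral_const_mul,
    ← Vr_eq] at this
  simpa using this

/-- Chebyshev inequality -/
lemma cheb (u v : V) {t : ℝ} (ht : 0 < t) :
    p.pr {τ | t ≤ |p.T τ u v - p.h (v - u)|} ≤ p.Vr (v - u) / t ^ 2 := by
  have hB : MeasurableSet {y : ℝ | t ≤ |y - p.h (v - u)|} :=
    measurableSet_le measurable_const (measurable_id.sub_const _).abs
  have h1 := p.pr_T u v hB
  simp only [Set.mem_ofPred_eq] at h1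
  rw [h1]
  have h2 := meas_ge_le_variance_div_sq ((p.T_nice 0 (v - u)).memLp p.P 2) ht
  exact ENNReal.toReal_le_of_le_ofReal (div_nonneg (p.Vr_nonneg _) (sq_nonneg _)) h2
lemma cheb0 (v : V) {t : ℝ} (ht : 0 < t) :
    p.pr {τ | t ≤ |p.T τ 0 v - p.h v|} ≤ p.Vr v / t ^ 2 := by
  simpa using p.cheb 0 v ht

/-- mean absolute deviation -/
lemma abs_dev (v : V) {s : ℝ} (hs : 0 < s) (h : p.Vr v ≤ s ^ 2) :
    ∫ τ, |p.T τ 0 v - p.h v| ∂p.P ≤ s := by
  have n0 : Nice fun τ => p.T τ 0 v - p.h v := (p.T_nice 0 v).sub (Nice.const _)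
  have n2 : Nice fun τ => (p.T τ 0 v - p.h v) ^ 2 := by simpa only [sq] using n0.mul n0
  have := integral_mono (n0.abs.int p.P)
    ((((Nice.const (1 / (2 * s))).mul n2).add (Nice.const (s / 2))).int p.P) fun τ => by
      show |p.T τ 0 v - p.h v| ≤ 1 / (2 * s) * (p.T τ 0 v - p.h v) ^ 2 + s / 2
      rw [← sq_abs]
      have e : 1 / (2 * s) * |p.T τ 0 v - p.h v| ^ 2 + s / 2 - |p.T τ 0 v - p.h v| =
          (|p.T τ 0 v - p.h v| - s) ^ 2 / (2 * s) := by field_simp; ring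
      have : 0 ≤ (|p.T τ 0 v - p.h v| - s) ^ 2 / (2 * s) := by positivity
      linarith
  rw [integral_add (((Nice.const _).mul n2).int _) ((Nice.const _).int _), integral_const_mul,
    ← Vr_eq] at this
  have h2 : 1 / (2 * s) * p.Vr v ≤ 1 / (2 * s) * s ^ 2 :=
    mul_le_mul_of_nonneg_left h (by positivity)
  have h3 : 1 / (2 * s) * s ^ 2 = s / 2 := by field_simp
  simp only [integral_const, probReal_univ, smul_eq_mul, one_mul] at this
  linarith

/-! ### geodesics -/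

lemma exists_Geo (τ : Cfg) (u v : V) : ∃ N Z, p.Geo τ u v N Z := by
  obtain ⟨q, -, hq⟩ := p.exists_geo τ u v
  have key : ∀ {u v : V} (q : G.Walk u v) (i j : ℕ), i ≤ j →
      p.T τ u (q.getVert i) + p.T τ (q.getVert i) (q.getVert j) + p.T τ (q.getVert j) v ≤
        p.LW τ q.edges := by
    intro u v q
    induction q with
    | nil => intro i j _; simp [T_self]
    | @cons a c e hac q ih =>
      intro i j hij
      have h1 : p.T τ a c ≤ p.w (τ s(a, c)) := by
        simpa using p.T_le_LW τ (Walk.cons hac Walk.nil)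
      rcases i with _ | i
      · rcases j with _ | j
        · simp only [Walk.getVert_zero, T_self, zero_add]
          exact p.T_le_LW τ _
        · have h2 := ih 0 j (Nat.zero_le _)
          simp only [Walk.getVert_zero, T_self, zero_add, Walk.getVert_cons_succ,
            Walk.edges_cons, LW_cons] at h2 ⊢
          linarith [p.T_tri τ a c (q.getVert j)]
      · rcases j with _ | j
        · omega
        · have h2 := ih i j (by omega)
          simp only [Walk.getVert_cons_succ, Walk.edges_cons, LW_cons]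
          linarith [p.T_tri τ a c (q.getVert i)]
  refine ⟨q.length, q.getVert, q.getVert_zero, q.getVert_length,
    fun k hk => q.adj_getVert_succ hk, fun i j hij _ => le_antisymm ?_ (p.T_tri τ _ _ _)⟩
  have h1 := key q i j hij
  linarith [p.T_tri τ u (q.getVert j) v]

variable {p}

lemma Geo.add3 {τ : Cfg} {u v : V} {N : ℕ} {Z : ℕ → V} (g : p.Geo τ u v N Z) {i j k : ℕ}
    (hij : i ≤ j) (hjk : j ≤ k) (hk : k ≤ N) :
    p.T τ (Z i) (Z j) + p.T τ (Z j) (Z k) = p.T τ (Z i) (Z k) := by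
  linarith [g.add i j hij (hjk.trans hk), g.add j k hjk hk, g.add i k (hij.trans hjk) hk]

lemma Geo.split {τ : Cfg} {u v : V} {N : ℕ} {Z : ℕ → V} (g : p.Geo τ u v N Z) {k : ℕ}
    (hk : k ≤ N) : p.T τ u (Z k) + p.T τ (Z k) v = p.T τ u v := by
  have := g.add k N hk le_rfl
  rwa [g.last] at this

lemma Geo.len {τ : Cfg} {u v : V} {N : ℕ} {Z : ℕ → V} (g : p.Geo τ u v N Z) {i j : ℕ}
    (hij : i ≤ j) (hj : j ≤ N) : p.r * ((j : ℝ) - i) ≤ p.T τ (Z i) (Z j) := by
  induction j, hij using Nat.le_induction with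
  | base => simp [T_self]
  | succ j hij ih =>
    have h1 := g.add3 hij (Nat.le_succ j) hj
    have h2 := p.T_ge τ (Z j) (Z (j + 1))
    rw [n1_adj (g.step j hj)] at h2
    have h3 := ih (by omega)
    push_cast
    linarith

lemma Geo.steps {τ : Cfg} {u v : V} {N : ℕ} {Z : ℕ → V} (g : p.Geo τ u v N Z) {i j : ℕ}
    (hij : i ≤ j) (hj : j ≤ N) : n1 (Z j - Z i) ≤ (j : ℝ) - i := by
  induction j, hij using Nat.le_induction with
  | base => simp
  | succ j hij ih =>
    have h1 := n1_tri (Z i) (Z j) (Z (j + 1))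
    rw [n1_adj (g.step j hj)] at h1
    have h3 := ih (by omega)
    push_cast
    linarith

lemma Geo.N_le {τ : Cfg} {u v : V} {N : ℕ} {Z : ℕ → V} (g : p.Geo τ u v N Z) :
    (N : ℝ) ≤ p.b / p.r * n1 (v - u) := by
  have h1 := g.len (Nat.zero_le N) le_rfl
  rw [g.zero, g.last] at h1
  rw [div_mul_eq_mul_div, le_div_iff₀ p.r_pos]
  have h2 := p.T_le τ u v
  push_cast at h1
  linarith

lemma Geo.box {τ : Cfg} {u v : V} {N : ℕ} {Z : ℕ → V} (g : p.Geo τ u v N Z) {k : ℕ}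
    (hk : k ≤ N) : n1 (Z k - u) ≤ p.b / p.r * n1 (v - u) := by
  have h1 := g.steps (Nat.zero_le k) hk
  rw [g.zero] at h1
  have h2 : (k : ℝ) ≤ N := by exact_mod_cast hk
  push_cast at h1
  linarith [g.N_le]

/-! ### direction data -/

lemma Good.n1_fl {R : ℝ} {d : Dat} (g : p.Good R d) {l : ℝ} (hl : 0 ≤ l) :
    n1 (fl (l • d.a)) ≤ l * R + 2 := by
  have := n1_fl_le (l • d.a)
  rw [l1_smul, abs_of_nonneg hl] at this
  linarith [mul_le_mul_of_nonneg_left g.a_le hl]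

lemma Good.n1_X {R : ℝ} {d : Dat} (g : p.Good R d) {M m : ℝ} (hM : 1 ≤ M) (hm : 0 ≤ m)
    (hmM : m ≤ M) : n1 (fl (m • d.a) + fl (m • d.a)) ≤ (2 * R + 4) * M := by
  have h1 := g.n1_fl hm
  have h2 := n1_add_le (fl (m • d.a)) (fl (m • d.a))
  have h3 : m * R ≤ M * R := mul_le_mul_of_nonneg_right hmM (by linarith [g.one_le])
  nlinarith

lemma Good.R1_ge {R : ℝ} {d : Dat} (g : p.Good R d) : 6 ≤ p.R1 R := by
  have h1 := g.one_le
  have h2 := p.one_le_ratio
  have h3 : 1 * 6 ≤ p.b / p.r * (2 * R + 4) := mul_le_mul h2 (by linarith) (by norm_num) (by linarith)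
  unfold R1
  nlinarith

/-- vertices of a geodesic to `2 ⌊m a⌋` -/
lemma Good.strip {R : ℝ} {d : Dat} (g : p.Good R d) {M m : ℝ} (hM : 1 ≤ M) (hm : 0 ≤ m)
    (hmM : m ≤ M) {τ : Cfg} {N : ℕ} {Z : ℕ → V}
    (hZ : p.Geo τ 0 (fl (m • d.a) + fl (m • d.a)) N Z) {k : ℕ} (hk : k ≤ N) :
    n1 (Z k) ≤ p.b / p.r * (2 * R + 4) * M ∧ |d.σ (up (Z k))| ≤ p.R1 R * M ∧
      |d.η (up (Z k))| ≤ p.R1 R * M := by
  have h1 := hZ.box hk
  simp only [sub_zero] at h1
  have h2 := mul_le_mul_of_nonneg_left (g.n1_X hM hm hmM) (zero_le_one.trans p.one_le_ratio)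
  have h3 : n1 (Z k) ≤ p.b / p.r * (2 * R + 4) * M := by linarith
  have h4 := mul_le_mul_of_nonneg_left h3 (zero_le_one.trans g.one_le)
  have h5 : R * (p.b / p.r * (2 * R + 4) * M) = p.R1 R * M := by unfold R1; ring
  rw [h5, n1_eq] at h4
  exact ⟨h3, (g.σ_le _).trans h4, (g.η_le _).trans h4⟩

lemma Good.exit_empty {R : ℝ} {d : Dat} (g : p.Good R d) {M m H : ℝ} (hM : 1 ≤ M) (hm : 0 ≤ m)
    (hmM : m ≤ M) (hH : p.R1 R * M ≤ H) : p.Exit d (fl (m • d.a) + fl (m • d.a)) H = ∅ := by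
  refine Set.eq_empty_of_forall_notMem ?_
  rintro τ ⟨N, Z, hZ, k, hk, h⟩
  linarith [(g.strip hM hm hmM hZ hk).2.2]

lemma exit_mono (d : Dat) (X : V) {H H' : ℝ} (h : H ≤ H') : p.Exit d X H' ⊆ p.Exit d X H :=
  fun _ ⟨N, Z, hZ, k, hk, h'⟩ => ⟨N, Z, hZ, k, hk, h.trans_lt h'⟩

lemma Norm.zero (n : p.Norm) : p.m 0 = 0 := by simpa using n.smul 0 0 le_rfl
lemma Norm.nonneg (n : p.Norm) (x : R2) : 0 ≤ p.m x :=
  (mul_nonneg p.r_pos.le (l1_nonneg x)).trans (n.ge x)
lemma Norm.lip (n : p.Norm) (x y : R2) : p.m x ≤ p.m y + p.b * l1 (x - y) := by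
  have := n.add y (x - y)
  rw [add_sub_cancel] at this
  linarith [n.le (x - y)]
lemma Norm.cont (n : p.Norm) : Continuous p.m := by
  refine (LipschitzWith.of_dist_le_mul (K := ⟨2 * p.b, by linarith [p.b_pos]⟩) fun x y => ?_).continuous
  have h : l1 (x - y) ≤ 2 * dist x y := by
    have h0 := dist_le_pi_dist x y 0
    have h1 := dist_le_pi_dist x y 1
    rw [Real.dist_eq] at h0 h1
    simp only [l1, Pi.sub_apply]; linarith
  have h2 := mul_le_mul_of_nonneg_left h p.b_pos.le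
  have h3 := n.lip x y
  have h4 := n.lip y x
  rw [l1_sub_comm y x] at h4
  rw [Real.dist_eq]
  show _ ≤ 2 * p.b * dist x y
  exact abs_le.2 ⟨by linarith, by linarith⟩

lemma Good.D_nonneg {R : ℝ} {d : Dat} (g : p.Good R d) (v : R2) : 0 ≤ p.D d v :=
  sub_nonneg.2 (g.ρ_le v)
lemma Norm.D_add (n : p.Norm) (d : Dat) (v w : R2) : p.D d (v + w) ≤ p.D d v + p.D d w := by
  unfold D; rw [map_add]; linarith [n.add v w]
lemma Norm.D_smul (n : p.Norm) (d : Dat) {c : ℝ} (hc : 0 ≤ c) (v : R2) :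
    p.D d (c • v) = c * p.D d v := by
  unfold D; rw [map_smul, n.smul c v hc, smul_eq_mul]; ring
lemma Norm.D_a (n : p.Norm) {R : ℝ} {d : Dat} (g : p.Good R d) {c : ℝ} (hc : 0 ≤ c) :
    p.D d (c • d.a) = 0 := by
  rw [n.D_smul d hc]; unfold D; rw [g.ρa, g.ma]; ring
lemma Norm.abs_ρ (n : p.Norm) {R : ℝ} {d : Dat} (g : p.Good R d) (v : R2) :
    |d.ρ v| ≤ p.b * l1 v := by
  have h1 := g.ρ_le v
  have h2 := g.ρ_le (-v)
  rw [map_neg, n.neg] at h2
  exact abs_le.2 ⟨by linarith [n.le v], by linarith [n.le v]⟩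
lemma Norm.D_le (n : p.Norm) {R : ℝ} {d : Dat} (g : p.Good R d) (v : R2) :
    p.D d v ≤ 2 * p.b * l1 v := by
  unfold D; linarith [n.le v, (abs_le.1 (n.abs_ρ g v)).1]
/-- `D v ≤ D w + 2 b |v - w - c a|` for `c ≥ 0` -/
lemma Norm.D_move (n : p.Norm) {R : ℝ} {d : Dat} (g : p.Good R d) (v w : R2) {c : ℝ}
    (hc : 0 ≤ c) : p.D d v ≤ p.D d w + 2 * p.b * l1 (v - w - c • d.a) := by
  have h1 := n.D_add d w (c • d.a)
  have h2 := n.D_add d (w + c • d.a) (v - w - c • d.a)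
  rw [show w + c • d.a + (v - w - c • d.a) = v by abel] at h2
  linarith [n.D_a g hc, n.D_le g (v - w - c • d.a)]
lemma Norm.l1_a (n : p.Norm) {R : ℝ} {d : Dat} (g : p.Good R d) : 1 ≤ p.b * l1 d.a := by
  rw [← g.ma]; exact n.le _
lemma Norm.phi_smul (n : p.Norm) (d : Dat) {c : ℝ} (hc : 0 ≤ c) (L y : ℝ) :
    p.phi d (c * L) (c * y) = c * p.phi d L y := by
  unfold phi
  rw [mul_add, ← n.D_smul d hc, ← n.D_smul d hc, smul_add, smul_sub, smul_smul, smul_smul]

end Par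

end Pool.Agent.Lib.FP95
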