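import Pool.Agent.Lib.FP95.Blue
import Pool.Agent.Lib.FP95.Base

/-! Block TRA: transfer of the tail bound at a corner. -/

namespace Pool.Agent.Lib.FP95

open MeasureTheory ProbabilityTheory Filter Topology Pool.Agent.Lib.MP_eba68f_pr
open scoped NNReal ENNReal

namespace TRA

theorem lo (hK : St_KES) {p : Par} {R θ : ℝ} {d : Dat} (hN : p.Norm) (hG : p.Good R d)
    (hθ : 1 / 2 ≤ θ) : p.Lo {d} θ := by
  obtain ⟨C, hC, hV⟩ := hK p
  refine ⟨C + 1, by linarith, fun d' hd N lam v hN1 hv hl => ?_⟩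
  obtain rfl : d' = d := hd
  have hN0 : 0 < N := by linarith
  have h1 : N ≤ (N ^ θ) ^ 2 := by
    rw [← Real.rpow_natCast, ← Real.rpow_mul hN0.le]
    conv_lhs => rw [← Real.rpow_one N]
    exact Real.rpow_le_rpow_of_exponent_le hN1 (by push_cast; linarith)
  have hp : 0 < N ^ θ := Real.rpow_pos_of_pos hN0 _
  have h2 : p.Vr v ≤ ((C + 1) * N ^ θ) ^ 2 := by
    have a1 := mul_le_mul_of_nonneg_left (hv.trans h1) hC
    have a2 : C ≤ (C + 1) ^ 2 := by nlinarith
    have a3 := mul_le_mul_of_nonneg_right a2 (sq_nonneg (N ^ θ))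
    rw [mul_pow]
    linarith [hV v]
  have h3 := p.abs_dev v (by positivity) h2
  have h4 := p.markov ((p.T_nice 0 v).sub (Nice.const (p.h v))).abs (fun τ => abs_nonneg _) hl
  refine le_trans (p.pr_mono fun τ hτ => ?_) (h4.trans (div_le_div_of_nonneg_right h3 hl.le))
  have a1 : p.T τ 0 v ≤ d'.ρ (up v) + p.D d' (up v) / 2 - lam := hτ
  have a2 := hG.D_nonneg (up v)
  have a3 := hN.le_h v
  have a4 : p.D d' (up v) = p.m (up v) - d'.ρ (up v) := rfl
  have a5 := neg_abs_le (p.T τ 0 v - p.h v)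
  show lam ≤ |p.T τ 0 v - p.h v|
  linarith

theorem rho_near {p : Par} {R : ℝ} {d : Dat} (hN : p.Norm) (hG : p.Good R d) (x : R2) :
    |d.ρ x - d.σ x| ≤ p.b * R * |d.η x| := by
  have h1 : d.ρ x = d.σ x + d.η x * d.ρ d.n := by
    conv_lhs => rw [hG.dec x]
    rw [map_add, map_smul, map_smul, hG.ρa, smul_eq_mul, smul_eq_mul, mul_one]
  have h2 := (hN.abs_ρ hG d.n).trans (mul_le_mul_of_nonneg_left hG.n_le p.b_pos.le)
  rw [h1, add_sub_cancel_left, abs_mul, mul_comm]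
  exact mul_le_mul_of_nonneg_right h2 (abs_nonneg _)

theorem step {p : Par} {R : ℝ} {d : Dat} (hG : p.Good R d) (v : V) :
    n1 (v - fl (d.σ (up v) • d.a)) ≤ R * |d.η (up v)| + 2 := by
  have h1 := n1_fl_sub (up v) (d.σ (up v) • d.a)
  rw [fl_up] at h1
  have h2 : up v - d.σ (up v) • d.a = d.η (up v) • d.n := by
    rw [sub_eq_iff_eq_add']
    exact hG.dec _
  rw [h2, l1_smul] at h1
  have h3 := mul_le_mul_of_nonneg_left hG.n_le (abs_nonneg (d.η (up v)))
  linarith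

theorem upp {p : Par} {R c θ : ℝ} {d : Dat} (hN : p.Norm) (hG : p.Good R d) (hc : 0 < c)
    (hD : ∀ v, c * |d.η v| ≤ p.D d v) (hθ : 0 ≤ θ) (hT : p.Tail {d} θ) : p.Up {d} θ := by
  have hb := p.b_pos
  have hr := p.r_pos
  have hR : 0 < R := by linarith [hG.one_le]
  refine ⟨2 * (p.b * R / c) + 2 * (p.b / p.r) * (1 + p.b * R / c), by positivity, fun q => ?_⟩
  obtain ⟨C, hC, hT⟩ := hT q
  refine ⟨C * R ^ θ + 2 * p.b + C * R ^ (-q), by positivity, fun d' hd N v hN1 hv => ?_⟩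
  obtain rfl : d' = d := hd
  have hN0 : 0 < N := by linarith
  have hp : 1 ≤ N ^ θ := Real.one_le_rpow hN1 hθ
  have hD0 := hG.D_nonneg (up v)
  have hy : p.b * R * |d'.η (up v)| ≤ p.b * R / c * p.D d' (up v) := by
    have a1 := mul_le_mul_of_nonneg_left (hD (up v)) (show 0 ≤ p.b * R / c by positivity)
    have e : p.b * R / c * (c * |d'.η (up v)|) = p.b * R * |d'.η (up v)| := by field_simp
    rwa [e] at a1
  have hρ := abs_le.1 (rho_near hN hG (up v))
  have hκ : 0 ≤ p.b * R / c := by positivity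
  have hκ' : 0 ≤ p.b / p.r := by positivity
  have hbr : p.b / p.r * p.r = p.b := by field_simp
  generalize p.b * R / c = κ at hy hκ ⊢
  generalize p.b / p.r = κ' at hκ' hbr ⊢
  have f1 : 0 ≤ C * R ^ θ := by positivity
  have f2 : 0 ≤ C * R ^ (-q) := by positivity
  have f3 : 0 ≤ 2 * κ' * (1 + κ) * p.D d' (up v) := by positivity
  have f4 : 0 ≤ κ * p.D d' (up v) := by positivity
  rcases le_or_gt 0 (d'.σ (up v)) with hs | hs
  · have hs' : d'.σ (up v) ≤ R * N :=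
      ((le_abs_self _).trans (hG.σ_le _)).trans (mul_le_mul_of_nonneg_left hv hR.le)
    have h1 := hT d' rfl (R * N) _ (by nlinarith [hG.one_le]) hs hs'
    rw [Real.mul_rpow hR.le hN0.le, Real.mul_rpow hR.le hN0.le] at h1
    refine le_trans (p.pr_mono fun τ hτ => ?_) (h1.trans ?_)
    · have a1 : d'.ρ (up v) + (2 * κ + 2 * κ' * (1 + κ)) * p.D d' (up v) +
        (C * R ^ θ + 2 * p.b + C * R ^ (-q)) * N ^ θ < p.T τ 0 v := hτ
      have a2 := p.T_lip τ 0 v (fl (d'.σ (up v) • d'.a))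
      have a3 := mul_le_mul_of_nonneg_left (step hG v) hb.le
      have a4 := mul_le_mul_of_nonneg_left hp hb.le
      have a5 : 0 ≤ C * R ^ (-q) * N ^ θ := by positivity
      show d'.σ (up v) + C * (R ^ θ * N ^ θ) < p.T τ 0 (fl (d'.σ (up v) • d'.a))
      linarith [hρ.1]
    · have a1 : 0 ≤ (C * R ^ θ + 2 * p.b) * N ^ (-q) := by positivity
      linarith
  · rw [p.pr_eq_zero fun τ hτ => ?_]
    · positivity
    have a1 : d'.ρ (up v) + (2 * κ + 2 * κ' * (1 + κ)) * p.D d' (up v) +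
      (C * R ^ θ + 2 * p.b + C * R ^ (-q)) * N ^ θ < p.T τ 0 v := hτ
    have a2 := p.T_le0 τ v
    rw [n1_eq] at a2
    have a3 := (abs_le.1 (hN.abs_ρ hG (up v))).1
    have a4 := hN.ge (up v)
    have a5 : p.D d' (up v) = p.m (up v) - d'.ρ (up v) := rfl
    have a6 : p.r * l1 (up v) ≤ (1 + κ) * p.D d' (up v) := by linarith [hρ.2]
    have a7 := mul_le_mul_of_nonneg_left a6 hκ'
    rw [← mul_assoc, hbr] at a7
    have a8 : 0 ≤ (C * R ^ θ + 2 * p.b + C * R ^ (-q)) * N ^ θ := by positivity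
    linarith

end TRA

theorem bTRA (hK : St_KES) : St_TRA := fun _ _ _ _ _ hN hG hc hD hθ hT =>
  ⟨TRA.upp hN hG hc hD (by linarith) hT, TRA.lo hK hN hG hθ⟩

end Pool.Agent.Lib.FP95
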