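import Pool.Agent.Lib.FP95.Base

/-! Lower deviations in the smaller window. -/

namespace Pool.Agent.Lib.FP95

open MeasureTheory ProbabilityTheory Filter Topology Pool.Agent.Lib.MP_eba68f_pr
open scoped NNReal ENNReal

namespace TRL

/-- Chebyshev in the directions with a linear defect -/
lemma far (p : Par) (n : p.Norm) (d : Dat) {K c lam : ℝ} (hK : 0 ≤ K)
    (hV : ∀ v : V, p.Vr v ≤ K * n1 v) (hc : 0 < c) (hl : 0 < lam) (v : V)
    (hD : c * l1 (up v) ≤ p.D d (up v)) :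
    p.pr {τ | p.T τ 0 v ≤ d.ρ (up v) + p.D d (up v) / 2 - lam} ≤ K / (2 * c) / lam := by
  have h0 : 0 ≤ c * l1 (up v) := mul_nonneg hc.le (l1_nonneg _)
  have ht : 0 < p.D d (up v) / 2 + lam := by linarith
  have h1 : p.pr {τ | p.T τ 0 v ≤ d.ρ (up v) + p.D d (up v) / 2 - lam} ≤
      p.pr {τ | p.D d (up v) / 2 + lam ≤ |p.T τ 0 v - p.h v|} := by
    refine p.pr_mono fun τ hτ => ?_
    have h2 : p.T τ 0 v ≤ d.ρ (up v) + p.D d (up v) / 2 - lam := hτ
    have h3 := n.le_h v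
    have h4 : p.D d (up v) = p.m (up v) - d.ρ (up v) := rfl
    show p.D d (up v) / 2 + lam ≤ |p.T τ 0 v - p.h v|
    linarith [neg_abs_le (p.T τ 0 v - p.h v)]
  refine h1.trans ((p.cheb0 v ht).trans ?_)
  rw [div_le_div_iff₀ (by positivity) hl]
  have h5 : 2 * c * (l1 (up v) * lam) ≤ (p.D d (up v) / 2 + lam) ^ 2 := by
    nlinarith [sq_nonneg (p.D d (up v) / 2 - lam), mul_le_mul_of_nonneg_right hD hl.le]
  have h6 : p.Vr v * lam ≤ K * (l1 (up v) * lam) := by
    have := mul_le_mul_of_nonneg_right (hV v) hl.le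
    rw [n1_eq] at this
    linarith
  have h7 : K / (2 * c) * (2 * c * (l1 (up v) * lam)) = K * (l1 (up v) * lam) := by
    field_simp
  have h8 := mul_le_mul_of_nonneg_left h5 (div_nonneg hK (by positivity : (0 : ℝ) ≤ 2 * c))
  linarith

/-- the lower deviation from `m` is bounded by the upper one -/
lemma low (p : Par) (n : p.Norm) (v : V) {a B δ lam : ℝ} (hl : 0 < lam) (ha : 0 ≤ a)
    (hB : p.b * n1 v ≤ B) (hδ : p.pr {τ | p.m (up v) + a < p.T τ 0 v} ≤ δ) :
    p.pr {τ | p.T τ 0 v ≤ p.m (up v) - lam} ≤ (a + B * δ) / lam := by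
  set A : Set Cfg := {τ | p.m (up v) + a < p.T τ 0 v} with hA
  have hAm : MeasurableSet A := measurableSet_lt measurable_const (p.T_meas 0 v)
  have hB0 : 0 ≤ B := (mul_nonneg p.b_pos.le (n1_nonneg v)).trans hB
  have n1' : Nice fun τ => B * A.indicator (fun _ => (1 : ℝ)) τ := (Nice.const B).mul (Nice.ind hAm)
  have n2 : Nice fun τ => (a + p.m (up v)) + B * A.indicator (fun _ => (1 : ℝ)) τ :=
    (Nice.const _).add n1'
  have nf : Nice fun τ => (a + p.m (up v)) + B * A.indicator (fun _ => (1 : ℝ)) τ - p.T τ 0 v :=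
    n2.sub (p.T_nice 0 v)
  have h0 : ∀ τ, 0 ≤ (a + p.m (up v)) + B * A.indicator (fun _ => (1 : ℝ)) τ - p.T τ 0 v := by
    intro τ
    by_cases h : τ ∈ A
    · rw [Set.indicator_of_mem h]
      linarith [p.T_le0 τ v, n.nonneg (up v)]
    · rw [Set.indicator_of_notMem h]
      have : ¬ (p.m (up v) + a < p.T τ 0 v) := h
      linarith [not_lt.1 this]
  have h1 : p.pr {τ | p.T τ 0 v ≤ p.m (up v) - lam} ≤
      p.pr {τ | lam ≤ (a + p.m (up v)) + B * A.indicator (fun _ => (1 : ℝ)) τ - p.T τ 0 v} := by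
    refine p.pr_mono fun τ hτ => ?_
    have h2 : p.T τ 0 v ≤ p.m (up v) - lam := hτ
    have h3 : 0 ≤ B * A.indicator (fun _ => (1 : ℝ)) τ :=
      mul_nonneg hB0 (Set.indicator_nonneg (fun _ _ => zero_le_one) τ)
    show lam ≤ (a + p.m (up v)) + B * A.indicator (fun _ => (1 : ℝ)) τ - p.T τ 0 v
    linarith
  refine h1.trans ((p.markov nf h0 hl).trans ?_)
  refine div_le_div_of_nonneg_right ?_ hl.le
  rw [integral_sub (n2.int _) ((p.T_nice 0 v).int _), integral_add ((Nice.const _).int _) (n1'.int _),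
    integral_const_mul, p.int_ind hAm]
  have h4 : ∫ τ, p.T τ 0 v ∂p.P = p.h v := rfl
  have h5 : ∫ _τ : Cfg, (a + p.m (up v)) ∂p.P = a + p.m (up v) := by simp
  rw [h4, h5]
  linarith [n.le_h v, mul_le_mul_of_nonneg_left hδ hB0]

/-- two legs -/
lemma legs (p : Par) (v : V) {x y : R2} {s t a δ : ℝ} (hv : up v = x + y)
    (h1 : p.pr {τ | s + a < p.T τ 0 (fl x)} ≤ δ) (h2 : p.pr {τ | t + a < p.T τ 0 (fl y)} ≤ δ) :
    p.pr {τ | s + t + (2 * a + 4 * p.b) < p.T τ 0 v} ≤ 2 * δ := by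
  have h3 := p.pr_lt_T (fl x) (fl x + fl y) (t + a)
  rw [add_sub_cancel_left] at h3
  have h4 : n1 (v - (fl x + fl y)) ≤ 4 := by
    rw [n1_eq, up_sub, up_add, hv]
    have := l1_add_le (x - up (fl x)) (y - up (fl y))
    rw [show x - up (fl x) + (y - up (fl y)) = x + y - (up (fl x) + up (fl y)) by abel,
      l1_sub_comm x, l1_sub_comm y] at this
    linarith [l1_fl x, l1_fl y]
  have h5 : {τ | s + t + (2 * a + 4 * p.b) < p.T τ 0 v} ⊆
      {τ | s + a < p.T τ 0 (fl x)} ∪ {τ | t + a < p.T τ (fl x) (fl x + fl y)} := by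
    intro τ hτ
    have h6 : s + t + (2 * a + 4 * p.b) < p.T τ 0 v := hτ
    by_contra hn
    simp only [Set.mem_union, Set.mem_ofPred_eq, not_or, not_lt] at hn
    linarith [hn.1, hn.2, p.T_tri τ 0 (fl x) (fl x + fl y), p.T_lip τ 0 v (fl x + fl y),
      mul_le_mul_of_nonneg_left h4 p.b_pos.le]
  linarith [p.pr_mono h5, p.pr_union_le {τ | s + a < p.T τ 0 (fl x)}
    {τ | t + a < p.T τ (fl x) (fl x + fl y)}]

end TRL

theorem bTRL (hKES : St_KES) : St_TRL := by
  intro p R θ S S' n hG hθ ⟨c, hc, hcov⟩ hT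
  obtain ⟨K, hK, hV⟩ := hKES p
  obtain ⟨C, hC, hT⟩ := hT 1
  set β : ℝ := max p.b 1 with hβ
  have hβ1 : 1 ≤ β := le_max_right _ _
  have hβb : p.b ≤ β := le_max_left _ _
  have hβθ : 0 ≤ β ^ θ := Real.rpow_nonneg (by linarith) θ
  have hK2 : 0 ≤ K / (2 * c) := by positivity
  have hb := p.b_pos
  refine ⟨K / (2 * c) + (2 * C * β ^ θ + 4 * p.b + 2 * C), by positivity, ?_⟩
  intro d hd N lam v hN hv hl
  have hNθ : 1 ≤ N ^ θ := Real.one_le_rpow hN hθ
  rcases hcov d hd (up v) with hD | ⟨d₁, hd₁, d₂, hd₂, s, t, hs, ht, hst, hm⟩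
  · refine (TRL.far p n d hK hV hc hl v hD).trans (div_le_div_of_nonneg_right ?_ hl.le)
    have h1 : 0 ≤ 2 * C * β ^ θ + 4 * p.b + 2 * C := by positivity
    nlinarith
  · have hN' : 1 ≤ β * N := by nlinarith
    have hbv : p.b * n1 v ≤ β * N := mul_le_mul hβb hv (n1_nonneg v) (by linarith)
    have hle : s + t ≤ β * N := by
      have := n.le (up v)
      rw [hm, ← n1_eq] at this
      linarith
    have h1 := hT d₁ hd₁ (β * N) s hN' hs (by linarith)
    have h2 := hT d₂ hd₂ (β * N) t hN' ht (by linarith)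
    have h3 := TRL.legs p v hst h1 h2
    rw [← hm] at h3
    have hP : 0 ≤ C * (β * N) ^ θ := mul_nonneg hC (Real.rpow_nonneg (by linarith) θ)
    have h4 := TRL.low p n v hl (by linarith) hbv h3
    have h5 : p.pr {τ | p.T τ 0 v ≤ d.ρ (up v) + p.D d (up v) / 2 - lam} ≤
        p.pr {τ | p.T τ 0 v ≤ p.m (up v) - lam} := by
      refine p.pr_mono fun τ hτ => ?_
      have h6 : p.T τ 0 v ≤ d.ρ (up v) + p.D d (up v) / 2 - lam := hτ
      have h7 : p.D d (up v) = p.m (up v) - d.ρ (up v) := rfl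
      have h8 := (hG d hd).D_nonneg (up v)
      show p.T τ 0 v ≤ p.m (up v) - lam
      linarith
    refine h5.trans (h4.trans (div_le_div_of_nonneg_right ?_ hl.le))
    have h9 : β * N * (2 * (C * (β * N) ^ (-(1 : ℝ)))) = 2 * C := by
      rw [Real.rpow_neg_one]
      field_simp
    rw [h9, Real.mul_rpow (by linarith) (by linarith)]
    have h10 : 0 ≤ K / (2 * c) * N ^ θ := by positivity
    have h11 : 4 * p.b + 2 * C ≤ (4 * p.b + 2 * C) * N ^ θ :=
      le_mul_of_one_le_right (by positivity) hNθ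
    nlinarith

end Pool.Agent.Lib.FP95
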