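import Pool.Agent.Lib.FP95.Base

/-! Block TRU: upper tails in a smaller window. -/

namespace Pool.Agent.Lib.FP95

open MeasureTheory Pool.Agent.Lib.MP_eba68f_pr

theorem bTRU : St_TRU := by
  intro p R θ S S' hN hG hθ hC hT
  obtain ⟨c, hc, hcov⟩ := hC
  have hb := p.b_pos
  refine ⟨max 1 (2 * p.b / c), le_trans zero_le_one (le_max_left _ _), fun q => ?_⟩
  obtain ⟨C, hC0, hC⟩ := hT q
  set B := max p.b 1 with hB
  have hB1 : 1 ≤ B := le_max_right _ _
  have hBb : p.b ≤ B := le_max_left _ _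
  have hB0 : 0 ≤ B := le_trans zero_le_one hB1
  have e1 : 0 ≤ C * B ^ θ := mul_nonneg hC0 (Real.rpow_nonneg hB0 _)
  have e2 : 0 ≤ C * B ^ (-q) := mul_nonneg hC0 (Real.rpow_nonneg hB0 _)
  refine ⟨2 * (C * B ^ θ) + 2 * p.b + 2 * (C * B ^ (-q)), by linarith, ?_⟩
  intro d hd N v hN1 hv
  have g := hG d hd
  have hN0 : 0 ≤ N := le_trans zero_le_one hN1
  have hθ1 : 1 ≤ N ^ θ := Real.one_le_rpow hN1 hθ
  have hq0 : 0 ≤ N ^ (-q) := Real.rpow_nonneg hN0 _
  have hD : 0 ≤ p.D d (up v) := sub_nonneg.2 (g.ρ_le _)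
  have hA1 : p.D d (up v) ≤ max 1 (2 * p.b / c) * p.D d (up v) :=
    le_mul_of_one_le_left hD (le_max_left _ _)
  have hA2 : 2 * p.b / c * p.D d (up v) ≤ max 1 (2 * p.b / c) * p.D d (up v) :=
    mul_le_mul_of_nonneg_right (le_max_right _ _) hD
  have hK : 2 * (C * B ^ θ * N ^ θ) + 2 * p.b ≤
      (2 * (C * B ^ θ) + 2 * p.b + 2 * (C * B ^ (-q))) * N ^ θ := by
    nlinarith [mul_nonneg e2 (le_trans zero_le_one hθ1), mul_nonneg hb.le (sub_nonneg.2 hθ1)]
  have hK0 : 0 ≤ C * B ^ θ * N ^ θ := mul_nonneg e1 (le_trans zero_le_one hθ1)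
  rcases hcov d hd (up v) with h | ⟨d₁, hd₁, d₂, hd₂, s, t, hs, ht, hst, hm⟩
  · rw [p.pr_eq_zero]
    · exact mul_nonneg (by linarith) hq0
    intro τ hτ
    have h0 : d.ρ (up v) + max 1 (2 * p.b / c) * p.D d (up v) +
      (2 * (C * B ^ θ) + 2 * p.b + 2 * (C * B ^ (-q))) * N ^ θ < p.T τ 0 v := hτ
    have h1 := p.T_le0 τ v
    rw [n1_eq] at h1
    have h2 := g.ρ_le (-up v)
    rw [map_neg, hN.neg] at h2
    have h3 := hN.le (up v)
    have h4 : 2 * p.b * l1 (up v) ≤ 2 * p.b / c * p.D d (up v) := by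
      have h5 := mul_le_mul_of_nonneg_left h (show 0 ≤ 2 * p.b / c by positivity)
      rwa [← mul_assoc, div_mul_cancel₀ _ hc.ne'] at h5
    linarith
  · have h3 := hN.le (up v)
    rw [← n1_eq, hm] at h3
    have h4 : p.b * n1 v ≤ B * N := mul_le_mul hBb hv (n1_nonneg v) hB0
    have hBN : 1 ≤ B * N := one_le_mul_of_one_le_of_one_le hB1 hN1
    have t1 := hC d₁ hd₁ (B * N) s hBN hs (by linarith)
    have t2 := hC d₂ hd₂ (B * N) t hBN ht (by linarith)
    rw [Real.mul_rpow hB0 hN0, Real.mul_rpow hB0 hN0, ← mul_assoc, ← mul_assoc] at t1 t2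
    set w := fl (s • d₁.a) with hw
    set w' := fl (t • d₂.a) with hw'
    have t3 := p.pr_lt_T w (w + w') (t + C * B ^ θ * N ^ θ)
    rw [add_sub_cancel_left] at t3
    have hn : n1 (v - (w + w')) ≤ 2 := by
      have h5 := n1_fl_add (s • d₁.a) (t • d₂.a)
      rwa [← hst, fl_up] at h5
    refine (p.pr_mono (B := {τ | s + C * B ^ θ * N ^ θ < p.T τ 0 w} ∪
      {τ | t + C * B ^ θ * N ^ θ < p.T τ w (w + w')}) fun τ hτ => ?_).trans ?_
    · have h0 : d.ρ (up v) + max 1 (2 * p.b / c) * p.D d (up v) +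
        (2 * (C * B ^ θ) + 2 * p.b + 2 * (C * B ^ (-q))) * N ^ θ < p.T τ 0 v := hτ
      by_contra hno
      rw [Set.mem_union, not_or] at hno
      have a1 : p.T τ 0 w ≤ s + C * B ^ θ * N ^ θ := not_lt.1 hno.1
      have a2 : p.T τ w (w + w') ≤ t + C * B ^ θ * N ^ θ := not_lt.1 hno.2
      have a3 := p.T_lip τ 0 v (w + w')
      have a4 := p.T_tri τ 0 w (w + w')
      have a5 : p.b * n1 (v - (w + w')) ≤ p.b * 2 := mul_le_mul_of_nonneg_left hn hb.le
      have a6 : p.D d (up v) = s + t - d.ρ (up v) := by rw [← hm]; rfl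
      linarith
    · refine (p.pr_union_le _ _).trans ?_
      rw [t3]
      nlinarith [mul_nonneg e1 hq0, mul_nonneg hb.le hq0]

end Pool.Agent.Lib.FP95
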