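import Pool.Agent.Lib.FP95.Base

/-! The upper tail bound by iteration. -/

namespace Pool.Agent.Lib.FP95

open MeasureTheory Pool.Agent.Lib.MP_eba68f_pr

namespace UB

lemma one (p : Par) (R : ℝ) (S : Set Dat) (hS : ∀ d ∈ S, p.Good R d) : p.Tail S 1 := by
  intro q
  refine ⟨p.b * (|R| + 2), mul_nonneg p.b_pos.le (by positivity), fun d hd N l hN h0 hl => ?_⟩
  have g := hS d hd
  have hb := p.b_pos
  rw [p.pr_eq_zero]
  · exact mul_nonneg (mul_nonneg hb.le (by positivity)) (Real.rpow_nonneg (by linarith) _)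
  intro τ hτ
  have h1 := p.T_le0 τ (fl (l • d.a))
  have h2 := g.n1_fl h0
  have hR : |R| = R := abs_of_nonneg (by linarith [g.one_le])
  simp only [Set.mem_ofPred_eq, Real.rpow_one, hR] at hτ
  have h3 : l * R + 2 ≤ (R + 2) * N := by nlinarith [g.one_le]
  nlinarith [mul_le_mul_of_nonneg_left (h2.trans h3) hb.le]

lemma mono (p : Par) (S : Set Dat) {θ θ' : ℝ} (h : θ ≤ θ') (hT : p.Tail S θ) : p.Tail S θ' := by
  intro q
  obtain ⟨C, hC, H⟩ := hT q
  refine ⟨C, hC, fun d hd N l hN h0 hl => (p.pr_mono fun τ hτ => ?_).trans (H d hd N l hN h0 hl)⟩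
  have := mul_le_mul_of_nonneg_left (Real.rpow_le_rpow_of_exponent_le hN h) hC
  simp only [Set.mem_ofPred_eq] at hτ ⊢
  linarith

end UB

theorem bUB (hUB1 : St_UB1) : St_UB := by
  intro p R S hN hS
  refine ⟨UB.one p R S hS, fun β θ hβ hθ hM => ?_⟩
  have θ0 : 0 < θ := hβ.trans_lt hθ
  set z := min (θ - β) (1 / 2) with hz
  have z0 : 0 < z := lt_min (by linarith) (by norm_num)
  have z1 : z ≤ 1 / 2 := min_le_right _ _
  have z2 : z ≤ θ - β := min_le_left _ _
  have key : ∀ j : ℕ, p.Tail S (max θ (1 - j * (θ * z / 2))) := by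
    intro j
    induction j with
    | zero => exact UB.mono p S (by simp) (UB.one p R S hS)
    | succ j ih =>
      have a := le_max_left θ (1 - j * (θ * z / 2))
      refine hUB1 p R β _ _ z S hN hS hβ (θ0.le.trans a) z0 (by linarith)
        (le_max_of_le_left (by linarith)) ?_ hM ih
      rcases le_total θ (1 - j * (θ * z / 2)) with h | h
      · rw [max_eq_right h]
        refine lt_max_of_lt_right ?_
        push_cast
        nlinarith [mul_le_mul_of_nonneg_right h z0.le, mul_pos θ0 z0]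
      · rw [max_eq_left h]
        exact lt_max_of_lt_left (by nlinarith [mul_pos θ0 z0])
  obtain ⟨j, hj⟩ := exists_nat_ge (1 / (θ * z / 2))
  have := key j
  rw [div_le_iff₀ (by positivity)] at hj
  rwa [max_eq_left (by linarith)] at this

end Pool.Agent.Lib.FP95
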