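import Pool.Agent.Lib.FP95.Blue
import Pool.Agent.Lib.FP95.Base

/-! Block UB1: one step of the upper tail induction. -/

namespace Pool.Agent.Lib.FP95

open MeasureTheory ProbabilityTheory Filter Topology Pool.Agent.Lib.MP_eba68f_pr
open scoped NNReal ENNReal

namespace UB1

structure Kit (p : Par) : Prop where
  tri : ∀ τ u v w, p.T τ u w ≤ p.T τ u v + p.T τ v w
  le : ∀ τ u v, p.T τ u v ≤ p.b * n1 (v - u)
  ge : ∀ τ u v, 0 ≤ p.T τ u v
  meas : ∀ u v, Measurable fun τ => p.T τ u v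
  dep : ∀ u v, DependsOn (fun τ => p.T τ u v) (near u (p.b / p.r * n1 (v - u)))
  fin : ∀ u t, (near u t).Finite
  spr : ∀ u w c, p.pr {τ | c < p.T τ u (u + w)} = p.pr {τ | c < p.T τ 0 w}
  sint : ∀ u w c, ∫ τ, max (p.T τ u (u + w) - c) 0 ∂p.P = ∫ τ, max (p.T τ 0 w - c) 0 ∂p.P

theorem abs_fl_add (x y : ℝ) : |((⌊x + y⌋ - (⌊x⌋ + ⌊y⌋) : ℤ) : ℝ)| ≤ 1 := by
  have h1 := Int.le_floor_add x y
  have h2 := Int.le_floor_add_floor x y
  have : |(⌊x + y⌋ - (⌊x⌋ + ⌊y⌋) : ℤ)| ≤ 1 := abs_le.2 ⟨by omega, by omega⟩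
  exact_mod_cast this

theorem n1_defect (x y : R2) : n1 (fl (x + y) - (fl x + fl y)) ≤ 2 := by
  have h0 := abs_fl_add (x 0) (y 0)
  have h1 := abs_fl_add (x 1) (y 1)
  simp only [n1, fl, Pi.sub_apply, Pi.add_apply]
  linarith

theorem abs_fl_sub (x y : ℝ) : |x - y| ≤ |((⌊x⌋ - ⌊y⌋ : ℤ) : ℝ)| + 1 := by
  have h1 := Int.floor_le x
  have h2 := Int.lt_floor_add_one x
  have h3 := Int.floor_le y
  have h4 := Int.lt_floor_add_one y
  have h5 := le_abs_self (((⌊x⌋ - ⌊y⌋ : ℤ) : ℝ))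
  have h6 := neg_abs_le (((⌊x⌋ - ⌊y⌋ : ℤ) : ℝ))
  push_cast at h5 h6 ⊢
  exact abs_le.2 ⟨by linarith, by linarith⟩

theorem sep_fl (x y : R2) : l1 (x - y) ≤ n1 (fl x - fl y) + 2 := by
  have h0 := abs_fl_sub (x 0) (y 0)
  have h1 := abs_fl_sub (x 1) (y 1)
  simp only [n1, l1, fl, Pi.sub_apply]
  linarith

theorem abs_fl (x : ℝ) : |((⌊x⌋ : ℤ) : ℝ)| ≤ |x| + 1 := by
  have h1 := Int.floor_le x
  have h2 := Int.lt_floor_add_one x
  have h5 := le_abs_self x
  have h6 := neg_abs_le x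
  exact abs_le.2 ⟨by linarith, by linarith⟩

theorem size_fl (x : R2) : n1 (fl x) ≤ l1 x + 2 := by
  have h0 := abs_fl (x 0)
  have h1 := abs_fl (x 1)
  simp only [n1, l1, fl]
  linarith

theorem l1_mul (c : ℝ) (hc : 0 ≤ c) (x : R2) : l1 (c • x) = c * l1 x := by
  simp only [l1, Pi.smul_apply, smul_eq_mul, abs_mul, abs_of_nonneg hc]
  ring

theorem tele {p : Par} (K : Kit p) (τ : Cfg) (a : R2) (u : ℝ) (k : ℕ) :
    p.T τ 0 (fl (((k : ℝ) * u) • a)) ≤ ∑ i ∈ Finset.range k,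
      (p.T τ (fl (((i : ℝ) * u) • a)) (fl (((i : ℝ) * u) • a) + fl (u • a)) + 2 * p.b) := by
  have hb : 0 ≤ p.b := p.r_pos.le.trans p.r_le
  induction k with
  | zero =>
    have h := K.le τ 0 (fl ((((0 : ℕ) : ℝ) * u) • a))
    have h0 : fl ((((0 : ℕ) : ℝ) * u) • a) = 0 := by
      funext i
      simp [fl]
    rw [h0] at h ⊢
    simpa [n1] using h
  | succ k ih =>
    rw [Finset.sum_range_succ]
    have e1 : (((k + 1 : ℕ) : ℝ) * u) • a = ((k : ℝ) * u) • a + u • a := by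
      rw [← add_smul]
      push_cast
      ring_nf
    rw [e1]
    have h1 := K.tri τ 0 (fl (((k : ℝ) * u) • a)) (fl (((k : ℝ) * u) • a + u • a))
    have h2 := K.tri τ (fl (((k : ℝ) * u) • a)) (fl (((k : ℝ) * u) • a) + fl (u • a))
      (fl (((k : ℝ) * u) • a + u • a))
    have h3 := K.le τ (fl (((k : ℝ) * u) • a) + fl (u • a)) (fl (((k : ℝ) * u) • a + u • a))
    have h4 := mul_le_mul_of_nonneg_left (n1_defect (((k : ℝ) * u) • a) (u • a)) hb
    linarith

theorem near_disj {u v : V} {t : ℝ} (h : 2 * t < n1 (v - u)) : Disjoint (near u t) (near v t) := by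
  rw [Set.disjoint_left]
  intro e h1 h2
  induction e using Sym2.ind with
  | h x y =>
    have a1 := h1 x (Sym2.mem_mk_left x y)
    have a2 := h2 x (Sym2.mem_mk_left x y)
    have a3 := n1_add_le (x - u) (v - x)
    rw [n1_sub_comm v x] at a3
    have e : x - u + (v - x) = v - u := by abel
    rw [e] at a3
    linarith

theorem core (hC : St_CHER) {p : Par} (K : Kit p) (a : R2) (k R' : ℕ) (u M m₁ t δ : ℝ)
    (hR : 0 < R') (hM : 0 < M)
    (hsep : ∀ i j : ℕ, i + R' ≤ j → 2 * (p.b / p.r * n1 (fl (u • a))) <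
      n1 (fl (((j : ℝ) * u) • a) - fl (((i : ℝ) * u) • a)))
    (hδ : p.pr {τ | u + M < p.T τ 0 (fl (u • a))} ≤ δ)
    (hm : ∫ τ, max (p.T τ 0 (fl (u • a)) - u) 0 ∂p.P ≤ m₁) :
    p.pr {τ | k * u + 2 * p.b * k + 2 * (k * m₁) + R' * (M * t) <
      p.T τ 0 (fl (((k : ℝ) * u) • a))} ≤ k * δ + R' * Real.exp (-t) := by
  have := p.prob
  have hP : IsProbabilityMeasure p.P := by
    unfold Par.P
    infer_instance
  set w : V := fl (u • a) with hw
  set z : ℕ → V := fun i => fl (((i : ℝ) * u) • a) with hz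
  set Y : ℕ → Cfg → ℝ := fun i τ => min M (max (p.T τ (z i) (z i + w) - u) 0) with hY
  set s : ℕ → Finset ℕ := fun c => (Finset.range k).filter fun i => i % R' = c with hs
  set B1 : ℕ → Set Cfg := fun i => {τ | u + M < p.T τ (z i) (z i + w)} with hB1
  set B2 : ℕ → Set Cfg := fun c =>
    {τ | 2 * ((s c).card * m₁) + M * t < ∑ i ∈ s c, Y i τ} with hB2
  have hmaps : ∀ i ∈ Finset.range k, i % R' ∈ Finset.range R' := fun i _ =>
    Finset.mem_range.2 (Nat.mod_lt _ hR)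
  have hsub : {τ | k * u + 2 * p.b * k + 2 * (k * m₁) + R' * (M * t) <
      p.T τ 0 (fl (((k : ℝ) * u) • a))} ⊆
      (⋃ i ∈ Finset.range k, B1 i) ∪ ⋃ c ∈ Finset.range R', B2 c := by
    intro τ hτ
    by_contra hn
    simp only [Set.mem_union, Set.mem_iUnion, not_or, not_exists, hB1, hB2, Set.mem_ofPred_eq,
      not_lt] at hn hτ
    obtain ⟨h1, h2⟩ := hn
    have t1 := tele K τ a u k
    have t2 : ∑ i ∈ Finset.range k, (p.T τ (z i) (z i + w) + 2 * p.b) ≤
        ∑ i ∈ Finset.range k, (u + 2 * p.b + Y i τ) := by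
      refine Finset.sum_le_sum fun i hi => ?_
      have a1 := h1 i hi
      have a2 : p.T τ (z i) (z i + w) - u ≤ Y i τ := le_min (by linarith) (le_max_left _ _)
      linarith
    have t3 : ∑ i ∈ Finset.range k, Y i τ = ∑ c ∈ Finset.range R', ∑ i ∈ s c, Y i τ :=
      (Finset.sum_fiberwise_of_maps_to hmaps _).symm
    have t4 : ∑ c ∈ Finset.range R', ∑ i ∈ s c, Y i τ ≤
        ∑ c ∈ Finset.range R', (2 * ((s c).card * m₁) + M * t) :=
      Finset.sum_le_sum fun c hc => h2 c hc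
    have t5 : (k : ℝ) = ∑ c ∈ Finset.range R', ((s c).card : ℝ) := by
      have := Finset.card_eq_sum_card_fiberwise (f := fun i => i % R') (s := Finset.range k)
        (t := Finset.range R') fun i hi => hmaps i hi
      rw [Finset.card_range] at this
      exact_mod_cast this
    rw [Finset.sum_add_distrib, ← Finset.mul_sum, ← Finset.sum_mul, ← t5, Finset.sum_const,
      Finset.card_range, nsmul_eq_mul] at t4
    rw [Finset.sum_add_distrib (f := fun _ => u + 2 * p.b), Finset.sum_const, Finset.card_range,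
      nsmul_eq_mul] at t2
    have t6 : p.T τ 0 (fl (((k : ℝ) * u) • a)) ≤
        ∑ i ∈ Finset.range k, (p.T τ (z i) (z i + w) + 2 * p.b) := t1
    nlinarith
  have hb1 : p.P.real (⋃ i ∈ Finset.range k, B1 i) ≤ k * δ := by
    refine (measureReal_biUnion_finset_le _ _).trans ?_
    have : ∑ i ∈ Finset.range k, p.P.real (B1 i) ≤ ∑ i ∈ Finset.range k, δ :=
      Finset.sum_le_sum fun i _ => (K.spr (z i) w (u + M)).le.trans hδ
    simpa using this
  have hYm : ∀ i, Measurable (Y i) := fun i =>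
    measurable_const.min (((K.meas _ _).sub measurable_const).max measurable_const)
  have hb2 : p.P.real (⋃ c ∈ Finset.range R', B2 c) ≤ R' * Real.exp (-t) := by
    refine (measureReal_biUnion_finset_le _ _).trans ?_
    have : ∑ c ∈ Finset.range R', p.P.real (B2 c) ≤ ∑ c ∈ Finset.range R', Real.exp (-t) := by
      refine Finset.sum_le_sum fun c _ => ?_
      refine hC p ℕ (s c) Y (fun i => near (z i) (p.b / p.r * n1 w)) M m₁ t
        (fun i _ => K.fin _ _) (fun i _ => hYm i) (fun i _ => ?_) ?_ hM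
        (fun i _ τ => ⟨le_min hM.le (le_max_right _ _), min_le_left _ _⟩) fun i _ => ?_
      · intro τ τ' h
        have h1 := K.dep (z i) (z i + w)
        rw [add_sub_cancel_left] at h1
        have h2 : p.T τ (z i) (z i + w) = p.T τ' (z i) (z i + w) := h1 h
        simp only [hY, h2]
      · have key : ∀ i j : ℕ, i % R' = j % R' → i < j →
            Disjoint (near (z i) (p.b / p.r * n1 w)) (near (z j) (p.b / p.r * n1 w)) := by
          intro i j h hij
          have h1 : R' ∣ j - i := (Nat.modEq_iff_dvd' hij.le).1 h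
          have h2 := Nat.le_of_dvd (by omega) h1
          exact near_disj (hsep i j (by omega))
        intro i hi j hj hij
        have hi' : i % R' = c := (Finset.mem_filter.1 hi).2
        have hj' : j % R' = c := (Finset.mem_filter.1 hj).2
        rcases lt_or_gt_of_ne hij with h | h
        · exact key i j (hi'.trans hj'.symm) h
        · exact (key j i (hj'.trans hi'.symm) h).symm
      · refine le_trans ?_ ((K.sint (z i) w u).le.trans hm)
        refine integral_mono ?_ ?_ fun τ => min_le_right _ _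
        · refine Integrable.of_bound (hYm i).aestronglyMeasurable M (ae_of_all _ fun τ => ?_)
          rw [Real.norm_eq_abs, abs_of_nonneg (le_min hM.le (le_max_right _ _))]
          exact min_le_left _ _
        · refine Integrable.of_bound
            (((K.meas _ _).sub measurable_const).max measurable_const).aestronglyMeasurable
            (p.b * n1 (z i + w - z i) + |u|) (ae_of_all _ fun τ => ?_)
          rw [Real.norm_eq_abs, abs_of_nonneg (le_max_right _ _)]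
          have a1 := K.le τ (z i) (z i + w)
          have a2 := K.ge τ (z i) (z i + w)
          have a3 := neg_abs_le u
          have a4 := abs_nonneg u
          exact max_le (by linarith) (by linarith)
    simpa using this
  exact (measureReal_mono hsub).trans ((measureReal_union_le _ _).trans (add_le_add hb1 hb2))

theorem sep_ok {p : Par} {R : ℝ} {d : Dat} (hN : p.Norm) (hG : p.Good R d) {u : ℝ} (hu : 1 ≤ u)
    {R' : ℕ} (hR : 2 * (p.b / p.r) + (4 * (p.b / p.r) + 2) * p.b + 1 ≤ R') (i j : ℕ)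
    (hij : i + R' ≤ j) : 2 * (p.b / p.r * n1 (fl (u • d.a))) <
      n1 (fl (((j : ℝ) * u) • d.a) - fl (((i : ℝ) * u) • d.a)) := by
  have hb : 0 < p.b := p.r_pos.trans_le p.r_le
  have hk : 0 < p.b / p.r := div_pos hb p.r_pos
  have h1 : 1 ≤ p.b * l1 d.a := hG.ma ▸ hN.le d.a
  have hl : 0 < l1 d.a := by
    by_contra h
    nlinarith [not_lt.1 h]
  have h2 := size_fl (u • d.a)
  rw [l1_mul u (by linarith)] at h2
  have h3 := sep_fl (((j : ℝ) * u) • d.a) (((i : ℝ) * u) • d.a)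
  have hji : (R' : ℝ) ≤ (j : ℝ) - i := by
    have : ((i + R' : ℕ) : ℝ) ≤ j := by exact_mod_cast hij
    push_cast at this
    linarith
  have hR0 : (0 : ℝ) ≤ R' := Nat.cast_nonneg _
  have e : (j : ℝ) * u - i * u = (j - i) * u := by ring
  rw [← sub_smul, e, l1_mul _ (mul_nonneg (by linarith) (by linarith)), mul_assoc] at h3
  have hα : 0 < u * l1 d.a := mul_pos (by linarith) hl
  have hα1 : 1 ≤ p.b * (u * l1 d.a) := by nlinarith
  generalize u * l1 d.a = α at h2 h3 hα hα1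
  generalize p.b / p.r = κ at hk hR ⊢
  have h4 : (2 * κ + (4 * κ + 2) * p.b + 1) * α ≤ ((j : ℝ) - i) * α :=
    mul_le_mul_of_nonneg_right (hR.trans hji) hα.le
  have h5 : (4 * κ + 2) * 1 ≤ (4 * κ + 2) * (p.b * α) :=
    mul_le_mul_of_nonneg_left hα1 (by linarith)
  have h6 := mul_le_mul_of_nonneg_left h2 hk.le
  nlinarith

theorem main0 (hC : St_CHER) {p : Par} (K : Kit p) {R β θ θ' ζ : ℝ} {S : Set Dat} (hN : p.Norm)
    (hG : ∀ d ∈ S, p.Good R d) (hβ : 0 ≤ β) (hζ : 0 < ζ) (hζ1 : ζ < 1) (h1 : β + ζ ≤ θ')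
    (h2 : θ * (1 - ζ) < θ') (hM : p.Mean S β) (hT : p.Tail S θ) (q : ℝ) (hq : 0 ≤ q) :
    ∃ C : ℝ, 0 ≤ C ∧ ∀ d ∈ S, ∀ N l : ℝ, 1 ≤ N → 0 ≤ l → l ≤ N →
      p.pr {τ | l + C * N ^ θ' < p.T τ 0 (fl (l • d.a))} ≤ C * N ^ (-q) := by
  have := p.prob
  have hP : IsProbabilityMeasure p.P := by
    unfold Par.P
    infer_instance
  have hb : 0 < p.b := p.r_pos.trans_le p.r_le
  obtain ⟨C₁, hC₁, hT⟩ := hT ((q + ζ) / (1 - ζ))
  obtain ⟨C₂, hC₂, hM⟩ := hM
  obtain ⟨R', hR'⟩ := exists_nat_ge (2 * (p.b / p.r) + (4 * (p.b / p.r) + 2) * p.b + 1)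
  have hk0 : 0 < p.b / p.r := div_pos hb p.r_pos
  have hR0 : (0 : ℝ) < R' := lt_of_lt_of_le (by positivity) hR'
  have hε : 0 < θ' - θ * (1 - ζ) := by linarith
  set ε := θ' - θ * (1 - ζ) with hεd
  have c1 : 0 ≤ p.b * (2 * |R| + 2) := by positivity
  have c2 : 0 ≤ R' * ((C₁ + 1) * (q / ε)) := by positivity
  refine ⟨p.b * (2 * |R| + 2) + 4 * p.b + 4 * C₂ + R' * ((C₁ + 1) * (q / ε)) + 2 * C₁ + R',
    by positivity, fun d hd N l hN1 hl hlN => ?_⟩
  set C := p.b * (2 * |R| + 2) + 4 * p.b + 4 * C₂ + R' * ((C₁ + 1) * (q / ε)) + 2 * C₁ + R'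
    with hCd
  have hN0 : 0 < N := by linarith
  have hz1 : 1 ≤ N ^ ζ := Real.one_le_rpow hN1 hζ.le
  have hzt : N ^ ζ ≤ N ^ θ' := Real.rpow_le_rpow_of_exponent_le hN1 (by linarith)
  have hbt : N ^ ζ * N ^ β ≤ N ^ θ' := by
    rw [← Real.rpow_add hN0]
    exact Real.rpow_le_rpow_of_exponent_le hN1 (by linarith)
  have hq0 : 0 < N ^ (-q) := Real.rpow_pos_of_pos hN0 _
  set k : ℕ := ⌈N ^ ζ⌉₊ with hk
  have hk1 : N ^ ζ ≤ k := Nat.le_ceil _
  have hk2 : (k : ℝ) ≤ 2 * N ^ ζ := by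
    have := Nat.ceil_lt_add_one (a := N ^ ζ) (by linarith)
    linarith
  have hkp : (0 : ℝ) < k := by linarith
  rcases lt_or_ge l k with hlk | hlk
  · have : {τ | l + C * N ^ θ' < p.T τ 0 (fl (l • d.a))} = ∅ := by
      refine Set.eq_empty_of_forall_notMem fun τ hτ => ?_
      have a1 := K.le τ 0 (fl (l • d.a))
      rw [sub_zero] at a1
      have a2 := size_fl (l • d.a)
      rw [l1_mul l hl] at a2
      have a3 : l1 d.a ≤ |R| := (hG d hd).a_le.trans (le_abs_self R)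
      have a4 : l * l1 d.a ≤ 2 * N ^ θ' * |R| :=
        (mul_le_mul_of_nonneg_left a3 hl).trans
          (mul_le_mul_of_nonneg_right (by linarith) (abs_nonneg R))
      have a5 : n1 (fl (l • d.a)) ≤ (2 * |R| + 2) * N ^ θ' := by linarith
      have a6 := mul_le_mul_of_nonneg_left a5 hb.le
      have a7 : p.b * (2 * |R| + 2) * N ^ θ' ≤ C * N ^ θ' :=
        mul_le_mul_of_nonneg_right (by rw [hCd]; linarith) (by linarith)
      have a8 : l + C * N ^ θ' < p.T τ 0 (fl (l • d.a)) := hτ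
      linarith
    rw [this]
    simp only [Par.pr, measureReal_empty]
    positivity
  · have hu : 1 ≤ l / k := (one_le_div hkp).2 hlk
    have hku : (k : ℝ) * (l / k) = l := by field_simp
    have hN' : 1 ≤ N ^ (1 - ζ) := Real.one_le_rpow hN1 (by linarith)
    have huN' : l / k ≤ N ^ (1 - ζ) := by
      rw [Real.rpow_sub hN0, Real.rpow_one]
      exact div_le_div₀ hN0.le hlN (by linarith) hk1
    have huN : l / k ≤ N := (div_le_self hl (by linarith)).trans hlN
    have hp : 0 < (N ^ (1 - ζ)) ^ θ := Real.rpow_pos_of_pos (by linarith) _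
    have hδ : p.pr {τ | l / k + (C₁ + 1) * (N ^ (1 - ζ)) ^ θ < p.T τ 0 (fl ((l / k) • d.a))} ≤
        C₁ * (N ^ (1 - ζ)) ^ (-((q + ζ) / (1 - ζ))) := by
      refine le_trans (measureReal_mono fun τ hτ => ?_)
        (hT d hd _ (l / k) hN' (by linarith) huN')
      have a1 : l / k + (C₁ + 1) * (N ^ (1 - ζ)) ^ θ < p.T τ 0 (fl ((l / k) • d.a)) := hτ
      show l / k + C₁ * (N ^ (1 - ζ)) ^ θ < p.T τ 0 (fl ((l / k) • d.a))
      linarith
    have hc := core hC K d.a k R' (l / k) ((C₁ + 1) * (N ^ (1 - ζ)) ^ θ) (C₂ * N ^ β)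
      (q * Real.log N) _ (by exact_mod_cast hR0) (by positivity)
      (sep_ok hN (hG d hd) hu hR') hδ (hM d hd N (l / k) hN1 (by linarith) huN)
    rw [hku] at hc
    have e1 : Real.exp (-(q * Real.log N)) = N ^ (-q) := by
      rw [Real.rpow_def_of_pos hN0]
      ring_nf
    have e2 : N ^ ζ * (N ^ (1 - ζ)) ^ (-((q + ζ) / (1 - ζ))) = N ^ (-q) := by
      rw [← Real.rpow_mul hN0.le, ← Real.rpow_add hN0]
      have : (1 - ζ) ≠ 0 := by linarith
      have e : ζ + (1 - ζ) * -((q + ζ) / (1 - ζ)) = -q := by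
        field_simp
        ring
      rw [e]
    have e3 : (N ^ (1 - ζ)) ^ θ * Real.log N ≤ N ^ θ' / ε := by
      have a1 := mul_le_mul_of_nonneg_left (Real.log_le_rpow_div hN0.le hε) hp.le
      rw [← Real.rpow_mul hN0.le] at a1 ⊢
      rw [← mul_div_assoc, ← Real.rpow_add hN0] at a1
      have e : (1 - ζ) * θ + ε = θ' := by
        rw [hεd]
        ring
      rwa [e] at a1
    have e4 : (C₁ + 1) * (N ^ (1 - ζ)) ^ θ * (q * Real.log N) ≤ (C₁ + 1) * (q / ε) * N ^ θ' := by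
      have a1 := mul_le_mul_of_nonneg_left e3 (mul_nonneg (by linarith : 0 ≤ C₁ + 1) hq)
      calc _ = (C₁ + 1) * q * ((N ^ (1 - ζ)) ^ θ * Real.log N) := by ring
        _ ≤ _ := a1
        _ = _ := by ring
    refine le_trans (measureReal_mono fun τ hτ => ?_) (hc.trans ?_)
    · have a1 : l + C * N ^ θ' < p.T τ 0 (fl (l • d.a)) := hτ
      refine lt_of_le_of_lt ?_ a1
      have a2 : 2 * p.b * k ≤ 4 * p.b * N ^ θ' := by
        have b1 := mul_le_mul_of_nonneg_left (show (k : ℝ) ≤ 2 * N ^ θ' by linarith) hb.le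
        linarith
      have a3 : (k : ℝ) * (C₂ * N ^ β) ≤ 2 * C₂ * N ^ θ' := by
        have b1 : 0 ≤ C₂ * N ^ β := by positivity
        have b2 := mul_le_mul_of_nonneg_right hk2 b1
        have b3 := mul_le_mul_of_nonneg_left hbt hC₂
        linarith
      have a4 := mul_le_mul_of_nonneg_left e4 hR0.le
      have a5 : 0 ≤ (p.b * (2 * |R| + 2) + 2 * C₁ + R') * N ^ θ' := by positivity
      rw [hCd]
      linarith
    · rw [e1]
      have a1 : (k : ℝ) * (C₁ * (N ^ (1 - ζ)) ^ (-((q + ζ) / (1 - ζ)))) ≤ 2 * C₁ * N ^ (-q) := by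
        have b1 : 0 ≤ C₁ * (N ^ (1 - ζ)) ^ (-((q + ζ) / (1 - ζ))) := by positivity
        have b2 := mul_le_mul_of_nonneg_right hk2 b1
        rw [← e2]
        linarith
      have a2 : 0 ≤ (p.b * (2 * |R| + 2) + 4 * p.b + 4 * C₂ + R' * ((C₁ + 1) * (q / ε))) *
        N ^ (-q) := by positivity
      rw [hCd]
      linarith

theorem kit (p : Par) : Kit p where
  tri := p.T_tri
  le := p.T_le
  ge := p.T_nonneg
  meas := p.T_meas
  dep := p.T_dep
  fin := near_finite
  spr := fun u w c => by rw [p.pr_lt_T, add_sub_cancel_left]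
  sint := fun u w c => by
    rw [p.int_comp_T u (u + w) (g := fun y => max (y - c) 0) (by fun_prop), add_sub_cancel_left]

end UB1

theorem bUB1 (hC : St_CHER) : St_UB1 := by
  intro p R β θ θ' ζ S hN hG hβ _ hζ hζ1 h1 h2 hM hT q
  obtain ⟨C, hC0, h⟩ := UB1.main0 hC (UB1.kit p) hN hG hβ hζ hζ1 h1 h2 hM hT (max q 0) (le_max_right _ _)
  refine ⟨C, hC0, fun d hd N l hN1 hl hlN => (h d hd N l hN1 hl hlN).trans ?_⟩
  exact mul_le_mul_of_nonneg_left
    (Real.rpow_le_rpow_of_exponent_le hN1 (neg_le_neg (le_max_left _ _))) hC0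

end Pool.Agent.Lib.FP95
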