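import Pool.Agent.Lib.FP95.Base

/-! Block WIN: windows. -/

namespace Pool.Agent.Lib.FP95

open Pool.Agent.Lib.MP_eba68f_pr

namespace WIN

theorem step {p : Par} {R : ℝ} {d : Dat} {L l W : ℝ} (n : p.Norm) (g : p.Good R d) (hl : 1 ≤ l)
    (hL : l ≤ L) (hW : 0 < W) (hWL : W ≤ L) {A B : ℝ} {e v : R2} (hA : l ≤ A) (hA' : A ≤ 3 * l)
    (hB : |B| ≤ W * (l / L)) (he : l1 e ≤ 4) (hv : v = A • d.a + B • d.n + e) :
    p.D d v ≤ p.phi d L W * (l / L) + 8 * p.b ∧ l1 v ≤ (4 * R + 4) * l := by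
  have L0 : 0 < L := by linarith
  have b0 := p.b_pos
  have s0 : 0 ≤ |B| / W := by positivity
  have s1 : |B| / W ≤ l / L := by rwa [div_le_iff₀ hW, mul_comm]
  have s2 : 0 ≤ A - |B| / W * L := by
    have := (le_div_iff₀ L0).1 s1
    linarith
  have hBl : |B| ≤ l := hB.trans (by
    rw [← mul_div_assoc, div_le_iff₀ L0]
    nlinarith)
  have d1 := g.D_nonneg (L • d.a + W • d.n)
  have d2 := g.D_nonneg (L • d.a - W • d.n)
  have key : ∀ w : R2, p.D d w ≤ p.phi d L W →
      v - (|B| / W) • w - (A - |B| / W * L) • d.a = e → p.D d v ≤ p.phi d L W * (l / L) + 8 * p.b := by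
    intro w hw e1
    have h1 := n.D_move g v ((|B| / W) • w) s2
    rw [e1, n.D_smul d s0] at h1
    have h2 := mul_le_mul s1 hw (g.D_nonneg w) (s0.trans s1)
    nlinarith
  refine ⟨?_, ?_⟩
  · rcases le_total 0 B with h | h
    · refine key (L • d.a + W • d.n) (by unfold Par.phi; linarith) ?_
      rw [hv, abs_of_nonneg h]
      ext i
      simp only [Pi.add_apply, Pi.sub_apply, Pi.smul_apply, smul_eq_mul]
      field_simp
      ring
    · refine key (L • d.a - W • d.n) (by unfold Par.phi; linarith) ?_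
      rw [hv, abs_of_nonpos h]
      ext i
      simp only [Pi.add_apply, Pi.sub_apply, Pi.smul_apply, smul_eq_mul]
      field_simp
      ring
  · have h1 := l1_add_le (A • d.a + B • d.n) e
    have h2 := l1_add_le (A • d.a) (B • d.n)
    rw [l1_smul, l1_smul, abs_of_nonneg (by linarith : 0 ≤ A)] at h2
    have h3 := mul_le_mul hA' g.a_le (l1_nonneg _) (by linarith)
    have h4 := mul_le_mul hBl g.n_le (l1_nonneg _) (by linarith)
    rw [hv]
    nlinarith

/-- The integer parts of the numbers of absolute value at most `t`. -/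
noncomputable def rg (t : ℝ) : Finset ℤ := Finset.Icc (-⌊t⌋ - 1) ⌊t⌋

theorem card_rg {t : ℝ} (ht : 0 ≤ t) : ((rg t).card : ℝ) ≤ 2 * t + 2 := by
  have h0 : 0 ≤ ⌊t⌋ := Int.floor_nonneg.2 ht
  have h1 : (((rg t).card : ℕ) : ℤ) = 2 * ⌊t⌋ + 2 := by
    rw [rg, Int.card_Icc_of_le _ _ (by omega)]
    ring
  have h2 : ((rg t).card : ℝ) = 2 * ⌊t⌋ + 2 := by exact_mod_cast h1
  linarith [Int.floor_le t]

theorem mem_rg {t x : ℝ} (h : |x| ≤ t) : ⌊x⌋ ∈ rg t := by
  obtain ⟨h1, h2⟩ := abs_le.1 h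
  refine Finset.mem_Icc.2 ⟨Int.le_floor.2 ?_, Int.floor_le_floor h2⟩
  push_cast
  linarith [Int.lt_floor_add_one t]

theorem frac {x c : ℝ} (hc : 0 < c) : 0 ≤ x - ⌊x / c⌋ * c ∧ x - ⌊x / c⌋ * c ≤ c := by
  have h1 := (le_div_iff₀ hc).1 (Int.floor_le (x / c))
  have h2 := (div_lt_iff₀ hc).1 (Int.lt_floor_add_one (x / c))
  constructor <;> linarith

end WIN

open WIN in
theorem bWIN : St_WIN := by
  intro p R d L l W n g hl hL hW hWL y hy
  have l0 : 0 < l := by linarith
  have L0 : 0 < L := by linarith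
  have t1 : 1 ≤ L / l := (one_le_div l0).2 hL
  have h0 : 0 < W * (l / L) := by positivity
  let c : ℤ × ℤ → R2 := fun q => (q.1 * l) • d.a + (q.2 * (W * (l / L))) • d.n
  refine ⟨(rg (L / l) ×ˢ rg (4 * (L / l))).image fun q => fl (c q),
    fun z => fl (c (⌊d.σ (up z) / l⌋, ⌊d.η (up z) / (W * (l / L))⌋)), ?_, ?_, fun z hσ hη => ?_⟩
  · exact ⟨_, Finset.mem_image_of_mem _ (a := (⌊(0 : ℝ)⌋, ⌊(0 : ℝ)⌋)) (Finset.mem_product.2
      ⟨mem_rg (by rw [abs_zero]; linarith), mem_rg (by rw [abs_zero]; linarith)⟩)⟩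
  · refine (Nat.cast_le.2 Finset.card_image_le).trans ?_
    rw [Finset.card_product, Nat.cast_mul]
    refine (mul_le_mul (card_rg (by linarith)) (card_rg (by linarith)) (Nat.cast_nonneg _)
      (by linarith)).trans ?_
    nlinarith
  · obtain ⟨a1, a2⟩ := frac (x := d.σ (up z)) l0
    obtain ⟨b1, b2⟩ := frac (x := d.η (up z)) h0
    have e1 := l1_fl (c (⌊d.σ (up z) / l⌋, ⌊d.η (up z) / (W * (l / L))⌋))
    have e2 := l1_fl ((2 * l) • d.a)
    rw [← hy] at e2
    have hz := g.dec (up z)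
    refine ⟨Finset.mem_image_of_mem _ (Finset.mem_product.2 ⟨mem_rg ?_, mem_rg ?_⟩), ?_⟩
    · rw [abs_div, abs_of_pos l0]
      exact div_le_div_of_nonneg_right hσ l0.le
    · rw [abs_div, abs_of_pos h0, div_le_iff₀ h0]
      refine hη.trans (le_of_eq ?_)
      field_simp
    simp only [n1_eq, up_sub, up_add]
    generalize d.σ (up z) = s at *
    generalize d.η (up z) = t at *
    generalize ⌊s / l⌋ = i at *
    generalize ⌊t / (W * (l / L))⌋ = j at *
    generalize up (fl (c (i, j))) = w at *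
    obtain ⟨k1, k2⟩ := step n g hl hL hW hWL (A := 2 * l - (s - i * l))
      (B := -(t - j * (W * (l / L)))) (v := w + up y - up z) (by linarith) (by linarith)
      (by rwa [abs_neg, abs_of_nonneg b1]) ((l1_add_le _ _).trans (by linarith [e1, e2]) :
        l1 (w - c (i, j) + (up y - (2 * l) • d.a)) ≤ 4) (by
        rw [hz]
        ext k
        simp only [c, Pi.add_apply, Pi.sub_apply, Pi.smul_apply, smul_eq_mul]
        ring)
    obtain ⟨k3, k4⟩ := step n g hl hL hW hWL (A := 2 * l + (s - i * l))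
      (B := t - j * (W * (l / L))) (v := up z - (w - up y)) (by linarith) (by linarith)
      (by rwa [abs_of_nonneg b1]) ((l1_sub_le _ _).trans (by linarith [e1, e2]) :
        l1 (up y - (2 * l) • d.a - (w - c (i, j))) ≤ 4) (by
        rw [hz]
        ext k
        simp only [c, Pi.add_apply, Pi.sub_apply, Pi.smul_apply, smul_eq_mul]
        ring)
    exact ⟨k1, k3, k2, k4⟩

end Pool.Agent.Lib.FP95
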