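import Pool.Agent.Lib.FP95.B_BAD
import Pool.Agent.Lib.FP95.B_BAIRE
import Pool.Agent.Lib.FP95.B_CAP
import Pool.Agent.Lib.FP95.B_CDET
import Pool.Agent.Lib.FP95.B_CHAIN
import Pool.Agent.Lib.FP95.B_CHER
import Pool.Agent.Lib.FP95.B_CHORD
import Pool.Agent.Lib.FP95.B_CNT
import Pool.Agent.Lib.FP95.B_CONF
import Pool.Agent.Lib.FP95.B_CORE
import Pool.Agent.Lib.FP95.B_COV
import Pool.Agent.Lib.FP95.B_COV1
import Pool.Agent.Lib.FP95.B_COV2
import Pool.Agent.Lib.FP95.B_COVER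
import Pool.Agent.Lib.FP95.B_CRN
import Pool.Agent.Lib.FP95.B_CURV
import Pool.Agent.Lib.FP95.B_CVX
import Pool.Agent.Lib.FP95.B_DAT
import Pool.Agent.Lib.FP95.B_DBL
import Pool.Agent.Lib.FP95.B_DET
import Pool.Agent.Lib.FP95.B_END
import Pool.Agent.Lib.FP95.B_ES
import Pool.Agent.Lib.FP95.B_EXT
import Pool.Agent.Lib.FP95.B_FAR
import Pool.Agent.Lib.FP95.B_FIN
import Pool.Agent.Lib.FP95.B_HAR
import Pool.Agent.Lib.FP95.B_IL
import Pool.Agent.Lib.FP95.B_IND
import Pool.Agent.Lib.FP95.B_INEQ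
import Pool.Agent.Lib.FP95.B_KES
import Pool.Agent.Lib.FP95.B_KING
import Pool.Agent.Lib.FP95.B_LB
import Pool.Agent.Lib.FP95.B_LB1
import Pool.Agent.Lib.FP95.B_MAIN
import Pool.Agent.Lib.FP95.B_MU
import Pool.Agent.Lib.FP95.B_MULT
import Pool.Agent.Lib.FP95.B_NEST
import Pool.Agent.Lib.FP95.B_OUT
import Pool.Agent.Lib.FP95.B_PEI
import Pool.Agent.Lib.FP95.B_PHI
import Pool.Agent.Lib.FP95.B_RES
import Pool.Agent.Lib.FP95.B_SIDE
import Pool.Agent.Lib.FP95.B_STEP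
import Pool.Agent.Lib.FP95.B_STP1
import Pool.Agent.Lib.FP95.B_TRA
import Pool.Agent.Lib.FP95.B_TRL
import Pool.Agent.Lib.FP95.B_TRU
import Pool.Agent.Lib.FP95.B_UB
import Pool.Agent.Lib.FP95.B_UB1
import Pool.Agent.Lib.FP95.B_WIN

/-! Assembly of the blocks. -/

namespace Pool.Agent.Lib.FP95

theorem st_MU : St_MU := bMU
theorem st_EXT : St_EXT := bEXT
theorem st_DAT : St_DAT := bDAT
theorem st_CVX : St_CVX := bCVX
theorem st_BAIRE : St_BAIRE := bBAIRE st_CVX st_DAT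
theorem st_CURV : St_CURV := bCURV
theorem st_CRN : St_CRN := bCRN
theorem st_PHI : St_PHI := bPHI st_DAT
theorem st_NEST : St_NEST := bNEST st_CVX
theorem st_COVER : St_COVER := bCOVER st_CVX st_DAT
theorem st_RES : St_RES := bRES
theorem st_HAR : St_HAR := bHAR st_RES
theorem st_CORE : St_CORE := bCORE st_HAR
theorem st_CHORD : St_CHORD := bCHORD
theorem st_CDET : St_CDET := bCDET
theorem st_SIDE : St_SIDE := bSIDE st_CDET
theorem st_CONF : St_CONF := bCONF st_SIDE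
theorem st_WIN : St_WIN := bWIN
theorem st_STP1 : St_STP1 := bSTP1 st_CHORD st_CONF st_WIN
theorem st_STEP : St_STEP := bSTEP st_CORE st_STP1
theorem st_DBL : St_DBL := bDBL
theorem st_IL : St_IL := bIL st_STEP st_DBL
theorem st_IND : St_IND := bIND
theorem st_CHER : St_CHER := bCHER st_IND
theorem st_UB1 : St_UB1 := bUB1 st_CHER
theorem st_UB : St_UB := bUB st_UB1
theorem st_CHAIN : St_CHAIN := bCHAIN st_IL st_UB
theorem st_ES : St_ES := bES st_RES
theorem st_KES : St_KES := bKES st_ES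
theorem st_TRA : St_TRA := bTRA st_KES
theorem st_TRU : St_TRU := bTRU
theorem st_TRL : St_TRL := bTRL st_KES
theorem st_INEQ : St_INEQ := bINEQ
theorem st_BAD : St_BAD := bBAD st_KES
theorem st_CAP : St_CAP := bCAP
theorem st_MULT : St_MULT := bMULT
theorem st_DET : St_DET := bDET st_CAP st_MULT
theorem st_KING : St_KING := bKING
theorem st_FAR : St_FAR := bFAR st_IND
theorem st_PEI : St_PEI := bPEI st_KING st_FAR st_MULT
theorem st_LB1 : St_LB1 := bLB1 st_KES st_INEQ st_BAD st_DET st_PEI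
theorem st_CNT : St_CNT := bCNT
theorem st_COV1 : St_COV1 := bCOV1 st_HAR
theorem st_COV2 : St_COV2 := bCOV2 st_IND
theorem st_COV : St_COV := bCOV st_COV1 st_COV2
theorem st_LB : St_LB := bLB st_LB1 st_CNT st_COV st_CAP
theorem st_END : St_END := bEND st_CONF st_LB
theorem st_MAIN : St_MAIN := bMAIN st_MU st_DAT st_BAIRE st_CURV st_CRN st_PHI st_NEST st_COVER st_CHAIN st_TRA st_TRU st_TRL st_END
theorem st_OUT : St_OUT := bOUT
theorem st_FIN : St_FIN := bFIN st_MU st_EXT st_MAIN st_OUT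

end Pool.Agent.Lib.FP95
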