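import Pool.Agent.Lib.FP95.Base

/-! Bad boxes: a local event of small probability off which passage times in a box are large. -/

namespace Pool.Agent.Lib.FP95

open MeasureTheory Pool.Agent.Lib.MP_eba68f_pr

namespace BAD

/-- index set of the net -/
noncomputable def box (J : ℕ) : Finset V :=
  Fintype.piFinset fun _ => Finset.Ico (-(J : ℤ)) (2 * J)

/-- point of the net -/
def pt (g J : ℕ) (k a : V) : V := fun i => (g : ℤ) * (k i * J + a i)

theorem card_box (J : ℕ) : (box J).card = (3 * J) ^ 2 := by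
  unfold box
  rw [Fintype.card_piFinset]
  have : (2 * (J : ℤ) - -(J : ℤ)).toNat = 3 * J := by omega
  simp only [Int.card_Ico, this, Finset.prod_const, Finset.card_univ, Fintype.card_fin]

theorem n1_le {v : V} {c : ℤ} (h : ∀ i, |v i| ≤ c) : n1 v ≤ 2 * (c : ℝ) := by
  rw [n1_eq]
  unfold l1 up
  have h0 : (|v 0| : ℝ) ≤ c := by exact_mod_cast h 0
  have h1 : (|v 1| : ℝ) ≤ c := by exact_mod_cast h 1
  linarith

theorem mem_box {J : ℕ} {a : V} : a ∈ box J ↔ ∀ i, -(J : ℤ) ≤ a i ∧ a i < 2 * J := by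
  simp only [box, Fintype.mem_piFinset, Finset.mem_Ico]

theorem pt_sub (g J : ℕ) (k : V) {a a' : V} (ha : a ∈ box J) (ha' : a' ∈ box J) :
    n1 (pt g J k a' - pt g J k a) ≤ 6 * ((g * J : ℕ) : ℝ) := by
  have h := n1_le (v := pt g J k a' - pt g J k a) (c := 3 * (g * J)) fun i => by
    have h1 := mem_box.1 ha i
    have h2 := mem_box.1 ha' i
    have hg : (0 : ℤ) ≤ g := Int.natCast_nonneg g
    simp only [pt, Pi.sub_apply]
    rw [abs_le]
    constructor <;> nlinarith [h1.1, h1.2, h2.1, h2.2]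
  push_cast at h ⊢
  linarith

theorem pt_cen (g J : ℕ) (k : V) {a : V} (ha : a ∈ box J) :
    n1 (pt g J k a - ((g * J : ℕ) : ℤ) • k) ≤ 4 * ((g * J : ℕ) : ℝ) := by
  have h := n1_le (v := pt g J k a - ((g * J : ℕ) : ℤ) • k) (c := 2 * (g * J)) fun i => by
    have h1 := mem_box.1 ha i
    have hg : (0 : ℤ) ≤ g := Int.natCast_nonneg g
    have hJ : (0 : ℤ) ≤ J := Int.natCast_nonneg J
    simp only [pt, Pi.sub_apply, Pi.smul_apply, smul_eq_mul]
    push_cast
    rw [abs_le]
    constructor <;> nlinarith [h1.1, h1.2, mul_nonneg hg hJ]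
  push_cast at h ⊢
  linarith

theorem exists_pt {g J : ℕ} (hg : 1 ≤ g) {k u : V} (hu : u ∈ Q (g * J) k) :
    ∃ a ∈ box J, n1 (u - pt g J k a) ≤ 2 * (g : ℝ) := by
  have hg' : (0 : ℤ) < g := by exact_mod_cast hg
  refine ⟨fun i => u i / g - k i * J, mem_box.2 fun i => ?_, ?_⟩
  · obtain ⟨h1, h2⟩ := hu i
    push_cast at h1 h2
    have e1 : k i * J - J ≤ u i / g := Int.le_ediv_of_mul_le hg' (by linarith)
    have e2 : u i / g < k i * J + 2 * J := Int.ediv_lt_of_lt_mul hg' (by linarith)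
    constructor <;> linarith
  · have h := n1_le (v := u - pt g J k fun i => u i / g - k i * J) (c := g) fun i => by
      have e1 := Int.emod_add_mul_ediv (u i) g
      have e2 := Int.emod_nonneg (u i) hg'.ne'
      have e3 := Int.emod_lt_of_pos (u i) hg'
      simp only [pt, Pi.sub_apply]
      rw [abs_le]
      constructor <;> nlinarith
    exact_mod_cast h

end BAD

open BAD in
theorem bBAD (hKES : St_KES) : St_BAD := by
  intro p ε δ hn hε hδ
  obtain ⟨C, hC0, hC⟩ := hKES p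
  have hb := p.b_pos
  obtain ⟨J, hJ⟩ := exists_nat_ge (16 * p.b / ε + 1)
  have hJ0 : 0 < 16 * p.b / ε := by positivity
  have hJ1 : (1 : ℝ) ≤ J := by linarith
  have hJ2 : 16 * p.b ≤ ε * J := by
    have : 16 * p.b / ε ≤ J := by linarith
    rw [div_le_iff₀ hε] at this
    linarith
  obtain ⟨g, hg⟩ := exists_nat_ge (1944 * C * (J : ℝ) ^ 4 / (ε ^ 2 * δ) + 1)
  have hg0 : 0 ≤ 1944 * C * (J : ℝ) ^ 4 / (ε ^ 2 * δ) := by positivity
  have hg1 : (1 : ℝ) ≤ g := by linarith
  have hg2 : 1944 * C * (J : ℝ) ^ 4 ≤ g * (ε ^ 2 * δ) := by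
    have : 1944 * C * (J : ℝ) ^ 4 / (ε ^ 2 * δ) ≤ g := by linarith
    rwa [div_le_iff₀ (by positivity)] at this
  have hgN : 1 ≤ g := by exact_mod_cast hg1
  have hJN : 1 ≤ J := by exact_mod_cast hJ1
  have hL : ((g * J : ℕ) : ℝ) = g * J := by push_cast; rfl
  have hLg : (g : ℝ) ≤ ((g * J : ℕ) : ℝ) := by rw [hL]; nlinarith
  refine ⟨g * J, fun k => ⋃ q ∈ box J ×ˢ box J, {τ | p.T τ (pt g J k q.1) (pt g J k q.2) ≤
    p.m (up (pt g J k q.2 - pt g J k q.1)) - ε * ((g * J : ℕ) : ℝ) / 2},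
    Nat.mul_pos hgN hJN, ⟨fun k => ?_, fun k τ τ' h hτ => ?_, fun k => ?_⟩, ?_⟩
  · exact Finset.measurableSet_biUnion _ fun q _ =>
      measurableSet_le (p.T_meas _ _) measurable_const
  · simp only [Set.mem_iUnion, Set.mem_ofPred_eq] at hτ ⊢
    obtain ⟨q, hq, hτ⟩ := hτ
    refine ⟨q, hq, ?_⟩
    obtain ⟨h1, h2⟩ := Finset.mem_product.1 hq
    have e : p.T τ (pt g J k q.1) (pt g J k q.2) = p.T τ' (pt g J k q.1) (pt g J k q.2) := by
      refine p.T_dep _ _ fun e he => h e (near_mono ?_ he)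
      have a1 := pt_sub g J k h1 h2
      have a2 := pt_cen g J k h1
      have a3 := p.one_le_ratio
      have a4 := mul_le_mul_of_nonneg_left a1 (show 0 ≤ p.b / p.r by linarith)
      linarith
    rw [← e]
    exact hτ
  · refine (p.pr_biUnion_le _ _).trans ?_
    have ht : 0 < ε * ((g * J : ℕ) : ℝ) / 2 := by
      have : 0 < ((g * J : ℕ) : ℝ) := by linarith
      positivity
    have h1 : ∀ q ∈ box J ×ˢ box J, p.pr {τ | p.T τ (pt g J k q.1) (pt g J k q.2) ≤
        p.m (up (pt g J k q.2 - pt g J k q.1)) - ε * ((g * J : ℕ) : ℝ) / 2} ≤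
        24 * C / (ε ^ 2 * g) := fun q hq => by
      obtain ⟨h1, h2⟩ := Finset.mem_product.1 hq
      refine (p.pr_mono fun τ hτ => ?_).trans ((p.cheb (pt g J k q.1) (pt g J k q.2) ht).trans ?_)
      · have a1 := hn.le_h (pt g J k q.2 - pt g J k q.1)
        simp only [Set.mem_ofPred_eq] at hτ ⊢
        exact le_abs.2 (Or.inr (by linarith))
      · have a1 := (hC _).trans (mul_le_mul_of_nonneg_left (pt_sub g J k h1 h2) hC0)
        rw [div_le_div_iff₀ (by positivity) (by positivity)]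
        have a2 : 0 ≤ ε ^ 2 * (g : ℝ) := by positivity
        have a3 := mul_le_mul_of_nonneg_right a1 a2
        have a4 : 0 ≤ C * ε ^ 2 * ((g * J : ℕ) : ℝ) := by positivity
        have a5 := mul_le_mul_of_nonneg_left hLg a4
        nlinarith
    refine (Finset.sum_le_card_nsmul _ _ _ h1).trans ?_
    rw [Finset.card_product, card_box, nsmul_eq_mul, ← mul_div_assoc,
      div_le_iff₀ (by positivity)]
    push_cast
    nlinarith
  · intro k τ hτ u hu v hv
    obtain ⟨a, ha, h1⟩ := exists_pt hgN hu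
    obtain ⟨a', ha', h2⟩ := exists_pt hgN hv
    simp only [Set.mem_iUnion, Set.mem_ofPred_eq, not_exists, not_le] at hτ
    have h3 := hτ (a, a') (Finset.mem_product.2 ⟨ha, ha'⟩)
    simp only at h3
    have t1 := p.T_tri τ (pt g J k a) u (pt g J k a')
    have t2 := p.T_tri τ u v (pt g J k a')
    have t3 := (p.T_le τ (pt g J k a) u).trans (mul_le_mul_of_nonneg_left h1 hb.le)
    have t4 := p.T_le τ v (pt g J k a')
    rw [← neg_sub, n1_neg'] at t4
    have t5 := t4.trans (mul_le_mul_of_nonneg_left h2 hb.le)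
    have t6 := hn.lip (up (v - u)) (up (pt g J k a' - pt g J k a))
    have e : v - u - (pt g J k a' - pt g J k a) = (v - pt g J k a') - (u - pt g J k a) := by abel
    rw [← up_sub, ← n1_eq, e] at t6
    have t7 := mul_le_mul_of_nonneg_left
      ((n1_sub_le (v - pt g J k a') (u - pt g J k a)).trans (add_le_add h2 h1)) hb.le
    have t8 := mul_le_mul_of_nonneg_left hJ2 (show (0 : ℝ) ≤ g by linarith)
    rw [hL] at h3 ⊢
    nlinarith

end Pool.Agent.Lib.FP95
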