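import Pool.Agent.Lib.FP95.Blue

/-! The covering dichotomy for a smaller window. -/

namespace Pool.Agent.Lib.FP95

open Set

namespace COVER

theorem rho_uu (p : Par) (x : R2) (hx : x 0 ^ 2 + x 1 ^ 2 = 1) (y lam z : ℝ) :
    (p.dat x y lam).ρ (uu x z) = p.f x y + lam * (z - y) := by
  simp only [Par.dat, dot, uu, perp, LinearMap.add_apply, LinearMap.smul_apply,
    LinearMap.proj_apply, Pi.add_apply, Pi.smul_apply, smul_eq_mul, Matrix.cons_val_zero,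
    Matrix.cons_val_one]
  linear_combination (p.f x y - lam * y + lam * z) * hx

theorem l1_uu (x : R2) (hx : x 0 ^ 2 + x 1 ^ 2 = 1) (z : ℝ) (hz : |z| ≤ 1) :
    l1 (uu x z) ≤ 4 := by
  have h0 : |x 0| ≤ 1 := abs_le.2 ⟨by nlinarith [sq_nonneg (x 1), sq_nonneg (x 0 + 1)],
    by nlinarith [sq_nonneg (x 1), sq_nonneg (x 0 - 1)]⟩
  have h1 : |x 1| ≤ 1 := abs_le.2 ⟨by nlinarith [sq_nonneg (x 0), sq_nonneg (x 1 + 1)],
    by nlinarith [sq_nonneg (x 0), sq_nonneg (x 1 - 1)]⟩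
  have e0 : uu x z 0 = x 0 + z * (-x 1) := by simp [uu, perp]
  have e1 : uu x z 1 = x 1 + z * x 0 := by simp [uu, perp]
  have a0 : |z * (-x 1)| ≤ 1 := by
    rw [abs_mul, abs_neg]; exact mul_le_one₀ hz (abs_nonneg _) h1
  have a1 : |z * x 0| ≤ 1 := by
    rw [abs_mul]; exact mul_le_one₀ hz (abs_nonneg _) h0
  have b0 := abs_add_le (x 0) (z * (-x 1))
  have b1 := abs_add_le (x 1) (z * x 0)
  unfold l1
  rw [e0, e1]
  linarith

theorem l1_comb (u w : R2) (A τ : ℝ) (hA : 0 ≤ A) (hτ : 0 ≤ τ) :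
    l1 (A • u - τ • w) ≤ A * l1 u + τ * l1 w := by
  unfold l1
  simp only [Pi.sub_apply, Pi.smul_apply, smul_eq_mul]
  have h0 := abs_sub (A * u 0) (τ * w 0)
  have h1 := abs_sub (A * u 1) (τ * w 1)
  rw [abs_mul, abs_mul, abs_of_nonneg hA, abs_of_nonneg hτ] at h0 h1
  linarith

/-- outside the cone -/
theorem outside (p : Par) (hN : p.Norm) (x : R2) (hx : x 0 ^ 2 + x 1 ^ 2 = 1) (y lam s c A τ : ℝ)
    (hr : p.r ≤ p.f x y) (hy : |y| ≤ 1) (hs : |s| ≤ 1) (hc : 0 < c)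
    (hg : c ≤ p.f x s - p.f x y - lam * (s - y)) (hA : 0 ≤ A) (hτ : 0 ≤ τ) :
    (4 * (1 / c + (1 + 8 * p.b / c) / (2 * p.r)))⁻¹ * l1 (A • uu x s - τ • uu x y) ≤
      p.D (p.dat x y lam) (A • uu x s - τ • uu x y) := by
  have hr0 := p.r_pos
  have hb0 : 0 < p.b := lt_of_lt_of_le hr0 p.r_le
  set v : R2 := A • uu x s - τ • uu x y with hv
  have hρ : (p.dat x y lam).ρ v = A * (p.f x y + lam * (s - y)) - τ * p.f x y := by
    rw [hv, map_sub, map_smul, map_smul, rho_uu p x hx, rho_uu p x hx]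
    simp only [smul_eq_mul]; ring
  have m1 : p.m (A • uu x s) = A * p.f x s := hN.smul _ _ hA
  have m2 : p.m (τ • uu x y) = τ * p.f x y := hN.smul _ _ hτ
  have i1 : A * p.f x s ≤ p.m v + τ * p.f x y := by
    have := hN.add v (τ • uu x y)
    rwa [hv, sub_add_cancel, m1, m2, ← hv] at this
  have i2 : τ * p.f x y ≤ p.m v + A * p.f x s := by
    have := hN.add (-v) (A • uu x s)
    rwa [hN.neg, hv, neg_sub, sub_add_cancel, m1, m2, ← hv] at this
  have ls := l1_uu x hx s hs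
  have ly := l1_uu x hx y hy
  have fs : p.f x s ≤ 4 * p.b := by
    have := hN.le (uu x s)
    unfold Par.f
    nlinarith
  have lv : l1 v ≤ 4 * A + 4 * τ := by
    have := l1_comb (uu x s) (uu x y) A τ hA hτ
    nlinarith
  set D := p.D (p.dat x y lam) v with hD
  have hD' : D = p.m v - (A * (p.f x y + lam * (s - y)) - τ * p.f x y) := by
    rw [hD, Par.D, hρ]
  have d1 : c * A ≤ D := by nlinarith
  have d2 : 2 * p.r * τ ≤ D + 8 * p.b * A := by
    have h1 : A * (p.f x y + lam * (s - y)) ≤ A * p.f x s :=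
      mul_le_mul_of_nonneg_left (by linarith) hA
    have h2 : A * p.f x s ≤ A * (4 * p.b) := mul_le_mul_of_nonneg_left fs hA
    have h3 : τ * p.r ≤ τ * p.f x y := mul_le_mul_of_nonneg_left hr hτ
    linarith
  have a1 : A ≤ 1 / c * D := by
    rw [one_div, ← div_eq_inv_mul, le_div_iff₀ hc]; linarith
  have a2 : τ ≤ (1 + 8 * p.b / c) / (2 * p.r) * D := by
    rw [div_mul_eq_mul_div, le_div_iff₀ (by positivity)]
    have h1 : 8 * p.b * A ≤ 8 * p.b * (1 / c * D) :=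
      mul_le_mul_of_nonneg_left a1 (by positivity)
    have h2 : (1 + 8 * p.b / c) * D = D + 8 * p.b * (1 / c * D) := by ring
    linarith
  rw [inv_mul_le_iff₀ (by positivity)]
  linarith

/-- the ends of the facet containing `z` -/
theorem facet (hC : St_CVX) (f : ℝ → ℝ) (hf : ConvexOn ℝ univ f) (s t z : ℝ) (hs : s ∈ KK f)
    (ht : t ∈ KK f) (h1 : s ≤ z) (h2 : z ≤ t) :
    ∃ a ∈ Icc s t, ∃ b ∈ Icc s t, a ∈ KK f ∧ b ∈ KK f ∧ ∃ l : ℝ, 0 ≤ l ∧ l ≤ 1 ∧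
      z = l * a + (1 - l) * b ∧ f z = l * f a + (1 - l) * f b := by
  obtain ⟨-, hcl, haf, -⟩ := hC f hf
  have c1 : IsCompact (Icc s z ∩ KK f) := isCompact_Icc.inter_right hcl
  have c2 : IsCompact (Icc z t ∩ KK f) := isCompact_Icc.inter_right hcl
  obtain ⟨a, ⟨ha, haK⟩, hamax⟩ := c1.exists_isGreatest ⟨s, ⟨le_rfl, h1⟩, hs⟩
  obtain ⟨b, ⟨hb, hbK⟩, hbmin⟩ := c2.exists_isLeast ⟨t, ⟨h2, le_rfl⟩, ht⟩
  refine ⟨a, ⟨ha.1, ha.2.trans h2⟩, b, ⟨h1.trans hb.1, hb.2⟩, haK, hbK, ?_⟩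
  rcases (ha.2.trans hb.1).eq_or_lt with hab | hab
  · have hz : z = a := le_antisymm (hab ▸ hb.1) ha.2
    exact ⟨1, zero_le_one, le_rfl, by rw [hz]; ring, by rw [hz]; ring⟩
  · obtain ⟨c₀, c₁, hc⟩ := haf a b hab (by
      intro y hy hyK
      rcases le_total y z with h | h
      · exact absurd (hamax ⟨⟨ha.1.trans hy.1.le, h⟩, hyK⟩) (not_le.2 hy.1)
      · exact absurd (hbmin ⟨⟨h, hy.2.le.trans hb.2⟩, hyK⟩) (not_le.2 hy.2))
    have hp : 0 < b - a := sub_pos.2 hab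
    have e : z = (b - z) / (b - a) * a + (1 - (b - z) / (b - a)) * b := by
      field_simp; ring
    refine ⟨(b - z) / (b - a), div_nonneg (sub_nonneg.2 hb.1) hp.le,
      (div_le_one hp).2 (by linarith [ha.2]), e, ?_⟩
    rw [hc z ⟨ha.2, hb.1⟩, hc a ⟨le_rfl, hab.le⟩, hc b ⟨hab.le, le_rfl⟩]
    linear_combination c₁ * e

/-- inside the cone -/
theorem inside (hC : St_CVX) (p : Par) (hN : p.Norm) (x : R2) (hf : ConvexOn ℝ univ (p.f x))
    (hr : ∀ s, p.r ≤ p.f x s) (s t z α : ℝ) (hs : s ∈ KK (p.f x)) (ht : t ∈ KK (p.f x))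
    (h1 : s ≤ z) (h2 : z ≤ t) (hα : 0 ≤ α) :
    ∃ d₁ ∈ p.SS x s t, ∃ d₂ ∈ p.SS x s t, ∃ a b : ℝ, 0 ≤ a ∧ 0 ≤ b ∧
      α • uu x z = a • d₁.a + b • d₂.a ∧ p.m (α • uu x z) = a + b := by
  obtain ⟨a, ha, b, hb, haK, hbK, l, l0, l1, hz, hfz⟩ := facet hC _ hf s t z hs ht h1 h2
  obtain ⟨la, hla⟩ := (hC _ hf).1 a
  obtain ⟨lb, hlb⟩ := (hC _ hf).1 b
  have pa : 0 < p.f x a := lt_of_lt_of_le p.r_pos (hr a)
  have pb : 0 < p.f x b := lt_of_lt_of_le p.r_pos (hr b)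
  have l2 : 0 ≤ 1 - l := sub_nonneg.2 l1
  refine ⟨_, ⟨a, ha, la, haK, hla, rfl⟩, _, ⟨b, hb, lb, hbK, hlb, rfl⟩, α * l * p.f x a,
    α * (1 - l) * p.f x b, by positivity, by positivity, ?_, ?_⟩
  · simp only [Par.dat, smul_smul]
    rw [mul_inv_cancel_right₀ pa.ne', mul_inv_cancel_right₀ pb.ne']
    funext i
    simp only [uu, Pi.add_apply, Pi.smul_apply, smul_eq_mul]
    linear_combination (α * perp x i) * hz
  · rw [hN.smul _ _ hα]
    change α * p.f x z = _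
    rw [hfz]; ring

theorem decomp (x : R2) (hx : x 0 ^ 2 + x 1 ^ 2 = 1) (y : ℝ) (v : R2) :
    ∃ α η : ℝ, v = α • uu x y + η • perp x := by
  refine ⟨x 0 * v 0 + x 1 * v 1, (-x 1 * v 0 + x 0 * v 1) - y * (x 0 * v 0 + x 1 * v 1), ?_⟩
  have p0 : perp x 0 = -x 1 := rfl
  have p1 : perp x 1 = x 0 := rfl
  funext i
  revert i
  rw [Fin.forall_fin_two]
  simp only [uu, Pi.add_apply, Pi.smul_apply, smul_eq_mul, p0, p1]
  constructor
  · linear_combination (-v 0) * hx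
  · linear_combination (-v 1) * hx

/-- either a nonnegative multiple of a point between `y` and `s`, or outside the cone -/
theorem split (x : R2) (y s α η : ℝ) (hs : s - y ≠ 0) (hA : 0 ≤ η / (s - y)) :
    (∃ A τ : ℝ, 0 ≤ A ∧ 0 ≤ τ ∧ α • uu x y + η • perp x = A • uu x s - τ • uu x y) ∨
    ∃ l : ℝ, 0 ≤ l ∧ l ≤ 1 ∧ 0 ≤ α ∧ α • uu x y + η • perp x = α • uu x (y + l * (s - y)) := by
  have e : η / (s - y) * (s - y) = η := div_mul_cancel₀ _ hs
  set A := η / (s - y) with hA'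
  rcases le_or_gt α A with h | h
  · refine Or.inl ⟨A, A - α, hA, sub_nonneg.2 h, ?_⟩
    funext i
    simp only [uu, Pi.add_apply, Pi.sub_apply, Pi.smul_apply, smul_eq_mul]
    linear_combination (-perp x i) * e
  · have hα : 0 < α := lt_of_le_of_lt hA h
    have e2 : α * (A / α) = A := mul_div_cancel₀ _ hα.ne'
    refine Or.inr ⟨A / α, div_nonneg hA hα.le, (div_le_one hα).2 h.le, hα.le, ?_⟩
    funext i
    simp only [uu, Pi.add_apply, Pi.smul_apply, smul_eq_mul]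
    linear_combination (-perp x i) * e - (perp x i * (s - y)) * e2

end COVER

theorem bCOVER (hC : St_CVX) (hD : St_DAT) : St_COVER := by
  intro p x s s' t' t c hN hx hs1 hss htt ht1 hsK htK hc hg
  obtain ⟨hf, hr, -⟩ := hD p x hN hx
  have hr0 := p.r_pos
  have hb0 : 0 < p.b := lt_of_lt_of_le hr0 p.r_le
  refine ⟨(4 * (1 / c + (1 + 8 * p.b / c) / (2 * p.r)))⁻¹, by positivity, ?_⟩
  rintro d ⟨y, hy, lam, -, hl, rfl⟩ v
  have h1 : s < y := lt_of_lt_of_le hss hy.1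
  have h2 : y < t := lt_of_le_of_lt hy.2 htt
  have ay : |y| ≤ 1 := abs_le.2 ⟨by linarith, by linarith⟩
  have as : |s| ≤ 1 := abs_le.2 ⟨by linarith, by linarith⟩
  have at' : |t| ≤ 1 := abs_le.2 ⟨by linarith, by linarith⟩
  obtain ⟨α, η, rfl⟩ := COVER.decomp x hx y v
  obtain ⟨g1, g2⟩ := hg y hy lam hl
  rcases le_total η 0 with h | h
  · rcases COVER.split x y s α η (by linarith) (div_nonneg_of_nonpos h (by linarith)) with
      ⟨A, τ, hA, hτ, e⟩ | ⟨l, l0, l1, hα, e⟩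
    · rw [e]
      exact Or.inl (COVER.outside p hN x hx y lam s c A τ (hr y) ay as hc g1 hA hτ)
    · rw [e]
      exact Or.inr (COVER.inside hC p hN x hf hr s t _ α hsK htK (by nlinarith) (by nlinarith) hα)
  · rcases COVER.split x y t α η (by linarith) (div_nonneg h (by linarith)) with
      ⟨A, τ, hA, hτ, e⟩ | ⟨l, l0, l1, hα, e⟩
    · rw [e]
      exact Or.inl (COVER.outside p hN x hx y lam t c A τ (hr y) ay at' hc g2 hA hτ)
    · rw [e]
      exact Or.inr (COVER.inside hC p hN x hf hr s t _ α hsK htK (by nlinarith) (by nlinarith) hα)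

end Pool.Agent.Lib.FP95
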