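import Pool.Agent.Lib.FP95.Base

/-! The inequality at an exposed direction. -/

namespace Pool.Agent.Lib.FP95

open MeasureTheory ProbabilityTheory Filter Topology Pool.Agent.Lib.MP_eba68f_pr

namespace INEQ

lemma cont_l1 : Continuous l1 := by unfold l1; fun_prop

lemma cpt : IsCompact {v : R2 | l1 v = 1} := by
  refine (isCompact_closedBall (0 : R2) 1).of_isClosed_subset
    (isClosed_eq cont_l1 continuous_const) fun v hv => ?_
  have hv' : |v 0| + |v 1| = 1 := hv
  rw [mem_closedBall_zero_iff, pi_norm_le_iff_of_nonneg zero_le_one, Fin.forall_fin_two]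
  simp only [Real.norm_eq_abs]
  constructor <;> linarith [abs_nonneg (v 0), abs_nonneg (v 1)]

lemma zero_case {p : Par} {R lev : ℝ} {d : Dat} (n : p.Norm) (g : p.Good R d)
    (he : ∀ y : ℝ, y ≠ 0 → 0 < p.D d (d.a + y • d.n)) (hl : lev * l1 d.a < 1) {v : R2}
    (hv : l1 v = 1) (h0 : p.D d v = 0) : lev < p.m v := by
  obtain ⟨s, t, e⟩ : ∃ s t : ℝ, v = s • d.a + t • d.n := ⟨_, _, g.dec v⟩
  have hc : 0 < 1 / (1 + |s|) := by positivity
  have h1 : 0 ≤ 1 - 1 / (1 + |s|) * s := by
    rw [one_div_mul_eq_div, sub_nonneg, div_le_one (by positivity)]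
    linarith [le_abs_self s]
  have ht : t = 0 := by
    by_contra ht
    have h2 := he (1 / (1 + |s|) * t) (mul_ne_zero hc.ne' ht)
    have h3 := n.D_add d ((1 / (1 + |s|)) • v) ((1 - 1 / (1 + |s|) * s) • d.a)
    rw [n.D_smul d hc.le, n.D_a g h1, h0] at h3
    have h4 : (1 / (1 + |s|)) • v + (1 - 1 / (1 + |s|) * s) • d.a =
        d.a + (1 / (1 + |s|) * t) • d.n := by
      rw [e]; module
    rw [h4] at h3
    linarith
  rw [ht, zero_smul, add_zero] at e
  have h5 : p.m v = |s| := by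
    rcases le_total 0 s with h | h
    · rw [e, n.smul s _ h, g.ma, mul_one, abs_of_nonneg h]
    · rw [← n.neg, e, ← neg_smul, n.smul _ _ (neg_nonneg.2 h), g.ma, mul_one, abs_of_nonpos h]
  rw [e, l1_smul] at hv
  have h6 : 0 < |s| := by
    refine (abs_nonneg s).lt_of_ne fun h => ?_
    rw [← h, zero_mul] at hv
    exact zero_ne_one hv
  have h7 := mul_lt_mul_of_pos_left hl h6
  rw [mul_left_comm, hv] at h7
  rw [h5]
  linarith

end INEQ

theorem bINEQ : St_INEQ := by
  intro p R lev d n g he _ hl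
  have hD : Continuous (p.D d) := n.cont.sub d.ρ.continuous_of_finiteDimensional
  have hc : ∀ k : ℕ, Continuous fun v => p.m v - lev + k * p.D d v := fun k =>
    (n.cont.sub continuous_const).add (continuous_const.mul hD)
  refine (INEQ.cpt.elim_directed_cover
    (fun k : ℕ => {v | 0 < p.m v - lev + k * p.D d v})
    (fun k => isOpen_lt continuous_const (hc k)) (fun v hv => ?_)
    (Monotone.directed_le fun i j hij v hv => ?_)).elim fun k hk => ?_
  rotate_right
  · obtain ⟨δ, hδ, h⟩ := INEQ.cpt.exists_forall_le' (hc k).continuousOn hk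
    refine ⟨k, δ, Nat.cast_nonneg k, hδ, fun v => ?_⟩
    rcases (l1_nonneg v).eq_or_lt with h0 | h0
    · rw [← h0, l1_eq_zero h0.symm]
      have := mul_nonneg (Nat.cast_nonneg (α := ℝ) k) (g.D_nonneg 0)
      linarith [n.nonneg 0]
    · have h1 := h ((l1 v)⁻¹ • v) (by
        show l1 _ = 1
        rw [l1_smul, abs_of_pos (inv_pos.2 h0), inv_mul_cancel₀ h0.ne'])
      rw [n.smul _ _ (inv_pos.2 h0).le, n.D_smul d (inv_pos.2 h0).le] at h1
      have h2 := mul_le_mul_of_nonneg_right h1 h0.le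
      have h3 : ((l1 v)⁻¹ * p.m v - lev + k * ((l1 v)⁻¹ * p.D d v)) * l1 v =
          p.m v - lev * l1 v + k * p.D d v := by field_simp
      rwa [h3] at h2
  · rcases (g.D_nonneg v).eq_or_lt with h0 | h0
    · refine Set.mem_iUnion.2 ⟨0, ?_⟩
      have := INEQ.zero_case n g he hl hv h0.symm
      show 0 < p.m v - lev + (0 : ℕ) * p.D d v
      rw [Nat.cast_zero, zero_mul]
      linarith
    · obtain ⟨k, hk⟩ := exists_nat_gt ((lev - p.m v) / p.D d v)
      rw [div_lt_iff₀ h0] at hk
      refine Set.mem_iUnion.2 ⟨k, ?_⟩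
      show 0 < p.m v - lev + k * p.D d v
      linarith
  · have h1 : (i : ℝ) * p.D d v ≤ j * p.D d v :=
      mul_le_mul_of_nonneg_right (Nat.cast_le.2 hij) (g.D_nonneg v)
    have h2 : 0 < p.m v - lev + i * p.D d v := hv
    show 0 < p.m v - lev + j * p.D d v
    linarith

end Pool.Agent.Lib.FP95
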