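import Pool.Agent.Lib.FP95.Base

/-! One step of the iteration. -/

namespace Pool.Agent.Lib.FP95

open MeasureTheory ProbabilityTheory Filter Topology Pool.Agent.Lib.MP_eba68f_pr

theorem bSTEP (hCORE : St_CORE) (hSTP1 : St_STP1) : St_STEP := by
  intro p R θ κ ζ β S hN hG h0 h1 hκ hζ hζ' hβ hβ' hU hL hV
  obtain ⟨C, M₀, hC, hM₀, H⟩ := hSTP1 p R θ ζ S hN hG h0 h1 hζ hζ' hU hL
  obtain ⟨Cv, hCv, HV⟩ := hV
  have hb := p.b_pos
  obtain ⟨c, hc⟩ : ∃ c, c = 2 * Cv * 2 ^ (2 * κ) + 32 * p.b ^ 2 + 1 := ⟨_, rfl⟩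
  have hc0 : 0 ≤ 2 * Cv * 2 ^ (2 * κ) := by positivity
  have hc1 : 1 ≤ c := by rw [hc]; nlinarith [sq_nonneg p.b]
  refine ⟨10 * p.b + 1 + C + 32 * c * C, M₀, by positivity, hM₀, fun d hd M hM => ?_⟩
  have hM1 : 1 ≤ M := hM₀.trans hM
  have hM0 : 0 < M := by linarith
  obtain ⟨l, hl⟩ : ∃ l, l = M ^ (1 - ζ) := ⟨_, rfl⟩
  have hl0 : 0 < l := hl ▸ Real.rpow_pos_of_pos hM0 _
  obtain ⟨x, hx⟩ : ∃ x, x = fl ((M - 4 * l) • d.a) := ⟨_, rfl⟩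
  obtain ⟨y, hy⟩ : ∃ y, y = fl ((2 * l) • d.a) := ⟨_, rfl⟩
  obtain ⟨h16, O, hO, hcard, hpr⟩ := H d hd M l hM hl x y hx hy
  refine ⟨2 * M - 8 * l, by linarith, by linarith, ?_⟩
  have e1 : n1 (fl ((2 * M - 8 * l) • d.a) - (x + x)) ≤ 2 := by
    have := n1_fl_add ((M - 4 * l) • d.a) ((M - 4 * l) • d.a)
    rwa [← add_smul, ← hx, show M - 4 * l + (M - 4 * l) = 2 * M - 8 * l by ring] at this
  have e2 : n1 (fl (M • d.a) - (x + y + y)) ≤ 4 := by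
    have a1 := n1_fl_add ((M - 4 * l) • d.a) ((2 * l) • d.a)
    have a2 := n1_fl_add ((M - 4 * l + 2 * l) • d.a) ((2 * l) • d.a)
    rw [← add_smul, ← hx, ← hy] at a1
    rw [← add_smul, ← hy, show M - 4 * l + 2 * l + 2 * l = M by ring] at a2
    have a3 := n1_add_le (fl (M • d.a) - (fl ((M - 4 * l + 2 * l) • d.a) + y))
      (fl ((M - 4 * l + 2 * l) • d.a) - (x + y))
    rw [show fl (M • d.a) - (fl ((M - 4 * l + 2 * l) • d.a) + y) +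
      (fl ((M - 4 * l + 2 * l) • d.a) - (x + y)) = fl (M • d.a) - (x + y + y) by abel] at a3
    linarith
  have k1 : 1 ≤ M ^ (2 * κ) := Real.one_le_rpow hM1 (by linarith)
  have k2 : (2 * M) ^ (2 * κ) = 2 ^ (2 * κ) * M ^ (2 * κ) := Real.mul_rpow (by norm_num) hM0.le
  have k3 : (c * M ^ κ) ^ 2 = c ^ 2 * M ^ (2 * κ) := by
    rw [mul_pow, mul_comm 2 κ, Real.rpow_mul hM0.le, Real.rpow_two]
  have var : ∀ (v : V) (t : ℝ), 0 ≤ t → t ≤ 2 * M → n1 (fl (t • d.a) - v) ≤ 4 →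
      p.Vr v ≤ (c * M ^ κ) ^ 2 := by
    intro v t ht ht' hv
    have a1 := p.Vr_le v (fl (t • d.a))
    have a2 := HV d hd (2 * M) t (by linarith) ht ht'
    rw [n1_sub_comm] at hv
    have a3 : (p.b * n1 (v - fl (t • d.a))) ^ 2 ≤ (p.b * 4) ^ 2 :=
      pow_le_pow_left₀ (mul_nonneg hb.le (n1_nonneg _)) (mul_le_mul_of_nonneg_left hv hb.le) 2
    have a4 : c * M ^ (2 * κ) ≤ c ^ 2 * M ^ (2 * κ) :=
      mul_le_mul_of_nonneg_right (by nlinarith) (by linarith)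
    have a5 : (32 * p.b ^ 2 + 1) * 1 ≤ (32 * p.b ^ 2 + 1) * M ^ (2 * κ) :=
      mul_le_mul_of_nonneg_left k1 (by positivity)
    have a6 : c * M ^ (2 * κ) = 2 * (Cv * (2 ^ (2 * κ) * M ^ (2 * κ))) +
        (32 * p.b ^ 2 + 1) * M ^ (2 * κ) := by rw [hc]; ring
    rw [k2] at a2
    rw [k3]
    nlinarith
  have hsg : 0 < c * M ^ κ := by positivity
  have core := hCORE p O x y _ _ hsg hO hpr
    (var _ (2 * M - 8 * l) (by linarith) (by linarith) (by linarith))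
    (var _ M hM0.le (by linarith) e2)
  have f1 := p.h_lip (fl (M • d.a)) (x + y + y)
  have f2 := p.h_lip (x + x) (fl ((2 * M - 8 * l) • d.a))
  rw [n1_sub_comm] at f2
  have f3 := mul_le_mul_of_nonneg_left e2 hb.le
  have f4 := mul_le_mul_of_nonneg_left e1 hb.le
  have g0 : 1 ≤ M ^ β := Real.one_le_rpow hM1 (by linarith)
  have g1 : C * M ^ (θ * (1 - ζ)) ≤ C * M ^ β :=
    mul_le_mul_of_nonneg_left (Real.rpow_le_rpow_of_exponent_le hM1 hβ) hC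
  have g2 : 32 * (c * M ^ κ) * O.card ≤ 32 * c * C * M ^ β := by
    have a1 : M ^ κ * M ^ (2 * ζ) ≤ M ^ β := by
      rw [← Real.rpow_add hM0]
      exact Real.rpow_le_rpow_of_exponent_le hM1 hβ'
    calc 32 * (c * M ^ κ) * O.card ≤ 32 * (c * M ^ κ) * (C * M ^ (2 * ζ)) :=
          mul_le_mul_of_nonneg_left hcard (by positivity)
      _ = 32 * c * C * (M ^ κ * M ^ (2 * ζ)) := by ring
      _ ≤ 32 * c * C * M ^ β := mul_le_mul_of_nonneg_left a1 (by positivity)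
  have g3 : (10 * p.b + 1) * 1 ≤ (10 * p.b + 1) * M ^ β :=
    mul_le_mul_of_nonneg_left g0 (by positivity)
  have g4 : (10 * p.b + 1 + C + 32 * c * C) * M ^ β =
      (10 * p.b + 1) * M ^ β + C * M ^ β + 32 * c * C * M ^ β := by ring
  rw [g4]
  linarith

end Pool.Agent.Lib.FP95
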