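import Pool.Agent.Lib.FP95.Defs

/-! Statements of the blocks. -/

namespace Pool.Agent.Lib.FP95

open MeasureTheory ProbabilityTheory Filter Topology Pool.Agent.Lib.MP_eba68f_pr
open scoped NNReal ENNReal

/-! ### product measure -/

/-- resampling one coordinate -/
def St_RES : Prop := ∀ (p : Par) (e : Sym2 V),
  MeasurePreserving (fun z : Cfg × ℝ≥0 => Function.update z.1 e z.2) (p.P.prod p.F) p.P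

/-- Harris inequality -/
def St_HAR : Prop := ∀ (p : Par) (f g : Cfg → ℝ) (A : Set (Sym2 V)), A.Finite → Nice f → Nice g →
  Monotone f → Monotone g → DependsOn f A → DependsOn g A →
  (∫ τ, f τ ∂p.P) * (∫ τ, g τ ∂p.P) ≤ ∫ τ, f τ * g τ ∂p.P

/-- Efron-Stein inequality -/
def St_ES : Prop := ∀ (p : Par) (f : Cfg → ℝ) (A : Finset (Sym2 V)), Nice f →
  DependsOn f (A : Set (Sym2 V)) →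
  variance f p.P ≤
    ∑ e ∈ A, ∫ τ, ∫ t, (max (f (Function.update τ e t) - f τ) 0) ^ 2 ∂p.F ∂p.P

/-- product formula for functions of disjoint finite sets of coordinates -/
def St_IND : Prop := ∀ (p : Par) (ι : Type) (s : Finset ι) (f : ι → Cfg → ℝ)
  (A : ι → Set (Sym2 V)), (∀ i ∈ s, (A i).Finite) → (∀ i ∈ s, Nice (f i)) →
  (∀ i ∈ s, DependsOn (f i) (A i)) → (s : Set ι).PairwiseDisjoint A →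
  ∫ τ, ∏ i ∈ s, f i τ ∂p.P = ∏ i ∈ s, ∫ τ, f i τ ∂p.P

/-- Kesten's variance bound -/
def St_KES : Prop := ∀ p : Par, ∃ C : ℝ, 0 ≤ C ∧ ∀ v : V, p.Vr v ≤ C * n1 v

def St_MU : Prop := ∀ p : Par, p.Norm

/-- Chernoff bound for independent bounded variables -/
def St_CHER : Prop := ∀ (p : Par) (ι : Type) (s : Finset ι) (Y : ι → Cfg → ℝ)
  (A : ι → Set (Sym2 V)) (M m₁ t : ℝ), (∀ i ∈ s, (A i).Finite) → (∀ i ∈ s, Measurable (Y i)) →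
  (∀ i ∈ s, DependsOn (Y i) (A i)) → (s : Set ι).PairwiseDisjoint A → 0 < M →
  (∀ i ∈ s, ∀ τ, 0 ≤ Y i τ ∧ Y i τ ≤ M) → (∀ i ∈ s, ∫ τ, Y i τ ∂p.P ≤ m₁) →
  p.pr {τ | 2 * (s.card * m₁) + M * t < ∑ i ∈ s, Y i τ} ≤ Real.exp (-t)

/-! ### the doubling inequality -/

def St_CHORD : Prop := ∀ (N : ℕ) (Z : ℕ → V) (x : V), (∀ k, k < N → G.Adj (Z k) (Z (k + 1))) →
  Z N - Z 0 = x + x → ∃ i j, i ≤ j ∧ j ≤ N ∧ Z j - Z i = x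

def St_CORE : Prop := ∀ (p : Par) (O : Finset V) (x y : V) (s sg : ℝ), 0 < sg → O.Nonempty →
  1 / 2 ≤ p.pr {τ | ∃ w ∈ O, p.T τ 0 (w + y) + p.T τ (w - y) (w + x + y) +
    p.T τ (w + x - y) (x + x) ≤ p.T τ 0 (x + x) + s} →
  p.Vr (x + x) ≤ sg ^ 2 → p.Vr (x + y + y) ≤ sg ^ 2 →
  2 * p.h (x + y + y) ≤ p.h (x + x) + s + 32 * sg * O.card + 1

def St_DBL : Prop := ∀ (β C u₀ : ℝ) (g : ℝ → ℝ), 0 ≤ β → β < 1 → 0 ≤ C → 0 < u₀ →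
  Tendsto (fun u => g u / u) atTop (𝓝 0) →
  (∀ u, u₀ ≤ u → ∃ u', 3 / 2 * u ≤ u' ∧ u' ≤ 2 * u ∧ 2 * g u ≤ g u' + C * u ^ β) →
  ∀ u, u₀ ≤ u → g u ≤ C / (2 - 2 ^ β) * u ^ β

/-! ### upper tails -/

def St_UB1 : Prop := ∀ (p : Par) (R β θ θ' ζ : ℝ) (S : Set Dat), p.Norm →
  (∀ d ∈ S, p.Good R d) → 0 ≤ β → 0 ≤ θ → 0 < ζ → ζ < 1 → β + ζ ≤ θ' → θ * (1 - ζ) < θ' →
  p.Mean S β → p.Tail S θ → p.Tail S θ'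

def St_UB : Prop := ∀ (p : Par) (R : ℝ) (S : Set Dat), p.Norm → (∀ d ∈ S, p.Good R d) →
  p.Tail S 1 ∧ ∀ β θ : ℝ, 0 ≤ β → β < θ → p.Mean S β → p.Tail S θ

/-! ### confinement -/

/-- deterministic part: first exit from the strip -/
def St_CDET : Prop := ∀ (p : Par) (R : ℝ), p.Norm → ∃ c : ℝ, 1 ≤ c ∧ ∀ d : Dat, p.Good R d →
  ∀ M m H : ℝ, 1 ≤ M → 0 ≤ m → m ≤ M → 0 ≤ H → H ≤ p.R1 R * M →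
  ∀ X : V, X = fl (m • d.a) + fl (m • d.a) → ∃ zp zm : Bool → V,
    n1 X ≤ c * M ∧ p.D d (up X) ≤ c ∧
    (∀ sg, n1 (zp sg) ≤ c * M ∧ n1 (X - zm sg) ≤ c * M ∧
      p.phi d (4 * (p.R1 R * M)) H ≤ p.D d (up (zp sg)) + p.D d (up (X - zm sg)) + c) ∧
    ∀ τ ∈ p.Exit d X H, ∃ (sg : Bool) (z : V), n1 z ≤ c * M ∧
      n1 (zp sg - z) ≤ c * M ∧ n1 (z - zm sg) ≤ c * M ∧
      p.D d (up (zp sg - z)) ≤ c ∧ p.D d (up (z - zm sg)) ≤ c ∧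
      p.T τ 0 (zp sg) + p.T τ (zm sg) X ≤ p.T τ 0 X + p.T τ z (zp sg) + p.T τ (zm sg) z

def St_SIDE : Prop := ∀ (p : Par) (R θ : ℝ) (S : Set Dat), p.Norm → (∀ d ∈ S, p.Good R d) →
  0 ≤ θ → p.Up S θ → p.Lo S θ → ∀ ε : ℝ, 0 < ε → ∃ K M₀ : ℝ, 0 < K ∧ 1 ≤ M₀ ∧
  ∀ d ∈ S, ∀ M m H : ℝ, M₀ ≤ M → 0 ≤ m → m ≤ M → 0 ≤ H →
    4 * (K * M ^ θ) ≤ p.phi d (4 * (p.R1 R * M)) H →
    p.pr (p.Exit d (fl (m • d.a) + fl (m • d.a)) H) ≤ ε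

def St_CONF : Prop := ∀ (p : Par) (R θ : ℝ) (S : Set Dat), p.Norm → (∀ d ∈ S, p.Good R d) →
  0 ≤ θ → p.Up S θ → p.Lo S θ → ∀ ε : ℝ, 0 < ε → ∃ K M₀ : ℝ, 0 < K ∧ 1 ≤ M₀ ∧
  ∀ d ∈ S, ∀ M m : ℝ, M₀ ≤ M → 0 ≤ m → m ≤ M → ∃ W : ℝ, 0 < W ∧ W ≤ p.R1 R * M ∧
    p.phi d (p.R1 R * M) W ≤ K * M ^ θ ∧
    p.pr (p.Exit d (fl (m • d.a) + fl (m • d.a)) (4 * W)) ≤ ε

/-! ### the iteration -/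

/-- windows -/
def St_WIN : Prop := ∀ (p : Par) (R : ℝ) (d : Dat) (L l W : ℝ), p.Norm → p.Good R d →
  1 ≤ l → l ≤ L → 0 < W → W ≤ L → ∀ y : V, y = fl ((2 * l) • d.a) →
  ∃ (O : Finset V) (wf : V → V), O.Nonempty ∧ (O.card : ℝ) ≤ 55 * (L / l) ^ 2 ∧
    ∀ z : V, |d.σ (up z)| ≤ L → |d.η (up z)| ≤ 4 * W → wf z ∈ O ∧
      p.D d (up (wf z + y - z)) ≤ p.phi d L W * (l / L) + 8 * p.b ∧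
      p.D d (up (z - (wf z - y))) ≤ p.phi d L W * (l / L) + 8 * p.b ∧
      n1 (wf z + y - z) ≤ (4 * R + 4) * l ∧ n1 (z - (wf z - y)) ≤ (4 * R + 4) * l

def St_STP1 : Prop := ∀ (p : Par) (R θ ζ : ℝ) (S : Set Dat), p.Norm → (∀ d ∈ S, p.Good R d) →
  0 ≤ θ → θ ≤ 1 → 0 < ζ → ζ ≤ 1 / 2 → p.Up S θ → p.Lo S θ →
  ∃ C M₀ : ℝ, 0 ≤ C ∧ 1 ≤ M₀ ∧ ∀ d ∈ S, ∀ M l : ℝ, M₀ ≤ M → l = M ^ (1 - ζ) →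
    ∀ x y : V, x = fl ((M - 4 * l) • d.a) → y = fl ((2 * l) • d.a) →
    16 * l ≤ M ∧ ∃ O : Finset V, O.Nonempty ∧ (O.card : ℝ) ≤ C * M ^ (2 * ζ) ∧
      1 / 2 ≤ p.pr {τ | ∃ w ∈ O, p.T τ 0 (w + y) + p.T τ (w - y) (w + x + y) +
        p.T τ (w + x - y) (x + x) ≤ p.T τ 0 (x + x) + (8 * l + C * M ^ (θ * (1 - ζ)))}

def St_STEP : Prop := ∀ (p : Par) (R θ κ ζ β : ℝ) (S : Set Dat), p.Norm →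
  (∀ d ∈ S, p.Good R d) → 0 ≤ θ → θ ≤ 1 → 0 ≤ κ → 0 < ζ → ζ ≤ 1 / 2 → θ * (1 - ζ) ≤ β →
  κ + 2 * ζ ≤ β → p.Up S θ → p.Lo S θ → p.VarB S κ →
  ∃ C M₀ : ℝ, 0 ≤ C ∧ 1 ≤ M₀ ∧ ∀ d ∈ S, ∀ M : ℝ, M₀ ≤ M → ∃ u : ℝ, 3 / 2 * M ≤ u ∧ u ≤ 2 * M ∧
    2 * (p.h (fl (M • d.a)) - M) ≤ (p.h (fl (u • d.a)) - u) + C * M ^ β

def St_IL : Prop := ∀ (p : Par) (R θ κ ζ β : ℝ) (S : Set Dat), p.Norm →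
  (∀ d ∈ S, p.Good R d) → 0 ≤ θ → θ ≤ 1 → 0 ≤ κ → 0 < ζ → ζ ≤ 1 / 2 → θ * (1 - ζ) ≤ β →
  κ + 2 * ζ ≤ β → β < 1 → p.Up S θ → p.Lo S θ → p.VarB S κ → p.Mean S β

def St_CHAIN : Prop := ∀ (p : Par) (R κ θ₀ : ℝ) (S : ℕ → Set Dat), p.Norm →
  (∀ j, ∀ d ∈ S j, p.Good R d) → 0 ≤ κ → κ < θ₀ → θ₀ ≤ 1 → (∀ j, p.VarB (S j) κ) →
  (∀ j θ, θ₀ ≤ θ → θ ≤ 1 → p.Tail (S j) θ → p.Up (S (j + 1)) θ ∧ p.Lo (S (j + 1)) θ) →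
  ∃ J, p.Up (S J) θ₀ ∧ p.Lo (S J) θ₀

/-- transfer at a corner -/
def St_TRA : Prop := ∀ (p : Par) (R c θ : ℝ) (d : Dat), p.Norm → p.Good R d → 0 < c →
  (∀ v, c * |d.η v| ≤ p.D d v) → 1 / 2 ≤ θ → p.Tail {d} θ → p.Up {d} θ ∧ p.Lo {d} θ

/-- transfer to a smaller window -/
def St_TRU : Prop := ∀ (p : Par) (R θ : ℝ) (S S' : Set Dat), p.Norm → (∀ d ∈ S', p.Good R d) →
  0 ≤ θ → p.Cover S S' → p.Tail S θ → p.Up S' θ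

def St_TRL : Prop := ∀ (p : Par) (R θ : ℝ) (S S' : Set Dat), p.Norm → (∀ d ∈ S', p.Good R d) →
  0 ≤ θ → p.Cover S S' → p.Tail S θ → p.Lo S' θ

/-! ### the variance lower bound -/

def St_INEQ : Prop := ∀ (p : Par) (R lev : ℝ) (d : Dat), p.Norm → p.Good R d →
  (∀ y : ℝ, y ≠ 0 → 0 < p.D d (d.a + y • d.n)) → 0 ≤ lev → lev * l1 d.a < 1 →
  ∃ C δ : ℝ, 0 ≤ C ∧ 0 < δ ∧ ∀ v, δ * l1 v ≤ p.m v - lev * l1 v + C * p.D d v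

def St_CAP : Prop := ∀ (p : Par) (lev : ℝ≥0) (L : ℕ) (k : V) (τ : Cfg), p.r ≤ lev →
  (∀ u v, p.T (cap lev (EQ L k) τ) u v ≤ p.T τ u v) ∧
  ∀ u ∈ Q L k, ∀ v ∈ Q L k, p.T (cap lev (EQ L k) τ) u v ≤ lev * n1 (v - u)

def St_COV1 : Prop := ∀ (p : Par) (lev : ℝ≥0) (L : ℕ), 0 < p.F (Set.Iic lev) → 1 ≤ L →
  ∃ c : ℝ, 0 < c ∧ ∀ X k : V, c * ∫ τ, p.gain lev L X k τ ∂p.P ≤
    (∫ τ, p.T τ 0 X ∂p.P) * (∫ τ, lit lev L k τ ∂p.P) - ∫ τ, p.T τ 0 X * lit lev L k τ ∂p.P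

def St_COV2 : Prop := ∀ (p : Par) (lev : ℝ≥0) (L : ℕ) (B : Finset V), 1 ≤ L →
  variance (fun τ => ∑ k ∈ B, lit lev L k τ) p.P ≤ 25 * B.card

def St_COV : Prop := ∀ (p : Par) (lev : ℝ≥0) (L : ℕ), 0 < p.F (Set.Iic lev) → 1 ≤ L →
  ∃ c : ℝ, 0 < c ∧ ∀ (X : V) (B : Finset V),
    c * (∫ τ, ∑ k ∈ B, p.gain lev L X k τ ∂p.P) ^ 2 ≤ p.Vr X * B.card

def St_BAD : Prop := ∀ (p : Par) (ε δ : ℝ), p.Norm → 0 < ε → 0 < δ →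
  ∃ (L : ℕ) (Bd : V → Set Cfg), 1 ≤ L ∧ p.Loc L δ Bd ∧
    ∀ k τ, τ ∉ Bd k → ∀ u ∈ Q L k, ∀ v ∈ Q L k, p.m (up (v - u)) - ε * L ≤ p.T τ u v

/-- a geodesic is cut a bounded number of times in one box -/
def St_MULT : Prop := ∀ (p : Par) (τ : Cfg) (X : V) (N L : ℕ) (Z : ℕ → V) (k : V), 1 ≤ L →
  p.Geo τ 0 X N Z →
  (((Finset.range N).filter fun l => l * L < N ∧ kx L (Z (l * L)) = k).card : ℝ) ≤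
    2 * (p.b / p.r) + 1

def St_DET : Prop := ∀ (p : Par) (R : ℝ) (d : Dat) (lev : ℝ≥0) (C δ ε : ℝ) (L : ℕ)
  (Bd : V → Set Cfg) (B : Finset V) (τ : Cfg) (X : V) (N : ℕ) (Z : ℕ → V), p.Norm → p.Good R d →
  p.r ≤ lev → 0 ≤ C → 0 ≤ δ → 0 ≤ ε → 1 ≤ L →
  (∀ v, δ * l1 v ≤ p.m v - lev * l1 v + C * p.D d v) → p.Geo τ 0 X N Z →
  (∀ k, k ≤ N → kx L (Z k) ∈ B) →
  (∀ k, τ ∉ Bd k → ∀ u ∈ Q L k, ∀ v ∈ Q L k, p.m (up (v - u)) - ε * L ≤ p.T τ u v) →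
  δ * n1 X - C * (p.T τ 0 X - d.ρ (up X)) - (C + 1) * ε * (N + L) -
      (δ + C * p.b) * (L * nbad L Bd τ N Z) ≤
    (2 * (p.b / p.r) + 1) * ∑ k ∈ B, p.gain lev L X k τ

def St_KING : Prop := ∀ n : ℕ, ∃ 𝒜 : Finset (Finset V), 𝒜.card ≤ 9 ^ n ∧
  (∀ A ∈ 𝒜, A.card ≤ n + 1) ∧ ∀ k : ℕ → V, k 0 = 0 →
    (∀ l, l < n → ∀ i, |k (l + 1) i - k l i| ≤ 1) → ∃ A ∈ 𝒜, ∀ l, l ≤ n → k l ∈ A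

open Classical in
def St_FAR : Prop := ∀ (p : Par) (e : ℝ), 0 < e → ∃ δ : ℝ, 0 < δ ∧ ∀ (L : ℕ) (Bd : V → Set Cfg),
  1 ≤ L → p.Loc L δ Bd → ∀ (n : ℕ) (A : Finset V), A.card ≤ n + 1 →
    p.pr {τ | e * n ≤ ((A.filter fun k => τ ∈ Bd k).card : ℝ)} ≤ 2 * (1 / 18) ^ n

def St_PEI : Prop := ∀ (p : Par) (e : ℝ), 0 < e → ∃ δ : ℝ, 0 < δ ∧ ∀ (L : ℕ) (Bd : V → Set Cfg),
  1 ≤ L → p.Loc L δ Bd → ∀ (n : ℕ) (X : V),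
    p.pr {τ | ∃ N Z, p.Geo τ 0 X N Z ∧ N ≤ n * L ∧ e * n ≤ (nbad L Bd τ N Z : ℝ)} ≤ 2 * (1 / 2) ^ n

def St_CNT : Prop := ∀ (p : Par) (R : ℝ) (d : Dat) (L H : ℝ), p.Good R d → 1 ≤ L → 1 ≤ H →
  ∃ B : Finset V, (B.card : ℝ) ≤ 100 * R ^ 2 * (L * H) ∧
    ∀ z : V, |d.σ (up z)| ≤ L → |d.η (up z)| ≤ H → z ∈ B

/-- with probability one half the total gain is linear -/
def St_LB1 : Prop := ∀ (p : Par) (R : ℝ) (d : Dat) (lev : ℝ≥0), p.Norm → p.Good R d →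
  (∀ y : ℝ, y ≠ 0 → 0 < p.D d (d.a + y • d.n)) → p.r ≤ lev → lev * l1 d.a < 1 →
  ∃ (L : ℕ) (c M₀ : ℝ), 1 ≤ L ∧ 0 < c ∧ 1 ≤ M₀ ∧ ∀ M : ℝ, M₀ ≤ M →
    ∀ X : V, X = fl (M • d.a) + fl (M • d.a) → ∀ B : Finset V,
      p.pr {τ | (∀ N Z, p.Geo τ 0 X N Z → ∀ k, k ≤ N → kx L (Z k) ∈ B) ∧
        ∑ k ∈ B, p.gain lev L X k τ < c * M} ≤ 1 / 4

def St_LB : Prop := ∀ (p : Par) (R : ℝ) (d : Dat) (lev : ℝ≥0), p.Norm → p.Good R d →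
  (∀ y : ℝ, y ≠ 0 → 0 < p.D d (d.a + y • d.n)) → p.r ≤ lev → lev * l1 d.a < 1 →
  0 < p.F (Set.Iic lev) → ∃ c M₀ : ℝ, 0 < c ∧ 1 ≤ M₀ ∧ ∀ M H : ℝ, M₀ ≤ M → 1 ≤ H →
    p.pr (p.Exit d (fl (M • d.a) + fl (M • d.a)) H) ≤ 1 / 4 →
    c * M / H ≤ p.Vr (fl (M • d.a) + fl (M • d.a))

def St_END : Prop := ∀ (p : Par) (R θ κ : ℝ) (d : Dat) (lev : ℝ≥0), p.Norm → p.Good R d →
  (∀ y : ℝ, y ≠ 0 → 0 < p.D d (d.a + y • d.n)) → p.r ≤ lev → lev * l1 d.a < 1 →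
  0 < p.F (Set.Iic lev) → 0 ≤ θ → p.Up {d} θ → p.Lo {d} θ →
  (∀ K : ℝ, 0 < K → ∃ C : ℝ, ∀ L y : ℝ, 1 ≤ L → 0 ≤ y → p.phi d L y ≤ K * L ^ θ →
    y ≤ C * L ^ (3 / 5 : ℝ)) →
  0 ≤ κ → κ < 1 / 5 → ¬ p.VarB {d} κ

/-! ### geometry -/

def St_CVX : Prop := ∀ f : ℝ → ℝ, ConvexOn ℝ Set.univ f →
  (∀ s, ∃ lam, Sub f s lam) ∧ IsClosed (KK f) ∧
  (∀ s t, s < t → (∀ y ∈ Set.Ioo s t, y ∉ KK f) → Aff f s t) ∧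
  ∀ s t l₁ l₂, s < t → Sub f s l₁ → Sub f t l₂ → l₁ ≤ l₂

def St_CURV : Prop := ∀ (f : ℝ → ℝ) (s e : ℝ), ConvexOn ℝ Set.univ f → s ∈ KK f → 0 < e →
  ∃ x₀ ∈ Set.Ioo (s - e) (s + e), ∃ lam, x₀ ∈ KK f ∧ Sub f x₀ lam ∧ Quad f x₀ lam

def St_NEST : Prop := ∀ (f : ℝ → ℝ) (x₀ lam e : ℝ), ConvexOn ℝ Set.univ f → Quad f x₀ lam →
  (∀ l, Sub f x₀ l → l = lam) → 0 < e → ∃ A B : ℕ → ℝ, ∀ j,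
    x₀ - e < A j ∧ A j < A (j + 1) ∧ A j < x₀ ∧ x₀ < B j ∧ B (j + 1) < B j ∧ B j < x₀ + e ∧
    A j ∈ KK f ∧ B j ∈ KK f ∧ ∃ c : ℝ, 0 < c ∧ ∀ s ∈ Set.Icc (A (j + 1)) (B (j + 1)), ∀ l,
      Sub f s l → c ≤ f (A j) - f s - l * (A j - s) ∧ c ≤ f (B j) - f s - l * (B j - s)

def St_DAT : Prop := ∀ (p : Par) (x : R2), p.Norm → x 0 ^ 2 + x 1 ^ 2 = 1 →
  ConvexOn ℝ Set.univ (p.f x) ∧ (∀ s, p.r ≤ p.f x s) ∧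
  ∃ R : ℝ, ∀ s lam, |s| ≤ 1 → Sub (p.f x) s lam → p.Good R (p.dat x s lam)

def St_COVER : Prop := ∀ (p : Par) (x : R2) (s s' t' t c : ℝ), p.Norm → x 0 ^ 2 + x 1 ^ 2 = 1 →
  -1 ≤ s → s < s' → t' < t → t ≤ 1 → s ∈ KK (p.f x) → t ∈ KK (p.f x) → 0 < c →
  (∀ y ∈ Set.Icc s' t', ∀ l, Sub (p.f x) y l →
    c ≤ p.f x s - p.f x y - l * (s - y) ∧ c ≤ p.f x t - p.f x y - l * (t - y)) →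
  p.Cover (p.SS x s t) (p.SS x s' t')

def St_BAIRE : Prop := ∀ (p : Par) (x : R2) (e : ℝ), p.Norm → x 0 ^ 2 + x 1 ^ 2 = 1 → 0 < e →
  0 ∈ KK (p.f x) → (∀ s ∈ KK (p.f x), |s| < e → p.Small (uu x s)) →
  ∃ s e' κ : ℝ, s ∈ KK (p.f x) ∧ 0 < e' ∧ |s| + e' < e ∧ 0 ≤ κ ∧ κ < 1 / 5 ∧
    p.VarB (p.SS x (s - e') (s + e')) κ

def St_CRN : Prop := ∀ (p : Par) (x : R2) (s l₁ l₂ : ℝ), p.Norm → x 0 ^ 2 + x 1 ^ 2 = 1 →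
  |s| ≤ 1 → Sub (p.f x) s l₁ → Sub (p.f x) s l₂ → l₁ < l₂ →
  ∀ d : Dat, d = p.dat x s ((l₁ + l₂) / 2) → Sub (p.f x) s ((l₁ + l₂) / 2) ∧
    (∀ v, (l₂ - l₁) / 2 * |d.η v| ≤ p.D d v) ∧
    (∀ y : ℝ, y ≠ 0 → 0 < p.D d (d.a + y • d.n)) ∧
    ∀ K : ℝ, 0 < K → ∃ C : ℝ, ∀ L y : ℝ, 1 ≤ L → 0 ≤ y → p.phi d L y ≤ K * L ^ (3 / 5 : ℝ) →
      y ≤ C * L ^ (3 / 5 : ℝ)

def St_PHI : Prop := ∀ (p : Par) (x : R2) (s lam : ℝ), p.Norm → x 0 ^ 2 + x 1 ^ 2 = 1 →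
  |s| ≤ 1 → Sub (p.f x) s lam → Quad (p.f x) s lam → ∀ d : Dat, d = p.dat x s lam →
    (∀ y : ℝ, y ≠ 0 → 0 < p.D d (d.a + y • d.n)) ∧
    ∀ K : ℝ, 0 < K → ∃ C : ℝ, ∀ L y : ℝ, 1 ≤ L → 0 ≤ y → p.phi d L y ≤ K * L ^ (1 / 5 : ℝ) →
      y ≤ C * L ^ (3 / 5 : ℝ)

def St_EXT : Prop := ∀ (p : Par) (x : R2), p.Norm → x 0 ^ 2 + x 1 ^ 2 = 1 →
  (∀ t : ℝ, 0 < t → t • x ∈ Set.extremePoints ℝ {z | p.m z ≤ 1} → 0 ∈ KK (p.f x)) ∧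
  ∀ s ∈ KK (p.f x), (p.f x s)⁻¹ • uu x s ∈ Set.extremePoints ℝ {z | p.m z ≤ 1}

def St_MAIN : Prop := ∀ (p : Par) (x : R2) (lev : ℝ≥0) (e : ℝ), x 0 ^ 2 + x 1 ^ 2 = 1 →
  p.r ≤ lev → 0 < p.F (Set.Iic lev) → lev * l1 x < p.m x → 0 ∈ KK (p.f x) → 0 < e →
  ∃ s ∈ KK (p.f x), |s| < e ∧ ¬ p.Small (uu x s)

/-- back to the definitions of the hand-in -/
def St_OUT : Prop := ∀ p : Par, p.F {t | p.r ≤ (t : ℝ) ∧ (t : ℝ) ≤ p.b} = 1 →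
  (∀ z : EuclideanSpace ℝ (Fin 2), MP_eba68f_edge.mu p.F z = p.m z.ofLp) ∧
  ∀ (y : EuclideanSpace ℝ (Fin 2)) (c : ℝ), 0 < c → chi p.F y < ((1 / 5 : ℝ) : EReal) →
    p.Small (c • y.ofLp)

/-- the hand-in -/
def St_FIN : Prop := ∀ (F : Measure ℝ≥0) [IsProbabilityMeasure F] (r b a : ℝ≥0), 0 < r →
  F (Set.Icc r b) = 1 → 0 < F (Set.Iic a) → ∀ x : EuclideanSpace ℝ (Fin 2), ‖x‖ = 1 →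
  (∃ t : ℝ, 0 < t ∧ t • x ∈ Set.extremePoints ℝ {z | MP_eba68f_edge.mu F z ≤ 1}) →
  (a : ℝ) * ∑ i, |x i| < MP_eba68f_edge.mu F x → ∀ ε : ℝ, 0 < ε →
  ∃ y : EuclideanSpace ℝ (Fin 2), ‖y‖ = 1 ∧ dist y x < ε ∧
    (∃ t : ℝ, 0 < t ∧ t • y ∈ Set.extremePoints ℝ {z | MP_eba68f_edge.mu F z ≤ 1}) ∧
    ((1 / 5 : ℝ) : EReal) ≤ chi F y

end Pool.Agent.Lib.FP95
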