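import Pool.Agent.Lib.MP_eba68f_pr.Walks
import Pool.Agent.Lib.MP_eba68f_edge.SDefs

/-! Working definitions for the exponent one fifth in planar first-passage percolation. -/

namespace Pool.Agent.Lib.FP95

open MeasureTheory ProbabilityTheory Filter Topology Pool.Agent.Lib.MP_eba68f_pr
open scoped NNReal ENNReal

abbrev Cfg : Type := Sym2 V → ℝ≥0
abbrev R2 : Type := Fin 2 → ℝ

/-- weight law and the two bounds of the weights -/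
structure Par where
  F : Measure ℝ≥0
  prob : IsProbabilityMeasure F
  r : ℝ
  b : ℝ
  r_pos : 0 < r
  r_le : r ≤ b

def l1 (x : R2) : ℝ := |x 0| + |x 1|
def up (v : V) : R2 := fun i => (v i : ℝ)
noncomputable def fl (x : R2) : V := fun i => ⌊x i⌋

/-- bounded measurable functions -/
def Nice (f : Cfg → ℝ) : Prop := Measurable f ∧ ∃ C, ∀ τ, |f τ| ≤ C

/-- unordered pairs of sites within `l1` distance `t` of `u` -/
def near (u : V) (t : ℝ) : Set (Sym2 V) := {e | ∀ z ∈ e, n1 (z - u) ≤ t}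

/-- direction data: basis `a, n`, coordinates `σ, η`, supporting functional `ρ` -/
structure Dat where
  a : R2
  n : R2
  ρ : R2 →ₗ[ℝ] ℝ
  σ : R2 →ₗ[ℝ] ℝ
  η : R2 →ₗ[ℝ] ℝ

/-- index of the `L`-box of a site -/
def kx (L : ℕ) (z : V) : V := fun i => z i / (L : ℤ)
/-- the `3L × 3L` box around the box of index `k` -/
def Q (L : ℕ) (k : V) : Set V := {z | ∀ i, (k i - 1) * (L : ℤ) ≤ z i ∧ z i < (k i + 2) * (L : ℤ)}
def EQ (L : ℕ) (k : V) : Set (Sym2 V) := {e | ∀ z ∈ e, z ∈ Q L k}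
open Classical in
/-- weights capped at `lev` on `A` -/
noncomputable def cap (lev : ℝ≥0) (A : Set (Sym2 V)) (τ : Cfg) : Cfg :=
  fun e => if e ∈ A then min (τ e) lev else τ e
/-- indicator that all weights of the box are at most `lev` -/
noncomputable def lit (lev : ℝ≥0) (L : ℕ) (k : V) : Cfg → ℝ :=
  Set.indicator {τ | ∀ e ∈ EQ L k, τ e ≤ lev} fun _ => 1
open Classical in
/-- number of cutting times of the walk `Z` whose box is bad -/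
noncomputable def nbad (L : ℕ) (Bd : V → Set Cfg) (τ : Cfg) (N : ℕ) (Z : ℕ → V) : ℕ :=
  ((Finset.range N).filter fun l => l * L < N ∧ τ ∈ Bd (kx L (Z (l * L)))).card

/-- `lam` is a subgradient of `f` at `s` -/
def Sub (f : ℝ → ℝ) (s lam : ℝ) : Prop := ∀ t, f s + lam * (t - s) ≤ f t
/-- `f` is affine on `[s, t]` -/
def Aff (f : ℝ → ℝ) (s t : ℝ) : Prop := ∃ c₀ c₁ : ℝ, ∀ y ∈ Set.Icc s t, f y = c₀ + c₁ * y
/-- points near which `f` is not affine -/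
def KK (f : ℝ → ℝ) : Set ℝ := {s | ∀ e, 0 < e → ¬ Aff f (s - e) (s + e)}
/-- quadratic support at `s` with slope `lam` -/
def Quad (f : ℝ → ℝ) (s lam : ℝ) : Prop := ∃ c e : ℝ, 0 < c ∧ 0 < e ∧
  ∀ t, c * min ((t - s) ^ 2) (e * |t - s|) ≤ f t - f s - lam * (t - s)

def perp (x : R2) : R2 := ![-x 1, x 0]
def uu (x : R2) (s : ℝ) : R2 := x + s • perp x
/-- the functional `v ↦ ⟨x, v⟩` -/
noncomputable def dot (x : R2) : R2 →ₗ[ℝ] ℝ :=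
  x 0 • (LinearMap.proj 0 : R2 →ₗ[ℝ] ℝ) + x 1 • (LinearMap.proj 1 : R2 →ₗ[ℝ] ℝ)

namespace Par

variable (p : Par)

noncomputable def P : Measure Cfg := Measure.infinitePi fun _ : Sym2 V => p.F
noncomputable def pr (A : Set Cfg) : ℝ := p.P.real A
noncomputable def w (t : ℝ≥0) : ℝ := max p.r (min p.b (t : ℝ))
noncomputable def LW (τ : Cfg) (l : List (Sym2 V)) : ℝ := (l.map fun e => p.w (τ e)).sum
/-- passage time for the weights clamped to `[r, b]` -/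
noncomputable def T (τ : Cfg) (u v : V) : ℝ := ⨅ q : G.Walk u v, p.LW τ q.edges
noncomputable def h (v : V) : ℝ := ∫ τ, p.T τ 0 v ∂p.P
noncomputable def Vr (v : V) : ℝ := variance (fun τ => p.T τ 0 v) p.P
/-- time constant -/
noncomputable def m (x : R2) : ℝ := limsup (fun n : ℕ => p.h (fl ((n : ℝ) • x)) / n) atTop
noncomputable def D (d : Dat) (v : R2) : ℝ := p.m v - d.ρ v
noncomputable def phi (d : Dat) (L y : ℝ) : ℝ :=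
  p.D d (L • d.a + y • d.n) + p.D d (L • d.a - y • d.n)
noncomputable def R1 (R : ℝ) : ℝ := R * (p.b / p.r * (2 * R + 4))
noncomputable def gain (lev : ℝ≥0) (L : ℕ) (X k : V) (τ : Cfg) : ℝ :=
  p.T τ 0 X - p.T (cap lev (EQ L k) τ) 0 X

structure Norm : Prop where
  add : ∀ x y, p.m (x + y) ≤ p.m x + p.m y
  smul : ∀ (c : ℝ) (x : R2), 0 ≤ c → p.m (c • x) = c * p.m x
  neg : ∀ x, p.m (-x) = p.m x
  ge : ∀ x, p.r * l1 x ≤ p.m x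
  le : ∀ x, p.m x ≤ p.b * l1 x
  le_h : ∀ v : V, p.m (up v) ≤ p.h v
  lim : ∀ x : R2, Tendsto (fun u : ℝ => p.h (fl (u • x)) / u) atTop (𝓝 (p.m x))

structure Good (R : ℝ) (d : Dat) : Prop where
  one_le : 1 ≤ R
  dec : ∀ v, v = d.σ v • d.a + d.η v • d.n
  σa : d.σ d.a = 1
  σn : d.σ d.n = 0
  ηa : d.η d.a = 0
  ηn : d.η d.n = 1
  σ_le : ∀ v, |d.σ v| ≤ R * l1 v
  η_le : ∀ v, |d.η v| ≤ R * l1 v
  a_le : l1 d.a ≤ R
  n_le : l1 d.n ≤ R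
  ρ_le : ∀ v, d.ρ v ≤ p.m v
  ρa : d.ρ d.a = 1
  ma : p.m d.a = 1

/-- `Z 0, …, Z N` is a geodesic from `u` to `v` -/
structure Geo (τ : Cfg) (u v : V) (N : ℕ) (Z : ℕ → V) : Prop where
  zero : Z 0 = u
  last : Z N = v
  step : ∀ k, k < N → G.Adj (Z k) (Z (k + 1))
  add : ∀ i j, i ≤ j → j ≤ N → p.T τ u (Z i) + p.T τ (Z i) (Z j) = p.T τ u (Z j)

def Exit (d : Dat) (X : V) (H : ℝ) : Set Cfg :=
  {τ | ∃ N Z, p.Geo τ 0 X N Z ∧ ∃ k, k ≤ N ∧ H < |d.η (up (Z k))|}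

def Tail (S : Set Dat) (θ : ℝ) : Prop :=
  ∀ q : ℝ, ∃ C : ℝ, 0 ≤ C ∧ ∀ d ∈ S, ∀ N l : ℝ, 1 ≤ N → 0 ≤ l → l ≤ N →
    p.pr {τ | l + C * N ^ θ < p.T τ 0 (fl (l • d.a))} ≤ C * N ^ (-q)

def Mean (S : Set Dat) (β : ℝ) : Prop :=
  ∃ C : ℝ, 0 ≤ C ∧ ∀ d ∈ S, ∀ N l : ℝ, 1 ≤ N → 0 ≤ l → l ≤ N →
    ∫ τ, max (p.T τ 0 (fl (l • d.a)) - l) 0 ∂p.P ≤ C * N ^ β

def VarB (S : Set Dat) (κ : ℝ) : Prop :=
  ∃ C : ℝ, 0 ≤ C ∧ ∀ d ∈ S, ∀ N l : ℝ, 1 ≤ N → 0 ≤ l → l ≤ N →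
    p.Vr (fl (l • d.a)) ≤ C * N ^ (2 * κ)

def Up (S : Set Dat) (θ : ℝ) : Prop :=
  ∃ A : ℝ, 0 ≤ A ∧ ∀ q : ℝ, ∃ C : ℝ, 0 ≤ C ∧ ∀ d ∈ S, ∀ (N : ℝ) (v : V), 1 ≤ N → n1 v ≤ N →
    p.pr {τ | d.ρ (up v) + A * p.D d (up v) + C * N ^ θ < p.T τ 0 v} ≤ C * N ^ (-q)

def Lo (S : Set Dat) (θ : ℝ) : Prop :=
  ∃ C : ℝ, 0 ≤ C ∧ ∀ d ∈ S, ∀ (N lam : ℝ) (v : V), 1 ≤ N → n1 v ≤ N → 0 < lam →
    p.pr {τ | p.T τ 0 v ≤ d.ρ (up v) + p.D d (up v) / 2 - lam} ≤ C * N ^ θ / lam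

def Cover (S S' : Set Dat) : Prop :=
  ∃ c : ℝ, 0 < c ∧ ∀ d ∈ S', ∀ v : R2, c * l1 v ≤ p.D d v ∨
    ∃ d₁ ∈ S, ∃ d₂ ∈ S, ∃ s t : ℝ, 0 ≤ s ∧ 0 ≤ t ∧ v = s • d₁.a + t • d₂.a ∧ p.m v = s + t

/-- a family of local events of small probability -/
structure Loc (L : ℕ) (δ : ℝ) (Bd : V → Set Cfg) : Prop where
  meas : ∀ k, MeasurableSet (Bd k)
  dep : ∀ k τ τ', (∀ e ∈ near ((L : ℤ) • k) ((4 + 6 * (p.b / p.r)) * L), τ e = τ' e) →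
    τ ∈ Bd k → τ' ∈ Bd k
  small : ∀ k, p.pr (Bd k) ≤ δ

/-- the time constant in the chart around `x` -/
noncomputable def f (x : R2) (s : ℝ) : ℝ := p.m (uu x s)

noncomputable def dat (x : R2) (s lam : ℝ) : Dat where
  a := (p.f x s)⁻¹ • uu x s
  n := perp x
  ρ := (p.f x s - lam * s) • dot x + lam • dot (perp x)
  σ := p.f x s • dot x
  η := dot (perp x) - s • dot x

def SS (x : R2) (s t : ℝ) : Set Dat :=
  {d | ∃ y ∈ Set.Icc s t, ∃ lam, y ∈ KK (p.f x) ∧ Sub (p.f x) y lam ∧ d = p.dat x y lam}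

/-- the variance exponent along `x` is below one fifth -/
def Small (x : R2) : Prop :=
  ∃ κ C : ℝ, 0 ≤ κ ∧ κ < 1 / 5 ∧ 0 ≤ C ∧
    ∀ N l : ℝ, 1 ≤ N → 0 ≤ l → l ≤ N → p.Vr (fl (l • x)) ≤ C * N ^ (2 * κ)

end Par

end Pool.Agent.Lib.FP95
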